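import Mathlib

/-!
# An anticoncentration inequality for sums of independent vectors (Gaussian smoothing)
-/

set_option autoImplicit false

open Filter Topology MeasureTheory Set ProbabilityTheory
open Complex (I)

namespace Pool.Agent.N229.HF

/-- the standard Gaussian measure -/
noncomputable abbrev G1 : Measure ℝ := gaussianReal 0 1

theorem gq {κ : ℝ} (hκ : -(1 / 2) < κ) :
    ∫ s, Real.exp (-κ * s ^ 2) ∂G1 = (Real.sqrt (1 + 2 * κ))⁻¹ := by
  rw [integral_gaussianReal_eq_integral_smul one_ne_zero]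
  have h1 : ∀ s : ℝ, gaussianPDFReal 0 1 s • Real.exp (-κ * s ^ 2) =
      (Real.sqrt (2 * Real.pi))⁻¹ * Real.exp (-(κ + 1 / 2) * s ^ 2) := by
    intro s
    rw [gaussianPDFReal_def]
    simp only [sub_zero, NNReal.coe_one, mul_one, smul_eq_mul]
    rw [mul_assoc, ← Real.exp_add]
    congr 2
    ring
  simp_rw [h1]
  rw [integral_const_mul, integral_gaussian]
  have hk : 0 < κ + 1 / 2 := by linarith
  have hk2 : 0 < 1 + 2 * κ := by linarith
  have hpi := Real.pi_pos
  rw [← Real.sqrt_inv, ← Real.sqrt_inv, ← Real.sqrt_mul (by positivity)]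
  congr 1
  have h3 : κ + 1 / 2 = (1 + 2 * κ) / 2 := by ring
  rw [h3]
  field_simp

theorem integrable_gq {κ : ℝ} (hκ : -(1 / 2) < κ) :
    Integrable (fun s => Real.exp (-κ * s ^ 2)) G1 := by
  by_contra h
  have h1 := gq hκ
  rw [integral_undef h] at h1
  have h2 : 0 < (Real.sqrt (1 + 2 * κ))⁻¹ := by
    have : 0 < 1 + 2 * κ := by linarith
    positivity
  linarith

theorem fourier1 (x : ℝ) : ∫ s : ℝ, Complex.exp (I * (s * x)) ∂G1 = Real.exp (-x ^ 2 / 2) := by
  have h := charFun_gaussianReal (μ := 0) (v := 1) x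
  rw [charFun_apply_real] at h
  have h2 : ∫ s : ℝ, Complex.exp (I * (s * x)) ∂G1 = ∫ s : ℝ, Complex.exp (x * s * I) ∂G1 := by
    refine integral_congr_ae (Eventually.of_forall fun s => ?_)
    simp only
    congr 1
    ring
  rw [h2, h]
  push_cast
  congr 1
  ring

variable {ι : Type*} [Fintype ι]

/-- the standard Gaussian measure -/
noncomputable abbrev Gi (ι : Type*) [Fintype ι] : Measure (ι → ℝ) := Measure.pi fun _ : ι => G1

theorem fourier (x : ι → ℝ) :
    ∫ s : ι → ℝ, Complex.exp (I * ∑ i, (s i : ℂ) * x i) ∂Gi ι =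
      Real.exp (-(∑ i, x i ^ 2) / 2) := by
  have h1 : ∀ s : ι → ℝ, Complex.exp (I * ∑ i, (s i : ℂ) * x i) =
      ∏ i, Complex.exp (I * ((s i : ℂ) * x i)) := by
    intro s
    rw [Finset.mul_sum, Complex.exp_sum]
  simp_rw [h1]
  rw [integral_fintype_prod_eq_prod (fun i (s : ℝ) => Complex.exp (I * ((s : ℂ) * x i)))]
  simp_rw [fourier1]
  rw [← Complex.ofReal_prod, ← Real.exp_sum]
  congr 2
  rw [← Finset.sum_neg_distrib, Finset.sum_div]

theorem gqi {κ : ι → ℝ} (hκ : ∀ i, -(1 / 2) < κ i) :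
    ∫ s : ι → ℝ, Real.exp (-∑ i, κ i * s i ^ 2) ∂Gi ι = ∏ i, (Real.sqrt (1 + 2 * κ i))⁻¹ := by
  have h1 : ∀ s : ι → ℝ, Real.exp (-∑ i, κ i * s i ^ 2) =
      ∏ i, Real.exp (-κ i * s i ^ 2) := by
    intro s
    rw [← Real.exp_sum]
    congr 1
    rw [← Finset.sum_neg_distrib]
    exact Finset.sum_congr rfl fun i _ => by ring
  simp_rw [h1]
  rw [integral_fintype_prod_eq_prod (fun i (s : ℝ) => Real.exp (-κ i * s ^ 2))]
  exact Finset.prod_congr rfl fun i _ => gq (hκ i)

theorem integrable_gqi {κ : ι → ℝ} (hκ : ∀ i, -(1 / 2) < κ i) :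
    Integrable (fun s : ι → ℝ => Real.exp (-∑ i, κ i * s i ^ 2)) (Gi ι) := by
  by_contra h
  have h1 := gqi hκ
  rw [integral_undef h] at h1
  have h2 : 0 < ∏ i, (Real.sqrt (1 + 2 * κ i))⁻¹ := by
    refine Finset.prod_pos fun i _ => ?_
    have : 0 < 1 + 2 * κ i := by linarith [hκ i]
    positivity
  linarith

theorem tail_i (i : ι) {x : ℝ} :
    Integrable (fun s : ι → ℝ => Real.exp ((s i ^ 2 - x ^ 2) / 4)) (Gi ι) ∧
    ∫ s : ι → ℝ, Real.exp ((s i ^ 2 - x ^ 2) / 4) ∂Gi ι =
      Real.sqrt 2 * Real.exp (-x ^ 2 / 4) := by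
  classical
  have h1 : ∀ s : ι → ℝ, Real.exp ((s i ^ 2 - x ^ 2) / 4) =
      Real.exp (-x ^ 2 / 4) *
        Real.exp (-∑ k, (if k = i then (-(1 / 4) : ℝ) else 0) * s k ^ 2) := by
    intro s
    rw [← Real.exp_add]
    congr 1
    simp only [ite_mul, zero_mul, Finset.sum_ite_eq', Finset.mem_univ, if_true]
    ring
  have hκ : ∀ k : ι, -(1 / 2) < (if k = i then (-(1 / 4) : ℝ) else 0) := by
    intro k
    split_ifs <;> norm_num
  have h2 : ∏ k : ι, (Real.sqrt (1 + 2 * (if k = i then (-(1 / 4) : ℝ) else 0)))⁻¹ =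
      Real.sqrt 2 := by
    rw [Finset.prod_eq_single i]
    · rw [if_pos rfl, ← Real.sqrt_inv]
      norm_num
    · intro k _ hk
      rw [if_neg hk]
      norm_num
    · intro h
      exact absurd (Finset.mem_univ i) h
  simp_rw [h1]
  refine ⟨(integrable_gqi hκ).const_mul _, ?_⟩
  rw [integral_const_mul, gqi hκ, h2]
  ring

theorem norm_cexp_I (x : ℝ) : ‖Complex.exp (I * x)‖ = 1 := by
  rw [mul_comm, Complex.norm_exp_ofReal_mul_I]

/-- the anticoncentration inequality -/
theorem esseen {N : ℕ} (μ : Fin N → Measure ℂ) [∀ i, IsProbabilityMeasure (μ i)]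
    (J : Finset (Fin N)) (Y : Fin N → ℂ → ι → ℝ) (hY : ∀ j, Measurable (Y j)) {t₀ c : ℝ}
    (hc : 0 ≤ c) (ht₀ : 0 ≤ t₀)
    (h : ∀ j ∈ J, ∀ t : ι → ℝ, (∀ i, |t i| ≤ t₀) →
      ‖∫ w, Complex.exp (I * ((∑ i, t i * Y j w i : ℝ) : ℂ)) ∂μ j‖ ≤
        Real.exp (-c * ∑ i, t i ^ 2))
    (σ a : ι → ℝ) (hσ : ∀ i, 0 < σ i) :
    (Measure.pi μ).real {X | ∀ i, |∑ j ∈ J, Y j (X j) i - a i| ≤ σ i} ≤
      Real.exp (Fintype.card ι / 2) * (∏ i, (Real.sqrt (1 + 2 * (c * J.card / σ i ^ 2)))⁻¹ +
        ∑ i, Real.sqrt 2 * Real.exp (-(t₀ * σ i) ^ 2 / 4)) := by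
  classical
  set x : (Fin N → ℂ) → ι → ℝ := fun X i => (∑ j ∈ J, Y j (X j) i - a i) / σ i with hx
  have hxm : ∀ i, Measurable fun X => x X i := by
    intro i
    refine Measurable.div_const (Measurable.sub_const ?_ _) _
    exact Finset.measurable_sum _ fun j _ =>
      (measurable_pi_apply i).comp ((hY j).comp (measurable_pi_apply j))
  set f : (Fin N → ℂ) → ℝ := fun X => Real.exp (-(∑ i, x X i ^ 2) / 2) with hf
  have hfm : Measurable f := by
    refine Real.measurable_exp.comp (Measurable.div_const (Measurable.neg ?_) _)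
    exact Finset.measurable_sum _ fun i _ => (hxm i).pow_const 2
  have hf1 : ∀ X, 0 ≤ f X ∧ f X ≤ 1 := by
    intro X
    refine ⟨(Real.exp_pos _).le, Real.exp_le_one_iff.2 ?_⟩
    have : 0 ≤ ∑ i, x X i ^ 2 := Finset.sum_nonneg fun i _ => sq_nonneg _
    linarith
  have hfi : Integrable f (Measure.pi μ) := Integrable.of_bound hfm.aestronglyMeasurable 1
    (Eventually.of_forall fun X => by
      rw [Real.norm_eq_abs, abs_of_nonneg (hf1 X).1]
      exact (hf1 X).2)
  -- the bad set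
  set S : Set (Fin N → ℂ) := {X | ∀ i, |∑ j ∈ J, Y j (X j) i - a i| ≤ σ i} with hS
  have hSm : MeasurableSet S := by
    rw [hS]
    simp only [Set.ofPred_forall]
    refine MeasurableSet.iInter fun i => measurableSet_le ?_ measurable_const
    refine Measurable.abs (Measurable.sub_const ?_ _)
    exact Finset.measurable_sum _ fun j _ =>
      (measurable_pi_apply i).comp ((hY j).comp (measurable_pi_apply j))
  have hSf : ∀ X ∈ S, Real.exp (-(Fintype.card ι / 2 : ℝ)) ≤ f X := by
    intro X hX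
    refine Real.exp_le_exp.2 ?_
    have h1 : ∑ i, x X i ^ 2 ≤ ∑ _i : ι, (1 : ℝ) := by
      refine Finset.sum_le_sum fun i _ => ?_
      have h2 : |x X i| ≤ 1 := by
        rw [hx]
        simp only
        rw [abs_div, abs_of_pos (hσ i), div_le_one (hσ i)]
        exact hX i
      rw [← sq_abs]
      exact pow_le_one₀ (abs_nonneg _) h2
    simp only [Finset.sum_const, Finset.card_univ, nsmul_eq_mul, mul_one] at h1
    linarith
  have h1 : Real.exp (-(Fintype.card ι / 2 : ℝ)) * (Measure.pi μ).real S ≤ ∫ X, f X ∂Measure.pi μ := by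
    have h2 : ∫ X, S.indicator (fun _ => Real.exp (-(Fintype.card ι / 2 : ℝ))) X ∂Measure.pi μ =
        Real.exp (-(Fintype.card ι / 2 : ℝ)) * (Measure.pi μ).real S := by
      rw [integral_indicator hSm, integral_const, smul_eq_mul, mul_comm]
      congr 1
      simp [Measure.real]
    rw [← h2]
    refine integral_mono ((integrable_const _).indicator hSm) hfi fun X => ?_
    by_cases hX : X ∈ S
    · simp only [indicator_of_mem hX]
      exact hSf X hX
    · simp only [indicator_of_notMem hX]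
      exact (hf1 X).1
  -- Fourier representation
  have h2 : ∀ X, (f X : ℂ) = ∫ s : ι → ℝ, Complex.exp (I * ((∑ i, s i * x X i : ℝ) : ℂ)) ∂Gi ι := by
    intro X
    rw [hf]
    simp only
    rw [← fourier]
    refine integral_congr_ae (Eventually.of_forall fun s => ?_)
    simp only
    push_cast
    rfl
  have hFm : Measurable fun q : (Fin N → ℂ) × (ι → ℝ) =>
      Complex.exp (I * ((∑ i, q.2 i * x q.1 i : ℝ) : ℂ)) := by
    refine Complex.measurable_exp.comp (Measurable.const_mul ?_ _)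
    refine Complex.measurable_ofReal.comp (Finset.measurable_sum _ fun i _ => ?_)
    exact ((measurable_pi_apply i).comp measurable_snd).mul ((hxm i).comp measurable_fst)
  have hFi : Integrable (fun q : (Fin N → ℂ) × (ι → ℝ) =>
      Complex.exp (I * ((∑ i, q.2 i * x q.1 i : ℝ) : ℂ))) ((Measure.pi μ).prod (Gi ι)) :=
    Integrable.of_bound hFm.aestronglyMeasurable 1 (Eventually.of_forall fun q => by
      rw [norm_cexp_I])
  have h3 : ((∫ X, f X ∂Measure.pi μ : ℝ) : ℂ) =
      ∫ s : ι → ℝ, ∫ X, Complex.exp (I * ((∑ i, s i * x X i : ℝ) : ℂ)) ∂Measure.pi μ ∂Gi ι := by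
    rw [← integral_complex_ofReal]
    simp_rw [h2]
    exact integral_integral_swap hFi
  -- the inner integral
  have h4 : ∀ s : ι → ℝ, ‖∫ X, Complex.exp (I * ((∑ i, s i * x X i : ℝ) : ℂ)) ∂Measure.pi μ‖ ≤
      Real.exp (-∑ i, (c * J.card / σ i ^ 2) * s i ^ 2) +
        ∑ i, Real.exp ((s i ^ 2 - (t₀ * σ i) ^ 2) / 4) := by
    intro s
    have hsum0 : 0 ≤ ∑ i, Real.exp ((s i ^ 2 - (t₀ * σ i) ^ 2) / 4) :=
      Finset.sum_nonneg fun i _ => (Real.exp_pos _).le
    by_cases hs : ∀ i, |s i / σ i| ≤ t₀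
    · have h5 : ∀ X : Fin N → ℂ, Complex.exp (I * ((∑ i, s i * x X i : ℝ) : ℂ)) =
          Complex.exp (I * ((-∑ i, s i * a i / σ i : ℝ) : ℂ)) *
            ∏ j, (if j ∈ J then Complex.exp (I * ((∑ i, s i / σ i * Y j (X j) i : ℝ) : ℂ))
              else 1) := by
        intro X
        rw [Finset.prod_ite_mem, Finset.univ_inter, ← Complex.exp_sum, ← Complex.exp_add,
          ← Finset.mul_sum, ← mul_add, ← Complex.ofReal_sum, ← Complex.ofReal_add]
        congr 3
        rw [Finset.sum_comm, ← Finset.sum_neg_distrib, ← Finset.sum_add_distrib]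
        refine Finset.sum_congr rfl fun i _ => ?_
        simp only [hx]
        rw [← Finset.mul_sum]
        have := (hσ i).ne'
        field_simp
        ring
      simp_rw [h5]
      rw [integral_const_mul, norm_mul, norm_cexp_I, one_mul,
        integral_fintype_prod_eq_prod (fun j (w : ℂ) => if j ∈ J then
          Complex.exp (I * ((∑ i, s i / σ i * Y j w i : ℝ) : ℂ)) else 1), norm_prod]
      have h6 : ∀ j ∈ (Finset.univ : Finset (Fin N)), ‖∫ w, (if j ∈ J then
          Complex.exp (I * ((∑ i, s i / σ i * Y j w i : ℝ) : ℂ)) else 1) ∂μ j‖ ≤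
          if j ∈ J then Real.exp (-c * ∑ i, (s i / σ i) ^ 2) else 1 := by
        intro j _
        by_cases hj : j ∈ J
        · simp only [hj, if_true]
          exact h j hj (fun i => s i / σ i) hs
        · simp [hj]
      refine (Finset.prod_le_prod (fun j _ => norm_nonneg _) h6).trans ?_
      rw [Finset.prod_ite_mem, Finset.univ_inter, Finset.prod_const, ← Real.exp_nat_mul]
      refine le_add_of_le_of_nonneg (Real.exp_le_exp.2 (le_of_eq ?_)) hsum0
      rw [mul_comm, ← Finset.sum_neg_distrib, neg_mul, ← neg_mul, mul_assoc, mul_comm _ (J.card : ℝ),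
        ← mul_assoc, Finset.mul_sum]
      refine Finset.sum_congr rfl fun i _ => ?_
      rw [div_pow]
      ring
    · push Not at hs
      obtain ⟨i, hi⟩ := hs
      have h5 : ‖∫ X, Complex.exp (I * ((∑ i, s i * x X i : ℝ) : ℂ)) ∂Measure.pi μ‖ ≤ 1 := by
        refine (norm_integral_le_of_norm_le_const (C := 1) (Eventually.of_forall fun X => ?_)).trans
          (by simp)
        rw [norm_cexp_I]
      refine h5.trans ?_
      refine le_add_of_nonneg_of_le (Real.exp_pos _).le ?_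
      refine le_trans ?_ (Finset.single_le_sum (f := fun i =>
        Real.exp ((s i ^ 2 - (t₀ * σ i) ^ 2) / 4)) (fun i _ => (Real.exp_pos _).le)
        (Finset.mem_univ i))
      refine Real.one_le_exp ?_
      have h6 : t₀ * σ i ≤ |s i| := by
        rw [abs_div, abs_of_pos (hσ i), lt_div_iff₀ (hσ i)] at hi
        exact hi.le
      have h7 : (t₀ * σ i) ^ 2 ≤ |s i| ^ 2 :=
        pow_le_pow_left₀ (mul_nonneg ht₀ (hσ i).le) h6 2
      rw [sq_abs] at h7
      linarith
  have h5 : ∫ X, f X ∂Measure.pi μ ≤ ∏ i, (Real.sqrt (1 + 2 * (c * J.card / σ i ^ 2)))⁻¹ +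
        ∑ i, Real.sqrt 2 * Real.exp (-(t₀ * σ i) ^ 2 / 4) := by
    have h6 : ∫ X, f X ∂Measure.pi μ = ‖((∫ X, f X ∂Measure.pi μ : ℝ) : ℂ)‖ := by
      rw [Complex.norm_real, Real.norm_eq_abs, abs_of_nonneg]
      exact integral_nonneg fun X => (hf1 X).1
    have hκ : ∀ i, -(1 / 2) < c * J.card / σ i ^ 2 := fun i => by
      have : 0 ≤ c * J.card / σ i ^ 2 := by positivity
      linarith
    rw [h6, h3]
    refine (norm_integral_le_integral_norm _).trans ?_
    have h7 : Integrable (fun s : ι → ℝ => Real.exp (-∑ i, (c * J.card / σ i ^ 2) * s i ^ 2) +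
        ∑ i, Real.exp ((s i ^ 2 - (t₀ * σ i) ^ 2) / 4)) (Gi ι) :=
      (integrable_gqi hκ).add (integrable_finset_sum _ fun i _ => (tail_i i).1)
    refine (integral_mono_of_nonneg (Eventually.of_forall fun s => norm_nonneg _) h7
      (Eventually.of_forall h4)).trans (le_of_eq ?_)
    rw [integral_add (integrable_gqi hκ) (integrable_finset_sum _ fun i _ => (tail_i i).1),
      gqi hκ, integral_finset_sum _ fun i _ => (tail_i i).1]
    congr 1
    exact Finset.sum_congr rfl fun i _ => (tail_i i).2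
  have h6 := h1.trans h5
  have h7 : 0 < Real.exp (-(Fintype.card ι / 2 : ℝ)) := Real.exp_pos _
  have h8 : (Measure.pi μ).real S = Real.exp (Fintype.card ι / 2) *
      (Real.exp (-(Fintype.card ι / 2 : ℝ)) * (Measure.pi μ).real S) := by
    rw [← mul_assoc, ← Real.exp_add, add_neg_cancel, Real.exp_zero, one_mul]
  rw [h8]
  gcongr

end Pool.Agent.N229.HF
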