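import Pool.Agent.N229.HF.Sub
import Pool.Agent.N229.HF.Gauss

/-!
# The characteristic function near the origin
-/

set_option autoImplicit false

open Filter Topology MeasureTheory Set
open Complex (I)

namespace Pool.Agent.N229.HF

open Pool.Agent.N229.RL

theorem hh_smul (ρ : ℝ) (τ : ℂ) (s : ℝ) (v : ℂ) : hh (ρ * τ) (ρ * s) v = ρ * hh τ s v := by
  unfold hh
  rw [mul_div_assoc, Complex.re_ofReal_mul]
  ring

/-- the elementary inequality -/
theorem cos_bound {x α m η : ℝ} {ρ : ℝ} (hρ0 : 0 < ρ) (hρ1 : ρ ≤ 1) (hη : 0 ≤ η)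
    (hx : |ρ * x| ≤ Real.pi / 4) (hα : |α| ≤ Real.pi) (hm : m = α / ρ) (hxm : η ≤ |x - m|) :
    min (2 / Real.pi ^ 2 * η ^ 2) (1 / 5) * ρ ^ 2 ≤ 1 - Real.cos (ρ * x - α) := by
  have hpi := Real.pi_pos
  have hρ2 : 0 ≤ ρ ^ 2 := by positivity
  by_cases hc : |α| ≤ Real.pi / 2
  · have h1 : |ρ * x - α| ≤ Real.pi := (abs_sub _ _).trans (by linarith)
    have h2 := Real.cos_le_one_sub_mul_cos_sq h1
    have h3 : η ^ 2 ≤ (x - m) ^ 2 := by
      rw [← sq_abs (x - m)]
      exact pow_le_pow_left₀ hη hxm 2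
    have h4 : (ρ * x - α) ^ 2 = ρ ^ 2 * (x - m) ^ 2 := by
      rw [hm]
      field_simp
    rw [h4] at h2
    have h5 : 2 / Real.pi ^ 2 * (ρ ^ 2 * η ^ 2) ≤ 2 / Real.pi ^ 2 * (ρ ^ 2 * (x - m) ^ 2) := by
      gcongr
    have h6 : min (2 / Real.pi ^ 2 * η ^ 2) (1 / 5) * ρ ^ 2 ≤ 2 / Real.pi ^ 2 * η ^ 2 * ρ ^ 2 := by
      gcongr
      exact min_le_left _ _
    have h7 : 2 / Real.pi ^ 2 * η ^ 2 * ρ ^ 2 = 2 / Real.pi ^ 2 * (ρ ^ 2 * η ^ 2) := by ring
    linarith
  · rw [not_le] at hc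
    have h1 : min (2 / Real.pi ^ 2 * η ^ 2) (1 / 5) * ρ ^ 2 ≤ 1 / 5 := by
      have h2 : ρ ^ 2 ≤ 1 := pow_le_one₀ hρ0.le hρ1
      have h3 : min (2 / Real.pi ^ 2 * η ^ 2) (1 / 5) ≤ 1 / 5 := min_le_right _ _
      calc min (2 / Real.pi ^ 2 * η ^ 2) (1 / 5) * ρ ^ 2 ≤ 1 / 5 * ρ ^ 2 := by gcongr
        _ ≤ 1 / 5 * 1 := by gcongr
        _ = 1 / 5 := by norm_num
    have h2 : Real.cos (ρ * x) * Real.cos α ≤ 0 := by
      have h3 : 0 ≤ Real.cos (ρ * x) := by
        rw [abs_le] at hx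
        exact Real.cos_nonneg_of_mem_Icc ⟨by linarith [hx.1], by linarith [hx.2]⟩
      have h4 : Real.cos α ≤ 0 := by
        rw [← Real.cos_abs]
        exact Real.cos_nonpos_of_pi_div_two_le_of_le hc.le (by linarith)
      exact mul_nonpos_of_nonneg_of_nonpos h3 h4
    have h5 : Real.sin (ρ * x) * Real.sin α ≤ Real.pi / 4 := by
      refine (le_abs_self _).trans ?_
      rw [abs_mul]
      have h6 : |Real.sin (ρ * x)| ≤ |ρ * x| := Real.abs_sin_le_abs
      have h7 : |Real.sin α| ≤ 1 := Real.abs_sin_le_one α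
      have h8 := abs_nonneg (Real.sin (ρ * x))
      nlinarith
    rw [Real.cos_sub]
    have h9 := Real.pi_lt_d2
    linarith

theorem ch_bound {D R Rp : ℝ} (hD : 0 ≤ D) (hR : 0 ≤ R) (hRp : 0 ≤ Rp) :
    ∃ c : ℝ, 0 < c ∧ ∃ t₀ : ℝ, 0 < t₀ ∧ ∀ (μ : Measure ℂ), Dens μ D R → ∀ z : ℂ, ‖z‖ ≤ Rp →
      ∀ (τ : ℂ) (s : ℝ), ‖τ‖ ^ 2 + s ^ 2 ≤ t₀ ^ 2 →
      ‖∫ w, Complex.exp (I * ((hh τ s (z - w) : ℝ) : ℂ)) ∂μ‖ ≤
        Real.exp (-c * (‖τ‖ ^ 2 + s ^ 2)) := by
  have hpi := Real.pi_pos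
  set ε : ℝ := 1 / (4 * (D + 1)) with hε
  have hε0 : 0 < ε := by positivity
  obtain ⟨η, hη, hη'⟩ := sub_unif (Rp + R) hε0
  set E₀ : ℝ := 2 * (2 * Real.pi * D + 1) + (Rp + R) with hE₀
  have hE₀0 : 0 < E₀ := by positivity
  set M : ℝ := 4 * E₀ with hM
  have hM0 : 0 < M := by positivity
  set t₀ : ℝ := min 1 (Real.pi / (4 * M)) with ht₀
  have ht₀0 : 0 < t₀ := lt_min one_pos (by positivity)
  set κ : ℝ := min (2 / Real.pi ^ 2 * η ^ 2) (1 / 5) with hκ
  have hκ0 : 0 < κ := lt_min (by positivity) (by norm_num)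
  refine ⟨κ / 2, by positivity, t₀, ht₀0, fun μ hμ z hz τ s hts => ?_⟩
  haveI := hμ.prob
  set ρ : ℝ := Real.sqrt (‖τ‖ ^ 2 + s ^ 2) with hρ
  have hρsq : ρ ^ 2 = ‖τ‖ ^ 2 + s ^ 2 := Real.sq_sqrt (by positivity)
  have hρt : ρ ≤ t₀ := by
    rw [hρ, Real.sqrt_le_left ht₀0.le]
    exact hts
  rw [← hρsq]
  have hmm : Measurable fun w => hh τ s (z - w) :=
    (measurable_hh τ s).comp (measurable_const.sub measurable_id)
  have hem : Measurable fun w => Complex.exp (I * ((hh τ s (z - w) : ℝ) : ℂ)) :=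
    Complex.measurable_exp.comp ((Complex.measurable_ofReal.comp hmm).const_mul _)
  have hle1 : ‖∫ w, Complex.exp (I * ((hh τ s (z - w) : ℝ) : ℂ)) ∂μ‖ ≤ 1 :=
    (norm_integral_le_of_norm_le_const (C := 1) (Eventually.of_forall fun w => by
      rw [norm_cexp_I])).trans (by simp)
  rcases (Real.sqrt_nonneg (‖τ‖ ^ 2 + s ^ 2)).eq_or_lt with h0 | hρ0
  · rw [← hρ] at h0
    rw [← h0]
    simpa using hle1
  rw [← hρ] at hρ0
  set τ' : ℂ := τ / ρ with hτ'
  set s' : ℝ := s / ρ with hs'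
  have hρc : (ρ : ℂ) ≠ 0 := by exact_mod_cast hρ0.ne'
  have hunit : ‖τ'‖ ^ 2 + s' ^ 2 = 1 := by
    rw [hτ', hs', norm_div, Complex.norm_real, Real.norm_eq_abs, abs_of_pos hρ0, div_pow, div_pow,
      ← add_div, ← hρsq, div_self (by positivity)]
  have hhr : ∀ v, hh τ s v = ρ * hh τ' s' v := by
    intro v
    rw [← hh_smul]
    congr 1
    · rw [hτ']
      field_simp
    · rw [hs']
      field_simp
  set φ : ℂ := ∫ w, Complex.exp (I * ((hh τ s (z - w) : ℝ) : ℂ)) ∂μ with hφ
  set α : ℝ := φ.arg with hα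
  have hα' : |α| ≤ Real.pi := Complex.abs_arg_le_pi φ
  set m : ℝ := α / ρ with hm
  -- the norm as an integral
  have hei : Integrable (fun w => Complex.exp (I * ((hh τ s (z - w) : ℝ) : ℂ))) μ :=
    Integrable.of_bound hem.aestronglyMeasurable 1 (Eventually.of_forall fun w => by
      rw [norm_cexp_I])
  have hnorm : ‖φ‖ = ∫ w, Real.cos (hh τ s (z - w) - α) ∂μ := by
    have h1 : (‖φ‖ : ℂ) = Complex.exp (-(α * I)) * φ := by
      have h2 := Complex.norm_mul_exp_arg_mul_I φ
      rw [← hα] at h2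
      nth_rewrite 2 [← h2]
      rw [mul_comm, mul_assoc, ← Complex.exp_add, add_neg_cancel, Complex.exp_zero, mul_one]
    have h2 : ‖φ‖ = (Complex.exp (-(α * I)) * φ).re := by
      rw [← h1, Complex.ofReal_re]
    rw [h2, hφ, ← integral_const_mul]
    have h3 := Complex.reCLM.integral_comp_comm (hei.const_mul (Complex.exp (-(α * I))))
    simp only [Complex.reCLM_apply] at h3
    rw [← h3]
    refine integral_congr_ae (Eventually.of_forall fun w => ?_)
    simp only
    rw [← Complex.exp_add]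
    have h4 : -(α * I) + I * ((hh τ s (z - w) : ℝ) : ℂ) =
        (((hh τ s (z - w) - α : ℝ)) : ℂ) * I := by
      push_cast
      ring
    rw [h4, Complex.exp_ofReal_mul_I_re]
  -- the good set
  have hm1 : Measurable fun w => hh τ' s' (z - w) :=
    (measurable_hh τ' s').comp (measurable_const.sub measurable_id)
  set G : Set ℂ := {w | |hh τ' s' (z - w)| ≤ M ∧ η ≤ |hh τ' s' (z - w) - m|} with hG
  have hGm : MeasurableSet G :=
    (measurableSet_le hm1.abs measurable_const).inter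
      (measurableSet_le measurable_const (hm1.sub_const m).abs)
  have hG1 : ∀ w ∈ G, κ * ρ ^ 2 ≤ 1 - Real.cos (hh τ s (z - w) - α) := by
    rintro w ⟨h1, h2⟩
    rw [hhr]
    refine cos_bound hρ0 (hρt.trans (min_le_left _ _)) hη.le ?_ hα' hm h2
    rw [abs_mul, abs_of_pos hρ0]
    calc ρ * |hh τ' s' (z - w)| ≤ Real.pi / (4 * M) * M := by
          gcongr
          exact hρt.trans (min_le_right _ _)
      _ = Real.pi / 4 := by field_simp
  have hGp : 1 / 2 ≤ μ.real G := by
    have c1 : μ.real {w | M < |hh τ' s' (z - w)|} ≤ 1 / 4 := by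
      have i1 : Integrable (fun w => 2 * ‖z - w‖⁻¹ + ‖z - w‖) μ :=
        ((hμ.integrable_inv z).const_mul 2).add (hμ.integrable_norm z)
      have i2 := mul_meas_ge_le_integral_of_nonneg (μ := μ)
        (f := fun w => 2 * ‖z - w‖⁻¹ + ‖z - w‖)
        (Eventually.of_forall fun w => by positivity) i1 M
      have i3 : ∫ w, (2 * ‖z - w‖⁻¹ + ‖z - w‖) ∂μ ≤ E₀ := by
        rw [integral_add ((hμ.integrable_inv z).const_mul 2) (hμ.integrable_norm z),
          integral_const_mul]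
        have i4 := hμ.integral_inv z
        have i5 : ∫ w, ‖z - w‖ ∂μ ≤ ∫ _w, (Rp + R) ∂μ := by
          refine integral_mono_ae (hμ.integrable_norm z) (integrable_const _) ?_
          filter_upwards [hμ.ae] with w hw
          exact (norm_sub_le _ _).trans (by linarith)
        rw [integral_const, smul_eq_mul] at i5
        simp only [probReal_univ, one_mul] at i5
        rw [hE₀]
        linarith
      have i6 : μ.real {w | M < |hh τ' s' (z - w)|} ≤ μ.real {w | M ≤ 2 * ‖z - w‖⁻¹ + ‖z - w‖} := by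
        refine ENNReal.toReal_mono (measure_ne_top _ _) (measure_mono_ae ?_)
        filter_upwards [hμ.ae_ne z] with w hw h1
        have h2 := abs_hh_le hunit (norm_pos_iff.1 hw)
        have h3 := abs_log_le hw.le
        have h4 : M < |hh τ' s' (z - w)| := h1
        show M ≤ 2 * ‖z - w‖⁻¹ + ‖z - w‖
        linarith
      refine i6.trans ?_
      have i7 : M * μ.real {w | M ≤ 2 * ‖z - w‖⁻¹ + ‖z - w‖} ≤ E₀ := i2.trans i3
      rw [hM] at i7 ⊢
      nlinarith
    have c2 : μ.real {w | |hh τ' s' (z - w) - m| < η} ≤ 1 / 4 := by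
      have j1 : μ {w | |hh τ' s' (z - w) - m| < η} ≤ ENNReal.ofReal (1 / 4) := by
        have j2 : μ {w | |hh τ' s' (z - w) - m| < η} ≤
            μ {w | ‖z - w‖ ≤ Rp + R ∧ |hh τ' s' (z - w) - m| ≤ η} := by
          refine measure_mono_ae ?_
          filter_upwards [hμ.ae] with w hw h1
          have h2 : |hh τ' s' (z - w) - m| < η := h1
          exact ⟨(norm_sub_le _ _).trans (by linarith), h2.le⟩
        refine j2.trans ((hμ.dens' _).trans ?_)
        have j3 : volume {w | ‖z - w‖ ≤ Rp + R ∧ |hh τ' s' (z - w) - m| ≤ η} =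
            volume {v : ℂ | ‖v‖ ≤ Rp + R ∧ |hh τ' s' v - m| ≤ η} := by
          have j4 : MeasurableSet {v : ℂ | ‖v‖ ≤ Rp + R ∧ |hh τ' s' v - m| ≤ η} :=
            (measurableSet_le measurable_norm measurable_const).inter
              (measurableSet_le ((measurable_hh _ _).sub_const _).abs measurable_const)
          rw [← lintegral_indicator_one j4, ← lint_translate z, ← lintegral_indicator_one]
          · rfl
          · exact (measurable_const.sub measurable_id : Measurable fun w : ℂ => z - w) j4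
        rw [j3]
        refine (mul_le_mul_right (hη' τ' s' m hunit) _).trans ?_
        rw [← ENNReal.ofReal_mul hD]
        refine ENNReal.ofReal_le_ofReal ?_
        rw [hε, mul_one_div, div_le_div_iff₀ (by positivity) (by norm_num)]
        linarith
      have j5 := ENNReal.toReal_mono ENNReal.ofReal_ne_top j1
      rwa [ENNReal.toReal_ofReal (by norm_num)] at j5
    have c3 : μ.real (univ : Set ℂ) ≤ μ.real G + (μ.real {w | M < |hh τ' s' (z - w)|} +
        μ.real {w | |hh τ' s' (z - w) - m| < η}) := by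
      refine (measureReal_mono ?_).trans ((measureReal_union_le _ _).trans
        (add_le_add le_rfl (measureReal_union_le _ _)))
      intro w _
      by_cases h1 : |hh τ' s' (z - w)| ≤ M
      · by_cases h2 : η ≤ |hh τ' s' (z - w) - m|
        · exact Or.inl ⟨h1, h2⟩
        · exact Or.inr (Or.inr (not_le.1 h2))
      · exact Or.inr (Or.inl (not_le.1 h1))
    simp only [probReal_univ] at c3
    linarith
  -- conclusion
  have hcm : Measurable fun w => Real.cos (hh τ s (z - w) - α) :=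
    Real.measurable_cos.comp (hmm.sub_const α)
  have hci : Integrable (fun w => Real.cos (hh τ s (z - w) - α)) μ :=
    Integrable.of_bound hcm.aestronglyMeasurable 1 (Eventually.of_forall fun w => by
      rw [Real.norm_eq_abs]
      exact Real.abs_cos_le_one _)
  have hfin : κ * ρ ^ 2 * (1 / 2) ≤ 1 - ‖φ‖ := by
    have k1 : 1 - ‖φ‖ = ∫ w, (1 - Real.cos (hh τ s (z - w) - α)) ∂μ := by
      rw [integral_sub (integrable_const _) hci, hnorm]
      simp
    have k2 : ∫ w, G.indicator (fun _ => κ * ρ ^ 2) w ∂μ = κ * ρ ^ 2 * μ.real G := by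
      rw [integral_indicator hGm, setIntegral_const, smul_eq_mul, mul_comm]
    have k3 : ∫ w, G.indicator (fun _ => κ * ρ ^ 2) w ∂μ ≤
        ∫ w, (1 - Real.cos (hh τ s (z - w) - α)) ∂μ := by
      refine integral_mono ((integrable_const _).indicator hGm)
        ((integrable_const _).sub hci) fun w => ?_
      by_cases hw : w ∈ G
      · simp only [indicator_of_mem hw]
        exact hG1 w hw
      · simp only [indicator_of_notMem hw]
        have := Real.cos_le_one (hh τ s (z - w) - α)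
        linarith
    rw [k2] at k3
    rw [k1]
    refine le_trans ?_ k3
    have : 0 ≤ κ * ρ ^ 2 := by positivity
    gcongr
  have hexp := Real.add_one_le_exp (-(κ / 2) * ρ ^ 2)
  linarith

end Pool.Agent.N229.HF
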