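import Pool.Agent.N229.HF.Base
import Pool.Agent.N229.HF.Chr

/-!
# Anticoncentration at one point
-/

set_option autoImplicit false

open Filter Topology MeasureTheory Set
open Complex (I)

namespace Pool.Agent.N229.HF

open Pool.Agent.N229.RL

theorem nu_128 (N : ℕ) : Real.sqrt N = nu N ^ 128 := by
  rw [← nu_pow N, show (256 : ℕ) = 128 * 2 by norm_num, pow_mul,
    Real.sqrt_sq (pow_nonneg (nu_nonneg N) _)]

theorem fac {N K : ℕ} {c σ : ℝ} (hc : 0 < c) (hσ : 0 < σ) (hN : 0 < N) (hK : N ≤ 2 * K) :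
    (Real.sqrt (1 + 2 * (c * K / σ ^ 2)))⁻¹ ≤ σ / (Real.sqrt c * nu N ^ 128) := by
  have hN0 : (0 : ℝ) < N := by exact_mod_cast hN
  have hK' : (N : ℝ) ≤ 2 * K := by exact_mod_cast hK
  have h1 : Real.sqrt c * nu N ^ 128 = Real.sqrt (c * N) := by
    rw [Real.sqrt_mul hc.le, nu_128]
  rw [h1]
  have h2 : Real.sqrt (c * N) / σ ≤ Real.sqrt (1 + 2 * (c * K / σ ^ 2)) := by
    have h3 : Real.sqrt (c * N) / σ = Real.sqrt (c * N / σ ^ 2) := by
      rw [Real.sqrt_div (by positivity), Real.sqrt_sq hσ.le]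
    rw [h3]
    refine Real.sqrt_le_sqrt ?_
    have h4 : c * N / σ ^ 2 ≤ 2 * (c * K / σ ^ 2) := by
      have h5 : 2 * (c * K / σ ^ 2) = c * (2 * K) / σ ^ 2 := by ring
      rw [h5]
      gcongr
    linarith
  have h5 : 0 < Real.sqrt (c * N) / σ := by positivity
  calc (Real.sqrt (1 + 2 * (c * K / σ ^ 2)))⁻¹ ≤ (Real.sqrt (c * N) / σ)⁻¹ := by gcongr
    _ = σ / Real.sqrt (c * N) := by rw [inv_div]

theorem tail_small {t : ℝ} (ht : 0 < t) :
    ∀ᶠ N : ℕ in atTop, ∀ σ : ℝ, Real.log N ≤ σ →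
      Real.exp (-(t * σ) ^ 2 / 4) ≤ (nu N ^ 384)⁻¹ := by
  filter_upwards [ev_log_ge (8 / t ^ 2), ev_log_ge 1, eventually_ge_atTop 1] with N h1 h2 hN σ hσ
  have hN0 : (0 : ℝ) < N := by exact_mod_cast hN
  have h3 : 2 * Real.log N ≤ (t * σ) ^ 2 / 4 := by
    rw [div_le_iff₀ (by positivity)] at h1
    have h4 : Real.log N ^ 2 ≤ σ ^ 2 := pow_le_pow_left₀ (by linarith) hσ 2
    rw [mul_pow]
    have h5 : 0 < t ^ 2 := by positivity
    nlinarith
  have h6 : Real.exp (-(t * σ) ^ 2 / 4) ≤ ((N : ℝ) ^ 2)⁻¹ := by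
    refine exp_log_pow hN 2 ?_
    push_cast
    linarith
  refine h6.trans (inv_anti₀ (by have := nu_ge hN; positivity) ?_)
  have h7 : (N : ℝ) ^ 2 = nu N ^ 512 := by
    rw [← nu_pow N, ← pow_mul]
  rw [h7]
  exact pow_le_pow_right₀ (nu_ge hN) (by norm_num)

/-- the vector -/
noncomputable def Y3 (σ : ℤ) (z w : ℂ) : Fin 3 → ℝ :=
  ![((σ : ℂ) / (z - w)).re, ((σ : ℂ) / (z - w)).im, (σ : ℝ) * Real.log ‖z - w‖]

theorem measurable_Y3 (σ : ℤ) (z : ℂ) : Measurable (Y3 σ z) := by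
  have h1 : Measurable fun w : ℂ => (σ : ℂ) / (z - w) := by fun_prop
  have h2 : Measurable fun w : ℂ => (σ : ℝ) * Real.log ‖z - w‖ := by fun_prop
  rw [measurable_pi_iff]
  intro i
  fin_cases i
  · exact Complex.measurable_re.comp h1
  · exact Complex.measurable_im.comp h1
  · exact h2

theorem sum_Y3 (σ : ℤ) (z w : ℂ) (t : Fin 3 → ℝ) :
    ∑ i, t i * Y3 σ z w i = hh ((σ : ℂ) * (t 0 - t 1 * I)) (σ * t 2) (z - w) := by
  unfold hh Y3
  rw [Fin.sum_univ_three]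
  simp only [Matrix.cons_val_zero, Matrix.cons_val_one, Matrix.cons_val]
  have h1 : (σ : ℂ) * (t 0 - t 1 * I) / (z - w) = (t 0 - t 1 * I) * ((σ : ℂ) / (z - w)) := by ring
  rw [h1, Complex.mul_re]
  simp
  ring

theorem ac3 {D R Rp : ℝ} (hD : 0 ≤ D) (hR : 0 ≤ R) (hRp : 0 ≤ Rp) :
    ∃ C : ℝ, 0 < C ∧ ∀ᶠ N : ℕ in atTop, ∀ (μ : Fin N → Measure ℂ) (e : Fin N → ℤ)
      (J : Finset (Fin N)) (z w : ℂ) (m σ L : ℝ), (∀ i, Dens (μ i) D R) →
      (∀ i, e i = 1 ∨ e i = -1) → N ≤ 2 * J.card → ‖z‖ ≤ Rp → Real.log N ≤ σ → Real.log N ≤ L →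
      Measure.pi μ {X | ‖SS e X J z - w‖ ≤ σ ∧
        |∑ j ∈ J, (e j : ℝ) * Real.log ‖z - X j‖ - m| ≤ L} ≤
        ENNReal.ofReal (C * σ ^ 2 * L / nu N ^ 384) := by
  obtain ⟨c, hc, t₀, ht₀, hch⟩ := ch_bound hD hR hRp
  have hsc : 0 < Real.sqrt c := Real.sqrt_pos.2 hc
  refine ⟨Real.exp (3 / 2) * ((Real.sqrt c ^ 3)⁻¹ + 3 * Real.sqrt 2), by positivity, ?_⟩
  filter_upwards [tail_small (t := t₀ / 2) (by positivity), ev_log_ge 1, eventually_ge_atTop 1] with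
    N h1 h2 hN μ e J z w m σ L hμ he hJ hz hσ hL
  haveI : ∀ i, IsProbabilityMeasure (μ i) := fun i => (hμ i).prob
  have hν := nu_ge hN
  have hν0 : 0 < nu N := by linarith
  have hσ0 : 0 < σ := by linarith
  have hL0 : 0 < L := by linarith
  set sg : Fin 3 → ℝ := ![σ, σ, L] with hsg
  have hsg0 : ∀ i, 0 < sg i := by
    intro i
    fin_cases i <;> simp [hsg, hσ0, hL0]
  have hsgl : ∀ i, Real.log N ≤ sg i := by
    intro i
    fin_cases i
    · exact hσ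
    · exact hσ
    · exact hL
  have hmain := esseen μ J (fun j w => Y3 (e j) z w) (fun j => measurable_Y3 _ _)
    (t₀ := t₀ / 2) hc.le (by positivity) (fun j _ t ht => by
      simp_rw [sum_Y3]
      have hs1 : ‖((e j : ℤ) : ℂ) * ((t 0 : ℂ) - t 1 * I)‖ ^ 2 = t 0 ^ 2 + t 1 ^ 2 := by
        rw [norm_mul, mul_pow]
        have : ‖((e j : ℤ) : ℂ)‖ = 1 := by rcases he j with h | h <;> simp [h]
        rw [this, one_pow, one_mul, ← Complex.normSq_eq_norm_sq, Complex.normSq_apply]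
        simp
        ring
      have hs2 : ((e j : ℝ) * t 2) ^ 2 = t 2 ^ 2 := by
        rw [mul_pow, ← sq_abs ((e j : ℤ) : ℝ), sign_abs (he j)]
        ring
      have hs3 : ‖((e j : ℤ) : ℂ) * ((t 0 : ℂ) - t 1 * I)‖ ^ 2 + ((e j : ℝ) * t 2) ^ 2 =
          ∑ i, t i ^ 2 := by
        rw [hs1, hs2, Fin.sum_univ_three]
      have hs4 : ∑ i, t i ^ 2 ≤ t₀ ^ 2 := by
        have : ∀ i ∈ (Finset.univ : Finset (Fin 3)), t i ^ 2 ≤ (t₀ / 2) ^ 2 := by
          intro i _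
          rw [← sq_abs]
          exact pow_le_pow_left₀ (abs_nonneg _) (ht i) 2
        refine (Finset.sum_le_sum this).trans ?_
        simp only [Finset.sum_const, Finset.card_univ, Fintype.card_fin, nsmul_eq_mul]
        nlinarith [sq_nonneg t₀]
      have := hch (μ j) (hμ j) z hz _ _ (by rw [hs3]; exact hs4)
      rw [hs3] at this
      exact this) sg ![w.re, w.im, m] hsg0
  have hsub : {X : Fin N → ℂ | ‖SS e X J z - w‖ ≤ σ ∧
      |∑ j ∈ J, (e j : ℝ) * Real.log ‖z - X j‖ - m| ≤ L} ⊆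
      {X | ∀ i, |∑ j ∈ J, Y3 (e j) z (X j) i - (![w.re, w.im, m] : Fin 3 → ℝ) i| ≤ sg i} := by
    rintro X ⟨hX1, hX2⟩ i
    have hre : ∑ j ∈ J, ((e j : ℂ) / (z - X j)).re - w.re = (SS e X J z - w).re := by
      unfold SS
      rw [Complex.sub_re, Complex.re_sum]
    have him : ∑ j ∈ J, ((e j : ℂ) / (z - X j)).im - w.im = (SS e X J z - w).im := by
      unfold SS
      rw [Complex.sub_im, Complex.im_sum]
    fin_cases i
    · show |∑ j ∈ J, ((e j : ℂ) / (z - X j)).re - w.re| ≤ σ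
      rw [hre]
      exact (Complex.abs_re_le_norm _).trans hX1
    · show |∑ j ∈ J, ((e j : ℂ) / (z - X j)).im - w.im| ≤ σ
      rw [him]
      exact (Complex.abs_im_le_norm _).trans hX1
    · exact hX2
  refine (measure_mono hsub).trans ?_
  rw [← ofReal_measureReal]
  refine ENNReal.ofReal_le_ofReal (hmain.trans ?_)
  have hf : ∀ i, (Real.sqrt (1 + 2 * (c * J.card / sg i ^ 2)))⁻¹ ≤
      sg i / (Real.sqrt c * nu N ^ 128) := fun i => fac hc (hsg0 i) (by omega) hJ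
  have hp : ∏ i, (Real.sqrt (1 + 2 * (c * J.card / sg i ^ 2)))⁻¹ ≤
      (Real.sqrt c ^ 3)⁻¹ * (σ ^ 2 * L / nu N ^ 384) := by
    refine (Finset.prod_le_prod (fun i _ => by positivity) fun i _ => hf i).trans (le_of_eq ?_)
    rw [Fin.prod_univ_three, hsg]
    simp only [Matrix.cons_val_zero, Matrix.cons_val_one, Matrix.cons_val]
    field_simp
  have hone : 1 ≤ σ ^ 2 * L := by
    have h3 : 1 ≤ σ := h2.trans hσ
    have h4 : 1 ≤ L := h2.trans hL
    have h5 : 1 ≤ σ ^ 2 := one_le_pow₀ h3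
    nlinarith
  have hs : ∑ i, Real.sqrt 2 * Real.exp (-(t₀ / 2 * sg i) ^ 2 / 4) ≤
      3 * Real.sqrt 2 * (σ ^ 2 * L / nu N ^ 384) := by
    have : ∀ i ∈ (Finset.univ : Finset (Fin 3)),
        Real.sqrt 2 * Real.exp (-(t₀ / 2 * sg i) ^ 2 / 4) ≤
          Real.sqrt 2 * (σ ^ 2 * L / nu N ^ 384) := by
      intro i _
      gcongr
      refine (h1 _ (hsgl i)).trans ?_
      rw [inv_eq_one_div]
      gcongr
    refine (Finset.sum_le_sum this).trans (le_of_eq ?_)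
    simp only [Finset.sum_const, Finset.card_univ, Fintype.card_fin, nsmul_eq_mul]
    push_cast
    ring
  have hcard : (Fintype.card (Fin 3) : ℝ) / 2 = 3 / 2 := by simp
  rw [hcard]
  calc Real.exp (3 / 2) * (∏ i, (Real.sqrt (1 + 2 * (c * J.card / sg i ^ 2)))⁻¹ +
        ∑ i, Real.sqrt 2 * Real.exp (-(t₀ / 2 * sg i) ^ 2 / 4)) ≤
      Real.exp (3 / 2) * ((Real.sqrt c ^ 3)⁻¹ * (σ ^ 2 * L / nu N ^ 384) +
        3 * Real.sqrt 2 * (σ ^ 2 * L / nu N ^ 384)) := by gcongr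
    _ = Real.exp (3 / 2) * ((Real.sqrt c ^ 3)⁻¹ + 3 * Real.sqrt 2) * σ ^ 2 * L / nu N ^ 384 := by
        ring

theorem ac1 {D R Rp : ℝ} (hD : 0 ≤ D) (hR : 0 ≤ R) (hRp : 0 ≤ Rp) :
    ∃ C : ℝ, 0 < C ∧ ∀ᶠ N : ℕ in atTop, ∀ (μ : Fin N → Measure ℂ) (e : Fin N → ℤ)
      (J : Finset (Fin N)) (z : ℂ) (m L : ℝ), (∀ i, Dens (μ i) D R) →
      (∀ i, e i = 1 ∨ e i = -1) → N ≤ 2 * J.card → ‖z‖ ≤ Rp → Real.log N ≤ L →
      Measure.pi μ {X | |∑ j ∈ J, (e j : ℝ) * Real.log ‖z - X j‖ - m| ≤ L} ≤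
        ENNReal.ofReal (C * L / nu N ^ 128) := by
  obtain ⟨c, hc, t₀, ht₀, hch⟩ := ch_bound hD hR hRp
  have hsc : 0 < Real.sqrt c := Real.sqrt_pos.2 hc
  refine ⟨Real.exp (1 / 2) * ((Real.sqrt c)⁻¹ + Real.sqrt 2), by positivity, ?_⟩
  filter_upwards [tail_small (t := t₀) (by positivity), ev_log_ge 1, eventually_ge_atTop 1] with
    N h1 h2 hN μ e J z m L hμ he hJ hz hL
  haveI : ∀ i, IsProbabilityMeasure (μ i) := fun i => (hμ i).prob
  have hν := nu_ge hN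
  have hν0 : 0 < nu N := by linarith
  have hL0 : 0 < L := by linarith
  have hmain := esseen μ J (fun j w (_ : Unit) => (e j : ℝ) * Real.log ‖z - w‖)
    (fun j => by
      rw [measurable_pi_iff]
      intro _
      fun_prop)
    (t₀ := t₀) hc.le (by positivity) (fun j _ t ht => by
      have hs1 : ∀ w : ℂ, ∑ i : Unit, t i * ((e j : ℝ) * Real.log ‖z - w‖) =
          hh 0 (e j * t ()) (z - w) := by
        intro w
        unfold hh
        simp
        ring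
      simp_rw [hs1]
      have hs2 : ((e j : ℝ) * t ()) ^ 2 = t () ^ 2 := by
        rw [mul_pow, ← sq_abs ((e j : ℤ) : ℝ), sign_abs (he j)]
        ring
      have hs3 : ‖(0 : ℂ)‖ ^ 2 + ((e j : ℝ) * t ()) ^ 2 = ∑ i, t i ^ 2 := by
        rw [hs2]
        simp
      have hs4 : ∑ i, t i ^ 2 ≤ t₀ ^ 2 := by
        simp only [Finset.univ_unique, Finset.sum_singleton]
        rw [← sq_abs]
        exact pow_le_pow_left₀ (abs_nonneg _) (ht _) 2
      have := hch (μ j) (hμ j) z hz _ _ (by rw [hs3]; exact hs4)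
      rw [hs3] at this
      exact this) (fun _ => L) (fun _ => m) (fun _ => hL0)
  have hsub : {X : Fin N → ℂ | |∑ j ∈ J, (e j : ℝ) * Real.log ‖z - X j‖ - m| ≤ L} ⊆
      {X | ∀ i : Unit, |∑ j ∈ J, (e j : ℝ) * Real.log ‖z - X j‖ - (fun _ : Unit => m) i| ≤
        (fun _ : Unit => L) i} := fun X hX _ => hX
  refine (measure_mono hsub).trans ?_
  rw [← ofReal_measureReal]
  refine ENNReal.ofReal_le_ofReal (hmain.trans ?_)
  have hf : (Real.sqrt (1 + 2 * (c * J.card / L ^ 2)))⁻¹ ≤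
      L / (Real.sqrt c * nu N ^ 128) := fac hc hL0 (by omega) hJ
  have hone : 1 ≤ L := h2.trans hL
  have hs : Real.exp (-(t₀ * L) ^ 2 / 4) ≤ L / nu N ^ 128 := by
    refine (h1 _ hL).trans ?_
    rw [inv_eq_one_div]
    have : nu N ^ 128 ≤ nu N ^ 384 := pow_le_pow_right₀ hν (by norm_num)
    gcongr
  simp only [Finset.univ_unique, Finset.prod_singleton, Finset.sum_singleton, Fintype.card_unit,
    Nat.cast_one]
  calc Real.exp (1 / 2) * ((Real.sqrt (1 + 2 * (c * J.card / L ^ 2)))⁻¹ +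
        Real.sqrt 2 * Real.exp (-(t₀ * L) ^ 2 / 4)) ≤
      Real.exp (1 / 2) * (L / (Real.sqrt c * nu N ^ 128) +
        Real.sqrt 2 * (L / nu N ^ 128)) := by gcongr
    _ = Real.exp (1 / 2) * ((Real.sqrt c)⁻¹ + Real.sqrt 2) * L / nu N ^ 128 := by
        field_simp

end Pool.Agent.N229.HF
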