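import Pool.Agent.N229.HF.Calc

/-!
# Averaging over small discs
-/

set_option autoImplicit false

open Filter Topology MeasureTheory Set

namespace Pool.Agent.N229.HF

open Pool.Agent.N229.RL

theorem vol_ball (p : ℂ) {r : ℝ} (hr : 0 ≤ r) :
    volume (Metric.ball p r) = ENNReal.ofReal (Real.pi * r ^ 2) := by
  rw [Complex.volume_ball, mul_comm Real.pi, ENNReal.ofReal_mul (by positivity),
    ENNReal.ofReal_pow hr]
  congr 1
  exact (ENNReal.ofReal_coe_nnreal (p := NNReal.pi)).symm

theorem avg {G W : Set ℂ} {h : ℂ → ℝ} {β : ℝ} (hG : MeasurableSet G) (hW : MeasurableSet W)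
    (hh : Measurable h) (hβ : 0 ≤ β) (h0 : ∀ p ∈ G, 0 < h p)
    (hs : ∀ p ∈ G, ∀ p' ∈ G, ‖p - p'‖ < h p + h p' → h p ≤ 2 * h p')
    (hw : ∀ p ∈ G, ∀ w, ‖w - p‖ < h p → w ∈ W ∧ w ≠ 0 ∧ ‖w‖ ≤ 2 * ‖p‖)
    (hl : ∀ p ∈ G, volume (G ∩ Metric.ball p (3 * h p)) ≤ ENNReal.ofReal (β * h p ^ 2)) :
    al G ≤ ENNReal.ofReal (6 * β) * al W := by
  have hpi := Real.pi_pos
  have hpi3 := Real.pi_gt_three
  set k : ℂ → ENNReal := fun p => ENNReal.ofReal ((‖p‖ ^ 2)⁻¹ * (Real.pi * h p ^ 2)⁻¹) with hk
  have hkm : Measurable k :=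
    (((measurable_norm.pow_const 2).inv).mul ((hh.pow_const 2).const_mul _).inv).ennreal_ofReal
  set T : Set (ℂ × ℂ) := {q | ‖q.2 - q.1‖ < h q.1} with hT
  have hTm : MeasurableSet T :=
    measurableSet_lt (measurable_snd.sub measurable_fst).norm (hh.comp measurable_fst)
  set F : ℂ → ℂ → ENNReal := fun p w => G.indicator k p * T.indicator 1 (p, w) with hF
  have hFm : Measurable (Function.uncurry F) := by
    have h1 : Measurable fun q : ℂ × ℂ => G.indicator k q.1 := (hkm.indicator hG).comp measurable_fst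
    have h2 : Measurable fun q : ℂ × ℂ => T.indicator (1 : ℂ × ℂ → ENNReal) q :=
      measurable_one.indicator hTm
    exact h1.mul h2
  have h1 : al G = ∫⁻ p, ∫⁻ w, F p w := by
    unfold al
    rw [← lintegral_indicator hG]
    refine lintegral_congr fun p => ?_
    have hsec : MeasurableSet {w : ℂ | (p, w) ∈ T} :=
      (measurable_const.prodMk measurable_id : Measurable fun w : ℂ => (p, w)) hTm
    have h2 : ∫⁻ w, T.indicator (1 : ℂ × ℂ → ENNReal) (p, w) = volume (Metric.ball p (h p)) := by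
      have h3 : ∀ w, T.indicator (1 : ℂ × ℂ → ENNReal) (p, w) =
          {w : ℂ | (p, w) ∈ T}.indicator 1 w := fun w => rfl
      simp_rw [h3]
      rw [lintegral_indicator_one hsec]
      congr 1
      ext w
      simp only [mem_ofPred_eq, mem_ball_iff_norm, hT]
    have h4 : ∫⁻ w, F p w = G.indicator k p * volume (Metric.ball p (h p)) := by
      rw [← h2, ← lintegral_const_mul]
      exact measurable_one.indicator hsec
    rw [h4]
    by_cases hp : p ∈ G
    · rw [indicator_of_mem hp, indicator_of_mem hp, vol_ball p (h0 p hp).le, hk]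
      simp only
      rw [← ENNReal.ofReal_mul (by positivity)]
      congr 1
      have := h0 p hp
      field_simp
    · rw [indicator_of_notMem hp, indicator_of_notMem hp, zero_mul]
  rw [h1, lintegral_lintegral_swap hFm.aemeasurable]
  have h2 : ∀ w, ∫⁻ p, F p w ≤ ENNReal.ofReal (6 * β) *
      W.indicator (fun w => ENNReal.ofReal ((‖w‖ ^ 2)⁻¹)) w := by
    intro w
    by_cases hex : ∃ p ∈ G, ‖w - p‖ < h p
    swap
    · push Not at hex
      have h3 : ∀ p, F p w = 0 := by
        intro p
        by_cases hp : p ∈ G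
        · simp only [hF]
          rw [indicator_of_notMem (s := T) (fun h4 => absurd h4 (not_lt.2 (hex p hp))), mul_zero]
        · simp only [hF]
          rw [indicator_of_notMem hp, zero_mul]
      simp_rw [h3]
      rw [lintegral_zero]
      exact zero_le
    obtain ⟨s, hsG, hsw⟩ := hex
    obtain ⟨hwW, hw0, -⟩ := hw s hsG w hsw
    rw [indicator_of_mem hwW, ← ENNReal.ofReal_mul (by positivity)]
    have hs0 := h0 s hsG
    have hw0' : 0 < ‖w‖ := norm_pos_iff.2 hw0
    have h3 : ∀ p, F p w ≤ (G ∩ Metric.ball s (3 * h s)).indicator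
        (fun _ => ENNReal.ofReal (16 * (‖w‖ ^ 2)⁻¹ * (Real.pi * h s ^ 2)⁻¹)) p := by
      intro p
      simp only [hF]
      by_cases hp : p ∈ G
      · by_cases hpT : (p, w) ∈ T
        · have hpw : ‖w - p‖ < h p := hpT
          have hp0 := h0 p hp
          have hps : ‖p - s‖ < h p + h s := by
            have : p - s = (w - s) - (w - p) := by ring
            rw [this]
            exact (norm_sub_le _ _).trans_lt (by linarith)
          have e1 := hs p hp s hsG hps
          have e2 := hs s hsG p hp (by rw [norm_sub_rev]; linarith)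
          have hmem : p ∈ G ∩ Metric.ball s (3 * h s) := by
            refine ⟨hp, ?_⟩
            rw [mem_ball_iff_norm]
            linarith
          rw [indicator_of_mem hmem, indicator_of_mem hp, indicator_of_mem hpT, Pi.one_apply,
            mul_one]
          refine ENNReal.ofReal_le_ofReal ?_
          obtain ⟨-, -, e3⟩ := hw p hp w hpw
          have e4 : (‖p‖ ^ 2)⁻¹ ≤ 4 * (‖w‖ ^ 2)⁻¹ := by
            have e5 : (‖w‖ / 2) ^ 2 ≤ ‖p‖ ^ 2 := by
              gcongr
              linarith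
            calc (‖p‖ ^ 2)⁻¹ ≤ ((‖w‖ / 2) ^ 2)⁻¹ := inv_anti₀ (by positivity) e5
              _ = 4 * (‖w‖ ^ 2)⁻¹ := by
                  field_simp
                  norm_num
          have e6 : (Real.pi * h p ^ 2)⁻¹ ≤ 4 * (Real.pi * h s ^ 2)⁻¹ := by
            have e5 : (h s / 2) ^ 2 ≤ h p ^ 2 := by
              gcongr
              linarith
            calc (Real.pi * h p ^ 2)⁻¹ ≤ (Real.pi * (h s / 2) ^ 2)⁻¹ :=
                  inv_anti₀ (by positivity) (by gcongr)
              _ = 4 * (Real.pi * h s ^ 2)⁻¹ := by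
                  field_simp
                  norm_num
          calc (‖p‖ ^ 2)⁻¹ * (Real.pi * h p ^ 2)⁻¹ ≤
              (4 * (‖w‖ ^ 2)⁻¹) * (4 * (Real.pi * h s ^ 2)⁻¹) := by gcongr
            _ = 16 * (‖w‖ ^ 2)⁻¹ * (Real.pi * h s ^ 2)⁻¹ := by ring
        · rw [indicator_of_notMem hpT, mul_zero]
          exact zero_le
      · rw [indicator_of_notMem hp, zero_mul]
        exact zero_le
    refine (lintegral_mono h3).trans ?_
    rw [lintegral_indicator_const (hG.inter Metric.isOpen_ball.measurableSet)]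
    refine (mul_le_mul_right (hl s hsG) _).trans ?_
    rw [← ENNReal.ofReal_mul (by positivity)]
    refine ENNReal.ofReal_le_ofReal ?_
    have e1 : 16 * (‖w‖ ^ 2)⁻¹ * (Real.pi * h s ^ 2)⁻¹ * (β * h s ^ 2) =
        16 / Real.pi * β * (‖w‖ ^ 2)⁻¹ := by
      field_simp
    rw [e1]
    have e2 : 16 / Real.pi ≤ 6 := by
      rw [div_le_iff₀ hpi]
      linarith
    gcongr
  refine (lintegral_mono h2).trans (le_of_eq ?_)
  rw [lintegral_const_mul' _ _ ENNReal.ofReal_ne_top, lintegral_indicator hW]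
  rfl

end Pool.Agent.N229.HF
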