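import Pool.Agent.N229.HF.Pair4

/-!
# Bad configurations give many bad pairs
-/

set_option autoImplicit false

open Filter Topology MeasureTheory Set

namespace Pool.Agent.N229.HF

open Pool.Agent.N229.RL

variable {N : ℕ}

/-- in the window: near one of the points, or with value in the window -/
def Bw (Rp : ℝ) (a : ℂ) (e : Fin N → ℤ) (X : Fin N → ℂ) (w : ℂ) : Prop :=
  ((N : ℝ) ^ 4)⁻¹ ≤ ‖w‖ ∧ ‖w‖ ≤ Rp ∧ ((∃ j, ‖w - X j‖ ≤ ((N : ℝ) ^ 4)⁻¹) ∨
    ((∀ j, ((N : ℝ) ^ 4)⁻¹ ≤ ‖w - X j‖) ∧ ((N : ℝ) ^ 4)⁻¹ ≤ ‖gg a e X Finset.univ w‖ ∧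
      ‖gg a e X Finset.univ w‖ ≤ Rp))

/-- a critical point whose first three values are in the window -/
def Bad3 (R Rp : ℝ) (a : ℂ) (e : Fin N → ℤ) : Set (Fin N → ℂ) :=
  {X | Base R X ∧ ∃ c : ℂ, ‖c‖ ≤ Rp ∧ (∀ j, c ≠ X j) ∧ SS e X Finset.univ c = 0 ∧
    ((N : ℝ) ^ 4)⁻¹ ≤ ‖gg a e X Finset.univ c‖ ∧ ‖gg a e X Finset.univ c‖ ≤ Rp ∧
    ((∃ j, ‖gg a e X Finset.univ c - X j‖ ≤ ((N : ℝ) ^ 4)⁻¹) ∨
    ((∀ j, ((N : ℝ) ^ 4)⁻¹ ≤ ‖gg a e X Finset.univ c - X j‖) ∧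
      Bw Rp a e X (gg a e X Finset.univ (gg a e X Finset.univ c))))}

/-- three centres which have to be avoided -/
theorem bad_det {R Rp η : ℝ} (hR : R ≤ Rp) (hRp : 1 ≤ Rp) (hη : 0 < η) :
    ∀ᶠ N : ℕ in atTop, ∀ (e : Fin N → ℤ) (a : ℂ) (X : Fin N → ℂ), (∀ i, e i = 1 ∨ e i = -1) →
      X ∈ Bad3 R Rp a e → ∃ c p v : ℂ, ‖c‖ ≤ Rp ∧ ‖p‖ ≤ Rp ∧ ‖v‖ ≤ Rp ∧
      ∀ i k : Fin N, i ≠ k → e i = 1 → e k = 1 → η ≤ ‖X i - X k‖ →
        (η ≤ ‖c - X i‖ ∧ η ≤ ‖c - X k‖) → (η ≤ ‖p - X i‖ ∧ η ≤ ‖p - X k‖) →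
        (η ≤ ‖v - X i‖ ∧ η ≤ ‖v - X k‖) → X ∈ Ev R Rp η e a i k := by
  filter_upwards [ev_log (4 * Rp ^ 2) 0, ev_log (Rp / η ^ 2) 0, ev_log (2 / η) 0,
    eventually_ge_atTop 4] with N v1 v2 v3 hN e a X he hX
  rw [pow_zero, mul_one] at v1 v2 v3
  have hN4 : (4 : ℝ) ≤ N := by exact_mod_cast hN
  have hN0 : (0 : ℝ) < N := by linarith
  have hN1 : (1 : ℝ) ≤ N := by linarith
  have hqη : ((N : ℝ) ^ 4)⁻¹ < η := by
    have h1 : ((N : ℝ) ^ 4)⁻¹ ≤ (N : ℝ)⁻¹ :=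
      inv_anti₀ hN0 (le_self_pow₀ hN1 (by norm_num))
    have h2 : (N : ℝ)⁻¹ ≤ η / 2 := by
      rw [div_le_iff₀ hη] at v3
      rw [inv_le_iff_one_le_mul₀ hN0]
      linarith
    linarith
  obtain ⟨hB, c, h1, h2, h3, h4, h5, h6⟩ := hX
  set f := gg a e X Finset.univ with hf
  have hnoc := noc hN he hB.sep h2 h3
  -- the third centre
  obtain ⟨v, hv, hvf⟩ : ∃ v : ℂ, ‖v‖ ≤ Rp ∧ (Bw Rp a e X (f (f c)) → v = f (f c)) := by
    by_cases h : ‖f (f c)‖ ≤ Rp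
    · exact ⟨f (f c), h, fun _ => rfl⟩
    · refine ⟨0, by rw [norm_zero]; linarith, fun hw => absurd hw.2.1 h⟩
  refine ⟨c, f c, v, h1, h5, hv, fun i k hik hi hk e1 e2 e3 e4 => ?_⟩
  refine ⟨hB.le, c, ⟨h1, fun j _ => hnoc j, e2.1, e2.2, e1⟩, h3, ⟨h4, h5, e3.1, e3.2⟩, ?_⟩
  -- indices
  have hmem : ∀ (w : ℂ), η ≤ ‖w - X i‖ → η ≤ ‖w - X k‖ →
      (∃ j, ‖w - X j‖ ≤ ((N : ℝ) ^ 4)⁻¹) → ∃ j ∈ J2 i k, ‖w - X j‖ ≤ ((N : ℝ) ^ 4)⁻¹ := by
    rintro w hwi hwk ⟨j, hj⟩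
    refine ⟨j, mem_J2.2 ⟨?_, ?_⟩, hj⟩
    · rintro rfl
      linarith
    · rintro rfl
      linarith
  rcases h6 with h6 | ⟨h6, h7⟩
  · exact Or.inl (hmem _ e3.1 e3.2 h6)
  · right
    refine ⟨fun j _ => h6 j, ?_⟩
    rw [hvf h7] at e4
    obtain ⟨h8, h9, h10⟩ := h7
    refine ⟨h8, h9, ?_⟩
    rcases h10 with h10 | ⟨h10, h11, h12⟩
    · exact Or.inl (hmem _ e4.1 e4.2 h10)
    · right
      refine ⟨fun j _ => h10 j, ?_⟩
      have hpi : 0 < ‖f (f c) - X i‖ := hη.trans_le e4.1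
      have hpk : 0 < ‖f (f c) - X k‖ := hη.trans_le e4.2
      have hi2 : ‖f (f c) - X i‖ ≤ 2 * Rp := (norm_sub_le _ _).trans (by linarith [hB.le i])
      have hk2 : ‖f (f c) - X k‖ ≤ 2 * Rp := (norm_sub_le _ _).trans (by linarith [hB.le k])
      have hgg : ‖f (f (f c))‖ = ‖gg a e X (J2 i k) (f (f c))‖ *
          (‖f (f c) - X i‖ * ‖f (f c) - X k‖) := by
        rw [← norm_mul, ← norm_mul]
        exact congrArg _ (gg_two X hik hi hk (f (f c)))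
      rw [hgg] at h11 h12
      set G := ‖gg a e X (J2 i k) (f (f c))‖ with hG
      have hG0 : 0 ≤ G := norm_nonneg _
      constructor
      · -- lower bound
        have e5 : ((N : ℝ) ^ 4)⁻¹ ≤ G * (4 * Rp ^ 2) := by
          refine h11.trans ?_
          calc G * (‖f (f c) - X i‖ * ‖f (f c) - X k‖) ≤ G * ((2 * Rp) * (2 * Rp)) := by gcongr
            _ = G * (4 * Rp ^ 2) := by ring
        have e6 : ((N : ℝ) ^ 4)⁻¹ ≤ G * N := e5.trans (by gcongr)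
        have e7 : ((N : ℝ) ^ 6)⁻¹ ≤ ((N : ℝ) ^ 4)⁻¹ * (N : ℝ)⁻¹ := by
          rw [← mul_inv]
          refine inv_anti₀ (by positivity) ?_
          calc (N : ℝ) ^ 4 * N = (N : ℝ) ^ 5 := by ring
            _ ≤ (N : ℝ) ^ 6 := pow_le_pow_right₀ hN1 (by norm_num)
        refine e7.trans ?_
        calc ((N : ℝ) ^ 4)⁻¹ * (N : ℝ)⁻¹ ≤ G * N * (N : ℝ)⁻¹ := by gcongr
          _ = G := by field_simp
      · -- upper bound
        have e5 : G * η ^ 2 ≤ Rp := by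
          refine le_trans ?_ h12
          calc G * η ^ 2 = G * (η * η) := by ring
            _ ≤ G * (‖f (f c) - X i‖ * ‖f (f c) - X k‖) := by
                gcongr
                · exact e4.1
                · exact e4.2
        have e6 : G ≤ Rp / η ^ 2 := by
          rw [le_div_iff₀ (by positivity)]
          exact e5
        exact e6.trans (v2.trans (le_self_pow₀ hN1 (by norm_num)))

/-- the number of points in the discs is small -/
def Cok (Rp η : ℝ) (X : Fin N → ℂ) : Prop :=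
  ∀ z : ℂ, ‖z‖ ≤ Rp → cnt X Finset.univ η z ≤ N / 32

theorem cnt_card (X : Fin N → ℂ) (J : Finset (Fin N)) (ρ : ℝ) (z : ℂ) :
    cnt X J ρ z = ((J.filter fun j => ‖z - X j‖ < ρ).card : ℝ) := by
  unfold cnt
  rw [Finset.sum_ite, Finset.sum_const, Finset.sum_const_zero, add_zero, nsmul_eq_mul, mul_one]

theorem prob_Cok {D R Rp η : ℝ} (hD : 0 ≤ D) (hRp : 0 ≤ Rp) (hη : 0 < η)
    (hηD : 8 * (Real.pi * D * η ^ 2) ≤ 1 / 64) :
    ∀ᶠ N : ℕ in atTop, ∀ (μ : Fin N → Measure ℂ), (∀ i, Dens (μ i) D R) →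
      Measure.pi μ {X | ¬ Cok Rp η X} ≤ ENNReal.ofReal ((N : ℝ) ^ 20)⁻¹ := by
  have hpi := Real.pi_pos
  filter_upwards [eventually_ge_atTop 1, ev_log (64 * 25) 1, ev_log ((2 * (Rp / η) + 3) ^ 2) 0] with
    N hN h1 h2 μ hμ
  rw [pow_one] at h1
  rw [pow_zero, mul_one] at h2
  have hN1 : (1 : ℝ) ≤ N := by exact_mod_cast hN
  have hN0 : (0 : ℝ) < N := by linarith
  have hsub : {X : Fin N → ℂ | ¬ Cok Rp η X} ⊆ ⋃ z ∈ net Rp η, {X : Fin N → ℂ |
      2 * (N * (Real.pi * D * (2 * η) ^ 2)) + 25 * Real.log N ≤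
        cnt X Finset.univ (2 * η) z} := by
    intro X hX
    simp only [mem_ofPred_eq, Cok, not_forall, not_le] at hX
    obtain ⟨z, hz, hX⟩ := hX
    obtain ⟨z', hz', hzz⟩ := net_near hη hz
    refine mem_iUnion₂.2 ⟨z', hz', ?_⟩
    have h3 : cnt X Finset.univ η z ≤ cnt X Finset.univ (2 * η) z' := by
      rw [cnt_card, cnt_card]
      have : (Finset.univ.filter fun j => ‖z - X j‖ < η) ⊆
          Finset.univ.filter fun j => ‖z' - X j‖ < 2 * η := by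
        intro j hj
        rw [Finset.mem_filter] at hj ⊢
        refine ⟨hj.1, ?_⟩
        have : z' - X j = (z - X j) - (z - z') := by ring
        rw [this]
        exact (norm_sub_le _ _).trans_lt (by linarith [hj.2])
      exact_mod_cast Finset.card_le_card this
    have h4 : 2 * ((N : ℝ) * (Real.pi * D * (2 * η) ^ 2)) ≤ (N : ℝ) / 64 := by
      calc 2 * ((N : ℝ) * (Real.pi * D * (2 * η) ^ 2)) =
          (N : ℝ) * (8 * (Real.pi * D * η ^ 2)) := by ring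
        _ ≤ (N : ℝ) * (1 / 64) := by gcongr
        _ = (N : ℝ) / 64 := by ring
    simp only [mem_ofPred_eq]
    linarith
  refine (measure_mono hsub).trans ((measure_biUnion_finset_le _ _).trans
    ((Finset.sum_le_sum fun z _ => c3 hD hN μ Finset.univ z hμ (by positivity)).trans ?_))
  rw [Finset.sum_const, nsmul_eq_mul]
  have hcard := net_card (Rp := Rp) hη hRp
  have h5 : ((net Rp η).card : ENNReal) ≤ ENNReal.ofReal N := by
    rw [← ENNReal.ofReal_natCast]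
    exact ENNReal.ofReal_le_ofReal (hcard.trans h2)
  refine (mul_le_mul_left h5 _).trans ?_
  rw [← ENNReal.ofReal_mul (by positivity)]
  refine ENNReal.ofReal_le_ofReal ?_
  have e1 : (N : ℝ) * ((N : ℝ) ^ 25)⁻¹ = ((N : ℝ) ^ 24)⁻¹ := by
    field_simp
  rw [e1]
  exact inv_anti₀ (by positivity) (pow_le_pow_right₀ hN1 (by norm_num))

/-- many pairs -/
theorem many_pairs {Rp η : ℝ} (hη : 0 < η) {R : ℝ} (hR : R ≤ Rp) {e : Fin N → ℤ}
    (hE : N ≤ 2 * (Finset.univ.filter fun i => e i = 1).card) {X : Fin N → ℂ}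
    (hX : ∀ j, ‖X j‖ ≤ R) (hc : Cok Rp η X) {F : Fin N → Fin N → ENNReal} {c p v : ℂ}
    (hcR : ‖c‖ ≤ Rp) (hpR : ‖p‖ ≤ Rp) (hvR : ‖v‖ ≤ Rp)
    (hF : ∀ i k : Fin N, i ≠ k → e i = 1 → e k = 1 → η ≤ ‖X i - X k‖ →
        (η ≤ ‖c - X i‖ ∧ η ≤ ‖c - X k‖) → (η ≤ ‖p - X i‖ ∧ η ≤ ‖p - X k‖) →
        (η ≤ ‖v - X i‖ ∧ η ≤ ‖v - X k‖) → 1 ≤ F i k) :
    ENNReal.ofReal ((N : ℝ) ^ 2 / 8) ≤ ∑ i, ∑ k, F i k := by
  classical
  set S : ℂ → Finset (Fin N) := fun z => Finset.univ.filter fun j => ‖z - X j‖ < η with hS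
  have hSc : ∀ z, ‖z‖ ≤ Rp → ((S z).card : ℝ) ≤ N / 32 := by
    intro z hz
    have := hc z hz
    rwa [cnt_card] at this
  have hSn : ∀ z j, j ∉ S z → η ≤ ‖z - X j‖ := by
    intro z j hj
    by_contra h
    exact hj (Finset.mem_filter.2 ⟨Finset.mem_univ j, not_le.1 h⟩)
  set I : Finset (Fin N) := (Finset.univ.filter fun i => e i = 1) \ (S c ∪ S p ∪ S v) with hI
  have hsub : ∀ (A B : Finset (Fin N)), (A.card : ℝ) ≤ ((A \ B).card : ℝ) + B.card := by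
    intro A B
    have := Finset.card_le_card_sdiff_add_card (s := A) (t := B)
    exact_mod_cast this
  have hIc : (13 : ℝ) * N / 32 ≤ I.card := by
    have h1 := hsub (Finset.univ.filter fun i => e i = 1) (S c ∪ S p ∪ S v)
    have h2 : ((S c ∪ S p ∪ S v).card : ℝ) ≤ (S c).card + (S p).card + (S v).card := by
      have := (Finset.card_union_le (S c ∪ S p) (S v)).trans
        (Nat.add_le_add_right (Finset.card_union_le (S c) (S p)) _)
      exact_mod_cast this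
    have h3 : (N : ℝ) ≤ 2 * ((Finset.univ.filter fun i => e i = 1).card : ℝ) := by
      exact_mod_cast hE
    have h4 := hSc c hcR
    have h5 := hSc p hpR
    have h6 := hSc v hvR
    rw [← hI] at h1
    linarith
  have hKc : ∀ i, (3 : ℝ) * N / 8 ≤ (I \ S (X i)).card := by
    intro i
    have h1 := hsub I (S (X i))
    have h2 := hSc (X i) ((hX i).trans hR)
    linarith
  have hImem : ∀ i ∈ I, e i = 1 ∧ η ≤ ‖c - X i‖ ∧ η ≤ ‖p - X i‖ ∧ η ≤ ‖v - X i‖ := by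
    intro i hi
    rw [hI, Finset.mem_sdiff, Finset.mem_union, Finset.mem_union, not_or, not_or,
      Finset.mem_filter] at hi
    exact ⟨hi.1.2, hSn c i hi.2.1.1, hSn p i hi.2.1.2, hSn v i hi.2.2⟩
  have h1 : ∀ i ∈ I, ENNReal.ofReal (3 * N / 8) ≤ ∑ k, F i k := by
    intro i hi
    obtain ⟨i1, i2, i3, i4⟩ := hImem i hi
    calc ENNReal.ofReal (3 * N / 8) ≤ ENNReal.ofReal ((I \ S (X i)).card : ℝ) :=
          ENNReal.ofReal_le_ofReal (hKc i)
      _ = ∑ _k ∈ I \ S (X i), (1 : ENNReal) := by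
          rw [ENNReal.ofReal_natCast, Finset.sum_const, nsmul_eq_mul, mul_one]
      _ ≤ ∑ k ∈ I \ S (X i), F i k := by
          refine Finset.sum_le_sum fun k hk => ?_
          rw [Finset.mem_sdiff] at hk
          obtain ⟨k1, k2, k3, k4⟩ := hImem k hk.1
          have h5 := hSn (X i) k hk.2
          have hik : i ≠ k := by
            rintro rfl
            rw [sub_self, norm_zero] at h5
            linarith
          exact hF i k hik i1 k1 h5 ⟨i2, k2⟩ ⟨i3, k3⟩ ⟨i4, k4⟩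
      _ ≤ ∑ k, F i k := Finset.sum_le_sum_of_subset (Finset.subset_univ _)
  calc ENNReal.ofReal ((N : ℝ) ^ 2 / 8) ≤ ENNReal.ofReal ((13 * N / 32) * (3 * N / 8)) := by
        refine ENNReal.ofReal_le_ofReal ?_
        have : (0 : ℝ) ≤ (N : ℝ) ^ 2 := by positivity
        nlinarith
    _ ≤ ENNReal.ofReal (I.card * (3 * N / 8)) := by
        refine ENNReal.ofReal_le_ofReal ?_
        gcongr
    _ = I.card * ENNReal.ofReal (3 * N / 8) := by
        rw [ENNReal.ofReal_mul (by positivity), ENNReal.ofReal_natCast]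
    _ = ∑ _i ∈ I, ENNReal.ofReal (3 * N / 8) := by
        rw [Finset.sum_const, nsmul_eq_mul]
    _ ≤ ∑ i ∈ I, ∑ k, F i k := Finset.sum_le_sum h1
    _ ≤ ∑ i, ∑ k, F i k := Finset.sum_le_sum_of_subset (Finset.subset_univ _)

/-- bad configurations are rare -/
theorem prob_Bad3 {D R Rp : ℝ} (hD : 0 ≤ D) (hR : 0 ≤ R) (hRp : 1 ≤ Rp) (hRR : R ≤ Rp) :
    ∀ᶠ N : ℕ in atTop, ∀ (μ : Fin N → Measure ℂ) (e : Fin N → ℤ) (a : ℂ),
      (∀ i, Dens (μ i) D R) → (∀ i, e i = 1 ∨ e i = -1) → a ≠ 0 →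
      N ≤ 2 * (Finset.univ.filter fun i => e i = 1).card →
      Measure.pi μ (Bad3 R Rp a e) ≤ ENNReal.ofReal (17 * (nu N)⁻¹) := by
  classical
  have hpi := Real.pi_pos
  set η : ℝ := (512 * Real.pi * (D + 1))⁻¹ with hηd
  have hη : 0 < η := by rw [hηd]; positivity
  have hη1 : η ≤ 1 := by
    rw [hηd]
    refine inv_le_one_of_one_le₀ ?_
    have := Real.pi_gt_three
    nlinarith
  have hηD : 8 * (Real.pi * D * η ^ 2) ≤ 1 / 64 := by
    have h1 : η ^ 2 ≤ η := by nlinarith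
    have h2 : 8 * (Real.pi * D * η ^ 2) ≤ 8 * (Real.pi * D * η) := by gcongr
    refine h2.trans ?_
    rw [hηd, ← div_eq_mul_inv, mul_div_assoc', div_le_div_iff₀ (by positivity) (by norm_num)]
    nlinarith
  filter_upwards [prob_Ev hD hR hRp hRR hη, bad_det hRR hRp hη,
    prob_Cok (R := R) hD (by linarith : 0 ≤ Rp) hη hηD, eventually_ge_atTop 1] with
    N h1 h2 h3 hN μ e a hμ he ha hE
  have : ∀ i, IsProbabilityMeasure (μ i) := fun i => (hμ i).prob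
  have hν := nu_ge hN
  have hν0 : 0 < nu N := by linarith
  have hN1 : (1 : ℝ) ≤ N := by exact_mod_cast hN
  have hN0 : (0 : ℝ) < N := by linarith
  set F : Fin N → Fin N → (Fin N → ℂ) → ENNReal := fun i k X =>
    if i ≠ k ∧ e i = 1 ∧ e k = 1 then (Ev R Rp η e a i k).indicator 1 X else 0 with hF
  have hFm : ∀ i k, Measurable (F i k) := by
    intro i k
    by_cases h : i ≠ k ∧ e i = 1 ∧ e k = 1
    · simp only [hF, if_pos h]
      exact measurable_one.indicator (closed_Ev hη e a i k).measurableSet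
    · simp only [hF, if_neg h]
      exact measurable_const
  have hFi : ∀ i k, ∫⁻ X, F i k X ∂Measure.pi μ ≤ ENNReal.ofReal (2 * (nu N)⁻¹) := by
    intro i k
    by_cases h : i ≠ k ∧ e i = 1 ∧ e k = 1
    · simp only [hF, if_pos h]
      rw [lintegral_indicator_one (closed_Ev hη e a i k).measurableSet]
      exact h1 μ e a i k hμ he ha h.1 h.2.1 h.2.2
    · simp only [hF, if_neg h]
      rw [lintegral_zero]
      exact zero_le
  have hsub : Bad3 R Rp a e ⊆ {X | ¬ Cok Rp η X} ∪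
      {X | ENNReal.ofReal ((N : ℝ) ^ 2 / 8) ≤ ∑ i, ∑ k, F i k X} := by
    intro X hX
    by_cases hC : Cok Rp η X
    · right
      obtain ⟨c, p, v, hc, hp, hv, hev⟩ := h2 e a X he hX
      refine many_pairs hη hRR hE hX.1.le hC hc hp hv fun i k k1 k2 k3 k4 k5 k6 k7 => ?_
      simp only [hF, if_pos (show i ≠ k ∧ e i = 1 ∧ e k = 1 from ⟨k1, k2, k3⟩)]
      rw [indicator_of_mem (hev i k k1 k2 k3 k4 k5 k6 k7)]
      exact le_rfl
    · exact Or.inl hC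
  have hsumm : Measurable fun X => ∑ i, ∑ k, F i k X :=
    Finset.measurable_sum _ fun i _ => Finset.measurable_sum _ fun k _ => hFm i k
  have hmark := mul_meas_ge_le_lintegral (μ := Measure.pi μ) hsumm
    (ENNReal.ofReal ((N : ℝ) ^ 2 / 8))
  have hint : ∫⁻ X, ∑ i, ∑ k, F i k X ∂Measure.pi μ ≤
      ENNReal.ofReal ((N : ℝ) ^ 2 * (2 * (nu N)⁻¹)) := by
    rw [lintegral_finset_sum _ fun i _ => Finset.measurable_sum _ fun k _ => hFm i k]
    have h4 : ∀ i ∈ (Finset.univ : Finset (Fin N)), ∫⁻ X, ∑ k, F i k X ∂Measure.pi μ ≤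
        ENNReal.ofReal (N * (2 * (nu N)⁻¹)) := by
      intro i _
      rw [lintegral_finset_sum _ fun k _ => hFm i k]
      refine (Finset.sum_le_sum fun k _ => hFi i k).trans (le_of_eq ?_)
      rw [Finset.sum_const, Finset.card_univ, Fintype.card_fin, nsmul_eq_mul,
        ← ENNReal.ofReal_natCast, ← ENNReal.ofReal_mul hN0.le]
    refine (Finset.sum_le_sum h4).trans (le_of_eq ?_)
    rw [Finset.sum_const, Finset.card_univ, Fintype.card_fin, nsmul_eq_mul,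
      ← ENNReal.ofReal_natCast, ← ENNReal.ofReal_mul hN0.le]
    congr 1
    ring
  have hP : Measure.pi μ {X | ENNReal.ofReal ((N : ℝ) ^ 2 / 8) ≤ ∑ i, ∑ k, F i k X} ≤
      ENNReal.ofReal (16 * (nu N)⁻¹) := by
    have h4 := hmark.trans hint
    have h5 : Measure.pi μ {X | ENNReal.ofReal ((N : ℝ) ^ 2 / 8) ≤ ∑ i, ∑ k, F i k X} =
        ENNReal.ofReal (8 / (N : ℝ) ^ 2) * (ENNReal.ofReal ((N : ℝ) ^ 2 / 8) *
          Measure.pi μ {X | ENNReal.ofReal ((N : ℝ) ^ 2 / 8) ≤ ∑ i, ∑ k, F i k X}) := by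
      rw [← mul_assoc, ← ENNReal.ofReal_mul (by positivity)]
      have : 8 / (N : ℝ) ^ 2 * ((N : ℝ) ^ 2 / 8) = 1 := by field_simp
      rw [this, ENNReal.ofReal_one, one_mul]
    rw [h5]
    refine (mul_le_mul_right h4 _).trans ?_
    rw [← ENNReal.ofReal_mul (by positivity)]
    refine ENNReal.ofReal_le_ofReal (le_of_eq ?_)
    field_simp
    norm_num
  refine (measure_mono hsub).trans ((measure_union_le _ _).trans
    ((add_le_add (h3 μ hμ) hP).trans ?_))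
  rw [← ENNReal.ofReal_add (by positivity) (by positivity)]
  refine ENNReal.ofReal_le_ofReal ?_
  have h6 : ((N : ℝ) ^ 20)⁻¹ ≤ (nu N)⁻¹ := by
    refine inv_anti₀ hν0 ?_
    calc nu N ≤ nu N ^ 256 := le_self_pow₀ hν (by norm_num)
      _ = N := nu_pow N
      _ ≤ (N : ℝ) ^ 20 := le_self_pow₀ hN1 (by norm_num)
  linarith

end Pool.Agent.N229.HF
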