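import Pool.Agent.N229.RL.Core

/-!
# The small powers of `N`
-/

set_option autoImplicit false

open Filter Topology MeasureTheory Set

namespace Pool.Agent.N229.HF

open Pool.Agent.N229.RL

/-- `N ^ (1 / 256)` -/
noncomputable def nu (N : ℕ) : ℝ := (N : ℝ) ^ (1 / 256 : ℝ)

theorem nu_nonneg (N : ℕ) : 0 ≤ nu N := Real.rpow_nonneg (Nat.cast_nonneg N) _

theorem nu_pow (N : ℕ) : nu N ^ 256 = N := by
  unfold nu
  rw [← Real.rpow_natCast, ← Real.rpow_mul (Nat.cast_nonneg N)]
  norm_num

theorem nu_ge {N : ℕ} (hN : 1 ≤ N) : 1 ≤ nu N := by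
  unfold nu
  exact Real.one_le_rpow (by exact_mod_cast hN) (by norm_num)

theorem ev_nu (C : ℝ) (n : ℕ) : ∀ᶠ N : ℕ in atTop, C * Real.log N ^ n ≤ nu N := by
  filter_upwards [ev_log (|C| ^ 256) (256 * n), ev_log_ge 0] with N h1 h2
  have h3 : (|C| * Real.log N ^ n) ^ 256 ≤ nu N ^ 256 := by
    rw [nu_pow, mul_pow, ← pow_mul, mul_comm n 256]
    exact h1
  have h4 := le_of_pow_le_pow_left₀ (by norm_num) (nu_nonneg N) h3
  have h5 : C * Real.log N ^ n ≤ |C| * Real.log N ^ n := by
    have : 0 ≤ Real.log N ^ n := by positivity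
    exact mul_le_mul_of_nonneg_right (le_abs_self C) this
  exact h5.trans h4

/-- resampling one coordinate -/
theorem resample_fun {N : ℕ} (μ : Fin N → Measure ℂ) [∀ m, IsProbabilityMeasure (μ m)]
    {f : (Fin N → ℂ) → ENNReal} (hfm : Measurable f) (i : Fin N) :
    ∫⁻ X, f X ∂Measure.pi μ =
      ∫⁻ X, ∫⁻ x, f (Function.update X i x) ∂μ i ∂Measure.pi μ := by
  classical
  set g : (Fin N → ℂ) → ENNReal := fun c => ∫⁻ w, f (Function.update c i w) ∂μ i with hg
  have hgm : Measurable g := by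
    have h1 : Measurable fun q : (Fin N → ℂ) × ℂ => f (Function.update q.1 i q.2) := by
      refine hfm.comp ?_
      exact measurable_update'
    exact h1.lintegral_prod_right'
  rw [lintegral_eq_lmarginal_univ (0 : Fin N → ℂ), lintegral_eq_lmarginal_univ (0 : Fin N → ℂ),
    lmarginal_erase' f hfm (Finset.mem_univ i), lmarginal_erase' g hgm (Finset.mem_univ i)]
  congr 1
  funext c
  simp only [hg, Function.update_idem]
  rw [lintegral_const, measure_univ, mul_one]

end Pool.Agent.N229.HF
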