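import Pool.Agent.N229.HF.Typ

/-!
# Local injectivity and the area of preimages
-/

set_option autoImplicit false

open Filter Topology MeasureTheory Set

namespace Pool.Agent.N229.HF

open Pool.Agent.N229.RL

/-- growth -/
theorem grw {f L : ℂ → ℂ} {p : ℂ} {r K : ℝ} (hK : 0 ≤ K) (hKr : K * r ≤ 1 / 8)
    (hd : ∀ w ∈ Metric.ball p r, HasDerivAt f (f w * L w) w)
    (hL : ∀ w ∈ Metric.ball p r, ‖L w‖ ≤ K) {w : ℂ} (hw : w ∈ Metric.ball p r) :
    ‖f w - f p‖ ≤ 2 * K * ‖w - p‖ * ‖f p‖ := by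
  have hr : 0 < r := lt_of_le_of_lt dist_nonneg hw
  have hwp : ‖w - p‖ < r := mem_ball_iff_norm.1 hw
  set γ : ℝ → ℂ := fun t => p + t * (w - p) with hγ
  have hγd : ∀ t : ℝ, HasDerivAt γ (w - p) t := by
    intro t
    have h1 : HasDerivAt (fun t : ℝ => (t : ℂ)) 1 t := Complex.ofRealCLM.hasDerivAt
    have h2 := (h1.mul_const (w - p)).const_add p
    simpa [hγ] using h2
  have hγb : ∀ t ∈ Icc (0 : ℝ) 1, γ t ∈ Metric.ball p r := by
    intro t ht
    rw [mem_ball_iff_norm, hγ]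
    simp only [add_sub_cancel_left]
    rw [norm_mul, Complex.norm_real, Real.norm_eq_abs, abs_of_nonneg ht.1]
    nlinarith [norm_nonneg (w - p), ht.2]
  have hφd : ∀ t ∈ Icc (0 : ℝ) 1, HasDerivAt (fun t => f (γ t)) (f (γ t) * L (γ t) * (w - p)) t := by
    intro t ht
    exact (hd _ (hγb t ht)).comp t (hγd t)
  have h0 : γ 0 = p := by simp [hγ]
  have h1 : γ 1 = w := by simp [hγ]
  have hb : ∀ t ∈ Ico (0 : ℝ) 1, ‖f (γ t) * L (γ t) * (w - p)‖ ≤
      (K * ‖w - p‖) * ‖f (γ t)‖ + 0 := by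
    intro t ht
    have := hL _ (hγb t ⟨ht.1, ht.2.le⟩)
    rw [norm_mul, norm_mul, add_zero]
    have e1 : ‖f (γ t)‖ * ‖L (γ t)‖ * ‖w - p‖ ≤ ‖f (γ t)‖ * K * ‖w - p‖ := by gcongr
    linarith
  have hg := norm_le_gronwallBound_of_norm_deriv_right_le (f := fun t => f (γ t))
    (f' := fun t => f (γ t) * L (γ t) * (w - p)) (δ := ‖f p‖) (K := K * ‖w - p‖) (ε := 0)
    (a := 0) (b := 1) (fun t ht => (hφd t ht).continuousAt.continuousWithinAt)
    (fun t ht => (hφd t ⟨ht.1, ht.2.le⟩).hasDerivWithinAt) (by simp only [h0]; exact le_rfl) hb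
  have hsmall : K * ‖w - p‖ ≤ 1 / 8 := by
    refine le_trans ?_ hKr
    gcongr
  have hbd : ∀ t ∈ Icc (0 : ℝ) 1, ‖f (γ t)‖ ≤ 2 * ‖f p‖ := by
    intro t ht
    have h2 := hg t ht
    rw [gronwallBound_ε0] at h2
    refine h2.trans ?_
    have h3 : K * ‖w - p‖ * (t - 0) ≤ 1 / 8 := by
      have : 0 ≤ K * ‖w - p‖ := by positivity
      nlinarith [ht.2]
    have h4 : Real.exp (K * ‖w - p‖ * (t - 0)) ≤ 2 := by
      refine (Real.exp_le_exp.2 h3).trans ?_
      have h5 : Real.exp (1 / 8) ≤ Real.exp (1 / 8) ^ 8 := by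
        refine le_self_pow₀ (Real.one_le_exp (by norm_num)) (by norm_num)
      by_contra hcon
      rw [not_le] at hcon
      have h6 : (2 : ℝ) ^ 8 < Real.exp (1 / 8) ^ 8 := pow_lt_pow_left₀ hcon (by norm_num) (by norm_num)
      rw [← Real.exp_nat_mul] at h6
      norm_num at h6
      have := Real.exp_one_lt_d9
      linarith
    have := norm_nonneg (f p)
    nlinarith
  have hfin := norm_image_sub_le_of_norm_deriv_le_segment' (f := fun t => f (γ t))
    (f' := fun t => f (γ t) * L (γ t) * (w - p)) (a := 0) (b := 1)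
    (C := 2 * K * ‖w - p‖ * ‖f p‖) (fun t ht => (hφd t ht).hasDerivWithinAt)
    (fun t ht => by
      have e1 := hb t ht
      have e2 := hbd t ⟨ht.1, ht.2.le⟩
      rw [add_zero] at e1
      refine e1.trans ?_
      have : 0 ≤ K * ‖w - p‖ := by positivity
      nlinarith) 1 ⟨zero_le_one, le_rfl⟩
  simp only [h0, h1] at hfin
  linarith

theorem inj_of_deriv {f f' : ℂ → ℂ} {p l : ℂ} {r : ℝ} (hl : l ≠ 0)
    (hd : ∀ w ∈ Metric.ball p r, HasDerivAt f (f' w) w)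
    (h : ∀ w ∈ Metric.ball p r, ‖f' w - l‖ ≤ ‖l‖ / 2) : InjOn f (Metric.ball p r) := by
  intro x hx y hy hxy
  have hg : ∀ w ∈ Metric.ball p r, HasDerivWithinAt (fun w => f w - l * w) (f' w - l)
      (Metric.ball p r) w := by
    intro w hw
    have h1 := (hd w hw).fun_sub ((hasDerivAt_id w).const_mul l)
    have h2 : HasDerivAt (fun w => f w - l * w) (f' w - l) w := by
      rw [mul_one] at h1
      exact h1
    exact h2.hasDerivWithinAt
  have h1 := (convex_ball p r).norm_image_sub_le_of_norm_hasDerivWithin_le hg h hx hy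
  rw [hxy] at h1
  have h2 : f y - l * y - (f y - l * x) = l * (x - y) := by ring
  rw [h2, norm_mul, norm_sub_rev y x] at h1
  have hl0 : 0 < ‖l‖ := norm_pos_iff.2 hl
  have h3 : ‖x - y‖ ≤ 0 := by
    by_contra hcon
    rw [not_le] at hcon
    nlinarith
  exact sub_eq_zero.1 (norm_le_zero_iff.1 h3)

theorem loc_area {f L : ℂ → ℂ} {p l : ℂ} {r : ℝ} (hl : l ≠ 0) (hf : f p ≠ 0)
    (hlr : ‖l‖ * r ≤ 1 / 16)
    (hd : ∀ w ∈ Metric.ball p r, HasDerivAt f (f w * L w) w)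
    (hL : ∀ w ∈ Metric.ball p r, ‖L w - l‖ ≤ ‖l‖ / 8) {B : Set ℂ} (hB : MeasurableSet B)
    (hfm : Measurable f) :
    volume {w | w ∈ Metric.ball p r ∧ f w ∈ B} ≤ ENNReal.ofReal (4 / ‖l‖ ^ 2) * al B := by
  have hl0 : 0 < ‖l‖ := norm_pos_iff.2 hl
  have hf0 : 0 < ‖f p‖ := norm_pos_iff.2 hf
  have hLK : ∀ w ∈ Metric.ball p r, ‖L w‖ ≤ 9 / 8 * ‖l‖ := by
    intro w hw
    have h1 := hL w hw
    have h2 : ‖L w‖ ≤ ‖l‖ + ‖L w - l‖ := by
      have : L w = l + (L w - l) := by ring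
      nth_rewrite 1 [this]
      exact norm_add_le _ _
    linarith
  have hLk : ∀ w ∈ Metric.ball p r, 7 / 8 * ‖l‖ ≤ ‖L w‖ := by
    intro w hw
    have h1 := hL w hw
    have h2 : ‖l‖ ≤ ‖L w‖ + ‖L w - l‖ := by
      have : l = L w - (L w - l) := by ring
      nth_rewrite 1 [this]
      exact norm_sub_le _ _
    linarith
  have hgr : ∀ w ∈ Metric.ball p r, ‖f w - f p‖ ≤ 9 / 64 * ‖f p‖ := by
    intro w hw
    have h1 := grw (K := 9 / 8 * ‖l‖) (by positivity) (by linarith) hd hLK hw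
    have h2 : ‖w - p‖ < r := mem_ball_iff_norm.1 hw
    have h3 : ‖l‖ * ‖w - p‖ ≤ 1 / 16 := le_trans (by gcongr) hlr
    refine h1.trans ?_
    have : 2 * (9 / 8 * ‖l‖) * ‖w - p‖ = 9 / 4 * (‖l‖ * ‖w - p‖) := by ring
    rw [this]
    nlinarith
  have hne : ∀ w ∈ Metric.ball p r, f w ≠ 0 := by
    intro w hw h0
    have := hgr w hw
    rw [h0, zero_sub, norm_neg] at this
    linarith
  have hinj : InjOn f (Metric.ball p r) := by
    refine inj_of_deriv (l := f p * l) (mul_ne_zero hf hl) hd fun w hw => ?_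
    have h1 : f w * L w - f p * l = (f w - f p) * L w + f p * (L w - l) := by ring
    rw [h1, norm_mul]
    refine (norm_add_le _ _).trans ?_
    rw [norm_mul, norm_mul]
    have h2 := hgr w hw
    have h3 := hLK w hw
    have h4 := hL w hw
    have h5 : ‖f w - f p‖ * ‖L w‖ ≤ (9 / 64 * ‖f p‖) * (9 / 8 * ‖l‖) := by gcongr
    have h6 : ‖f p‖ * ‖L w - l‖ ≤ ‖f p‖ * (‖l‖ / 8) := by gcongr
    have h7 : 0 < ‖f p‖ * ‖l‖ := by positivity
    nlinarith
  have hVm : MeasurableSet {w | w ∈ Metric.ball p r ∧ f w ∈ B} :=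
    Metric.isOpen_ball.measurableSet.inter (hfm hB)
  have harea := Pool.Agent.Y333.TY.MultX.area_mult f (U := Metric.ball p r)
    (V := {w | w ∈ Metric.ball p r ∧ f w ∈ B}) Metric.isOpen_ball
    (fun w hw => (hd w hw).differentiableAt.differentiableWithinAt) hVm (fun w hw => hw.1) 1
    (fun w => by
      rw [Nat.cast_one, Set.encard_le_one_iff]
      rintro x y ⟨hx, hx2⟩ ⟨hy, hy2⟩
      exact hinj hx.1 hy.1 (hx2.trans hy2.symm))
    (B.indicator fun w => ENNReal.ofReal ((‖w‖ ^ 2)⁻¹))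
    ((by fun_prop : Measurable fun w : ℂ => ENNReal.ofReal ((‖w‖ ^ 2)⁻¹)).indicator hB)
  rw [lintegral_indicator hB, Nat.cast_one, mul_one] at harea
  have h1 : ENNReal.ofReal (‖l‖ ^ 2 / 4) * volume {w | w ∈ Metric.ball p r ∧ f w ∈ B} ≤ al B := by
    refine le_trans ?_ harea
    rw [← setLIntegral_const]
    refine setLIntegral_mono' hVm fun w hw => ?_
    have hw1 := hw.1
    rw [(hd w hw1).deriv, indicator_of_mem hw.2, ← ENNReal.ofReal_mul (by positivity)]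
    refine ENNReal.ofReal_le_ofReal ?_
    have h2 : 0 < ‖f w‖ := norm_pos_iff.2 (hne w hw1)
    have h3 : ‖f w * L w‖ ^ 2 * (‖f w‖ ^ 2)⁻¹ = ‖L w‖ ^ 2 := by
      rw [norm_mul]
      field_simp
    rw [h3]
    have h4 := hLk w hw1
    nlinarith
  have h5 : ENNReal.ofReal (4 / ‖l‖ ^ 2) * (ENNReal.ofReal (‖l‖ ^ 2 / 4) *
      volume {w | w ∈ Metric.ball p r ∧ f w ∈ B}) =
      volume {w | w ∈ Metric.ball p r ∧ f w ∈ B} := by
    rw [← mul_assoc, ← ENNReal.ofReal_mul (by positivity)]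
    have : 4 / ‖l‖ ^ 2 * (‖l‖ ^ 2 / 4) = 1 := by field_simp
    rw [this, ENNReal.ofReal_one, one_mul]
  rw [← h5]
  exact mul_le_mul_right h1 _

theorem log_near {x y : ℂ} (hx : x ≠ 0) (h : ‖y - x‖ ≤ ‖x‖ / 2) :
    y ≠ 0 ∧ |Real.log ‖y‖ - Real.log ‖x‖| ≤ 1 := by
  have hx0 : 0 < ‖x‖ := norm_pos_iff.2 hx
  have h1 : ‖x‖ / 2 ≤ ‖y‖ := by
    have := norm_sub_norm_le x (x - y)
    have h2 : x - (x - y) = y := by ring
    rw [h2, norm_sub_rev x y] at this
    linarith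
  have hy0 : 0 < ‖y‖ := by linarith
  refine ⟨norm_pos_iff.1 hy0, ?_⟩
  have h2 : ‖y‖ ≤ 2 * ‖x‖ := by
    have := norm_add_le x (y - x)
    rw [add_sub_cancel] at this
    linarith
  have h3 := Real.log_le_log (by positivity) h1
  have h4 := Real.log_le_log hy0 h2
  rw [Real.log_div hx0.ne' (by norm_num)] at h3
  rw [Real.log_mul (by norm_num) hx0.ne'] at h4
  have h5 : Real.log 2 ≤ 1 := by
    have := Real.log_two_lt_d9
    linarith
  rw [abs_le]
  constructor <;> linarith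

end Pool.Agent.N229.HF
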