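import Pool.Agent.N229.HF.Pair
import Pool.Agent.N229.RL.Clos

/-!
# The bad events are closed
-/

set_option autoImplicit false

open Filter Topology MeasureTheory Set

namespace Pool.Agent.N229.HF

open Pool.Agent.N229.RL

variable {N : ℕ}

theorem cont_gg2 {a : ℂ} {e : Fin N → ℤ} {J : Finset (Fin N)} {U : Set ((Fin N → ℂ) × ℂ)}
    {φ : (Fin N → ℂ) × ℂ → ℂ} (hφ : ContinuousOn φ U)
    (h : ∀ x ∈ U, ∀ j ∈ J, φ x - x.1 j ≠ 0) :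
    ContinuousOn (fun x : (Fin N → ℂ) × ℂ => gg a e x.1 J (φ x)) U := by
  unfold gg
  refine ContinuousOn.mul continuousOn_const (continuousOn_finset_prod _ fun j hj => ?_)
  exact ContinuousOn.zpow₀ (hφ.sub (by fun_prop)) _ fun x hx => Or.inl (h x hx j hj)

theorem cont_SS2 {e : Fin N → ℤ} {J : Finset (Fin N)} {U : Set ((Fin N → ℂ) × ℂ)}
    {φ : (Fin N → ℂ) × ℂ → ℂ} (hφ : ContinuousOn φ U)
    (h : ∀ x ∈ U, ∀ j ∈ J, φ x - x.1 j ≠ 0) :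
    ContinuousOn (fun x : (Fin N → ℂ) × ℂ => SS e x.1 J (φ x)) U := by
  unfold SS
  refine continuousOn_finset_sum _ fun j hj => ?_
  exact ContinuousOn.div continuousOn_const (hφ.sub (by fun_prop)) fun x hx => h x hx j hj

theorem closed_near {J : Finset (Fin N)} {U : Set ((Fin N → ℂ) × ℂ)} (hU : IsClosed U)
    {φ : (Fin N → ℂ) × ℂ → ℂ} (hφ : ContinuousOn φ U) (t : ℝ) :
    IsClosed {x | x ∈ U ∧ ∃ j ∈ J, ‖φ x - x.1 j‖ ≤ t} := by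
  have h1 : {x | x ∈ U ∧ ∃ j ∈ J, ‖φ x - x.1 j‖ ≤ t} =
      ⋃ j ∈ J, (U ∩ (fun x : (Fin N → ℂ) × ℂ => ‖φ x - x.1 j‖) ⁻¹' Iic t) := by
    ext x
    simp only [mem_ofPred_eq, mem_iUnion, mem_inter_iff, mem_preimage, mem_Iic, exists_prop]
    constructor
    · rintro ⟨h1, j, h2, h3⟩
      exact ⟨j, h2, h1, h3⟩
    · rintro ⟨j, h2, h1, h3⟩
      exact ⟨h1, j, h2, h3⟩
  rw [h1]
  refine Set.Finite.isClosed_biUnion (Finset.finite_toSet _) fun j _ => ?_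
  exact (hφ.sub (by fun_prop)).norm.preimage_isClosed_of_isClosed hU isClosed_Iic

theorem closed_far {J : Finset (Fin N)} {U : Set ((Fin N → ℂ) × ℂ)} (hU : IsClosed U)
    {φ : (Fin N → ℂ) × ℂ → ℂ} (hφ : ContinuousOn φ U) (t : ℝ) :
    IsClosed {x | x ∈ U ∧ ∀ j ∈ J, t ≤ ‖φ x - x.1 j‖} := by
  have h1 : {x | x ∈ U ∧ ∀ j ∈ J, t ≤ ‖φ x - x.1 j‖} =
      U ∩ ⋂ j ∈ J, (U ∩ (fun x : (Fin N → ℂ) × ℂ => ‖φ x - x.1 j‖) ⁻¹' Ici t) := by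
    ext x
    simp only [mem_ofPred_eq, mem_iInter, mem_inter_iff, mem_preimage, mem_Ici]
    constructor
    · rintro ⟨h1, h2⟩
      exact ⟨h1, fun j hj => ⟨h1, h2 j hj⟩⟩
    · rintro ⟨h1, h2⟩
      exact ⟨h1, fun j hj => (h2 j hj).2⟩
  rw [h1]
  refine hU.inter (isClosed_biInter fun j _ => ?_)
  exact (hφ.sub (by fun_prop)).norm.preimage_isClosed_of_isClosed hU isClosed_Ici

theorem closed_norm {U : Set ((Fin N → ℂ) × ℂ)} (hU : IsClosed U)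
    {φ : (Fin N → ℂ) × ℂ → ℂ} (hφ : ContinuousOn φ U) (s t : ℝ) :
    IsClosed {x | x ∈ U ∧ (s ≤ ‖φ x‖ ∧ ‖φ x‖ ≤ t)} :=
  hφ.norm.preimage_isClosed_of_isClosed hU (isClosed_Icc (a := s) (b := t))

theorem closed_ge {U : Set ((Fin N → ℂ) × ℂ)} (hU : IsClosed U)
    {φ : (Fin N → ℂ) × ℂ → ℂ} (hφ : ContinuousOn φ U) (s : ℝ) :
    IsClosed {x | x ∈ U ∧ s ≤ ‖φ x‖} :=
  hφ.norm.preimage_isClosed_of_isClosed hU (isClosed_Ici (a := s))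

theorem closed_Bt {Rp : ℝ} {a : ℂ} {e : Fin N → ℤ} {J : Finset (Fin N)} (hN : 0 < N)
    {U : Set ((Fin N → ℂ) × ℂ)} (hU : IsClosed U)
    {φ : (Fin N → ℂ) × ℂ → ℂ} (hφ : ContinuousOn φ U) :
    IsClosed {x | x ∈ U ∧ φ x ∈ Bt Rp a e x.1 J} := by
  have hN0 : (0 : ℝ) < N := by exact_mod_cast hN
  have h0 := closed_norm hU hφ ((N : ℝ) ^ 4)⁻¹ Rp
  have h1 := closed_near (J := J) h0 (hφ.mono fun x hx => hx.1) ((N : ℝ) ^ 4)⁻¹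
  have h2 := closed_far (J := J) h0 (hφ.mono fun x hx => hx.1) ((N : ℝ) ^ 4)⁻¹
  have h3 : ContinuousOn (fun x : (Fin N → ℂ) × ℂ => gg a e x.1 J (φ x))
      {x | x ∈ {x | x ∈ U ∧ (((N : ℝ) ^ 4)⁻¹ ≤ ‖φ x‖ ∧ ‖φ x‖ ≤ Rp)} ∧
        ∀ j ∈ J, ((N : ℝ) ^ 4)⁻¹ ≤ ‖φ x - x.1 j‖} :=
    cont_gg2 (hφ.mono fun x hx => hx.1.1) fun x hx j hj =>
      norm_pos_iff.1 (lt_of_lt_of_le (by positivity) (hx.2 j hj))
  have h4 := closed_norm h2 h3 ((N : ℝ) ^ 6)⁻¹ ((N : ℝ) ^ 6)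
  have h5 : {x | x ∈ U ∧ φ x ∈ Bt Rp a e x.1 J} =
      {x | x ∈ {x | x ∈ U ∧ (((N : ℝ) ^ 4)⁻¹ ≤ ‖φ x‖ ∧ ‖φ x‖ ≤ Rp)} ∧
        ∃ j ∈ J, ‖φ x - x.1 j‖ ≤ ((N : ℝ) ^ 4)⁻¹} ∪
      {x | x ∈ {x | x ∈ {x | x ∈ U ∧ (((N : ℝ) ^ 4)⁻¹ ≤ ‖φ x‖ ∧ ‖φ x‖ ≤ Rp)} ∧
        ∀ j ∈ J, ((N : ℝ) ^ 4)⁻¹ ≤ ‖φ x - x.1 j‖} ∧
        (((N : ℝ) ^ 6)⁻¹ ≤ ‖gg a e x.1 J (φ x)‖ ∧ ‖gg a e x.1 J (φ x)‖ ≤ (N : ℝ) ^ 6)} := by
    ext x
    constructor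
    · rintro ⟨k1, k2, k3, k4 | ⟨k4, k5, k6⟩⟩
      · exact Or.inl ⟨⟨k1, k2, k3⟩, k4⟩
      · exact Or.inr ⟨⟨⟨k1, k2, k3⟩, k4⟩, k5, k6⟩
    · rintro (⟨⟨k1, k2, k3⟩, k4⟩ | ⟨⟨⟨k1, k2, k3⟩, k4⟩, k5, k6⟩)
      · exact ⟨k1, k2, k3, Or.inl k4⟩
      · exact ⟨k1, k2, k3, Or.inr ⟨k4, k5, k6⟩⟩
  rw [h5]
  exact h1.union h4

/-- the basic closed set -/
def Ua (R Rp η : ℝ) (i k : Fin N) : Set ((Fin N → ℂ) × ℂ) :=
  {x | (∀ j, ‖x.1 j‖ ≤ R) ∧ (‖x.2‖ ≤ Rp ∧ (∀ j ∈ J2 i k, ((N : ℝ) ^ 4)⁻¹ ≤ ‖x.2 - x.1 j‖) ∧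
    η ≤ ‖x.2 - x.1 i‖ ∧ η ≤ ‖x.2 - x.1 k‖ ∧ η ≤ ‖x.1 i - x.1 k‖)}

theorem closed_Ua (R Rp η : ℝ) (i k : Fin N) : IsClosed (Ua R Rp η i k) := by
  have h1 : IsClosed {x : (Fin N → ℂ) × ℂ | ∀ j, ‖x.1 j‖ ≤ R} := by
    simp only [Set.ofPred_forall]
    exact isClosed_iInter fun i => isClosed_le (by fun_prop) continuous_const
  have h2 : IsClosed {x : (Fin N → ℂ) × ℂ | ‖x.2‖ ≤ Rp} :=
    isClosed_le (by fun_prop) continuous_const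
  have h3 : IsClosed {x : (Fin N → ℂ) × ℂ | ∀ j ∈ J2 i k, ((N : ℝ) ^ 4)⁻¹ ≤ ‖x.2 - x.1 j‖} := by
    simp only [Set.ofPred_forall]
    exact isClosed_iInter fun j => isClosed_iInter fun _ => isClosed_le continuous_const (by fun_prop)
  have h4 : IsClosed {x : (Fin N → ℂ) × ℂ | η ≤ ‖x.2 - x.1 i‖} :=
    isClosed_le continuous_const (by fun_prop)
  have h5 : IsClosed {x : (Fin N → ℂ) × ℂ | η ≤ ‖x.2 - x.1 k‖} :=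
    isClosed_le continuous_const (by fun_prop)
  have h6 : IsClosed {x : (Fin N → ℂ) × ℂ | η ≤ ‖x.1 i - x.1 k‖} :=
    isClosed_le continuous_const (by fun_prop)
  exact h1.inter (h2.inter (h3.inter (h4.inter (h5.inter h6))))

theorem Ua_pos {R Rp η : ℝ} (hη : 0 < η) {i k : Fin N} {x : (Fin N → ℂ) × ℂ}
    (hx : x ∈ Ua R Rp η i k) (j : Fin N) : x.2 - x.1 j ≠ 0 := by
  have hN : 0 < N := j.pos
  have hN0 : (0 : ℝ) < N := by exact_mod_cast hN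
  obtain ⟨-, -, h1, h2, h3, -⟩ := hx
  by_cases hi : j = i
  · rw [hi]
    exact norm_pos_iff.1 (hη.trans_le h2)
  by_cases hk : j = k
  · rw [hk]
    exact norm_pos_iff.1 (hη.trans_le h3)
  exact norm_pos_iff.1 (lt_of_lt_of_le (by positivity) (h1 j (mem_J2.2 ⟨hk, hi⟩)))

theorem closed_Ev {R Rp η : ℝ} (hη : 0 < η) (e : Fin N → ℤ) (a : ℂ) (i k : Fin N) :
    IsClosed (Ev R Rp η e a i k) := by
  have hN : 0 < N := i.pos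
  have hN0 : (0 : ℝ) < N := by exact_mod_cast hN
  set U := Ua (N := N) R Rp η i k with hUdef
  have hU : IsClosed U := closed_Ua R Rp η i k
  have hsnd : ContinuousOn (fun x : (Fin N → ℂ) × ℂ => x.2) U := by fun_prop
  have hS : ContinuousOn (fun x : (Fin N → ℂ) × ℂ => SS e x.1 Finset.univ x.2) U :=
    cont_SS2 hsnd fun x hx j _ => Ua_pos hη hx j
  have hv : ContinuousOn (fun x : (Fin N → ℂ) × ℂ => gg a e x.1 Finset.univ x.2) U :=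
    cont_gg2 hsnd fun x hx j _ => Ua_pos hη hx j
  -- the critical points
  set U1 : Set ((Fin N → ℂ) × ℂ) := {x | x ∈ U ∧ SS e x.1 Finset.univ x.2 = 0} with hU1
  have hU1c : IsClosed U1 := hS.preimage_isClosed_of_isClosed hU (isClosed_singleton (x := (0 : ℂ)))
  have hv1 : ContinuousOn (fun x : (Fin N → ℂ) × ℂ => gg a e x.1 Finset.univ x.2) U1 :=
    hv.mono fun x hx => hx.1
  set U2 : Set ((Fin N → ℂ) × ℂ) := {x | x ∈ U1 ∧ (((N : ℝ) ^ 4)⁻¹ ≤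
    ‖gg a e x.1 Finset.univ x.2‖ ∧ ‖gg a e x.1 Finset.univ x.2‖ ≤ Rp)} with hU2
  have hU2c : IsClosed U2 := closed_norm hU1c hv1 _ _
  set U3 : Set ((Fin N → ℂ) × ℂ) := {x | x ∈ U2 ∧ η ≤
    ‖gg a e x.1 Finset.univ x.2 - x.1 i‖} with hU3
  have hU3c : IsClosed U3 := closed_ge (φ := fun x => gg a e x.1 Finset.univ x.2 - x.1 i) hU2c
    ((hv1.mono fun x hx => hx.1).sub (by fun_prop)) _
  set U4 : Set ((Fin N → ℂ) × ℂ) := {x | x ∈ U3 ∧ η ≤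
    ‖gg a e x.1 Finset.univ x.2 - x.1 k‖} with hU4
  have hU4c : IsClosed U4 := closed_ge (φ := fun x => gg a e x.1 Finset.univ x.2 - x.1 k) hU3c
    ((hv1.mono fun x hx => hx.1.1).sub (by fun_prop)) _
  have hv4 : ContinuousOn (fun x : (Fin N → ℂ) × ℂ => gg a e x.1 Finset.univ x.2) U4 :=
    hv1.mono fun x hx => hx.1.1.1
  have hV1 := closed_near (J := J2 i k) hU4c hv4 ((N : ℝ) ^ 4)⁻¹
  set U5 : Set ((Fin N → ℂ) × ℂ) := {x | x ∈ U4 ∧ ∀ j ∈ J2 i k, ((N : ℝ) ^ 4)⁻¹ ≤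
    ‖gg a e x.1 Finset.univ x.2 - x.1 j‖} with hU5
  have hU5c : IsClosed U5 := closed_far (J := J2 i k) hU4c hv4 _
  have hv5 : ContinuousOn (fun x : (Fin N → ℂ) × ℂ => gg a e x.1 Finset.univ x.2) U5 :=
    hv4.mono fun x hx => hx.1
  have hw5 : ContinuousOn (fun x : (Fin N → ℂ) × ℂ =>
      gg a e x.1 Finset.univ (gg a e x.1 Finset.univ x.2)) U5 := by
    refine cont_gg2 hv5 fun x hx j _ => ?_
    by_cases hi : j = i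
    · rw [hi]
      exact norm_pos_iff.1 (hη.trans_le hx.1.1.2)
    by_cases hk : j = k
    · rw [hk]
      exact norm_pos_iff.1 (hη.trans_le hx.1.2)
    exact norm_pos_iff.1 (lt_of_lt_of_le (by positivity) (hx.2 j (mem_J2.2 ⟨hk, hi⟩)))
  have hV2 := closed_Bt (Rp := Rp) (a := a) (e := e) (J := J2 i k) hN hU5c hw5
  have himg : Ev R Rp η e a i k = Prod.fst '' ({x | x ∈ U4 ∧ ∃ j ∈ J2 i k,
      ‖gg a e x.1 Finset.univ x.2 - x.1 j‖ ≤ ((N : ℝ) ^ 4)⁻¹} ∪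
      {x | x ∈ U5 ∧ gg a e x.1 Finset.univ (gg a e x.1 Finset.univ x.2) ∈
        Bt Rp a e x.1 (J2 i k)}) := by
    ext X
    constructor
    · rintro ⟨h1, c, h2, h3, ⟨h4, h5, h6, h7⟩, h8⟩
      have hx4 : (X, c) ∈ U4 := ⟨⟨⟨⟨⟨h1, h2⟩, h3⟩, h4, h5⟩, h6⟩, h7⟩
      refine ⟨(X, c), ?_, rfl⟩
      rcases h8 with h8 | ⟨h8, h9⟩
      · exact Or.inl ⟨hx4, h8⟩
      · exact Or.inr ⟨⟨hx4, h8⟩, h9⟩
    · rintro ⟨⟨X', c⟩, h, rfl⟩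
      rcases h with ⟨⟨⟨⟨⟨⟨h1, h2⟩, h3⟩, h4, h5⟩, h6⟩, h7⟩, h8⟩ |
        ⟨⟨⟨⟨⟨⟨⟨h1, h2⟩, h3⟩, h4, h5⟩, h6⟩, h7⟩, h8⟩, h9⟩
      · exact ⟨h1, c, h2, h3, ⟨h4, h5, h6, h7⟩, Or.inl h8⟩
      · exact ⟨h1, c, h2, h3, ⟨h4, h5, h6, h7⟩, Or.inr ⟨h8, h9⟩⟩
  rw [himg]
  have hK : IsCompact ((Set.univ.pi fun _ : Fin N => Metric.closedBall (0 : ℂ) R) ×ˢ
      Metric.closedBall (0 : ℂ) Rp) :=
    (isCompact_univ_pi fun _ => isCompact_closedBall _ _).prod (isCompact_closedBall _ _)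
  have hTK := hK.of_isClosed_subset (hV1.union hV2) (by
    intro x hx
    have h1 : x ∈ U := by
      rcases hx with hx | hx
      · exact hx.1.1.1.1.1
      · exact hx.1.1.1.1.1.1
    refine ⟨fun j _ => ?_, ?_⟩
    · rw [mem_closedBall_zero_iff]
      exact h1.1 j
    · rw [mem_closedBall_zero_iff]
      exact h1.2.1)
  exact (hTK.image continuous_fst).isClosed

end Pool.Agent.N229.HF
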