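import Pool.Agent.N229.HF.Mod

/-!
# Concentration of the truncated sums, with a free scale
-/

set_option autoImplicit false

open Filter Topology MeasureTheory Set

namespace Pool.Agent.N229.HF

open Pool.Agent.N229.RL

variable {N : ℕ}

theorem c1g_part {D R B : ℝ} (hD : 0 ≤ D) (hN : 1 ≤ N) (μ : Fin N → Measure ℂ) (e : Fin N → ℤ)
    (J : Finset (Fin N)) (z : ℂ) {τ M' : ℝ} (p : ℂ →L[ℝ] ℝ) (hμ : ∀ i, Dens (μ i) D R)
    (he : ∀ i, e i = 1 ∨ e i = -1) (hz : ‖z‖ + R ≤ B) (hτ : 0 < τ) (hτB : τ ≤ B)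
    (hM : τ⁻¹ ≤ M') (hvar : N * (2 * Real.pi * D * Real.log (B / τ)) / M' ^ 2 ≤ Real.log N)
    (hp : ∀ w, |p w| ≤ ‖w‖) :
    Measure.pi μ {X | 2 * Real.pi * D * N * τ + 26 * Real.log N * M' ≤
      |∑ j ∈ J, p ((e j : ℂ) * ht τ (z - X j)) - p (MGJ μ e J z)|} ≤
      2 * ENNReal.ofReal ((N : ℝ) ^ 25)⁻¹ := by
  have hpi := Real.pi_pos
  have hM0 : 0 < M' := (inv_pos.2 hτ).trans_le hM
  have : ∀ i, IsProbabilityMeasure (μ i) := fun i => (hμ i).prob
  have hN0 : (0 : ℝ) < N := by exact_mod_cast hN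
  have hlog : 0 ≤ Real.log N := Real.log_nonneg (by exact_mod_cast hN)
  have hlogB : 0 ≤ Real.log (B / τ) := Real.log_nonneg (by rw [le_div_iff₀ hτ]; linarith)
  have hnorm : ∀ i w, ‖(e i : ℂ) * ht τ w‖ ≤ τ⁻¹ := by
    intro i w
    rw [norm_mul, norm_e he, one_mul]
    exact norm_ht_le hτ w
  have hint : ∀ i, Integrable (fun x => (e i : ℂ) * ht τ (z - x)) (μ i) := fun i =>
    Integrable.of_bound (((measurable_ht _).comp (by fun_prop)).const_mul _).aestronglyMeasurable
      τ⁻¹ (Eventually.of_forall fun x => hnorm i _)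
  have hmeas : ∀ i, Measurable fun x : ℂ => p ((e i : ℂ) * ht τ (z - x)) := fun i =>
    p.continuous.measurable.comp
      (((measurable_ht _).comp (by fun_prop : Measurable fun x : ℂ => z - x)).const_mul _)
  have hmain := chern2 μ (Y := fun i x => if i ∈ J then p ((e i : ℂ) * ht τ (z - x)) else 0)
    (fun i => by
      by_cases hi : i ∈ J
      · simp only [hi, if_true]
        exact hmeas i
      · simp only [hi, if_false]
        exact measurable_const)
    (M := τ⁻¹) (M' := M')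
    (s := 2 * Real.pi * D * Real.log (B / τ)) (t := 26 * Real.log N * M')
    (b := 2 * Real.pi * D * N * τ) (u := 2 * Real.pi * D * N * τ + 26 * Real.log N * M')
    (c := p (MGJ μ e J z))
    (fun i x => by
      by_cases hi : i ∈ J
      · simp only [hi, if_true]
        exact (hp _).trans (hnorm i _)
      · simp only [hi, if_false, abs_zero]
        positivity) hM hM0
    (fun i => by
      by_cases hi : i ∈ J
      · simp only [hi, if_true]
        refine le_trans ?_ ((hμ i).second z hτ hτB hz)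
        refine integral_mono_of_nonneg (Eventually.of_forall fun x => by positivity) ?_
          (Eventually.of_forall fun x => ?_)
        · have hmm : Measurable fun w => ‖ht τ (z - w)‖ ^ 2 :=
            ((measurable_ht _).comp (by fun_prop : Measurable fun w : ℂ => z - w)).norm.pow_const 2
          refine Integrable.of_bound hmm.aestronglyMeasurable (τ⁻¹ ^ 2)
            (Eventually.of_forall fun x => ?_)
          rw [Real.norm_eq_abs, abs_of_nonneg (by positivity)]
          exact pow_le_pow_left₀ (norm_nonneg _) (norm_ht_le hτ _) 2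
        · have h8 := hp ((e i : ℂ) * ht τ (z - x))
          rw [norm_mul, norm_e he, one_mul] at h8
          exact sq_le_sq' (by have := (abs_le.1 h8).1; linarith) (abs_le.1 h8).2
      · simp only [hi, if_false]
        simp only [ne_eq, OfNat.ofNat_ne_zero, not_false_eq_true, zero_pow, integral_zero]
        positivity)
    (by
      have h8 : ∀ i, ∫ x, (if i ∈ J then p ((e i : ℂ) * ht τ (z - x)) else 0) ∂μ i =
          if i ∈ J then p (∫ x, (e i : ℂ) * ht τ (z - x) ∂μ i) else 0 := fun i => by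
        by_cases hi : i ∈ J
        · simp only [hi, if_true]
          exact p.integral_comp_comm (hint i)
        · simp [hi]
      simp_rw [h8]
      rw [sum_ite_J, ← map_sum, ← map_sub]
      refine (hp _).trans ?_
      unfold MGJ
      rw [← Finset.sum_sub_distrib]
      refine (norm_sum_le _ _).trans ?_
      have : ∀ i, ‖(∫ x, (e i : ℂ) * ht τ (z - x) ∂μ i) - (e i : ℂ) * GG (μ i) z‖ ≤
          2 * Real.pi * D * τ := by
        intro i
        rw [integral_const_mul, ← mul_sub, norm_mul, norm_e he, one_mul]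
        exact (hμ i).bias_cauchy z hτ
      refine (Finset.sum_le_sum fun i _ => this i).trans ?_
      rw [Finset.sum_const, nsmul_eq_mul]
      have h9 := card_J_le J
      have h10 : 0 ≤ 2 * Real.pi * D * τ := by positivity
      nlinarith)
    le_rfl
  have hset : {X : Fin N → ℂ | 2 * Real.pi * D * N * τ + 26 * Real.log N * M' ≤
      |∑ i, (if i ∈ J then p ((e i : ℂ) * ht τ (z - X i)) else 0) - p (MGJ μ e J z)|} =
      {X | 2 * Real.pi * D * N * τ + 26 * Real.log N * M' ≤
      |∑ j ∈ J, p ((e j : ℂ) * ht τ (z - X j)) - p (MGJ μ e J z)|} := by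
    ext X
    simp only [mem_ofPred_eq]
    rw [sum_ite_J J fun i => p ((e i : ℂ) * ht τ (z - X i))]
  rw [hset] at hmain
  refine hmain.trans (mul_le_mul_right (ENNReal.ofReal_le_ofReal (exp_log_pow hN 25 ?_)) 2)
  have e1 : 26 * Real.log N * M' / M' = 26 * Real.log N := by field_simp
  rw [e1]
  push_cast
  linarith

theorem c1g {D R B : ℝ} (hD : 0 ≤ D) (hN : 1 ≤ N) (μ : Fin N → Measure ℂ) (e : Fin N → ℤ)
    (J : Finset (Fin N)) (z : ℂ) {τ M' : ℝ} (hμ : ∀ i, Dens (μ i) D R)
    (he : ∀ i, e i = 1 ∨ e i = -1) (hz : ‖z‖ + R ≤ B) (hτ : 0 < τ) (hτB : τ ≤ B)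
    (hM : τ⁻¹ ≤ M') (hvar : N * (2 * Real.pi * D * Real.log (B / τ)) / M' ^ 2 ≤ Real.log N) :
    Measure.pi μ {X | 2 * (2 * Real.pi * D * N * τ + 26 * Real.log N * M') ≤
      ‖∑ j ∈ J, (e j : ℂ) * ht τ (z - X j) - MGJ μ e J z‖} ≤
      ENNReal.ofReal (4 * ((N : ℝ) ^ 25)⁻¹) := by
  set u : ℝ := 2 * Real.pi * D * N * τ + 26 * Real.log N * M' with hu
  have e2 := c1g_part hD hN μ e J z Complex.reCLM hμ he hz hτ hτB hM hvar
    (fun w => Complex.abs_re_le_norm w)
  have e3 := c1g_part hD hN μ e J z Complex.imCLM hμ he hz hτ hτB hM hvar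
    (fun w => Complex.abs_im_le_norm w)
  rw [← hu] at e2 e3
  have hsub : {X : Fin N → ℂ | 2 * u ≤
      ‖∑ j ∈ J, (e j : ℂ) * ht τ (z - X j) - MGJ μ e J z‖} ⊆
      {X | u ≤ |∑ j ∈ J, Complex.reCLM ((e j : ℂ) * ht τ (z - X j)) -
        Complex.reCLM (MGJ μ e J z)|} ∪
      {X | u ≤ |∑ j ∈ J, Complex.imCLM ((e j : ℂ) * ht τ (z - X j)) -
        Complex.imCLM (MGJ μ e J z)|} := by
    intro X hX
    have h5 := hX.trans (Complex.norm_le_abs_re_add_abs_im _)
    have h6 : (∑ j ∈ J, (e j : ℂ) * ht τ (z - X j) - MGJ μ e J z).re =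
        ∑ j ∈ J, Complex.reCLM ((e j : ℂ) * ht τ (z - X j)) - Complex.reCLM (MGJ μ e J z) := by
      rw [← map_sum, ← map_sub]
      rfl
    have h7 : (∑ j ∈ J, (e j : ℂ) * ht τ (z - X j) - MGJ μ e J z).im =
        ∑ j ∈ J, Complex.imCLM ((e j : ℂ) * ht τ (z - X j)) - Complex.imCLM (MGJ μ e J z) := by
      rw [← map_sum, ← map_sub]
      rfl
    rw [h6, h7] at h5
    by_cases h8 : u ≤ |∑ j ∈ J, Complex.reCLM ((e j : ℂ) * ht τ (z - X j)) -
        Complex.reCLM (MGJ μ e J z)|
    · left; exact h8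
    · right
      rw [not_le] at h8
      simp only [mem_ofPred_eq]
      linarith
  refine (measure_mono hsub).trans ((measure_union_le _ _).trans ((add_le_add e2 e3).trans ?_))
  rw [← two_mul, ← mul_assoc]
  have h2 : (2 * 2 : ENNReal) = ENNReal.ofReal 4 := by
    rw [show (2 * 2 : ENNReal) = 4 by norm_num]
    simp
  rw [h2, ← ENNReal.ofReal_mul (by norm_num)]

theorem c2g {D R B : ℝ} (hD : 0 ≤ D) (hN : 1 ≤ N) (μ : Fin N → Measure ℂ)
    (J : Finset (Fin N)) (z : ℂ) {τ M' : ℝ} (hμ : ∀ i, Dens (μ i) D R)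
    (hz : ‖z‖ + R ≤ B) (hτ : 0 < τ) (hτB : τ ≤ B)
    (hM : (τ ^ 2)⁻¹ ≤ M')
    (hvar : N * ((τ ^ 2)⁻¹ * (2 * Real.pi * D * Real.log (B / τ))) / M' ^ 2 ≤ Real.log N) :
    Measure.pi μ {X | N * (2 * Real.pi * D * Real.log (B / τ)) + 26 * Real.log N * M' ≤
      ∑ j ∈ J, ‖ht τ (z - X j)‖ ^ 2} ≤ ENNReal.ofReal (((N : ℝ) ^ 25)⁻¹) := by
  have hpi := Real.pi_pos
  have hM0 : 0 < M' := (inv_pos.2 (by positivity)).trans_le hM
  have : ∀ i, IsProbabilityMeasure (μ i) := fun i => (hμ i).prob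
  have hN0 : (0 : ℝ) < N := by exact_mod_cast hN
  have hlog : 0 ≤ Real.log N := Real.log_nonneg (by exact_mod_cast hN)
  have hlogB : 0 ≤ Real.log (B / τ) := Real.log_nonneg (by rw [le_div_iff₀ hτ]; linarith)
  set s₀ : ℝ := 2 * Real.pi * D * Real.log (B / τ) with hs₀
  have hs₀0 : 0 ≤ s₀ := by positivity
  have hmm : Measurable fun w => ‖ht τ (z - w)‖ ^ 2 :=
    ((measurable_ht _).comp (by fun_prop : Measurable fun w : ℂ => z - w)).norm.pow_const 2
  have hbd : ∀ w, ‖ht τ (z - w)‖ ^ 2 ≤ (τ ^ 2)⁻¹ := by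
    intro w
    rw [← inv_pow]
    exact pow_le_pow_left₀ (norm_nonneg _) (norm_ht_le hτ _) 2
  have hint : ∀ i, Integrable (fun w => ‖ht τ (z - w)‖ ^ 2) (μ i) := fun i =>
    Integrable.of_bound hmm.aestronglyMeasurable (τ ^ 2)⁻¹ (Eventually.of_forall fun x => by
      rw [Real.norm_eq_abs, abs_of_nonneg (by positivity)]
      exact hbd x)
  have hsec : ∀ i, ∫ w, ‖ht τ (z - w)‖ ^ 2 ∂μ i ≤ s₀ := fun i => (hμ i).second z hτ hτB hz
  have hmain := chern μ (Y := fun i x => if i ∈ J then ‖ht τ (z - x)‖ ^ 2 else 0)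
    (fun i => by
      by_cases hi : i ∈ J
      · simp only [hi, if_true]
        exact hmm
      · simp only [hi, if_false]
        exact measurable_const)
    (M := (τ ^ 2)⁻¹) (M' := M') (s := (τ ^ 2)⁻¹ * s₀) (t := 26 * Real.log N * M')
    (fun i x => by
      by_cases hi : i ∈ J
      · simp only [hi, if_true]
        rw [abs_of_nonneg (by positivity)]
        exact hbd x
      · simp only [hi, if_false, abs_zero]
        positivity) hM hM0
    (fun i => by
      by_cases hi : i ∈ J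
      · simp only [hi, if_true]
        refine le_trans ?_ (mul_le_mul_of_nonneg_left (hsec i) (by positivity : 0 ≤ (τ ^ 2)⁻¹))
        rw [← integral_const_mul]
        refine integral_mono_of_nonneg (Eventually.of_forall fun x => by positivity)
          ((hint i).const_mul _) (Eventually.of_forall fun x => ?_)
        simp only
        rw [sq]
        exact mul_le_mul_of_nonneg_right (hbd x) (by positivity)
      · simp only [hi, if_false]
        simp only [ne_eq, OfNat.ofNat_ne_zero, not_false_eq_true, zero_pow, integral_zero]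
        positivity)
  have hsub : {X : Fin N → ℂ | N * s₀ + 26 * Real.log N * M' ≤
      ∑ j ∈ J, ‖ht τ (z - X j)‖ ^ 2} ⊆
      {X | ∑ i, (∫ x, (if i ∈ J then ‖ht τ (z - x)‖ ^ 2 else 0) ∂μ i) +
        26 * Real.log N * M' ≤ ∑ i, if i ∈ J then ‖ht τ (z - X i)‖ ^ 2 else 0} := by
    intro X hX
    simp only [mem_ofPred_eq] at hX ⊢
    rw [sum_ite_J J fun i => ‖ht τ (z - X i)‖ ^ 2]
    have h1 : ∑ i, (∫ x, (if i ∈ J then ‖ht τ (z - x)‖ ^ 2 else 0) ∂μ i) ≤ N * s₀ := by
      have h2 : ∀ i ∈ (Finset.univ : Finset (Fin N)),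
          (∫ x, (if i ∈ J then ‖ht τ (z - x)‖ ^ 2 else 0) ∂μ i) ≤ s₀ := by
        intro i _
        by_cases hi : i ∈ J
        · simp only [hi, if_true]
          exact hsec i
        · simp [hi, hs₀0]
      refine (Finset.sum_le_sum h2).trans ?_
      simp
    linarith
  refine (measure_mono hsub).trans (hmain.trans
    (ENNReal.ofReal_le_ofReal (exp_log_pow hN 25 ?_)))
  have e1 : 26 * Real.log N * M' / M' = 26 * Real.log N := by field_simp
  rw [e1]
  push_cast
  linarith

end Pool.Agent.N229.HF
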