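import Pool.Agent.N229.HF.Mod

/-!
# The regular points of the window
-/

set_option autoImplicit false

open Filter Topology MeasureTheory Set

namespace Pool.Agent.N229.HF

open Pool.Agent.N229.RL

variable {N : ℕ}

/-- regular point -/
structure Gd (μ : Fin N → Measure ℂ) (e : Fin N → ℤ) (X : Fin N → ℂ) (J : Finset (Fin N)) (p : ℂ) :
    Prop where
  dist : ∀ j ∈ J, (nu N ^ 8 * Th μ e J p)⁻¹ ≤ ‖p - X j‖
  sq : Sq X J p ≤ Th μ e J p ^ 2 * nu N ^ 17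
  le : ‖SS e X J p‖ ≤ Th μ e J p * nu N ^ 9
  ge : Th μ e J p / nu N ^ 16 ≤ ‖SS e X J p‖

/-- a point near `z`, and the potential of the others in the window -/
theorem near_prob {D R Rp : ℝ} (hD : 0 ≤ D) (hR : 0 ≤ R) (hRp : 0 ≤ Rp) :
    ∃ C : ℝ, 0 < C ∧ ∀ᶠ N : ℕ in atTop, ∀ (μ : Fin N → Measure ℂ) (e : Fin N → ℤ)
      (J : Finset (Fin N)) (z : ℂ) (j : Fin N) (m L r : ℝ), (∀ i, Dens (μ i) D R) →
      (∀ i, e i = 1 ∨ e i = -1) → N ≤ 2 * (J.erase j).card → ‖z‖ ≤ Rp → j ∈ J → 0 ≤ r →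
      Real.log N ≤ L →
      Measure.pi μ {X | ‖z - X j‖ ≤ r ∧ |Po e X (J.erase j) z - m| ≤ L} ≤
        ENNReal.ofReal (C * r ^ 2 * L / nu N ^ 128) := by
  have hpi := Real.pi_pos
  obtain ⟨C, hC, hC'⟩ := ac1 hD hR hRp
  refine ⟨(D + 1) * Real.pi * C, by positivity, ?_⟩
  filter_upwards [hC', ev_log_ge 1, eventually_ge_atTop 1] with
    N h1 h2 hN μ e J z j m L r hμ he hJ hz hj hr hL
  have : ∀ i, IsProbabilityMeasure (μ i) := fun i => (hμ i).prob
  have hν := nu_ge hN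
  have hν0 : 0 < nu N := by linarith
  set P : Set (Fin N → ℂ) := {X | |Po e X (J.erase j) z - m| ≤ L} with hP
  have hPm : MeasurableSet P := measurableSet_le (meas_P e _ z m) measurable_const
  have hEm : MeasurableSet {X : Fin N → ℂ | ‖z - X j‖ ≤ r ∧ |Po e X (J.erase j) z - m| ≤ L} := by
    have a1 : MeasurableSet {X : Fin N → ℂ | ‖z - X j‖ ≤ r} :=
      measurableSet_le (meas_d z j) measurable_const
    exact a1.inter hPm
  rw [resample μ hEm j]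
  have hinner : ∀ X, μ j {x | Function.update X j x ∈
      {X : Fin N → ℂ | ‖z - X j‖ ≤ r ∧ |Po e X (J.erase j) z - m| ≤ L}} ≤
      P.indicator (fun _ => ENNReal.ofReal (D * (Real.pi * r ^ 2))) X := by
    intro X
    have hPo : ∀ x, Po e (Function.update X j x) (J.erase j) z = Po e X (J.erase j) z := by
      intro x
      unfold Po
      exact Finset.sum_congr rfl fun k hk => by
        rw [Function.update_of_ne (Finset.ne_of_mem_erase hk)]
    by_cases hX : X ∈ P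
    · rw [indicator_of_mem hX]
      refine ((hμ j).dens' _).trans ?_
      have hsub : {x | Function.update X j x ∈
          {X : Fin N → ℂ | ‖z - X j‖ ≤ r ∧ |Po e X (J.erase j) z - m| ≤ L}} ⊆
          Metric.closedBall z r := by
        rintro x ⟨hx, -⟩
        rw [Function.update_self] at hx
        rw [mem_closedBall_iff_norm']
        exact hx
      refine (mul_le_mul_right ((measure_mono hsub).trans (vol_ball_le z hr)) _).trans
        (le_of_eq ?_)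
      rw [← ENNReal.ofReal_mul hD]
    · rw [indicator_of_notMem hX]
      refine le_of_eq ?_
      have hemp : {x | Function.update X j x ∈
          {X : Fin N → ℂ | ‖z - X j‖ ≤ r ∧ |Po e X (J.erase j) z - m| ≤ L}} = ∅ := by
        ext x
        simp only [mem_ofPred_eq, mem_empty_iff_false, iff_false, not_and]
        intro _ h
        rw [hPo x] at h
        exact hX h
      rw [hemp, measure_empty]
  refine (lintegral_mono hinner).trans ?_
  rw [lintegral_indicator_const hPm]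
  have h3 := h1 μ e (J.erase j) z m L hμ he hJ hz hL
  refine (mul_le_mul_right h3 _).trans ?_
  rw [← ENNReal.ofReal_mul (by positivity)]
  refine ENNReal.ofReal_le_ofReal ?_
  have e1 : D * (Real.pi * r ^ 2) * (C * L / nu N ^ 128) =
      D * (Real.pi * C * (r ^ 2 * L / nu N ^ 128)) := by ring
  have e2 : (D + 1) * Real.pi * C * r ^ 2 * L / nu N ^ 128 =
      (D + 1) * (Real.pi * C * (r ^ 2 * L / nu N ^ 128)) := by ring
  rw [e1, e2]
  have hL0 : 0 ≤ L := by linarith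
  have h4 : 0 ≤ Real.pi * C * (r ^ 2 * L / nu N ^ 128) := by positivity
  nlinarith

theorem meas_R {μ : Fin N → Measure ℂ} {D R : ℝ} (hμ : ∀ i, Dens (μ i) D R)
    {E F : Set (Fin N → ℂ)} (h : ∀ X, (∀ j, ‖X j‖ ≤ R) → X ∈ E → X ∈ F) :
    Measure.pi μ E ≤ Measure.pi μ F := by
  refine measure_mono_ae ?_
  filter_upwards [ae_R hμ] with X hX hE
  exact h X hX hE

/-- a point near `z` in the window -/
theorem near_any {D R Rp : ℝ} {A : ℝ} (hA : 0 ≤ A) (hD : 0 ≤ D) (hR : 0 ≤ R) (hRp : 0 ≤ Rp) :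
    ∃ C : ℝ, 0 < C ∧ ∀ᶠ N : ℕ in atTop, ∀ (μ : Fin N → Measure ℂ) (e : Fin N → ℤ) (a : ℂ)
      (J : Finset (Fin N)) (z : ℂ) (r : ℝ), (∀ i, Dens (μ i) D R) →
      (∀ i, e i = 1 ∨ e i = -1) → a ≠ 0 → (Finset.univ \ J).card ≤ 2 → ‖z‖ ≤ Rp → 0 ≤ r →
      Measure.pi μ {X | Wi A a e X J z ∧ ∃ j ∈ J, ‖z - X j‖ ≤ r} ≤
        ENNReal.ofReal (C * r ^ 2 * Real.log N * nu N ^ 128) := by
  obtain ⟨C, hC, hC'⟩ := near_prob hD hR hRp
  refine ⟨C * (A + 5), by positivity, ?_⟩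
  filter_upwards [hC', ev_log_ge 1, eventually_ge_atTop 8, wi_erase (R := R) (Rp := Rp) (A := A)]
    with N h1 h2 hN hwe μ e a J z r hμ he ha hJ hz hr
  have : ∀ i, IsProbabilityMeasure (μ i) := fun i => (hμ i).prob
  have hN1 : 1 ≤ N := by omega
  have hν := nu_ge hN1
  have hν0 : 0 < nu N := by linarith
  have hNν : (N : ℝ) = nu N ^ 256 := (nu_pow N).symm
  set ν := nu N with hνdef
  set ℓ := Real.log N with hℓ
  have hcardJ : N ≤ J.card + 2 := by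
    have := Finset.card_sdiff_add_card_eq_card (Finset.subset_univ J)
    rw [Finset.card_univ, Fintype.card_fin] at this
    omega
  have hsub : Measure.pi μ {X | Wi A a e X J z ∧ ∃ j ∈ J, ‖z - X j‖ ≤ r} ≤
      Measure.pi μ (⋃ j ∈ J, {X : Fin N → ℂ | ‖z - X j‖ ≤ r ∧
        |Po e X (J.erase j) z - -Real.log ‖a‖| ≤ (A + 5) * ℓ}) := by
    refine meas_R hμ fun X hX hE => ?_
    obtain ⟨hW, j, hj, hjr⟩ := hE
    exact mem_iUnion₂.2 ⟨j, hj, hjr, hwe e a X J z j he ha hz hj (hX j) hW⟩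
  refine hsub.trans ((measure_biUnion_finset_le _ _).trans ?_)
  have h3 : ∀ j ∈ J, Measure.pi μ {X : Fin N → ℂ | ‖z - X j‖ ≤ r ∧
        |Po e X (J.erase j) z - -Real.log ‖a‖| ≤ (A + 5) * ℓ} ≤
        ENNReal.ofReal (C * r ^ 2 * ((A + 5) * ℓ) / ν ^ 128) := fun j hj =>
    h1 μ e J z j _ _ r hμ he (by rw [Finset.card_erase_of_mem hj]; omega) hz hj hr (by nlinarith)
  refine (Finset.sum_le_sum h3).trans ?_
  rw [Finset.sum_const, nsmul_eq_mul, ← ENNReal.ofReal_natCast, ← ENNReal.ofReal_mul (by positivity)]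
  refine ENNReal.ofReal_le_ofReal ?_
  have h4 := card_J_le J
  calc (J.card : ℝ) * (C * r ^ 2 * ((A + 5) * ℓ) / ν ^ 128) ≤
      N * (C * r ^ 2 * ((A + 5) * ℓ) / ν ^ 128) := by gcongr
    _ = C * (A + 5) * r ^ 2 * ℓ * ν ^ 128 := by
        rw [hNν]
        field_simp

theorem prob_Wi {D R Rp : ℝ} {A : ℝ} (hA : 1 ≤ A) (hD : 0 ≤ D) (hR : 0 ≤ R) (hRp : 0 ≤ Rp) :
    ∀ᶠ N : ℕ in atTop, ∀ (μ : Fin N → Measure ℂ) (e : Fin N → ℤ) (a : ℂ)
      (J : Finset (Fin N)) (z : ℂ), (∀ i, Dens (μ i) D R) →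
      (∀ i, e i = 1 ∨ e i = -1) → a ≠ 0 → (Finset.univ \ J).card ≤ 2 → ‖z‖ ≤ Rp →
      Measure.pi μ {X | Wi A a e X J z} ≤ ENNReal.ofReal ((nu N ^ 127)⁻¹) := by
  obtain ⟨C, hC, hC'⟩ := ac1 hD hR hRp
  filter_upwards [hC', ev_log_ge 1, eventually_ge_atTop 8, ev_nu (C * A) 1] with
    N h1 h2 hN v1 μ e a J z hμ he ha hJ hz
  rw [pow_one] at v1
  have hN1 : 1 ≤ N := by omega
  have hν := nu_ge hN1
  have hν0 : 0 < nu N := by linarith
  have hcardJ : N ≤ J.card + 2 := by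
    have := Finset.card_sdiff_add_card_eq_card (Finset.subset_univ J)
    rw [Finset.card_univ, Fintype.card_fin] at this
    omega
  refine (measure_mono fun X hX => Wi.po hX ha).trans ((h1 μ e J z (-Real.log ‖a‖)
    (A * Real.log N) hμ he (by omega) hz (by nlinarith)).trans (ENNReal.ofReal_le_ofReal ?_))
  rw [div_le_iff₀ (by positivity)]
  have : (nu N ^ 127)⁻¹ * nu N ^ 128 = nu N := by field_simp
  rw [this]
  linarith

theorem prob_bad {D R Rp : ℝ} {A : ℝ} (hA : 1 ≤ A) (hD : 0 ≤ D) (hR : 0 ≤ R) (hRp : 0 ≤ Rp) :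
    ∀ᶠ N : ℕ in atTop, ∀ (μ : Fin N → Measure ℂ) (e : Fin N → ℤ) (a : ℂ)
      (J : Finset (Fin N)) (z : ℂ), (∀ i, Dens (μ i) D R) →
      (∀ i, e i = 1 ∨ e i = -1) → a ≠ 0 → (Finset.univ \ J).card ≤ 2 → ‖z‖ ≤ Rp →
      Measure.pi μ {X | Wi A a e X J z ∧ ¬ Gd μ e X J z} ≤
        ENNReal.ofReal ((nu N ^ 142)⁻¹) := by
  have hpi := Real.pi_pos
  set B : ℝ := Rp + R + 1 with hB
  have hB1 : 1 ≤ B := by linarith
  obtain ⟨C₁, hC₁, hC₁'⟩ := near_any (A := A) (by linarith) hD hR hRp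
  obtain ⟨C₃, hC₃, hC₃'⟩ := ac3 hD hR hRp
  filter_upwards [hC₁', hC₃', log_B_div hB1 (k := 270) (by norm_num), ev_log_ge 1,
    eventually_ge_atTop 8, ev_nu (10 * Real.pi * D) 1, ev_nu C₁ 1, ev_nu (C₃ * 4 * A) 1,
    ev_nu (C₁ * 208 ^ 2) 3, ev_nu (10 * Real.pi * D * 208 ^ 2) 3,
    ev_nu (16 * Real.pi * D * 208) 1, ev_nu (2 + 4 * Real.pi * D + 52 + 208) 1,
    ev_nu (10 * Real.pi * D + 26) 1, ev_nu (2 * Real.pi * D + 2) 0, ev_nu 12 0] with
    N h1 h3 hlB hl1 hN v1 v2 v3 v4 v5 v6 v7 v8 v9 v10 μ e a J z hμ he ha hJ hz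
  rw [pow_one] at v1 v2 v3 v6 v7 v8
  rw [pow_zero, mul_one] at v9 v10
  have : ∀ i, IsProbabilityMeasure (μ i) := fun i => (hμ i).prob
  have hN1 : 1 ≤ N := by omega
  have hN0 : (0 : ℝ) < N := by exact_mod_cast hN1
  have hν := nu_ge hN1
  have hν0 : 0 < nu N := by linarith
  have hNν : (N : ℝ) = nu N ^ 256 := (nu_pow N).symm
  set ν := nu N with hνdef
  set ℓ := Real.log N with hℓ
  have hℓ0 : 0 < ℓ := by linarith
  have hcardJ : N ≤ J.card + 2 := by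
    have := Finset.card_sdiff_add_card_eq_card (Finset.subset_univ J)
    rw [Finset.card_univ, Fintype.card_fin] at this
    omega
  have hzB : ‖z‖ + R ≤ B := by linarith
  set Θ := Th μ e J z with hΘ
  have hΘ1 : ν ^ 128 ≤ Θ := Th_ge μ e J z
  have hΘ0 : 0 < Θ := lt_of_lt_of_le (by positivity) hΘ1
  have hpow : ∀ {m n : ℕ}, m ≤ n → ν ^ m ≤ ν ^ n := fun h => pow_le_pow_right₀ hν h
  have hΘ2 : Θ ≤ ν ^ 257 := by
    have e1 := MGJ_le hμ he hD J z
    have e2 : Θ = ‖MGJ μ e J z‖ + ν ^ 128 := rfl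
    rw [hNν] at e1
    have e3 : ν ^ 128 ≤ ν ^ 256 := hpow (by norm_num)
    have e4 : ν ^ 257 = ν * ν ^ 256 := by ring
    have e5 : (2 * Real.pi * D + 2) * ν ^ 256 ≤ ν * ν ^ 256 := by gcongr
    rw [e2, e4]
    nlinarith
  have hM : ‖MGJ μ e J z‖ ≤ Θ := by
    have e2 : Θ = ‖MGJ μ e J z‖ + ν ^ 128 := rfl
    have : 0 ≤ ν ^ 128 := by positivity
    linarith
  have hNΘ : (N : ℝ) ≤ Θ ^ 2 := by
    rw [hNν]
    calc ν ^ 256 = (ν ^ 128) ^ 2 := by ring
      _ ≤ Θ ^ 2 := by gcongr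
  -- the truncation
  set ρ : ℝ := (ν ^ 8 * Θ)⁻¹ with hρ
  have hρ0 : 0 < ρ := by positivity
  have hρk : (ν ^ 270)⁻¹ ≤ ρ := by
    refine inv_anti₀ (by positivity) ?_
    calc ν ^ 8 * Θ ≤ ν ^ 8 * ν ^ 257 := by gcongr
      _ = ν ^ 265 := by ring
      _ ≤ ν ^ 270 := hpow (by norm_num)
  have hρB : ρ ≤ B := by
    refine le_trans (inv_le_one_of_one_le₀ ?_) hB1
    have e1 : (1 : ℝ) ≤ ν ^ 8 := one_le_pow₀ hν
    have e2 : (1 : ℝ) ≤ Θ := (one_le_pow₀ hν).trans hΘ1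
    nlinarith
  obtain ⟨hl0, hl⟩ := hlB ρ hρk hρB
  have hvar : N * (2 * Real.pi * D * Real.log (B / ρ)) * ρ ^ 2 ≤ ℓ := by
    have e1 : (N : ℝ) * (2 * Real.pi * D * Real.log (B / ρ)) * ρ ^ 2 =
        2 * Real.pi * D * Real.log (B / ρ) * (N / (ν ^ 16 * Θ ^ 2)) := by
      rw [hρ]
      field_simp
      try ring
    rw [e1]
    have e2 : N / (ν ^ 16 * Θ ^ 2) ≤ (ν ^ 16)⁻¹ := by
      rw [div_le_iff₀ (by positivity)]
      have : (ν ^ 16)⁻¹ * (ν ^ 16 * Θ ^ 2) = Θ ^ 2 := by field_simp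
      rw [this]
      exact hNΘ
    have e3 : 2 * Real.pi * D * Real.log (B / ρ) ≤ ν := by
      have : 2 * Real.pi * D * Real.log (B / ρ) ≤ 2 * Real.pi * D * (5 * ℓ) := by gcongr
      linarith
    have e4 : 0 ≤ 2 * Real.pi * D * Real.log (B / ρ) := by positivity
    calc 2 * Real.pi * D * Real.log (B / ρ) * (N / (ν ^ 16 * Θ ^ 2)) ≤ ν * (ν ^ 16)⁻¹ := by
          gcongr
      _ = (ν ^ 15)⁻¹ := by field_simp
      _ ≤ 1 := inv_le_one_of_one_le₀ (one_le_pow₀ hν)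
      _ ≤ ℓ := hl1
  set E1 : Set (Fin N → ℂ) := {X | Wi A a e X J z ∧ ∃ j ∈ J, ‖z - X j‖ ≤ ρ} with hE1
  set E2 : Set (Fin N → ℂ) := {X | N * (2 * Real.pi * D * Real.log (B / ρ)) +
    26 * ℓ / ρ ^ 2 ≤ ∑ j ∈ J, ‖ht ρ (z - X j)‖ ^ 2} with hE2
  set E3 : Set (Fin N → ℂ) := {X | 2 * (2 * Real.pi * D * N * ρ + 26 * ℓ / ρ) ≤
      ‖∑ j ∈ J, (e j : ℂ) * ht ρ (z - X j) - MGJ μ e J z‖} with hE3
  set E4 : Set (Fin N → ℂ) := {X | Wi A a e X J z ∧ ‖SS e X J z‖ < Θ / ν ^ 16} with hE4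
  have hp1 : Measure.pi μ E1 ≤ ENNReal.ofReal ((ν ^ 143)⁻¹) := by
    refine (h1 μ e a J z ρ hμ he ha hJ hz hρ0.le).trans (ENNReal.ofReal_le_ofReal ?_)
    have e1 : C₁ * ρ ^ 2 * ℓ * ν ^ 128 = C₁ * ℓ * (ν ^ 128 / (ν ^ 16 * Θ ^ 2)) := by
      rw [hρ]
      field_simp
      try ring
    rw [e1]
    have e2 : ν ^ 128 / (ν ^ 16 * Θ ^ 2) ≤ (ν ^ 144)⁻¹ := by
      rw [div_le_iff₀ (by positivity)]
      calc ν ^ 128 = (ν ^ 144)⁻¹ * (ν ^ 16 * (ν ^ 128) ^ 2) := by field_simp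
        _ ≤ (ν ^ 144)⁻¹ * (ν ^ 16 * Θ ^ 2) := by gcongr
    calc C₁ * ℓ * (ν ^ 128 / (ν ^ 16 * Θ ^ 2)) ≤ ν * (ν ^ 144)⁻¹ := by gcongr
      _ = (ν ^ 143)⁻¹ := by field_simp
  have hp2 : Measure.pi μ E2 ≤ ENNReal.ofReal (((N : ℝ) ^ 25)⁻¹) :=
    c2 hD hN1 μ J z hμ hzB hρ0 hρB hvar
  have hp3 : Measure.pi μ E3 ≤ ENNReal.ofReal (4 * ((N : ℝ) ^ 25)⁻¹) :=
    c1 hD hN1 μ e J z hμ he hzB hρ0 hρB hvar
  have hN25 : ((N : ℝ) ^ 25)⁻¹ ≤ (ν ^ 143)⁻¹ := by
    refine inv_anti₀ (by positivity) ?_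
    rw [hNν, ← pow_mul]
    exact hpow (by norm_num)
  have hp4 : Measure.pi μ E4 ≤ ENNReal.ofReal (5 * (ν ^ 143)⁻¹) := by
    by_cases hc : ‖MGJ μ e J z‖ ≤ ν ^ 136
    · have hΘ3 : Θ ≤ 2 * ν ^ 136 := by
        have e2 : Θ = ‖MGJ μ e J z‖ + ν ^ 128 := rfl
        have e3 : ν ^ 128 ≤ ν ^ 136 := hpow (by norm_num)
        linarith
      have hσ : ℓ ≤ Θ / ν ^ 16 := by
        rw [le_div_iff₀ (by positivity)]
        have e1 : ℓ ≤ ν := by
          have h12 : (2 + 4 * Real.pi * D + 52 + 208) * ℓ ≤ ν := v7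
          have : 1 * ℓ ≤ (2 + 4 * Real.pi * D + 52 + 208) * ℓ := by
            gcongr
            have : 0 ≤ Real.pi * D := by positivity
            linarith
          linarith
        calc ℓ * ν ^ 16 ≤ ν * ν ^ 16 := by gcongr
          _ = ν ^ 17 := by ring
          _ ≤ ν ^ 128 := hpow (by norm_num)
          _ ≤ Θ := hΘ1
      have e1 := h3 μ e J z 0 (-Real.log ‖a‖) (Θ / ν ^ 16) (A * ℓ) hμ he (by omega) hz hσ
        (by nlinarith)
      have hsub : E4 ⊆ {X : Fin N → ℂ | ‖SS e X J z - 0‖ ≤ Θ / ν ^ 16 ∧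
          |∑ j ∈ J, (e j : ℝ) * Real.log ‖z - X j‖ - -Real.log ‖a‖| ≤ A * ℓ} := by
        rintro X ⟨hW, hS⟩
        refine ⟨?_, Wi.po hW ha⟩
        rw [sub_zero]
        exact hS.le
      refine (measure_mono hsub).trans (e1.trans (ENNReal.ofReal_le_ofReal ?_))
      calc C₃ * (Θ / ν ^ 16) ^ 2 * (A * ℓ) / ν ^ 384 ≤
          C₃ * (2 * ν ^ 136 / ν ^ 16) ^ 2 * (A * ℓ) / ν ^ 384 := by gcongr
        _ = C₃ * 4 * A * ℓ * (ν ^ 144)⁻¹ := by
            field_simp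
            ring
        _ ≤ ν * (ν ^ 144)⁻¹ := by gcongr
        _ = (ν ^ 143)⁻¹ := by field_simp
        _ ≤ 5 * (ν ^ 143)⁻¹ := by
            have : 0 < (ν ^ 143)⁻¹ := by positivity
            linarith
    · rw [not_le] at hc
      set M := ‖MGJ μ e J z‖ with hMdef
      have hM0 : 0 < M := lt_trans (by positivity) hc
      set τ : ℝ := 208 * ℓ / M with hτ
      have hτ0 : 0 < τ := by positivity
      have hM2 : M ≤ ν ^ 257 := hM.trans hΘ2
      have hτk : (ν ^ 270)⁻¹ ≤ τ := by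
        rw [hτ, le_div_iff₀ hM0]
        calc (ν ^ 270)⁻¹ * M ≤ (ν ^ 270)⁻¹ * ν ^ 257 := by gcongr
          _ = (ν ^ 13)⁻¹ := by field_simp
          _ ≤ 1 := inv_le_one_of_one_le₀ (one_le_pow₀ hν)
          _ ≤ 208 * ℓ := by linarith
      have hℓν : 208 * ℓ ≤ ν := by
        have : 208 * ℓ ≤ (2 + 4 * Real.pi * D + 52 + 208) * ℓ := by
          gcongr
          have : 0 ≤ Real.pi * D := by positivity
          linarith
        linarith
      have hτle : τ ≤ 208 * ℓ / ν ^ 136 := by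
        rw [hτ]
        gcongr
      have hτB : τ ≤ B := by
        refine le_trans ?_ hB1
        refine hτle.trans ?_
        rw [div_le_one (by positivity)]
        exact hℓν.trans (le_self_pow₀ hν (by norm_num))
      obtain ⟨hm0, hm⟩ := hlB τ hτk hτB
      have hvar2 : N * (2 * Real.pi * D * Real.log (B / τ)) * τ ^ 2 ≤ ℓ := by
        calc N * (2 * Real.pi * D * Real.log (B / τ)) * τ ^ 2 ≤
            N * (2 * Real.pi * D * (5 * ℓ)) * (208 * ℓ / ν ^ 136) ^ 2 := by gcongr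
          _ = (10 * Real.pi * D * 208 ^ 2 * ℓ ^ 3) * (ν ^ 16)⁻¹ := by
              rw [hNν]
              field_simp
              ring
          _ ≤ ν * (ν ^ 16)⁻¹ := by gcongr
          _ = (ν ^ 15)⁻¹ := by field_simp
          _ ≤ 1 := inv_le_one_of_one_le₀ (one_le_pow₀ hν)
          _ ≤ ℓ := hl1
      have hd := c1 hD hN1 μ e J z hμ he hzB hτ0 hτB hvar2
      have hbias : 2 * (2 * Real.pi * D * N * τ + 26 * Real.log N / τ) ≤ M / 2 := by
        have e1 : 26 * ℓ / τ = M / 8 := by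
          rw [hτ]
          field_simp
          norm_num
        have e2 : 2 * Real.pi * D * N * τ ≤ M / 8 := by
          rw [hτ, mul_div_assoc', div_le_iff₀ hM0, hNν]
          calc 2 * Real.pi * D * ν ^ 256 * (208 * ℓ) =
              (16 * Real.pi * D * 208 * ℓ) * ν ^ 256 / 8 := by ring
            _ ≤ ν * ν ^ 256 / 8 := by gcongr
            _ = ν ^ 257 / 8 := by ring
            _ ≤ ν ^ 272 / 8 := by
                have := hpow (show 257 ≤ 272 by norm_num)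
                linarith
            _ = ν ^ 136 * ν ^ 136 / 8 := by ring
            _ ≤ M * M / 8 := by gcongr
            _ = M / 8 * M := by ring
        rw [← hℓ, e1]
        linarith
      set E5 : Set (Fin N → ℂ) := {X | Wi A a e X J z ∧ ∃ j ∈ J, ‖z - X j‖ ≤ τ} with hE5
      set E6 : Set (Fin N → ℂ) := {X | 2 * (2 * Real.pi * D * N * τ + 26 * Real.log N / τ) ≤
        ‖∑ j ∈ J, (e j : ℂ) * ht τ (z - X j) - MGJ μ e J z‖} with hE6
      have hsub : E4 ⊆ E5 ∪ E6 := by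
        rintro X ⟨hW, hS⟩
        by_contra hcon
        rw [mem_union, not_or] at hcon
        obtain ⟨k1, k2⟩ := hcon
        have k3 : ∀ j ∈ J, τ < ‖z - X j‖ := by
          intro j hj
          by_contra k
          exact k1 ⟨hW, j, hj, not_lt.1 k⟩
        have k4 : ∑ j ∈ J, (e j : ℂ) * ht τ (z - X j) = SS e X J z := by
          unfold SS
          exact Finset.sum_congr rfl fun j hj => by rw [ht_eq (k3 j hj).le, div_eq_mul_inv]
        have k5 : ‖∑ j ∈ J, (e j : ℂ) * ht τ (z - X j) - MGJ μ e J z‖ <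
            2 * (2 * Real.pi * D * N * τ + 26 * Real.log N / τ) := not_le.1 k2
        rw [k4] at k5
        have k6 : M ≤ ‖SS e X J z‖ + ‖SS e X J z - MGJ μ e J z‖ := by
          have : MGJ μ e J z = SS e X J z - (SS e X J z - MGJ μ e J z) := by ring
          rw [hMdef]
          nth_rewrite 1 [this]
          exact norm_sub_le _ _
        have k7 : Θ / ν ^ 16 ≤ M / 2 := by
          rw [div_le_iff₀ (by positivity)]
          have e2 : Θ = M + ν ^ 128 := rfl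
          have e3 : ν ^ 128 ≤ ν ^ 136 := hpow (by norm_num)
          have e4 : (4 : ℝ) ≤ ν ^ 16 := by
            calc (4 : ℝ) ≤ 12 := by norm_num
              _ ≤ ν := v10
              _ ≤ ν ^ 16 := le_self_pow₀ hν (by norm_num)
          rw [e2]
          have e5 : 2 * M ≤ M / 2 * ν ^ 16 := by nlinarith
          linarith
        linarith
      have hp5 : Measure.pi μ E5 ≤ ENNReal.ofReal ((ν ^ 143)⁻¹) := by
        refine (h1 μ e a J z τ hμ he ha hJ hz hτ0.le).trans (ENNReal.ofReal_le_ofReal ?_)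
        calc C₁ * τ ^ 2 * ℓ * ν ^ 128 ≤ C₁ * (208 * ℓ / ν ^ 136) ^ 2 * ℓ * ν ^ 128 := by gcongr
          _ = (C₁ * 208 ^ 2 * ℓ ^ 3) * (ν ^ 144)⁻¹ := by
              field_simp
          _ ≤ ν * (ν ^ 144)⁻¹ := by gcongr
          _ = (ν ^ 143)⁻¹ := by field_simp
      refine (measure_mono hsub).trans ((measure_union_le _ _).trans ((add_le_add hp5 hd).trans ?_))
      rw [← ENNReal.ofReal_add (by positivity) (by positivity)]
      refine ENNReal.ofReal_le_ofReal ?_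
      linarith
  have hsub : {X | Wi A a e X J z ∧ ¬ Gd μ e X J z} ⊆ E1 ∪ (E2 ∪ (E3 ∪ E4)) := by
    rintro X ⟨hW, hG⟩
    by_contra hcon
    rw [mem_union, mem_union, mem_union, not_or, not_or, not_or] at hcon
    obtain ⟨k1, k2, k3, k4⟩ := hcon
    have l1 : ∀ j ∈ J, ρ < ‖z - X j‖ := by
      intro j hj
      by_contra k
      exact k1 ⟨hW, j, hj, not_lt.1 k⟩
    have l2 : ∑ j ∈ J, (e j : ℂ) * ht ρ (z - X j) = SS e X J z := by
      unfold SS
      exact Finset.sum_congr rfl fun j hj => by rw [ht_eq (l1 j hj).le, div_eq_mul_inv]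
    have l3 : ∑ j ∈ J, ‖ht ρ (z - X j)‖ ^ 2 = Sq X J z := by
      unfold Sq
      exact Finset.sum_congr rfl fun j hj => by rw [ht_eq (l1 j hj).le, norm_inv, inv_pow]
    have l4 : ∑ j ∈ J, ‖ht ρ (z - X j)‖ ^ 2 < N * (2 * Real.pi * D * Real.log (B / ρ)) +
      26 * ℓ / ρ ^ 2 := not_le.1 k2
    have l5 : ‖∑ j ∈ J, (e j : ℂ) * ht ρ (z - X j) - MGJ μ e J z‖ <
      2 * (2 * Real.pi * D * N * ρ + 26 * ℓ / ρ) := not_le.1 k3
    rw [l3] at l4
    rw [l2] at l5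
    refine hG ⟨fun j hj => (l1 j hj).le, ?_, ?_, ?_⟩
    · refine l4.le.trans ?_
      have e1 : 26 * ℓ / ρ ^ 2 = 26 * ℓ * (ν ^ 16 * Θ ^ 2) := by
        rw [hρ]
        field_simp
        try ring
      have e2 : N * (2 * Real.pi * D * Real.log (B / ρ)) ≤
          10 * Real.pi * D * ℓ * (ν ^ 16 * Θ ^ 2) := by
        have e3 : (1 : ℝ) ≤ ν ^ 16 := one_le_pow₀ hν
        calc N * (2 * Real.pi * D * Real.log (B / ρ)) ≤ Θ ^ 2 * (2 * Real.pi * D * (5 * ℓ)) := by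
              gcongr
          _ = 10 * Real.pi * D * ℓ * (1 * Θ ^ 2) := by ring
          _ ≤ 10 * Real.pi * D * ℓ * (ν ^ 16 * Θ ^ 2) := by gcongr
      rw [e1]
      calc N * (2 * Real.pi * D * Real.log (B / ρ)) + 26 * ℓ * (ν ^ 16 * Θ ^ 2) ≤
          ((10 * Real.pi * D + 26) * ℓ) * (ν ^ 16 * Θ ^ 2) := by linarith
        _ ≤ ν * (ν ^ 16 * Θ ^ 2) := by gcongr
        _ = Θ ^ 2 * ν ^ 17 := by ring
    · have e1 : ‖SS e X J z‖ ≤ ‖MGJ μ e J z‖ + ‖SS e X J z - MGJ μ e J z‖ := by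
        have : SS e X J z = MGJ μ e J z + (SS e X J z - MGJ μ e J z) := by ring
        nth_rewrite 1 [this]
        exact norm_add_le _ _
      have e2 : 26 * ℓ / ρ = 26 * ℓ * (ν ^ 8 * Θ) := by
        rw [hρ, div_inv_eq_mul]
      have e3 : N * ρ ≤ Θ := by
        rw [hρ, ← div_eq_mul_inv, div_le_iff₀ (by positivity)]
        have : (1 : ℝ) ≤ ν ^ 8 := one_le_pow₀ hν
        calc (N : ℝ) ≤ Θ ^ 2 := hNΘ
          _ = Θ * (1 * Θ) := by ring
          _ ≤ Θ * (ν ^ 8 * Θ) := by gcongr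
      have e4 : Θ ≤ ℓ * (ν ^ 8 * Θ) := by
        have : (1 : ℝ) ≤ ν ^ 8 := one_le_pow₀ hν
        calc Θ = 1 * (1 * Θ) := by ring
          _ ≤ ℓ * (ν ^ 8 * Θ) := by gcongr
      have e5 : 2 * Real.pi * D * N * ρ ≤ 2 * Real.pi * D * Θ := by
        have : 2 * Real.pi * D * N * ρ = 2 * Real.pi * D * (N * ρ) := by ring
        rw [this]
        gcongr
      have e6 : 4 * Real.pi * D * Θ ≤ 4 * Real.pi * D * (ℓ * (ν ^ 8 * Θ)) := by gcongr
      calc ‖SS e X J z‖ ≤ Θ + 2 * (2 * Real.pi * D * Θ + 26 * ℓ * (ν ^ 8 * Θ)) := by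
            rw [e2] at l5
            linarith
        _ ≤ (2 + 4 * Real.pi * D + 52 + 208) * ℓ * (ν ^ 8 * Θ) := by
            have : 0 ≤ ℓ * (ν ^ 8 * Θ) := by positivity
            linarith
        _ ≤ ν * (ν ^ 8 * Θ) := by gcongr
        _ = Θ * ν ^ 9 := by ring
    · by_contra h
      exact k4 ⟨hW, not_le.1 h⟩
  refine (measure_mono hsub).trans ((measure_union_le _ _).trans ((add_le_add hp1
    ((measure_union_le _ _).trans (add_le_add hp2 ((measure_union_le _ _).trans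
    (add_le_add hp3 hp4))))).trans ?_))
  rw [← ENNReal.ofReal_add (by positivity) (by positivity),
    ← ENNReal.ofReal_add (by positivity) (by positivity),
    ← ENNReal.ofReal_add (by positivity) (by positivity)]
  refine ENNReal.ofReal_le_ofReal ?_
  calc (ν ^ 143)⁻¹ + (((N : ℝ) ^ 25)⁻¹ + (4 * ((N : ℝ) ^ 25)⁻¹ + 5 * (ν ^ 143)⁻¹)) ≤
      12 * (ν ^ 143)⁻¹ := by linarith [show (0 : ℝ) < (ν ^ 143)⁻¹ by positivity]
    _ ≤ ν * (ν ^ 143)⁻¹ := by gcongr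
    _ = (ν ^ 142)⁻¹ := by field_simp

end Pool.Agent.N229.HF
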