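import Pool.Agent.N229.HF.Bad
import Pool.Agent.N229.RL.RatGood

/-!
# The values near zero, and all the bad events together
-/

set_option autoImplicit false

open Filter Topology MeasureTheory Set

namespace Pool.Agent.N229.HF

open Pool.Agent.N229.RL

variable {N : ℕ}

/-- the value at zero is not extreme -/
def Hb (a : ℂ) (e : Fin N → ℤ) : Set (Fin N → ℂ) :=
  {X | |∑ j, (e j : ℝ) * Real.log ‖(0 : ℂ) - X j‖ - -Real.log ‖a‖| ≤ 6 * Real.log N}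

theorem prob_hub {D R : ℝ} (hD : 0 ≤ D) (hR : 0 ≤ R) :
    ∀ᶠ N : ℕ in atTop, ∀ (μ : Fin N → Measure ℂ) (e : Fin N → ℤ) (a : ℂ),
      (∀ i, Dens (μ i) D R) → (∀ i, e i = 1 ∨ e i = -1) →
      Measure.pi μ (Hb a e) ≤ ENNReal.ofReal ((nu N)⁻¹) := by
  obtain ⟨C, hC, h⟩ := ac1 hD hR (le_refl (0 : ℝ))
  filter_upwards [h, eventually_ge_atTop 1, ev_nu (C * 6) 1, ev_log_ge 1] with
    N h1 hN h2 h3 μ e a hμ he
  rw [pow_one] at h2
  have hν := nu_ge hN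
  have hν0 : 0 < nu N := by linarith
  refine (h1 μ e Finset.univ 0 (-Real.log ‖a‖) (6 * Real.log N) hμ he (by simp; omega)
    (by simp) (by linarith)).trans ?_
  refine ENNReal.ofReal_le_ofReal ?_
  rw [div_le_iff₀ (by positivity)]
  calc C * (6 * Real.log N) = C * 6 * Real.log N := by ring
    _ ≤ nu N := h2
    _ ≤ (nu N)⁻¹ * nu N ^ 128 := by
        have e1 : (nu N)⁻¹ * nu N ^ 128 = nu N ^ 127 := by field_simp
        rw [e1]
        exact le_self_pow₀ hν (by norm_num)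

theorem hub_det {R : ℝ} :
    ∀ᶠ N : ℕ in atTop, ∀ (e : Fin N → ℤ) (a : ℂ) (X : Fin N → ℂ) (w : ℂ),
      (∀ i, e i = 1 ∨ e i = -1) → a ≠ 0 → Base R X → X ∉ Hb a e → ‖w‖ ≤ 4 * ((N : ℝ) ^ 4)⁻¹ →
      (∀ j, w ≠ X j) ∧ 5 * Real.log N < |Real.log ‖gg a e X Finset.univ w‖| := by
  filter_upwards [eventually_ge_atTop 8, ev_log_ge 1] with N hN hl e a X w he ha hB hX hw
  have hN8 : (8 : ℝ) ≤ N := by exact_mod_cast hN
  have hN0 : (0 : ℝ) < N := by linarith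
  have hN1 : (1 : ℝ) ≤ N := by linarith
  have h1 : ∀ j, 0 < ‖X j‖ := fun j => lt_of_lt_of_le (by positivity) (hB.ge j)
  have h2 : ∀ j, ‖w / X j‖ ≤ 4 * ((N : ℝ) ^ 3)⁻¹ := by
    intro j
    rw [norm_div, div_le_iff₀ (h1 j)]
    calc ‖w‖ ≤ 4 * ((N : ℝ) ^ 4)⁻¹ := hw
      _ = 4 * ((N : ℝ) ^ 3)⁻¹ * (N : ℝ)⁻¹ := by field_simp
      _ ≤ 4 * ((N : ℝ) ^ 3)⁻¹ * ‖X j‖ := by
          gcongr
          exact hB.ge j
  have h3 : 4 * ((N : ℝ) ^ 3)⁻¹ ≤ (2 * (N : ℝ))⁻¹ := by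
    rw [← div_eq_mul_inv, div_le_iff₀ (by positivity)]
    have e1 : (2 * (N : ℝ))⁻¹ * (N : ℝ) ^ 3 = (N : ℝ) ^ 2 / 2 := by field_simp
    rw [e1]
    nlinarith
  have h4 : (2 * (N : ℝ))⁻¹ ≤ 1 / 2 := by
    rw [one_div]
    refine inv_anti₀ (by norm_num) (by linarith)
  have h5 : ∀ j, |Real.log ‖1 - w / X j‖| ≤ (N : ℝ)⁻¹ ∧ 1 - w / X j ≠ 0 := by
    intro j
    obtain ⟨g1, g2⟩ := abs_log_one_sub (((h2 j).trans h3).trans h4)
    refine ⟨g1.trans ?_, g2⟩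
    have := (h2 j).trans h3
    calc 2 * ‖w / X j‖ ≤ 2 * (2 * (N : ℝ))⁻¹ := by gcongr
      _ = (N : ℝ)⁻¹ := by field_simp
  have h6 : ∀ j, w - X j = -(X j) * (1 - w / X j) := by
    intro j
    have : X j ≠ 0 := norm_pos_iff.1 (h1 j)
    field_simp
    ring
  have h7 : ∀ j, w ≠ X j := by
    intro j h
    have h8 := h6 j
    rw [sub_eq_zero.2 h] at h8
    rcases mul_eq_zero.1 h8.symm with h9 | h9
    · exact norm_pos_iff.1 (h1 j) (neg_eq_zero.1 h9)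
    · exact (h5 j).2 h9
  refine ⟨h7, ?_⟩
  rw [log_norm_gg ha fun j _ => h7 j]
  have h8 : ∀ j, Real.log ‖w - X j‖ = Real.log ‖(0 : ℂ) - X j‖ + Real.log ‖1 - w / X j‖ := by
    intro j
    rw [h6 j, norm_mul, norm_neg, zero_sub, norm_neg,
      Real.log_mul (h1 j).ne' (norm_ne_zero_iff.2 (h5 j).2)]
  have h9 : Real.log ‖a‖ + ∑ j, (e j : ℝ) * Real.log ‖w - X j‖ =
      (∑ j, (e j : ℝ) * Real.log ‖(0 : ℂ) - X j‖ - -Real.log ‖a‖) +
        ∑ j, (e j : ℝ) * Real.log ‖1 - w / X j‖ := by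
    simp_rw [h8, mul_add]
    rw [Finset.sum_add_distrib]
    ring
  have h10 : |∑ j, (e j : ℝ) * Real.log ‖1 - w / X j‖| ≤ 1 := by
    refine (Finset.abs_sum_le_sum_abs _ _).trans ?_
    have h11 : ∀ j ∈ (Finset.univ : Finset (Fin N)), |(e j : ℝ) * Real.log ‖1 - w / X j‖| ≤
        (N : ℝ)⁻¹ := by
      intro j _
      rw [abs_mul, sign_abs (he j), one_mul]
      exact (h5 j).1
    refine (Finset.sum_le_sum h11).trans (le_of_eq ?_)
    rw [Finset.sum_const, Finset.card_univ, Fintype.card_fin, nsmul_eq_mul]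
    field_simp
  rw [h9]
  have h12 : 6 * Real.log N < |∑ j, (e j : ℝ) * Real.log ‖(0 : ℂ) - X j‖ - -Real.log ‖a‖| :=
    not_le.1 hX
  set A := ∑ j, (e j : ℝ) * Real.log ‖(0 : ℂ) - X j‖ - -Real.log ‖a‖ with hA
  set B := ∑ j, (e j : ℝ) * Real.log ‖1 - w / X j‖ with hBB
  have h13 : |A| ≤ |A + B| + |B| := by
    have : A = (A + B) - B := by ring
    nth_rewrite 1 [this]
    exact abs_sub _ _
  linarith

/-- all the bad events -/
def BadT (R Rp : ℝ) (a : ℂ) (e : Fin N → ℤ) : Set (Fin N → ℂ) :=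
  {X | ¬ Base R X} ∪ Hb a e ∪ Bad3 R Rp a e

theorem prob_BadT {D R Rp : ℝ} (hD : 0 ≤ D) (hR : 0 ≤ R) (hRp : 1 ≤ Rp) (hRR : R ≤ Rp) :
    ∀ᶠ N : ℕ in atTop, ∀ (μ : Fin N → Measure ℂ) (e : Fin N → ℤ) (a : ℂ),
      (∀ i, Dens (μ i) D R) → (∀ i, e i = 1 ∨ e i = -1) → a ≠ 0 →
      N ≤ 2 * (Finset.univ.filter fun i => e i = 1).card →
      Measure.pi μ (BadT R Rp a e) ≤ ENNReal.ofReal (19 * (nu N)⁻¹) := by
  have hpi := Real.pi_pos
  filter_upwards [prob_base (R := R) hD, prob_hub hD hR, prob_Bad3 hD hR hRp hRR,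
    eventually_ge_atTop 1, ev_nu (2 * Real.pi * D) 0] with N h1 h2 h3 hN h4 μ e a hμ he ha hE
  rw [pow_zero, mul_one] at h4
  have hν := nu_ge hN
  have hν0 : 0 < nu N := by linarith
  refine (measure_union_le _ _).trans ((add_le_add ((measure_union_le _ _).trans
    (add_le_add (h1 μ hμ) (h2 μ e a hμ he))) (h3 μ e a hμ he ha hE)).trans ?_)
  have h5 : 2 * Real.pi * D / N ≤ (nu N)⁻¹ := by
    have hNν : (N : ℝ) = nu N ^ 256 := (nu_pow N).symm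
    rw [hNν, div_le_iff₀ (by positivity)]
    calc 2 * Real.pi * D ≤ nu N := h4
      _ ≤ (nu N)⁻¹ * nu N ^ 256 := by
          have e1 : (nu N)⁻¹ * nu N ^ 256 = nu N ^ 255 := by field_simp
          rw [e1]
          exact le_self_pow₀ hν (by norm_num)
  have h6 : 0 < (nu N)⁻¹ := by positivity
  rw [← ENNReal.ofReal_add (by positivity) (by positivity),
    ← ENNReal.ofReal_add (by positivity) (by positivity)]
  refine ENNReal.ofReal_le_ofReal ?_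
  linarith

end Pool.Agent.N229.HF
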