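import Pool.Agent.N229.HF.Avg

/-!
# The third value: preimages of the window in the window
-/

set_option autoImplicit false

open Filter Topology MeasureTheory Set

namespace Pool.Agent.N229.HF

open Pool.Agent.N229.RL

variable {N : ℕ}

/-- the quadratic polynomial with zeros `x` and `y` -/
noncomputable def Qc (T₀ S₀ c w : ℂ) : ℂ := (w - c) ^ 2 + (w / T₀) * (1 - S₀ * (w - c))

/-- its derivative -/
noncomputable def Qc' (T₀ S₀ c w : ℂ) : ℂ :=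
  2 * (w - c) + (1 / T₀) * (1 - S₀ * (w - c)) + (w / T₀) * -S₀

theorem hasDerivAt_Qc (T₀ S₀ c w : ℂ) : HasDerivAt (Qc T₀ S₀ c) (Qc' T₀ S₀ c w) w := by
  unfold Qc Qc'
  have h1 : HasDerivAt (fun w : ℂ => w - c) 1 w := (hasDerivAt_id w).sub_const c
  have h2 := h1.fun_pow 2
  have h3 : HasDerivAt (fun w : ℂ => w / T₀) (1 / T₀) w := (hasDerivAt_id w).div_const T₀
  have h4 : HasDerivAt (fun w : ℂ => 1 - S₀ * (w - c)) (-(S₀ * 1)) w :=
    (h1.const_mul S₀).const_sub 1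
  have h5 := h2.fun_add (h3.fun_mul h4)
  refine h5.congr_deriv ?_
  simp
  ring

/-- the target set -/
def Bt (Rp : ℝ) (a : ℂ) (e : Fin N → ℤ) (X : Fin N → ℂ) (J : Finset (Fin N)) : Set ℂ :=
  {w | ((N : ℝ) ^ 4)⁻¹ ≤ ‖w‖ ∧ ‖w‖ ≤ Rp ∧ ((∃ j ∈ J, ‖w - X j‖ ≤ ((N : ℝ) ^ 4)⁻¹) ∨
    ((∀ j ∈ J, ((N : ℝ) ^ 4)⁻¹ ≤ ‖w - X j‖) ∧ ((N : ℝ) ^ 6)⁻¹ ≤ ‖gg a e X J w‖ ∧
      ‖gg a e X J w‖ ≤ (N : ℝ) ^ 6))}

/-- the bad set of the values -/
def Bc (Rp η : ℝ) (a : ℂ) (e : Fin N → ℤ) (X : Fin N → ℂ) (J : Finset (Fin N))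
    (T₀ S₀ c : ℂ) : Set ℂ :=
  {p | (((N : ℝ) ^ 4)⁻¹ ≤ ‖p‖ ∧ ‖p‖ ≤ Rp ∧ ‖p / T₀‖ ≤ 4 * Rp ^ 2 ∧ η ^ 2 ≤ ‖Qc T₀ S₀ c p‖ ∧
    ‖Qc T₀ S₀ c p‖ ≤ 4 * Rp ^ 2) ∧ ((∃ j ∈ J, ‖p - X j‖ ≤ ((N : ℝ) ^ 4)⁻¹) ∨
    ((∀ j ∈ J, ((N : ℝ) ^ 4)⁻¹ ≤ ‖p - X j‖) ∧ gg a e X J p * Qc T₀ S₀ c p ∈ Bt Rp a e X J))}

/-- the neighbourhoods of the points -/
def Nr (X : Fin N → ℂ) (J : Finset (Fin N)) : Set ℂ :=
  {p | ((N : ℝ) ^ 4)⁻¹ ≤ ‖p‖ ∧ ∃ j ∈ J, ‖p - X j‖ ≤ ((N : ℝ) ^ 4)⁻¹}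

theorem measurable_near2 (J : Finset (Fin N)) (t : ℝ) :
    MeasurableSet {q : (Fin N → ℂ) × ℂ | ∃ j ∈ J, ‖q.2 - q.1 j‖ ≤ t} := by
  have : {q : (Fin N → ℂ) × ℂ | ∃ j ∈ J, ‖q.2 - q.1 j‖ ≤ t} =
      ⋃ j ∈ J, {q : (Fin N → ℂ) × ℂ | ‖q.2 - q.1 j‖ ≤ t} := by
    ext v
    simp
  rw [this]
  exact Finset.measurableSet_biUnion _ fun j _ => measurableSet_le
    (measurable_snd.sub ((measurable_pi_apply j).comp measurable_fst)).norm measurable_const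

theorem measurable_pairp (X : Fin N → ℂ) : Measurable fun p : ℂ => (X, p) :=
  measurable_const.prodMk measurable_id

theorem measurable_Bt {Rp : ℝ} {a : ℂ} {e : Fin N → ℤ} {J : Finset (Fin N)}
    (he : ∀ i, e i = 1 ∨ e i = -1) :
    MeasurableSet {q : (Fin N → ℂ) × ℂ | q.2 ∈ Bt Rp a e q.1 J} := by
  have m1 : MeasurableSet {q : (Fin N → ℂ) × ℂ | ((N : ℝ) ^ 4)⁻¹ ≤ ‖q.2‖} :=
    measurableSet_le measurable_const measurable_snd.norm
  have m2 : MeasurableSet {q : (Fin N → ℂ) × ℂ | ‖q.2‖ ≤ Rp} :=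
    measurableSet_le measurable_snd.norm measurable_const
  have m3 := measurable_near2 J ((N : ℝ) ^ 4)⁻¹
  have m4 := measurable_dist2 J ((N : ℝ) ^ 4)⁻¹
  have m5 : MeasurableSet {q : (Fin N → ℂ) × ℂ | ((N : ℝ) ^ 6)⁻¹ ≤ ‖gg a e q.1 J q.2‖} :=
    measurableSet_le measurable_const (measurable_gg2 he).norm
  have m6 : MeasurableSet {q : (Fin N → ℂ) × ℂ | ‖gg a e q.1 J q.2‖ ≤ (N : ℝ) ^ 6} :=
    measurableSet_le (measurable_gg2 he).norm measurable_const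
  exact m1.inter (m2.inter (m3.union (m4.inter (m5.inter m6))))

theorem measurable_Nr (X : Fin N → ℂ) (J : Finset (Fin N)) : MeasurableSet (Nr X J) := by
  have m1 : MeasurableSet {p : ℂ | ((N : ℝ) ^ 4)⁻¹ ≤ ‖p‖} :=
    measurableSet_le measurable_const measurable_norm
  have m2 : MeasurableSet {p : ℂ | ∃ j ∈ J, ‖p - X j‖ ≤ ((N : ℝ) ^ 4)⁻¹} :=
    (measurable_pairp X) (measurable_near2 J ((N : ℝ) ^ 4)⁻¹)
  exact m1.inter m2

theorem al_Nr : ∀ᶠ N : ℕ in atTop, ∀ (X : Fin N → ℂ) (J : Finset (Fin N)),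
    (∀ j ∈ J, (N : ℝ)⁻¹ ≤ ‖X j‖) → al (Nr X J) ≤ ENNReal.ofReal (((N : ℝ) ^ 4)⁻¹) := by
  have hpi := Real.pi_pos
  filter_upwards [ev_log (4 * Real.pi) 0, eventually_ge_atTop 4] with N h1 hN X J hX
  rw [pow_zero, mul_one] at h1
  have hN4 : (4 : ℝ) ≤ N := by exact_mod_cast hN
  have hN0 : (0 : ℝ) < N := by linarith
  set q : ℝ := ((N : ℝ) ^ 4)⁻¹ with hq
  have hq0 : 0 < q := by rw [hq]; positivity
  have hqN : q ≤ (2 * (N : ℝ))⁻¹ := by
    rw [hq]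
    refine inv_anti₀ (by positivity) ?_
    calc 2 * (N : ℝ) ≤ N ^ 3 * N := by
          gcongr
          calc (2 : ℝ) ≤ N := by linarith
            _ ≤ N ^ 3 := le_self_pow₀ (by linarith) (by norm_num)
      _ = (N : ℝ) ^ 4 := by ring
  have h2 : ∀ v ∈ Nr X J, (2 * (N : ℝ))⁻¹ ≤ ‖v‖ := by
    rintro v ⟨-, j, hj, hv⟩
    have h4 := hX j hj
    have h5 : ‖X j‖ ≤ ‖v‖ + ‖v - X j‖ := by
      have : X j = v - (v - X j) := by ring
      nth_rewrite 1 [this]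
      exact norm_sub_le _ _
    have h6 : (N : ℝ)⁻¹ = 2 * (2 * (N : ℝ))⁻¹ := by field_simp
    linarith
  have h3 : volume (Nr X J) ≤ ENNReal.ofReal (N * (Real.pi * q ^ 2)) := by
    refine (measure_mono ?_).trans (vol_union_le J X hq0.le)
    rintro v ⟨-, j, hj, hv⟩
    exact mem_iUnion₂.2 ⟨j, hj, by rw [mem_closedBall_iff_norm]; exact hv⟩
  refine (int_le (r := (2 * (N : ℝ))⁻¹) (by positivity) (measurable_Nr X J) h2).trans
    ((mul_le_mul_right h3 _).trans ?_)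
  rw [← ENNReal.ofReal_mul (by positivity)]
  refine ENNReal.ofReal_le_ofReal ?_
  rw [hq]
  have e1 : (((2 * (N : ℝ))⁻¹) ^ 2)⁻¹ * (N * (Real.pi * (((N : ℝ) ^ 4)⁻¹) ^ 2)) =
      4 * Real.pi / N * ((N : ℝ) ^ 4)⁻¹ := by
    field_simp
    ring
  rw [e1]
  have e2 : 4 * Real.pi / N ≤ 1 := by rw [div_le_one hN0]; exact h1
  have e3 : 0 < ((N : ℝ) ^ 4)⁻¹ := by positivity
  nlinarith

/-- the radius of the discs -/
noncomputable def rh (μ : Fin N → Measure ℂ) (e : Fin N → ℤ) (J : Finset (Fin N)) (p : ℂ) : ℝ :=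
  (nu N ^ 40 * Th μ e J p)⁻¹

/-- facts at a regular point of the window -/
theorem local_facts (Rp : ℝ) : ∀ᶠ N : ℕ in atTop, ∀ (μ : Fin N → Measure ℂ) (e : Fin N → ℤ) (a : ℂ)
      (X : Fin N → ℂ) (J : Finset (Fin N)) (p : ℂ),
      (∀ i, e i = 1 ∨ e i = -1) → a ≠ 0 → ‖p‖ ≤ Rp → Th μ e J p ≤ nu N ^ 257 →
      Wi 6 a e X J p → Gd μ e X J p → nu N ^ 20 < ‖p‖ * Th μ e J p →
      0 < rh μ e J p ∧ rh μ e J p ≤ (nu N ^ 168)⁻¹ ∧
      ∀ w ∈ Metric.ball p (3 * rh μ e J p),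
        ‖SS e X J w - SS e X J p‖ ≤ 6 * Th μ e J p / nu N ^ 23 ∧ ‖w‖ ≤ 2 * ‖p‖ ∧ w ≠ 0 ∧
        w ∈ WS 7 (Rp + 1) a e X J := by
  filter_upwards [ev_log_ge 1, eventually_ge_atTop 8, ev_nu 100 0] with
    N hl1 hN v1 μ e a X J p he ha hp hΘ2 hW hG hz
  rw [pow_zero, mul_one] at v1
  have hN1 : 1 ≤ N := by omega
  have hN0 : (0 : ℝ) < N := by exact_mod_cast hN1
  have hν := nu_ge hN1
  have hν0 : 0 < nu N := by linarith
  have hNν : (N : ℝ) = nu N ^ 256 := (nu_pow N).symm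
  have hT := T1_pos hN1
  have hT2 : T1 N ≤ (nu N ^ 298)⁻¹ := by
    unfold T1
    rw [hNν]
    refine inv_anti₀ (by positivity) ?_
    have h1 : (nu N ^ 256) ^ 4 = nu N ^ 1024 := by ring
    rw [h1]
    have h2 : nu N ^ 298 ≤ nu N ^ 1024 := pow_le_pow_right₀ hν (by norm_num)
    have h3 : 0 < nu N ^ 1024 := by positivity
    linarith
  set ν := nu N with hνdef
  set ℓ := Real.log N with hℓ
  have hpow : ∀ {m n : ℕ}, m ≤ n → ν ^ m ≤ ν ^ n := fun h => pow_le_pow_right₀ hν h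
  obtain ⟨g1, g2, g3, g4⟩ := hG
  set Θ := Th μ e J p with hΘ
  have hΘ1 : ν ^ 128 ≤ Θ := Th_ge μ e J p
  have hΘ0 : 0 < Θ := lt_of_lt_of_le (by positivity) hΘ1
  set h := rh μ e J p with hh
  have hhe : h = (ν ^ 40 * Θ)⁻¹ := rfl
  have hh0 : 0 < h := by rw [hhe]; positivity
  have hh1 : h ≤ (ν ^ 168)⁻¹ := by
    rw [hhe]
    refine inv_anti₀ (by positivity) ?_
    calc ν ^ 168 = ν ^ 40 * ν ^ 128 := by ring
      _ ≤ ν ^ 40 * Θ := by gcongr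
  have hd : 100 * h ≤ (ν ^ 8 * Θ)⁻¹ := by
    have e1 : (ν ^ 8 * Θ)⁻¹ = ν ^ 32 * h := by
      rw [hhe]
      field_simp
    rw [e1]
    have : 100 ≤ ν ^ 32 := v1.trans (le_self_pow₀ hν (by norm_num))
    gcongr
  have hdp : 100 * h ≤ ‖p‖ := by
    have e1 : ν ^ 20 / Θ ≤ ‖p‖ := by
      rw [div_le_iff₀ hΘ0]
      exact hz.le
    have e2 : ν ^ 20 / Θ = ν ^ 60 * h := by
      rw [hhe]
      field_simp
    rw [e2] at e1
    refine le_trans ?_ e1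
    have : 100 ≤ ν ^ 60 := v1.trans (le_self_pow₀ hν (by norm_num))
    gcongr
  have hh2 : h ≤ 1 / 100 := by
    refine hh1.trans ?_
    rw [inv_le_comm₀ (by positivity) (by norm_num)]
    norm_num
    exact v1.trans (le_self_pow₀ hν (by norm_num))
  have hh3 : (ν ^ 297)⁻¹ ≤ h := by
    rw [hhe]
    refine inv_anti₀ (by positivity) ?_
    calc ν ^ 40 * Θ ≤ ν ^ 40 * ν ^ 257 := by gcongr
      _ = ν ^ 297 := by ring
  have hT3 : T1 N ≤ h := by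
    refine hT2.trans (le_trans ?_ hh3)
    exact inv_anti₀ (by positivity) (hpow (by norm_num))
  -- distances
  have hdist : ∀ w ∈ Metric.ball p (3 * h), ∀ j ∈ J, ‖p - X j‖ / 2 ≤ ‖w - X j‖ ∧
      50 * h ≤ ‖w - X j‖ := by
    intro w hw j hj
    have h1 : ‖w - p‖ < 3 * h := mem_ball_iff_norm.1 hw
    have h2 := g1 j hj
    have h3 : ‖p - X j‖ ≤ ‖w - X j‖ + ‖w - p‖ := by
      have : p - X j = (w - X j) - (w - p) := by ring
      rw [this]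
      exact norm_sub_le _ _
    constructor <;> linarith
  have hSS : ∀ w ∈ Metric.ball p (3 * h), ‖SS e X J w - SS e X J p‖ ≤ 6 * Θ / ν ^ 23 := by
    intro w hw
    have h1 : ‖w - p‖ < 3 * h := mem_ball_iff_norm.1 hw
    have h2 : ‖SS e X J w - SS e X J p‖ ≤ 2 * ‖w - p‖ * Sq X J p := by
      unfold SS Sq
      rw [← Finset.sum_sub_distrib, Finset.mul_sum]
      refine (norm_sum_le _ _).trans (Finset.sum_le_sum fun j hj => ?_)
      obtain ⟨h3, h4⟩ := hdist w hw j hj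
      have h5 : 0 < ‖w - X j‖ := lt_of_lt_of_le (by positivity) h4
      have h6 : 0 < ‖p - X j‖ := lt_of_lt_of_le (by positivity) (g1 j hj)
      have h7 : w - X j ≠ 0 := norm_pos_iff.1 h5
      have h8 : p - X j ≠ 0 := norm_pos_iff.1 h6
      have h9 : (e j : ℂ) / (w - X j) - (e j : ℂ) / (p - X j) =
          (e j : ℂ) * (-(w - p) * ((w - X j)⁻¹ * (p - X j)⁻¹)) := by
        field_simp
        ring
      rw [h9, norm_mul, norm_e he, one_mul, norm_mul, norm_neg, norm_mul, norm_inv, norm_inv]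
      have h10 : ‖w - X j‖⁻¹ ≤ (‖p - X j‖ / 2)⁻¹ := inv_anti₀ (by positivity) h3
      calc ‖w - p‖ * (‖w - X j‖⁻¹ * ‖p - X j‖⁻¹) ≤
          ‖w - p‖ * ((‖p - X j‖ / 2)⁻¹ * ‖p - X j‖⁻¹) := by gcongr
        _ = 2 * ‖w - p‖ * (‖p - X j‖ ^ 2)⁻¹ := by
            field_simp
    refine h2.trans ?_
    calc 2 * ‖w - p‖ * Sq X J p ≤ 2 * (3 * h) * (Θ ^ 2 * ν ^ 17) := by
          gcongr
          exact Finset.sum_nonneg fun j _ => by positivity
      _ = 6 * Θ / ν ^ 23 := by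
          rw [hhe]
          field_simp
          ring
  refine ⟨hh0, hh1, fun w hw => ⟨hSS w hw, ?_, ?_, ?_⟩⟩
  · have h1 : ‖w - p‖ < 3 * h := mem_ball_iff_norm.1 hw
    have := norm_add_le p (w - p)
    rw [add_sub_cancel] at this
    linarith
  · intro h0
    have h1 : ‖w - p‖ < 3 * h := mem_ball_iff_norm.1 hw
    rw [h0, zero_sub, norm_neg] at h1
    linarith
  · have h1 : ‖w - p‖ < 3 * h := mem_ball_iff_norm.1 hw
    have h2 : ‖p‖ ≤ ‖w‖ + ‖w - p‖ := by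
      have : p = w - (w - p) := by ring
      nth_rewrite 1 [this]
      exact norm_sub_le _ _
    have h3 := norm_add_le p (w - p)
    rw [add_sub_cancel] at h3
    refine ⟨by linarith, by linarith, fun j hj => ?_, ?_⟩
    · have := (hdist w hw j hj).2
      linarith
    · -- the growth of `gg`
      have hne : ∀ w ∈ Metric.ball p (3 * h), ∀ j ∈ J, w ≠ X j := fun w hw j hj =>
        sub_ne_zero.1 (norm_pos_iff.1 (lt_of_lt_of_le (by positivity) (hdist w hw j hj).2))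
      have hK : ∀ w ∈ Metric.ball p (3 * h), ‖SS e X J w‖ ≤ 2 * Θ * ν ^ 9 := by
        intro w hw
        have h4 := hSS w hw
        have h5 : ‖SS e X J w‖ ≤ ‖SS e X J p‖ + ‖SS e X J w - SS e X J p‖ := by
          have : SS e X J w = SS e X J p + (SS e X J w - SS e X J p) := by ring
          nth_rewrite 1 [this]
          exact norm_add_le _ _
        have h6 : 6 * Θ / ν ^ 23 ≤ Θ * ν ^ 9 := by
          rw [div_le_iff₀ (by positivity)]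
          have : (6 : ℝ) ≤ ν ^ 32 := by
            have : 100 ≤ ν ^ 32 := v1.trans (le_self_pow₀ hν (by norm_num))
            linarith
          calc 6 * Θ ≤ ν ^ 32 * Θ := by gcongr
            _ = Θ * ν ^ 9 * ν ^ 23 := by ring
        linarith
      have hKr : 2 * Θ * ν ^ 9 * (3 * h) ≤ 1 / 8 := by
        have e1 : 2 * Θ * ν ^ 9 * (3 * h) = 6 / ν ^ 31 := by
          rw [hhe]
          field_simp
          ring
        rw [e1, div_le_div_iff₀ (by positivity) (by norm_num)]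
        have : 100 ≤ ν ^ 31 := v1.trans (le_self_pow₀ hν (by norm_num))
        linarith
      have h4 := grw (f := gg a e X J) (L := SS e X J) (K := 2 * Θ * ν ^ 9) (by positivity) hKr
        (fun w hw => hasDerivAt_gg (hne w hw)) hK hw
      have h5 : ‖gg a e X J w - gg a e X J p‖ ≤ ‖gg a e X J p‖ / 2 := by
        refine h4.trans ?_
        have h6 : 2 * Θ * ν ^ 9 * ‖w - p‖ ≤ 1 / 8 := by
          refine le_trans ?_ hKr
          gcongr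
        have : 0 ≤ ‖gg a e X J p‖ := norm_nonneg _
        nlinarith
      have h6 := (log_near (gg_ne_zero ha hW.ne) h5).2
      have h7 := hW.2
      rw [abs_le] at h6 h7 ⊢
      constructor <;> linarith [h6.1, h6.2, h7.1, h7.2]

end Pool.Agent.N229.HF
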