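import Pool.Agent.N229.HF.Incr

/-!
# The area of the bad set of the values
-/

set_option autoImplicit false

open Filter Topology MeasureTheory Set

namespace Pool.Agent.N229.HF

open Pool.Agent.N229.RL

variable {N : ℕ}

theorem measurable_Qc (T₀ S₀ c : ℂ) : Measurable (Qc T₀ S₀ c) := by
  unfold Qc
  fun_prop

/-- the local area of the preimage -/
theorem local_area {Rp η : ℝ} (hRp : 1 ≤ Rp) (hη : 0 < η) : ∀ᶠ N : ℕ in atTop,
    ∀ (μ : Fin N → Measure ℂ) (e : Fin N → ℤ) (a : ℂ)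
      (X : Fin N → ℂ) (J : Finset (Fin N)) (p T₀ S₀ c : ℂ),
      (∀ i, e i = 1 ∨ e i = -1) → a ≠ 0 → ‖p‖ ≤ Rp → Th μ e J p ≤ nu N ^ 257 →
      Wi 6 a e X J p → Gd μ e X J p → nu N ^ 20 < ‖p‖ * Th μ e J p →
      ‖c‖ ≤ Rp → T₀ ≠ 0 → ‖S₀‖ ≤ 2 / η → ‖p / T₀‖ ≤ 4 * Rp ^ 2 → η ^ 2 ≤ ‖Qc T₀ S₀ c p‖ →
      ∀ B : Set ℂ, MeasurableSet B →
      volume {w | w ∈ Metric.ball p (3 * rh μ e J p) ∧ gg a e X J w * Qc T₀ S₀ c w ∈ B} ≤
        ENNReal.ofReal (16 * nu N ^ 112 * rh μ e J p ^ 2) * al B := by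
  set Cq : ℝ := 6 * Rp ^ 2 + 4 * Rp ^ 2 * (1 + 6 * Rp / η) + 16 * Rp ^ 3 / η with hCq
  have hCq0 : 0 < Cq := by positivity
  filter_upwards [local_facts Rp, ev_log_ge 1, eventually_ge_atTop 8, ev_nu 200 0,
    ev_nu (2 * Cq / η ^ 2) 0, ev_nu (6 * Cq / η ^ 2) 0] with
    N hloc hl1 hN v1 v2 v3 μ e a X J p T₀ S₀ c he ha hp hΘ2 hW hG hz hc hT₀ hS₀ hpT hQ B hB
  rw [pow_zero, mul_one] at v1 v2 v3
  have hN1 : 1 ≤ N := by omega
  have hν := nu_ge hN1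
  have hν0 : 0 < nu N := by linarith
  obtain ⟨hh0, hh1, hball⟩ := hloc μ e a X J p he ha hp hΘ2 hW hG hz
  obtain ⟨g1, g2, g3, g4⟩ := hG
  have hhe : rh μ e J p = (nu N ^ 40 * Th μ e J p)⁻¹ := rfl
  set ν := nu N with hνdef
  set Θ := Th μ e J p with hΘ
  have hpow : ∀ {m n : ℕ}, m ≤ n → ν ^ m ≤ ν ^ n := fun h => pow_le_pow_right₀ hν h
  have hΘ1 : ν ^ 128 ≤ Θ := Th_ge μ e J p
  have hΘ0 : 0 < Θ := lt_of_lt_of_le (by positivity) hΘ1
  set h := rh μ e J p with hh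
  have hp0 : 0 < ‖p‖ := by
    by_contra hcon
    have : ‖p‖ = 0 := le_antisymm (not_lt.1 hcon) (norm_nonneg _)
    rw [this, zero_mul] at hz
    have : 0 < ν ^ 20 := by positivity
    linarith
  have hpi : ‖p‖⁻¹ ≤ Θ / ν ^ 20 := by
    rw [inv_le_comm₀ hp0 (by positivity), inv_div, div_le_iff₀ hΘ0]
    exact hz.le
  have hT₀0 : 0 < ‖T₀‖ := norm_pos_iff.2 hT₀
  have hT₀i : ‖1 / T₀‖ ≤ 4 * Rp ^ 2 * ‖p‖⁻¹ := by
    rw [norm_div, norm_one, one_div]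
    rw [norm_div, div_eq_mul_inv] at hpT
    calc ‖T₀‖⁻¹ = ‖p‖ * ‖T₀‖⁻¹ * ‖p‖⁻¹ := by field_simp
      _ ≤ 4 * Rp ^ 2 * ‖p‖⁻¹ := by gcongr
  have hRpp : 1 ≤ Rp * ‖p‖⁻¹ := by
    rw [← div_eq_mul_inv, le_div_iff₀ hp0]
    linarith
  -- the derivative of `Q`
  have hQ' : ∀ w ∈ Metric.ball p (3 * h), ‖Qc' T₀ S₀ c w‖ ≤ Cq * ‖p‖⁻¹ := by
    intro w hw
    obtain ⟨-, -, -, -, hw2, -⟩ := hball w hw
    have h1 : ‖w - c‖ ≤ 3 * Rp := (norm_sub_le _ _).trans (by linarith)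
    have h2 : ‖1 - S₀ * (w - c)‖ ≤ 1 + 6 * Rp / η := by
      refine (norm_sub_le _ _).trans ?_
      rw [norm_one, norm_mul]
      have : ‖S₀‖ * ‖w - c‖ ≤ 2 / η * (3 * Rp) := by gcongr
      have e1 : 2 / η * (3 * Rp) = 6 * Rp / η := by ring
      linarith
    have h3 : ‖w / T₀‖ ≤ 2 * Rp * (4 * Rp ^ 2 * ‖p‖⁻¹) := by
      have : w / T₀ = w * (1 / T₀) := by ring
      rw [this, norm_mul]
      have : ‖w‖ ≤ 2 * Rp := by linarith
      gcongr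
    unfold Qc'
    have n1 : ‖2 * (w - c)‖ ≤ 6 * Rp := by
      rw [norm_mul, Complex.norm_ofNat]
      linarith
    have n2 : ‖1 / T₀ * (1 - S₀ * (w - c))‖ ≤ 4 * Rp ^ 2 * ‖p‖⁻¹ * (1 + 6 * Rp / η) := by
      rw [norm_mul]
      gcongr
    have n3 : ‖w / T₀ * -S₀‖ ≤ 2 * Rp * (4 * Rp ^ 2 * ‖p‖⁻¹) * (2 / η) := by
      rw [norm_mul, norm_neg]
      gcongr
    have n4 : 6 * Rp ≤ 6 * Rp ^ 2 * ‖p‖⁻¹ := by
      calc 6 * Rp = 6 * Rp * 1 := by ring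
        _ ≤ 6 * Rp * (Rp * ‖p‖⁻¹) := by gcongr
        _ = 6 * Rp ^ 2 * ‖p‖⁻¹ := by ring
    refine (norm_add_le _ _).trans ((add_le_add_left (norm_add_le _ _) _).trans ?_)
    have e1 : Cq * ‖p‖⁻¹ = 6 * Rp ^ 2 * ‖p‖⁻¹ + 4 * Rp ^ 2 * ‖p‖⁻¹ * (1 + 6 * Rp / η) +
        2 * Rp * (4 * Rp ^ 2 * ‖p‖⁻¹) * (2 / η) := by
      rw [hCq]
      ring
    rw [e1]
    linarith
  have hpb : p ∈ Metric.ball p (3 * h) := Metric.mem_ball_self (by positivity)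
  have hQd : ∀ w ∈ Metric.ball p (3 * h), ‖Qc T₀ S₀ c w - Qc T₀ S₀ c p‖ ≤ η ^ 2 / 2 := by
    intro w hw
    have h1 := (convex_ball p (3 * h)).norm_image_sub_le_of_norm_hasDerivWithin_le
      (f := Qc T₀ S₀ c) (f' := Qc' T₀ S₀ c) (C := Cq * ‖p‖⁻¹)
      (fun w _ => (hasDerivAt_Qc T₀ S₀ c w).hasDerivWithinAt) hQ' hpb hw
    refine h1.trans ?_
    have h2 : ‖w - p‖ ≤ 3 * h := (mem_ball_iff_norm.1 hw).le
    calc Cq * ‖p‖⁻¹ * ‖w - p‖ ≤ Cq * (Θ / ν ^ 20) * (3 * h) := by gcongr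
      _ = 3 * Cq / ν ^ 60 := by
          rw [hhe]
          field_simp
      _ ≤ η ^ 2 / 2 := by
          rw [div_le_div_iff₀ (by positivity) (by norm_num)]
          rw [div_le_iff₀ (by positivity)] at v3
          have : ν ≤ ν ^ 60 := le_self_pow₀ hν (by norm_num)
          have h3 : ν * η ^ 2 ≤ ν ^ 60 * η ^ 2 := by gcongr
          linarith
  have hQn : ∀ w ∈ Metric.ball p (3 * h), η ^ 2 / 2 ≤ ‖Qc T₀ S₀ c w‖ := by
    intro w hw
    have h1 := hQd w hw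
    have h2 : ‖Qc T₀ S₀ c p‖ ≤ ‖Qc T₀ S₀ c w‖ + ‖Qc T₀ S₀ c w - Qc T₀ S₀ c p‖ := by
      have : Qc T₀ S₀ c p = Qc T₀ S₀ c w - (Qc T₀ S₀ c w - Qc T₀ S₀ c p) := by ring
      nth_rewrite 1 [this]
      exact norm_sub_le _ _
    linarith
  have hQq : ∀ w ∈ Metric.ball p (3 * h), ‖Qc' T₀ S₀ c w / Qc T₀ S₀ c w‖ ≤ Θ / ν ^ 19 := by
    intro w hw
    rw [norm_div]
    have h1 := hQ' w hw
    have h2 := hQn w hw
    have hη2 : 0 < η ^ 2 / 2 := by positivity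
    calc ‖Qc' T₀ S₀ c w‖ / ‖Qc T₀ S₀ c w‖ ≤ (Cq * (Θ / ν ^ 20)) / (η ^ 2 / 2) := by
          gcongr
          exact h1.trans (by gcongr)
      _ = (2 * Cq / η ^ 2) * (Θ / ν ^ 20) := by
          field_simp
      _ ≤ ν * (Θ / ν ^ 20) := by gcongr
      _ = Θ / ν ^ 19 := by field_simp
  -- the function
  set f : ℂ → ℂ := fun w => gg a e X J w * Qc T₀ S₀ c w with hf
  set L : ℂ → ℂ := fun w => SS e X J w + Qc' T₀ S₀ c w / Qc T₀ S₀ c w with hL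
  have hne : ∀ w ∈ Metric.ball p (3 * h), ∀ j ∈ J, w ≠ X j := fun w hw =>
    (hball w hw).2.2.2.2.2.ne
  have hQ0 : ∀ w ∈ Metric.ball p (3 * h), Qc T₀ S₀ c w ≠ 0 := fun w hw =>
    norm_pos_iff.1 (lt_of_lt_of_le (by positivity) (hQn w hw))
  have hfd : ∀ w ∈ Metric.ball p (3 * h), HasDerivAt f (f w * L w) w := by
    intro w hw
    have h1 := (hasDerivAt_gg (a := a) (e := e) (hne w hw)).fun_mul (hasDerivAt_Qc T₀ S₀ c w)
    refine h1.congr_deriv ?_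
    have h2 := hQ0 w hw
    simp only [hf, hL]
    field_simp
  have hfm : Measurable f := (measurable_gg he).mul (measurable_Qc T₀ S₀ c)
  have hν3 : (200 : ℝ) ≤ ν ^ 3 := v1.trans (le_self_pow₀ hν (by norm_num))
  have hlow : Θ / ν ^ 16 / 2 ≤ ‖L p‖ := by
    have h1 := hQq p hpb
    have h2 : ‖SS e X J p‖ ≤ ‖L p‖ + ‖Qc' T₀ S₀ c p / Qc T₀ S₀ c p‖ := by
      have : SS e X J p = L p - Qc' T₀ S₀ c p / Qc T₀ S₀ c p := by
        simp only [hL]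
        ring
      nth_rewrite 1 [this]
      exact norm_sub_le _ _
    have h3 : Θ / ν ^ 19 ≤ Θ / ν ^ 16 / 2 := by
      rw [div_div, div_le_div_iff₀ (by positivity) (by positivity)]
      have : ν ^ 16 * 2 ≤ ν ^ 19 := by
        calc ν ^ 16 * 2 ≤ ν ^ 16 * ν ^ 3 := by
              gcongr
              linarith
          _ = ν ^ 19 := by ring
      gcongr
    linarith
  have hup : ‖L p‖ ≤ 2 * (Θ * ν ^ 9) := by
    have h1 := hQq p hpb
    have h2 : ‖L p‖ ≤ ‖SS e X J p‖ + ‖Qc' T₀ S₀ c p / Qc T₀ S₀ c p‖ := norm_add_le _ _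
    have h3 : Θ / ν ^ 19 ≤ Θ * ν ^ 9 := by
      rw [div_le_iff₀ (by positivity)]
      have : (1 : ℝ) ≤ ν ^ 9 * ν ^ 19 := by
        have := one_le_pow₀ (n := 28) hν
        calc (1 : ℝ) ≤ ν ^ 28 := this
          _ = ν ^ 9 * ν ^ 19 := by ring
      calc Θ = Θ * 1 := by ring
        _ ≤ Θ * (ν ^ 9 * ν ^ 19) := by gcongr
        _ = Θ * ν ^ 9 * ν ^ 19 := by ring
    linarith
  have hl0 : L p ≠ 0 := norm_pos_iff.1 (lt_of_lt_of_le (by positivity) hlow)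
  have hfp : f p ≠ 0 := mul_ne_zero (gg_ne_zero ha (hne p hpb)) (hQ0 p hpb)
  have hlr : ‖L p‖ * (3 * h) ≤ 1 / 16 := by
    calc ‖L p‖ * (3 * h) ≤ 2 * (Θ * ν ^ 9) * (3 * h) := by gcongr
      _ = 6 / ν ^ 31 := by
          rw [hhe]
          field_simp
          ring
      _ ≤ 1 / 16 := by
          rw [div_le_div_iff₀ (by positivity) (by norm_num)]
          have : 200 ≤ ν ^ 31 := v1.trans (le_self_pow₀ hν (by norm_num))
          linarith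
  have hLd : ∀ w ∈ Metric.ball p (3 * h), ‖L w - L p‖ ≤ ‖L p‖ / 8 := by
    intro w hw
    have h1 := (hball w hw).1
    have h2 := hQq w hw
    have h3 := hQq p hpb
    have h4 : L w - L p = (SS e X J w - SS e X J p) +
        (Qc' T₀ S₀ c w / Qc T₀ S₀ c w - Qc' T₀ S₀ c p / Qc T₀ S₀ c p) := by
      simp only [hL]
      ring
    rw [h4]
    refine (norm_add_le _ _).trans ?_
    have h5 := norm_sub_le (Qc' T₀ S₀ c w / Qc T₀ S₀ c w) (Qc' T₀ S₀ c p / Qc T₀ S₀ c p)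
    have h6 : 6 * Θ / ν ^ 23 ≤ 6 * (Θ / ν ^ 19) := by
      rw [mul_div_assoc]
      have := hpow (show 19 ≤ 23 by norm_num)
      gcongr
    have h7 : 8 * (Θ / ν ^ 19) ≤ Θ / ν ^ 16 / 16 := by
      have e1 : Θ / ν ^ 16 / 16 = ν ^ 3 / 16 * (Θ / ν ^ 19) := by field_simp
      rw [e1]
      gcongr
      linarith
    linarith
  have harea := loc_area hl0 hfp hlr hfd hLd hB hfm
  refine harea.trans (mul_le_mul_left (ENNReal.ofReal_le_ofReal ?_) _)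
  calc 4 / ‖L p‖ ^ 2 ≤ 4 / (Θ / ν ^ 16 / 2) ^ 2 := by gcongr
    _ = 16 * ν ^ 112 * h ^ 2 := by
        rw [hhe]
        field_simp
        norm_num

theorem measurable_Bc {Rp η : ℝ} {a : ℂ} {e : Fin N → ℤ} {J : Finset (Fin N)} {X : Fin N → ℂ}
    {T₀ S₀ c : ℂ} (he : ∀ i, e i = 1 ∨ e i = -1) : MeasurableSet (Bc Rp η a e X J T₀ S₀ c) := by
  have hQ := measurable_Qc T₀ S₀ c
  have hg : Measurable (gg a e X J) := measurable_gg he
  have m1 : MeasurableSet {p : ℂ | ((N : ℝ) ^ 4)⁻¹ ≤ ‖p‖} :=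
    measurableSet_le measurable_const measurable_norm
  have m2 : MeasurableSet {p : ℂ | ‖p‖ ≤ Rp} := measurableSet_le measurable_norm measurable_const
  have m3 : MeasurableSet {p : ℂ | ‖p / T₀‖ ≤ 4 * Rp ^ 2} :=
    measurableSet_le (measurable_id.div_const T₀).norm measurable_const
  have m4 : MeasurableSet {p : ℂ | η ^ 2 ≤ ‖Qc T₀ S₀ c p‖} :=
    measurableSet_le measurable_const hQ.norm
  have m5 : MeasurableSet {p : ℂ | ‖Qc T₀ S₀ c p‖ ≤ 4 * Rp ^ 2} :=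
    measurableSet_le hQ.norm measurable_const
  have m6 : MeasurableSet {p : ℂ | ∃ j ∈ J, ‖p - X j‖ ≤ ((N : ℝ) ^ 4)⁻¹} :=
    (measurable_pairp X) (measurable_near2 J _)
  have m7 : MeasurableSet {p : ℂ | ∀ j ∈ J, ((N : ℝ) ^ 4)⁻¹ ≤ ‖p - X j‖} :=
    (measurable_pairp X) (measurable_dist2 J _)
  have m8 : MeasurableSet {p : ℂ | gg a e X J p * Qc T₀ S₀ c p ∈ Bt Rp a e X J} := by
    have h1 : MeasurableSet (Bt Rp a e X J) := (measurable_pairp X) (measurable_Bt (J := J) he)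
    exact (hg.mul hQ) h1
  exact (m1.inter (m2.inter (m3.inter (m4.inter m5)))).inter (m6.union (m7.inter m8))

theorem incr {D R Rp η : ℝ} (hD : 0 ≤ D) (hR : 0 ≤ R) (hRp : 1 ≤ Rp) (hη : 0 < η) :
    ∀ᶠ N : ℕ in atTop, ∀ (μ : Fin N → Measure ℂ) (e : Fin N → ℤ) (a : ℂ)
      (X : Fin N → ℂ) (J : Finset (Fin N)) (T₀ S₀ c : ℂ), (∀ i, Dens (μ i) D R) →
      (∀ i, e i = 1 ∨ e i = -1) → a ≠ 0 → Ty μ R 7 (Rp + 1) a e X J →
      ‖c‖ ≤ Rp → T₀ ≠ 0 → ‖S₀‖ ≤ 2 / η →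
      al (Bc Rp η a e X J T₀ S₀ c) ≤ ENNReal.ofReal ((nu N ^ 137)⁻¹) := by
  have hpi := Real.pi_pos
  filter_upwards [local_facts Rp, local_area hRp hη, al_Nr,
    zero_det (A := 7) (by norm_num) hD hR (by linarith : 1 ≤ Rp + 1),
    Th_slow hD hR (by linarith : 0 ≤ Rp), ev_log_ge 1, eventually_ge_atTop 8, ev_nu 1000 0,
    ev_nu (2 * Real.pi * D + 2) 0, ev_log (4 * Rp ^ 2 + 1) 0, ev_log (η ^ 2)⁻¹ 0] with
    N hloc harea hnr hzd hslow hl1 hN v1 v2 v3 v4 μ e a X J T₀ S₀ c hμ he ha hTy hc hT₀ hS₀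
  rw [pow_zero, mul_one] at v1 v2 v3 v4
  have hN1 : 1 ≤ N := by omega
  have hN0 : (0 : ℝ) < N := by exact_mod_cast hN1
  have hN1' : (1 : ℝ) ≤ N := by exact_mod_cast hN1
  have hν := nu_ge hN1
  have hν0 : 0 < nu N := by linarith
  have hNν : (N : ℝ) = nu N ^ 256 := (nu_pow N).symm
  have hT := T1_pos hN1
  have hq : T1 N ≤ ((N : ℝ) ^ 4)⁻¹ := by
    unfold T1
    refine inv_anti₀ (by positivity) ?_
    have : 0 ≤ (N : ℝ) ^ 4 := by positivity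
    linarith
  have hpow : ∀ {m n : ℕ}, m ≤ n → nu N ^ m ≤ nu N ^ n := fun h => pow_le_pow_right₀ hν h
  have hΘ2 : ∀ p, Th μ e J p ≤ nu N ^ 257 := by
    intro p
    have e1 := MGJ_le hμ he hD J p
    have e2 : Th μ e J p = ‖MGJ μ e J p‖ + nu N ^ 128 := rfl
    rw [hNν] at e1
    have e3 : nu N ^ 128 ≤ nu N ^ 256 := hpow (by norm_num)
    have e4 : nu N ^ 257 = nu N * nu N ^ 256 := by ring
    have e5 : (2 * Real.pi * D + 2) * nu N ^ 256 ≤ nu N * nu N ^ 256 := by gcongr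
    rw [e2, e4]
    nlinarith
  have hB : MeasurableSet (Bt Rp a e X J) := (measurable_pairp X) (measurable_Bt (J := J) he)
  -- the target set
  have hBt : al (Bt Rp a e X J) ≤ ENNReal.ofReal (2 * (nu N ^ 125)⁻¹) := by
    have h1 : Bt Rp a e X J ⊆ Nr X J ∪ WS 7 (Rp + 1) a e X J := by
      rintro w ⟨h1, h2, h3⟩
      rcases h3 with h3 | ⟨h3, h4, h5⟩
      · exact Or.inl ⟨h1, h3⟩
      · right
        refine ⟨hq.trans h1, by linarith, fun j hj => hq.trans (h3 j hj), ?_⟩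
        have h6 : 0 < ‖gg a e X J w‖ := lt_of_lt_of_le (by positivity) h4
        have k1 := Real.log_le_log (by positivity) h4
        have k2 := Real.log_le_log h6 h5
        rw [Real.log_inv, Real.log_pow] at k1
        rw [Real.log_pow] at k2
        push_cast at k1 k2
        rw [abs_le]
        constructor <;> linarith
    refine (al_mono h1).trans ((al_union_le _ _).trans ((add_le_add (hnr X J hTy.ge)
      hTy.ws.le).trans ?_))
    rw [← ENNReal.ofReal_add (by positivity) (by positivity)]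
    refine ENNReal.ofReal_le_ofReal ?_
    have h2 : ((N : ℝ) ^ 4)⁻¹ ≤ (nu N ^ 125)⁻¹ := by
      refine inv_anti₀ (by positivity) ?_
      rw [hNν, ← pow_mul]
      exact hpow (by norm_num)
    linarith
  -- the regular part
  set G : Set ℂ := {p | p ∈ Bc Rp η a e X J T₀ S₀ c ∧
    ((∀ j ∈ J, ((N : ℝ) ^ 4)⁻¹ ≤ ‖p - X j‖) ∧ gg a e X J p * Qc T₀ S₀ c p ∈ Bt Rp a e X J) ∧
    Gd μ e X J p} with hG
  have hGm : MeasurableSet G := by
    have m7 : MeasurableSet {p : ℂ | ∀ j ∈ J, ((N : ℝ) ^ 4)⁻¹ ≤ ‖p - X j‖} :=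
      (measurable_pairp X) (measurable_dist2 J _)
    have m8 : MeasurableSet {p : ℂ | gg a e X J p * Qc T₀ S₀ c p ∈ Bt Rp a e X J} :=
      ((measurable_gg he).mul (measurable_Qc T₀ S₀ c)) hB
    have m9 : MeasurableSet {p : ℂ | Gd μ e X J p} :=
      (measurable_pairp X) (measurable_Gd2 hμ e J)
    exact (measurable_Bc he).inter ((m7.inter m8).inter m9)
  have hWi : ∀ p, p ∈ Bc Rp η a e X J T₀ S₀ c → (∀ j ∈ J, ((N : ℝ) ^ 4)⁻¹ ≤ ‖p - X j‖) →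
      gg a e X J p * Qc T₀ S₀ c p ∈ Bt Rp a e X J → Wi 6 a e X J p := by
    rintro p ⟨⟨h1, h2, h3, h4, h5⟩, -⟩ h6 ⟨h7, h8, -⟩
    refine ⟨fun j hj => hq.trans (h6 j hj), ?_⟩
    have hg0 : 0 < ‖gg a e X J p * Qc T₀ S₀ c p‖ := lt_of_lt_of_le (by positivity) h7
    have hQ0 : 0 < ‖Qc T₀ S₀ c p‖ := lt_of_lt_of_le (by positivity) h4
    have hgg0 : 0 < ‖gg a e X J p‖ := by
      rw [norm_mul] at hg0
      exact pos_of_mul_pos_left hg0 hQ0.le
    have e1 : Real.log ‖gg a e X J p * Qc T₀ S₀ c p‖ =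
        Real.log ‖gg a e X J p‖ + Real.log ‖Qc T₀ S₀ c p‖ := by
      rw [norm_mul, Real.log_mul hgg0.ne' hQ0.ne']
    have e2 := Real.log_le_log (by positivity) h7
    have e3 := Real.log_le_log hg0 h8
    have e4 := Real.log_le_log (by positivity) h4
    have e5 := Real.log_le_log hQ0 h5
    rw [Real.log_inv, Real.log_pow] at e2
    push_cast at e2
    have e6 : Real.log (4 * Rp ^ 2) ≤ Real.log N :=
      Real.log_le_log (by positivity) (by linarith)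
    have e7 : Real.log Rp ≤ Real.log N := by
      refine Real.log_le_log (by linarith) ?_
      nlinarith
    have e8 : -Real.log N ≤ Real.log (η ^ 2) := by
      have := Real.log_le_log (by positivity) v4
      rw [Real.log_inv] at this
      linarith
    rw [abs_le]
    constructor <;> linarith
  have hGf : ∀ p ∈ G, ‖p‖ ≤ Rp ∧ Wi 6 a e X J p ∧ Gd μ e X J p ∧
      nu N ^ 20 < ‖p‖ * Th μ e J p := by
    rintro p ⟨h1, ⟨h2, h3⟩, h4⟩
    have h5 := hWi p h1 h2 h3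
    refine ⟨h1.1.2.1, h5, h4, hzd μ e a X J p hμ he ha hTy.le hTy.ge hTy.zr ⟨h5.1, ?_⟩⟩
    have := h5.2
    linarith
  set β : ℝ := 32 * (nu N ^ 13)⁻¹ with hβ
  have hWSm : MeasurableSet (WS 7 (Rp + 1) a e X J) :=
    (measurable_pairp X) (measurable_sec (measurable_Wi2 (A := 7) (a := a) (J := J) he)
      (T1 N) (Rp + 1))
  have hrhm : Measurable (rh μ e J) := by
    unfold rh
    exact ((measurable_Th hμ e J).const_mul _).inv
  have hGal : al G ≤ ENNReal.ofReal (6 * β) * al (WS 7 (Rp + 1) a e X J) := by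
    refine avg hGm hWSm hrhm (by positivity) (fun p hp => ?_) (fun p hp p' hp' hpp' => ?_)
      (fun p hp w hw => ?_) (fun p hp => ?_)
    · obtain ⟨h1, h2, h3, h4⟩ := hGf p hp
      exact (hloc μ e a X J p he ha h1 (hΘ2 p) h2 h3 h4).1
    · obtain ⟨h1, h2, h3, h4⟩ := hGf p hp
      obtain ⟨h1', h2', h3', h4'⟩ := hGf p' hp'
      obtain ⟨k0, k1, -⟩ := hloc μ e a X J p he ha h1 (hΘ2 p) h2 h3 h4
      obtain ⟨k0', k1', -⟩ := hloc μ e a X J p' he ha h1' (hΘ2 p') h2' h3' h4'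
      have h5 : ‖p - p'‖ ≤ 3 * (nu N ^ 168)⁻¹ := by
        have : 0 < (nu N ^ 168)⁻¹ := by positivity
        linarith
      have h6 := hslow μ e J p p' hμ he h1 h5
      have h7 := Th_ge μ e J p
      have h7' := Th_ge μ e J p'
      have h8 : 0 < nu N ^ 128 := by positivity
      have h9 : Th μ e J p' ≤ 2 * Th μ e J p := by
        rw [abs_le] at h6
        linarith [h6.1]
      have hΘp : 0 < Th μ e J p := h8.trans_le h7
      have hΘp' : 0 < Th μ e J p' := h8.trans_le h7'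
      unfold rh
      rw [← div_eq_mul_inv, le_div_iff₀ (by positivity), inv_mul_le_iff₀ (by positivity)]
      calc nu N ^ 40 * Th μ e J p' ≤ nu N ^ 40 * (2 * Th μ e J p) := by gcongr
        _ = nu N ^ 40 * Th μ e J p * 2 := by ring
    · obtain ⟨h1, h2, h3, h4⟩ := hGf p hp
      obtain ⟨k0, k1, k2⟩ := hloc μ e a X J p he ha h1 (hΘ2 p) h2 h3 h4
      obtain ⟨-, k3, k4, k5⟩ := k2 w (by rw [mem_ball_iff_norm]; linarith)
      exact ⟨k5, k4, k3⟩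
    · obtain ⟨h1, h2, h3, h4⟩ := hGf p hp
      obtain ⟨⟨h5, -⟩, -, -⟩ := hp
      have h6 := harea μ e a X J p T₀ S₀ c he ha h1 (hΘ2 p) h2 h3 h4 hc hT₀ hS₀ h5.2.2.1
        h5.2.2.2.1 (Bt Rp a e X J) hB
      refine (measure_mono ?_).trans (h6.trans ((mul_le_mul_right hBt _).trans (le_of_eq ?_)))
      · rintro w ⟨hw1, hw2⟩
        exact ⟨hw2, hw1.2.1.2⟩
      · rw [← ENNReal.ofReal_mul (by positivity)]
        congr 1
        rw [hβ, show nu N ^ 125 = nu N ^ 13 * nu N ^ 112 by ring]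
        field_simp
        try ring
  have hcover : Bc Rp η a e X J T₀ S₀ c ⊆ Nr X J ∪ (BS μ 7 (Rp + 1) a e X J ∪ G) := by
    intro p hp
    obtain ⟨⟨h1, h2, h3⟩, h4⟩ := hp
    rcases h4 with h4 | h4
    · exact Or.inl ⟨h1, h4⟩
    · right
      have hp : p ∈ Bc Rp η a e X J T₀ S₀ c := ⟨⟨h1, h2, h3⟩, Or.inr h4⟩
      by_cases hg : Gd μ e X J p
      · exact Or.inr ⟨hp, h4, hg⟩
      · left
        have h5 := hWi p hp h4.1 h4.2
        refine ⟨hq.trans h1, by linarith, ⟨h5.1, ?_⟩, hg⟩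
        have := h5.2
        linarith
  refine (al_mono hcover).trans ((al_union_le _ _).trans ((add_le_add (hnr X J hTy.ge)
    ((al_union_le _ _).trans (add_le_add hTy.bs.le (hGal.trans
      (mul_le_mul_right hTy.ws.le _))))).trans ?_))
  rw [← ENNReal.ofReal_mul (by positivity), ← ENNReal.ofReal_add (by positivity) (by positivity),
    ← ENNReal.ofReal_add (by positivity) (by positivity)]
  refine ENNReal.ofReal_le_ofReal ?_
  have e1 : ((N : ℝ) ^ 4)⁻¹ ≤ (nu N ^ 138)⁻¹ := by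
    refine inv_anti₀ (by positivity) ?_
    rw [hNν, ← pow_mul]
    exact hpow (by norm_num)
  have e2 : (nu N ^ 140)⁻¹ ≤ (nu N ^ 138)⁻¹ := inv_anti₀ (by positivity) (hpow (by norm_num))
  have e3 : 6 * β * (nu N ^ 125)⁻¹ = 192 * (nu N ^ 138)⁻¹ := by
    rw [hβ]
    field_simp
    norm_num
  rw [e3]
  have e4 : (nu N ^ 137)⁻¹ = nu N * (nu N ^ 138)⁻¹ := by field_simp
  rw [e4]
  have e5 : 1000 * (nu N ^ 138)⁻¹ ≤ nu N * (nu N ^ 138)⁻¹ := by gcongr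
  have e6 : 0 < (nu N ^ 138)⁻¹ := by positivity
  linarith

end Pool.Agent.N229.HF
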