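import Pool.Agent.N229.HF.Win

/-!
# The expected number of critical points with values in the window
-/

set_option autoImplicit false

open Filter Topology MeasureTheory Set

namespace Pool.Agent.N229.HF

open Pool.Agent.N229.RL

/-- the radius of truncation -/
noncomputable def r0 (N : ℕ) : ℝ := (nu N ^ 129)⁻¹

theorem log_B_div {B : ℝ} (hB : 1 ≤ B) {k : ℕ} (hk : k ≤ 1000) :
    ∀ᶠ N : ℕ in atTop, ∀ τ : ℝ, (nu N ^ k)⁻¹ ≤ τ → τ ≤ B →
      0 ≤ Real.log (B / τ) ∧ Real.log (B / τ) ≤ 5 * Real.log N := by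
  filter_upwards [ev_log_ge (Real.log B), eventually_ge_atTop 1] with N h1 hN τ hτ hτB
  have hν := nu_ge hN
  have hν0 : 0 < nu N := by linarith
  have hτ0 : 0 < τ := lt_of_lt_of_le (by positivity) hτ
  have hlog : 0 ≤ Real.log N := Real.log_nonneg (by exact_mod_cast hN)
  refine ⟨Real.log_nonneg (by rw [le_div_iff₀ hτ0]; linarith), ?_⟩
  rw [Real.log_div (by linarith) hτ0.ne']
  have h2 := Real.log_le_log (by positivity) hτ
  rw [Real.log_inv, Real.log_pow] at h2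
  have h3 : 256 * Real.log (nu N) = Real.log N := by
    rw [← nu_pow N, Real.log_pow]
    push_cast
    ring
  have h4 : 0 ≤ Real.log (nu N) := Real.log_nonneg hν
  have h5 : (k : ℝ) * Real.log (nu N) ≤ 1000 * Real.log (nu N) := by
    have : (k : ℝ) ≤ 1000 := by exact_mod_cast hk
    gcongr
  linarith

theorem lint_R {N : ℕ} {μ : Fin N → Measure ℂ} {D R : ℝ} (hμ : ∀ i, Dens (μ i) D R)
    {f g : (Fin N → ℂ) → ENNReal} (h : ∀ X, (∀ j, ‖X j‖ ≤ R) → f X ≤ g X) :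
    ∫⁻ X, f X ∂Measure.pi μ ≤ ∫⁻ X, g X ∂Measure.pi μ := by
  refine lintegral_mono_ae ?_
  filter_upwards [ae_R hμ] with X hX
  exact h X hX

/-- one point near `z` -/
theorem near_term {D R Rp : ℝ} {A : ℝ} (hA : 1 ≤ A) (hD : 0 ≤ D) (hR : 0 ≤ R) (hRp : 0 ≤ Rp) :
    ∃ C : ℝ, 0 < C ∧ ∀ᶠ N : ℕ in atTop, ∀ (μ : Fin N → Measure ℂ) (e : Fin N → ℤ) (a : ℂ)
      (J : Finset (Fin N)) (z : ℂ) (j : Fin N) (C₁ : ℝ), (∀ i, Dens (μ i) D R) →
      (∀ i, e i = 1 ∨ e i = -1) → N ≤ 2 * (J.erase j).card → ‖z‖ ≤ Rp → j ∈ J → 0 ≤ C₁ →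
      ∫⁻ X, {X : Fin N → ℂ | T1 N ≤ ‖z - X j‖ ∧ ‖SS e X J z‖ ≤ C₁ ∧
        |Po e X (J.erase j) z - -Real.log ‖a‖| ≤ (A + 5) * Real.log N}.indicator
        (fun X => ENNReal.ofReal ((‖z - X j‖ ^ 4)⁻¹)) X ∂Measure.pi μ ≤
        ENNReal.ofReal (C * C₁ ^ 2 * Real.log N / nu N ^ 128) := by
  have hpi := Real.pi_pos
  obtain ⟨C, hC, hC'⟩ := ac1 hD hR hRp
  refine ⟨(D + 1) * Real.pi * (C * (A + 5)), by positivity, ?_⟩
  filter_upwards [hC', ev_log_ge 1, eventually_ge_atTop 1] with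
    N h1 h2 hN μ e a J z j C₁ hμ he hJ hz hj hC₁
  have : ∀ i, IsProbabilityMeasure (μ i) := fun i => (hμ i).prob
  have hν := nu_ge hN
  have hν0 : 0 < nu N := by linarith
  set E : Set (Fin N → ℂ) := {X : Fin N → ℂ | T1 N ≤ ‖z - X j‖ ∧ ‖SS e X J z‖ ≤ C₁ ∧
        |Po e X (J.erase j) z - -Real.log ‖a‖| ≤ (A + 5) * Real.log N} with hE
  have hEm : MeasurableSet E := by
    have a1 : MeasurableSet {X : Fin N → ℂ | T1 N ≤ ‖z - X j‖} :=
      measurableSet_le measurable_const (meas_d z j)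
    have a2 : MeasurableSet {X : Fin N → ℂ | ‖SS e X J z‖ ≤ C₁} :=
      measurableSet_le (meas_S0 e J z) measurable_const
    have a3 : MeasurableSet {X : Fin N → ℂ | |Po e X (J.erase j) z - -Real.log ‖a‖| ≤
      (A + 5) * Real.log N} := measurableSet_le (meas_P e _ z _) measurable_const
    exact a1.inter (a2.inter a3)
  have hfm : Measurable fun X : Fin N → ℂ => ENNReal.ofReal ((‖z - X j‖ ^ 4)⁻¹) :=
    (((meas_d z j).pow_const 4).inv).ennreal_ofReal
  rw [resample_fun μ (hfm.indicator hEm) j]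
  set P : Set (Fin N → ℂ) := {X | |Po e X (J.erase j) z - -Real.log ‖a‖| ≤
    (A + 5) * Real.log N} with hP
  have hPm : MeasurableSet P :=
    measurableSet_le ((measurable_Po2.comp (measurable_pairX z)).sub_const _).abs measurable_const
  have hinner : ∀ X, ∫⁻ x, E.indicator (fun X => ENNReal.ofReal ((‖z - X j‖ ^ 4)⁻¹))
      (Function.update X j x) ∂μ j ≤
      P.indicator (fun _ => ENNReal.ofReal (D * (Real.pi * C₁ ^ 2))) X := by
    intro X
    have hupd : ∀ x, ∀ k ∈ J.erase j, Function.update X j x k = X k := fun x k hk => by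
      rw [Function.update_of_ne (Finset.ne_of_mem_erase hk)]
    have hPo : ∀ x, Po e (Function.update X j x) (J.erase j) z = Po e X (J.erase j) z := by
      intro x
      unfold Po
      exact Finset.sum_congr rfl fun k hk => by rw [hupd x k hk]
    have hSS : ∀ x, SS e (Function.update X j x) J z =
        (e j : ℂ) / (z - x) + SS e X (J.erase j) z := by
      intro x
      unfold SS
      rw [← Finset.add_sum_erase J _ hj, Function.update_self]
      congr 1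
      exact Finset.sum_congr rfl fun k hk => by rw [hupd x k hk]
    by_cases hX : X ∈ P
    · rw [indicator_of_mem hX]
      have hle : ∀ x, E.indicator (fun X => ENNReal.ofReal ((‖z - X j‖ ^ 4)⁻¹))
          (Function.update X j x) ≤ {v : ℂ | v ≠ 0 ∧ ‖(e j : ℂ) / v +
            SS e X (J.erase j) z‖ ≤ C₁}.indicator (fun v => ENNReal.ofReal ((‖v‖ ^ 4)⁻¹))
            (z - x) := by
        intro x
        by_cases hx : Function.update X j x ∈ E
        · obtain ⟨k1, k2, k3⟩ := hx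
          rw [indicator_of_mem (show Function.update X j x ∈ E from ⟨k1, k2, k3⟩)]
          rw [Function.update_self] at k1
          rw [hSS x] at k2
          have hmem : z - x ∈ {v : ℂ | v ≠ 0 ∧ ‖(e j : ℂ) / v + SS e X (J.erase j) z‖ ≤ C₁} :=
            ⟨norm_pos_iff.1 ((T1_pos hN).trans_le k1), k2⟩
          rw [indicator_of_mem hmem, Function.update_self]
        · rw [indicator_of_notMem hx]
          exact zero_le
      refine (lintegral_mono hle).trans (((hμ j).lint _).trans ?_)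
      rw [lint_translate z ({v : ℂ | v ≠ 0 ∧ ‖(e j : ℂ) / v +
            SS e X (J.erase j) z‖ ≤ C₁}.indicator (fun v => ENNReal.ofReal ((‖v‖ ^ 4)⁻¹)))]
      refine (mul_le_mul_right (inv_int (he j) _ hC₁) _).trans (le_of_eq ?_)
      rw [← ENNReal.ofReal_mul hD]
    · rw [indicator_of_notMem hX]
      refine le_of_eq ?_
      rw [lintegral_eq_zero_of_ae_eq_zero]
      refine Eventually.of_forall fun x => ?_
      simp only [Pi.zero_apply]
      refine indicator_of_notMem (fun hx => hX ?_) _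
      have := hx.2.2
      rw [hPo x] at this
      exact this
  refine (lintegral_mono hinner).trans ?_
  rw [lintegral_indicator_const hPm]
  have h3 := h1 μ e (J.erase j) z (-Real.log ‖a‖) ((A + 5) * Real.log N) hμ he hJ hz
    (by nlinarith)
  refine (mul_le_mul_right h3 _).trans ?_
  rw [← ENNReal.ofReal_mul (by positivity)]
  refine ENNReal.ofReal_le_ofReal ?_
  have e1 : D * (Real.pi * C₁ ^ 2) * (C * ((A + 5) * Real.log N) / nu N ^ 128) =
      D * (Real.pi * (C * (A + 5)) * (C₁ ^ 2 * Real.log N / nu N ^ 128)) := by ring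
  have e2 : (D + 1) * Real.pi * (C * (A + 5)) * C₁ ^ 2 * Real.log N / nu N ^ 128 =
      (D + 1) * (Real.pi * (C * (A + 5)) * (C₁ ^ 2 * Real.log N / nu N ^ 128)) := by ring
  rw [e1, e2]
  have h4 : 0 ≤ Real.pi * (C * (A + 5)) * (C₁ ^ 2 * Real.log N / nu N ^ 128) := by positivity
  nlinarith

theorem level0 {D R Rp : ℝ} (C₁ A : ℝ) (hA : 1 ≤ A) (hD : 0 ≤ D) (hR : 0 ≤ R) (hRp : 0 ≤ Rp)
    (hC₁ : 0 ≤ C₁) : ∀ᶠ N : ℕ in atTop, ∀ (μ : Fin N → Measure ℂ) (e : Fin N → ℤ) (a : ℂ)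
      (J : Finset (Fin N)) (z : ℂ), (∀ i, Dens (μ i) D R) → (∀ i, e i = 1 ∨ e i = -1) →
      a ≠ 0 → (Finset.univ \ J).card ≤ 2 → ‖z‖ ≤ Rp →
      ∫⁻ X, {X : Fin N → ℂ | Wi A a e X J z ∧ ‖SS e X J z‖ ≤ C₁}.indicator
        (fun X => ENNReal.ofReal ((1 + Sq X J z) ^ 2)) X ∂Measure.pi μ ≤
        ENNReal.ofReal (nu N ^ 134) := by
  have hpi := Real.pi_pos
  set B : ℝ := Rp + R + 1 with hB
  have hB1 : 1 ≤ B := by linarith
  obtain ⟨C₂, hC₂, hn⟩ := near_term (Rp := Rp) hA hD hR hRp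
  obtain ⟨C₃, hC₃, h3⟩ := ac3 hD hR hRp
  set K : ℝ := 10 * Real.pi * D + 27 with hK
  have hK0 : 0 < K := by positivity
  filter_upwards [hn, h3, log_B_div hB1 (k := 129) (by norm_num), ev_log_ge 1, ev_log_ge C₁,
    eventually_ge_atTop 8, ev_nu (10 * Real.pi * D) 0, ev_nu (2 * K ^ 2 * (C₃ * A)) 5,
    ev_nu (2 * 27 * (C₂ * C₁ ^ 2)) 2, ev_nu 4 0, ev_nu (2 * Real.pi * D) 0, wi_erase (R := R) (Rp := Rp) (A := A),
    ev_log 25 0] with
    N hn h3 hlB hl1 hlC hN v1 v2 v3 v4 v5 hwe v6 μ e a J z hμ he ha hJ hz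
  rw [pow_zero, mul_one] at v1 v4 v5 v6
  have : ∀ i, IsProbabilityMeasure (μ i) := fun i => (hμ i).prob
  have hN1 : 1 ≤ N := by omega
  have hν := nu_ge hN1
  have hν0 : 0 < nu N := by linarith
  have hN0 : (0 : ℝ) < N := by exact_mod_cast hN1
  have hNν : (N : ℝ) = nu N ^ 256 := (nu_pow N).symm
  set ν := nu N with hνdef
  set ℓ := Real.log N with hℓ
  have hℓ0 : 0 < ℓ := by linarith
  set ρ := r0 N with hρ
  have hρe : ρ = (ν ^ 129)⁻¹ := rfl
  have hρ0 : 0 < ρ := by rw [hρe]; positivity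
  have hρB : ρ ≤ B := by
    rw [hρe]
    exact (inv_le_one_of_one_le₀ (one_le_pow₀ hν)).trans hB1
  have hzB : ‖z‖ + R ≤ B := by linarith
  obtain ⟨hl0, hl⟩ := hlB ρ (by rw [hρe]) hρB
  have hcardJ : N ≤ J.card + 2 := by
    have := Finset.card_sdiff_add_card_eq_card (Finset.subset_univ J)
    rw [Finset.card_univ, Fintype.card_fin] at this
    omega
  -- the concentration estimates
  have hvar : N * (2 * Real.pi * D * Real.log (B / ρ)) * ρ ^ 2 ≤ ℓ := by
    have e1 : (N : ℝ) * (2 * Real.pi * D * Real.log (B / ρ)) * ρ ^ 2 =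
        2 * Real.pi * D * Real.log (B / ρ) / ν ^ 2 := by
      rw [hNν, hρe]
      field_simp
    rw [e1, div_le_iff₀ (by positivity)]
    have e2 : 2 * Real.pi * D * Real.log (B / ρ) ≤ 2 * Real.pi * D * (5 * ℓ) := by gcongr
    have e3 : 10 * Real.pi * D * ℓ ≤ ν * ℓ := by gcongr
    have e4 : ν * ℓ ≤ ν ^ 2 * ℓ := by
      gcongr
      nlinarith
    linarith
  have hc2 := c2 hD hN1 μ J z hμ hzB hρ0 hρB hvar
  have hc3 := c3 hD hN1 μ J z hμ hρ0.le
  set f₀ : ℝ := N * (2 * Real.pi * D * Real.log (B / ρ)) + 26 * ℓ / ρ ^ 2 with hf₀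
  set n₀ : ℝ := 2 * (N * (Real.pi * D * ρ ^ 2)) + 25 * ℓ with hn₀
  have hf₀0 : 0 ≤ f₀ := by positivity
  have hn₀0 : 0 ≤ n₀ := by positivity
  have hf₀le : 1 + f₀ ≤ K * ℓ * ν ^ 258 := by
    have e1 : 26 * ℓ / ρ ^ 2 = 26 * ℓ * ν ^ 258 := by
      rw [hρe]
      field_simp
    have e2 : N * (2 * Real.pi * D * Real.log (B / ρ)) ≤ 10 * Real.pi * D * ℓ * ν ^ 258 := by
      rw [hNν]
      have hpw : ν ^ 256 ≤ ν ^ 258 := pow_le_pow_right₀ hν (by norm_num)
      calc ν ^ 256 * (2 * Real.pi * D * Real.log (B / ρ)) ≤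
          ν ^ 258 * (2 * Real.pi * D * (5 * ℓ)) := by
            gcongr
        _ = 10 * Real.pi * D * ℓ * ν ^ 258 := by ring
    have e3 : 1 ≤ ℓ * ν ^ 258 := by
      have : (1 : ℝ) ≤ ν ^ 258 := one_le_pow₀ hν
      nlinarith
    rw [hf₀, hK, e1]
    nlinarith
  have hn₀le : n₀ ≤ 27 * ℓ := by
    have e1 : 2 * (N * (Real.pi * D * ρ ^ 2)) = 2 * Real.pi * D / ν ^ 2 := by
      rw [hNν, hρe]
      field_simp
    rw [hn₀, e1]
    have e2 : 2 * Real.pi * D / ν ^ 2 ≤ 1 := by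
      rw [div_le_one (by positivity)]
      nlinarith
    linarith
  -- the sets
  set EF : Set (Fin N → ℂ) := {X | f₀ ≤ ∑ j ∈ J, ‖ht ρ (z - X j)‖ ^ 2} with hEF
  set En : Set (Fin N → ℂ) := {X | n₀ ≤ cnt X J ρ z} with hEn
  set E3 : Set (Fin N → ℂ) := {X | ‖SS e X J z - 0‖ ≤ ℓ ∧
    |∑ j ∈ J, (e j : ℝ) * Real.log ‖z - X j‖ - -Real.log ‖a‖| ≤ A * ℓ} with hE3
  set G : Fin N → Set (Fin N → ℂ) := fun j => {X : Fin N → ℂ | T1 N ≤ ‖z - X j‖ ∧
    ‖SS e X J z‖ ≤ C₁ ∧ |Po e X (J.erase j) z - -Real.log ‖a‖| ≤ (A + 5) * Real.log N} with hG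
  have hEFm : MeasurableSet EF := by
    refine measurableSet_le measurable_const (Finset.measurable_sum _ fun j _ => ?_)
    exact ((measurable_ht ρ).comp (measurable_const.sub (measurable_pi_apply j))).norm.pow_const 2
  have hEnm : MeasurableSet En := by
    refine measurableSet_le measurable_const (Finset.measurable_sum _ fun j _ => ?_)
    exact Measurable.ite (measurableSet_lt (meas_d z j) measurable_const)
      measurable_const measurable_const
  have hE3m : MeasurableSet E3 := by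
    have a1 : MeasurableSet {X : Fin N → ℂ | ‖SS e X J z - 0‖ ≤ ℓ} :=
      measurableSet_le (meas_S e J z 0) measurable_const
    have a2 : MeasurableSet {X : Fin N → ℂ | |Po e X J z - -Real.log ‖a‖| ≤ A * ℓ} :=
      measurableSet_le (meas_P e J z _) measurable_const
    exact a1.inter a2
  have hGm : ∀ j, MeasurableSet (G j) := fun j => by
    have a1 : MeasurableSet {X : Fin N → ℂ | T1 N ≤ ‖z - X j‖} :=
      measurableSet_le measurable_const (meas_d z j)
    have a2 : MeasurableSet {X : Fin N → ℂ | ‖SS e X J z‖ ≤ C₁} :=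
      measurableSet_le (meas_S0 e J z) measurable_const
    have a3 : MeasurableSet {X : Fin N → ℂ | |Po e X (J.erase j) z - -Real.log ‖a‖| ≤
      (A + 5) * Real.log N} := measurableSet_le (meas_P e _ z _) measurable_const
    exact a1.inter (a2.inter a3)
  have hgm : ∀ j, Measurable fun X : Fin N → ℂ => ENNReal.ofReal ((‖z - X j‖ ^ 4)⁻¹) := fun j =>
    (((meas_d z j).pow_const 4).inv).ennreal_ofReal
  -- the pointwise bound
  set c₁ : ENNReal := ENNReal.ofReal (25 * (N : ℝ) ^ 18) with hc₁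
  set c₂ : ENNReal := ENNReal.ofReal (2 * (1 + f₀) ^ 2) with hc₂
  set c₃ : ENNReal := ENNReal.ofReal (2 * n₀) with hc₃
  have hpt : ∀ X : Fin N → ℂ, (∀ j, ‖X j‖ ≤ R) →
      {X : Fin N → ℂ | Wi A a e X J z ∧ ‖SS e X J z‖ ≤ C₁}.indicator
        (fun X => ENNReal.ofReal ((1 + Sq X J z) ^ 2)) X ≤
      (EF.indicator (fun _ => c₁) X + En.indicator (fun _ => c₁) X) +
        (E3.indicator (fun _ => c₂) X +
          c₃ * ∑ j ∈ J, (G j).indicator (fun X => ENNReal.ofReal ((‖z - X j‖ ^ 4)⁻¹)) X) := by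
    intro X hX
    by_cases hm : X ∈ {X : Fin N → ℂ | Wi A a e X J z ∧ ‖SS e X J z‖ ≤ C₁}
    swap
    · rw [indicator_of_notMem hm]
      exact zero_le
    rw [indicator_of_mem hm]
    obtain ⟨hW, hS⟩ := hm
    have hd : ∀ j ∈ J, 0 < ‖z - X j‖ := fun j hj => (T1_pos hN1).trans_le (hW.1 j hj)
    by_cases hbig : X ∈ EF ∨ X ∈ En
    · have h0 : ENNReal.ofReal ((1 + Sq X J z) ^ 2) ≤ c₁ := by
        refine ENNReal.ofReal_le_ofReal ?_
        have hSq : Sq X J z ≤ 4 * (N : ℝ) ^ 9 := by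
          unfold Sq
          have : ∀ j ∈ J, (‖z - X j‖ ^ 2)⁻¹ ≤ 4 * (N : ℝ) ^ 8 := by
            intro j hj
            have h5 := hW.1 j hj
            have h6 : (T1 N ^ 2)⁻¹ = 4 * (N : ℝ) ^ 8 := by
              unfold T1
              field_simp
              ring
            rw [← h6]
            have := T1_pos hN1
            gcongr
          refine (Finset.sum_le_sum this).trans ?_
          rw [Finset.sum_const, nsmul_eq_mul]
          have := card_J_le J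
          calc (J.card : ℝ) * (4 * (N : ℝ) ^ 8) ≤ N * (4 * (N : ℝ) ^ 8) := by gcongr
            _ = 4 * (N : ℝ) ^ 9 := by ring
        have hSq0 : 0 ≤ Sq X J z := Finset.sum_nonneg fun j _ => by positivity
        have hN9 : (1 : ℝ) ≤ (N : ℝ) ^ 9 := one_le_pow₀ (by exact_mod_cast hN1)
        calc (1 + Sq X J z) ^ 2 ≤ (5 * (N : ℝ) ^ 9) ^ 2 := by
              gcongr
              linarith
          _ = 25 * (N : ℝ) ^ 18 := by ring
      refine h0.trans ?_
      rcases hbig with h | h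
      · rw [indicator_of_mem h]
        exact le_self_add.trans le_self_add
      · rw [indicator_of_mem h]
        exact le_add_self.trans le_self_add
    · rw [not_or] at hbig
      obtain ⟨hF, hn'⟩ := hbig
      have hF' : ∑ j ∈ J, ‖ht ρ (z - X j)‖ ^ 2 < f₀ := not_le.1 hF
      have hn'' : cnt X J ρ z < n₀ := not_le.1 hn'
      have hX3 : X ∈ E3 := by
        refine ⟨?_, ?_⟩
        · rw [sub_zero]
          exact hS.trans hlC
        · exact hW.po ha
      have hXG : ∀ j ∈ J, X ∈ G j := fun j hj =>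
        ⟨hW.1 j hj, hS, hwe e a X J z j he ha hz hj (hX j) hW⟩
      rw [indicator_of_mem hX3]
      have hsumG : ∑ j ∈ J, (G j).indicator (fun X => ENNReal.ofReal ((‖z - X j‖ ^ 4)⁻¹)) X =
          ENNReal.ofReal (∑ j ∈ J, (‖z - X j‖ ^ 4)⁻¹) := by
        rw [ENNReal.ofReal_sum_of_nonneg fun j _ => by positivity]
        refine Finset.sum_congr rfl fun j hj => ?_
        rw [indicator_of_mem (hXG j hj)]
      rw [hsumG]
      refine le_trans ?_ le_add_self
      rw [hc₂, hc₃, ← ENNReal.ofReal_mul (by positivity), ← ENNReal.ofReal_add (by positivity)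
        (by positivity)]
      refine ENNReal.ofReal_le_ofReal ?_
      -- the split of the sum
      set Nr := J.filter fun j => ‖z - X j‖ < ρ with hNr
      have hsplit : Sq X J z = ∑ j ∈ Nr, (‖z - X j‖ ^ 2)⁻¹ +
          ∑ j ∈ J.filter (fun j => ¬ ‖z - X j‖ < ρ), (‖z - X j‖ ^ 2)⁻¹ := by
        unfold Sq
        rw [Finset.sum_filter_add_sum_filter_not]
      have hfar : ∑ j ∈ J.filter (fun j => ¬ ‖z - X j‖ < ρ), (‖z - X j‖ ^ 2)⁻¹ ≤
          ∑ j ∈ J, ‖ht ρ (z - X j)‖ ^ 2 := by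
        refine (Finset.sum_le_sum fun j hj => ?_).trans (Finset.sum_le_sum_of_subset_of_nonneg
          (Finset.filter_subset _ _) fun j _ _ => by positivity)
        rw [ht_eq (not_lt.1 (Finset.mem_filter.1 hj).2), norm_inv, inv_pow]
      have hcard : (Nr.card : ℝ) = cnt X J ρ z := by
        unfold cnt
        rw [← Finset.sum_filter, Finset.sum_const, nsmul_eq_mul, mul_one]
      have hcs : (∑ j ∈ Nr, (‖z - X j‖ ^ 2)⁻¹) ^ 2 ≤ n₀ * ∑ j ∈ J, (‖z - X j‖ ^ 4)⁻¹ := by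
        have h5 := sq_sum_le_card_mul_sum_sq (s := Nr) (f := fun j => (‖z - X j‖ ^ 2)⁻¹)
        refine h5.trans ?_
        have h6 : ∑ j ∈ Nr, ((‖z - X j‖ ^ 2)⁻¹) ^ 2 ≤ ∑ j ∈ J, (‖z - X j‖ ^ 4)⁻¹ := by
          have h7 : ∀ j, ((‖z - X j‖ ^ 2)⁻¹) ^ 2 = (‖z - X j‖ ^ 4)⁻¹ := fun j => by
            rw [inv_pow, ← pow_mul]
          simp_rw [h7]
          exact Finset.sum_le_sum_of_subset_of_nonneg (Finset.filter_subset _ _)
            fun j _ _ => by positivity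
        rw [hcard]
        have h8 : 0 ≤ ∑ j ∈ Nr, ((‖z - X j‖ ^ 2)⁻¹) ^ 2 := Finset.sum_nonneg fun j _ => by positivity
        exact mul_le_mul hn''.le h6 h8 hn₀0
      have hnear0 : 0 ≤ ∑ j ∈ Nr, (‖z - X j‖ ^ 2)⁻¹ := Finset.sum_nonneg fun j _ => by positivity
      have hfar0 : 0 ≤ ∑ j ∈ J.filter (fun j => ¬ ‖z - X j‖ < ρ), (‖z - X j‖ ^ 2)⁻¹ :=
        Finset.sum_nonneg fun j _ => by positivity
      have h9 : 1 + Sq X J z ≤ (1 + f₀) + ∑ j ∈ Nr, (‖z - X j‖ ^ 2)⁻¹ := by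
        rw [hsplit]
        linarith
      have h10 : 0 ≤ 1 + Sq X J z := by
        rw [hsplit]
        linarith
      calc (1 + Sq X J z) ^ 2 ≤ ((1 + f₀) + ∑ j ∈ Nr, (‖z - X j‖ ^ 2)⁻¹) ^ 2 := by gcongr
        _ ≤ 2 * (1 + f₀) ^ 2 + 2 * (∑ j ∈ Nr, (‖z - X j‖ ^ 2)⁻¹) ^ 2 := by
            nlinarith [sq_nonneg ((1 + f₀) - ∑ j ∈ Nr, (‖z - X j‖ ^ 2)⁻¹)]
        _ ≤ 2 * (1 + f₀) ^ 2 + 2 * n₀ * ∑ j ∈ J, (‖z - X j‖ ^ 4)⁻¹ := by linarith
  refine (lint_R hμ hpt).trans ?_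
  have hmm1 : Measurable fun X : Fin N → ℂ => EF.indicator (fun _ => c₁) X +
      En.indicator (fun _ => c₁) X :=
    (measurable_const.indicator hEFm).add (measurable_const.indicator hEnm)
  rw [lintegral_add_left hmm1, lintegral_add_left (measurable_const.indicator hEFm),
    lintegral_add_left (measurable_const.indicator hE3m), lintegral_indicator_const hEFm,
    lintegral_indicator_const hEnm, lintegral_indicator_const hE3m,
    lintegral_const_mul _ (Finset.measurable_sum _ fun j _ => (hgm j).indicator (hGm j)),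
    lintegral_finset_sum _ fun j _ => (hgm j).indicator (hGm j)]
  -- the four terms
  have hN25 : 25 * (N : ℝ) ^ 18 * ((N : ℝ) ^ 25)⁻¹ ≤ ν ^ 133 := by
    have e1 : 25 * (N : ℝ) ^ 18 * ((N : ℝ) ^ 25)⁻¹ = 25 / (N : ℝ) ^ 7 := by field_simp
    rw [e1]
    have e2 : 25 / (N : ℝ) ^ 7 ≤ 1 := by
      rw [div_le_one (by positivity)]
      exact v6.trans (le_self_pow₀ (by exact_mod_cast hN1) (by norm_num))
    exact e2.trans (one_le_pow₀ hν)
  have t1 : c₁ * Measure.pi μ EF ≤ ENNReal.ofReal (ν ^ 133) := by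
    refine (mul_le_mul_right hc2 _).trans ?_
    rw [hc₁, ← ENNReal.ofReal_mul (by positivity)]
    exact ENNReal.ofReal_le_ofReal hN25
  have t2 : c₁ * Measure.pi μ En ≤ ENNReal.ofReal (ν ^ 133) := by
    refine (mul_le_mul_right hc3 _).trans ?_
    rw [hc₁, ← ENNReal.ofReal_mul (by positivity)]
    exact ENNReal.ofReal_le_ofReal hN25
  have t3 : c₂ * Measure.pi μ E3 ≤ ENNReal.ofReal (ν ^ 133) := by
    have h5 := h3 μ e J z 0 (-Real.log ‖a‖) ℓ (A * ℓ) hμ he (by omega) hz le_rfl (by nlinarith)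
    refine (mul_le_mul_right h5 _).trans ?_
    rw [hc₂, ← ENNReal.ofReal_mul (by positivity)]
    refine ENNReal.ofReal_le_ofReal ?_
    calc 2 * (1 + f₀) ^ 2 * (C₃ * ℓ ^ 2 * (A * ℓ) / ν ^ 384) ≤
        2 * (K * ℓ * ν ^ 258) ^ 2 * (C₃ * ℓ ^ 2 * (A * ℓ) / ν ^ 384) := by gcongr
      _ = (2 * K ^ 2 * (C₃ * A) * ℓ ^ 5) * ν ^ 132 := by
          field_simp
      _ ≤ ν * ν ^ 132 := by gcongr
      _ = ν ^ 133 := by ring
  have t4 : c₃ * ∑ j ∈ J, ∫⁻ X, (G j).indicator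
      (fun X => ENNReal.ofReal ((‖z - X j‖ ^ 4)⁻¹)) X ∂Measure.pi μ ≤ ENNReal.ofReal (ν ^ 133) := by
    have h5 : ∀ j ∈ J, ∫⁻ X, (G j).indicator
        (fun X => ENNReal.ofReal ((‖z - X j‖ ^ 4)⁻¹)) X ∂Measure.pi μ ≤
        ENNReal.ofReal (C₂ * C₁ ^ 2 * ℓ / ν ^ 128) := fun j hj =>
      hn μ e a J z j C₁ hμ he (by rw [Finset.card_erase_of_mem hj]; omega) hz hj hC₁
    refine (mul_le_mul_right (Finset.sum_le_sum h5) _).trans ?_
    rw [Finset.sum_const, nsmul_eq_mul, hc₃, ← ENNReal.ofReal_natCast,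
      ← ENNReal.ofReal_mul (by positivity), ← ENNReal.ofReal_mul (by positivity)]
    refine ENNReal.ofReal_le_ofReal ?_
    have h6 := card_J_le J
    calc 2 * n₀ * (J.card * (C₂ * C₁ ^ 2 * ℓ / ν ^ 128)) ≤
        2 * (27 * ℓ) * (N * (C₂ * C₁ ^ 2 * ℓ / ν ^ 128)) := by gcongr
      _ = (2 * 27 * (C₂ * C₁ ^ 2) * ℓ ^ 2) * ν ^ 128 := by
          rw [hNν]
          field_simp
      _ ≤ ν * ν ^ 128 := by gcongr
      _ = ν ^ 129 := by ring
      _ ≤ ν ^ 133 := pow_le_pow_right₀ hν (by norm_num)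
  have e1 : ENNReal.ofReal (ν ^ 133) + ENNReal.ofReal (ν ^ 133) +
      (ENNReal.ofReal (ν ^ 133) + ENNReal.ofReal (ν ^ 133)) ≤ ENNReal.ofReal (ν ^ 134) := by
    rw [← ENNReal.ofReal_add (by positivity) (by positivity),
      ← ENNReal.ofReal_add (by positivity) (by positivity)]
    refine ENNReal.ofReal_le_ofReal ?_
    calc ν ^ 133 + ν ^ 133 + (ν ^ 133 + ν ^ 133) = 4 * ν ^ 133 := by ring
      _ ≤ ν * ν ^ 133 := by gcongr
      _ = ν ^ 134 := by ring
  exact (add_le_add (add_le_add t1 t2) (add_le_add t3 t4)).trans e1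

end Pool.Agent.N229.HF
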