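import Pool.Agent.N229.HF.Level0

/-!
# The modulus of continuity of the mean Cauchy transform
-/

set_option autoImplicit false

open Filter Topology MeasureTheory Set

namespace Pool.Agent.N229.HF

open Pool.Agent.N229.RL
open Pool.Agent.Y333.TY.MultX

theorem gmod2 {μ : Measure ℂ} {D R : ℝ} (h : Dens μ D R) (z z' : ℂ) {δ B : ℝ} (hδ : 0 < δ)
    (hz : ‖z - z'‖ ≤ δ) (hB : 2 * δ ≤ B) (hzB : ‖z‖ + R ≤ B) :
    ‖GG μ z - GG μ z'‖ ≤ 10 * Real.pi * D * δ + 4 * Real.pi * D * δ * Real.log (B / (2 * δ)) := by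
  have := h.prob
  have hD := h.D0
  have hpi := Real.pi_pos
  have hlog : 0 ≤ Real.log (B / (2 * δ)) :=
    Real.log_nonneg (by rw [le_div_iff₀ (by positivity)]; linarith)
  unfold GG
  rw [← integral_sub (h.integrable_cauchy z) (h.integrable_cauchy z')]
  refine (norm_integral_le_lintegral_norm _).trans ?_
  refine ENNReal.toReal_le_of_le_ofReal (by positivity) ?_
  have hm1 : ∀ (y : ℂ) (t : ℝ), Measurable fun w => (Metric.ball (0 : ℂ) t).indicator
      (fun w => ENNReal.ofReal (‖w‖⁻¹)) (y - w) := by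
    intro y t
    have : Measurable ((Metric.ball (0 : ℂ) t).indicator (fun w => ENNReal.ofReal (‖w‖⁻¹))) :=
      (by fun_prop : Measurable fun w : ℂ => ENNReal.ofReal (‖w‖⁻¹)).indicator
        Metric.isOpen_ball.measurableSet
    exact this.comp (by fun_prop)
  have hm3 : Measurable fun w => (Rg (2 * δ) B).indicator
      (fun w => ENNReal.ofReal ((‖w‖ ^ 2)⁻¹)) (z - w) := by
    have : Measurable ((Rg (2 * δ) B).indicator (fun w => ENNReal.ofReal ((‖w‖ ^ 2)⁻¹))) :=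
      (by fun_prop : Measurable fun w : ℂ => ENNReal.ofReal ((‖w‖ ^ 2)⁻¹)).indicator (Rg_meas _ _)
    exact this.comp (by fun_prop)
  have h1 : ∀ᵐ w ∂μ, ENNReal.ofReal ‖(z - w)⁻¹ - (z' - w)⁻¹‖ ≤
      ((Metric.ball (0 : ℂ) (2 * δ)).indicator (fun w => ENNReal.ofReal (‖w‖⁻¹)) (z - w) +
      (Metric.ball (0 : ℂ) (3 * δ)).indicator (fun w => ENNReal.ofReal (‖w‖⁻¹)) (z' - w)) +
      ENNReal.ofReal (2 * δ) * (Rg (2 * δ) B).indicator
      (fun w => ENNReal.ofReal ((‖w‖ ^ 2)⁻¹)) (z - w) := by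
    filter_upwards [h.ae] with w hwR
    by_cases hw : ‖z - w‖ < 2 * δ
    · refine le_trans ?_ le_self_add
      have h2 : ‖z' - w‖ < 3 * δ := by
        have : z' - w = (z - w) - (z - z') := by ring
        rw [this]
        exact (norm_sub_le _ _).trans_lt (by linarith)
      rw [indicator_of_mem (mem_ball_zero_iff.2 hw), indicator_of_mem (mem_ball_zero_iff.2 h2),
        ← ENNReal.ofReal_add (by positivity) (by positivity)]
      refine ENNReal.ofReal_le_ofReal ?_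
      rw [← norm_inv, ← norm_inv]
      exact norm_sub_le _ _
    · rw [not_lt] at hw
      refine le_trans ?_ le_add_self
      have hwB : ‖z - w‖ ≤ B := (norm_sub_le _ _).trans (by linarith)
      rw [indicator_of_mem (show z - w ∈ Rg (2 * δ) B from ⟨hw, hwB⟩),
        ← ENNReal.ofReal_mul (by positivity)]
      refine ENNReal.ofReal_le_ofReal ?_
      have h2 : ‖z - w‖ / 2 ≤ ‖z' - w‖ := by
        have : z - w = (z' - w) + (z - z') := by ring
        have h3 := norm_add_le (z' - w) (z - z')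
        rw [← this] at h3
        linarith
      have hzw : 0 < ‖z - w‖ := lt_of_lt_of_le (by positivity) hw
      have h3 : z - w ≠ 0 := norm_pos_iff.1 hzw
      have h4 : z' - w ≠ 0 := norm_pos_iff.1 (lt_of_lt_of_le (by positivity) h2)
      have h5 : (z - w)⁻¹ - (z' - w)⁻¹ = -(z - z') * ((z - w)⁻¹ * (z' - w)⁻¹) := by
        field_simp
        ring
      rw [h5, norm_mul, norm_neg, norm_mul, norm_inv, norm_inv]
      have h7 : ‖z' - w‖⁻¹ ≤ (‖z - w‖ / 2)⁻¹ := inv_anti₀ (by positivity) h2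
      calc ‖z - z'‖ * (‖z - w‖⁻¹ * ‖z' - w‖⁻¹) ≤ δ * (‖z - w‖⁻¹ * (‖z - w‖ / 2)⁻¹) := by
            gcongr
        _ = 2 * δ * (‖z - w‖ ^ 2)⁻¹ := by field_simp
  refine (lintegral_mono_ae h1).trans ?_
  have hm2 : Measurable fun w => (Metric.ball (0 : ℂ) (2 * δ)).indicator
      (fun w => ENNReal.ofReal (‖w‖⁻¹)) (z - w) + (Metric.ball (0 : ℂ) (3 * δ)).indicator
      (fun w => ENNReal.ofReal (‖w‖⁻¹)) (z' - w) := (hm1 z _).add (hm1 z' _)
  rw [lintegral_add_left hm2, lintegral_add_left (hm1 z _), lintegral_const_mul _ hm3]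
  refine (add_le_add (add_le_add (h.near z (by positivity)) (h.near z' (by positivity)))
    (mul_le_mul_right (h.far z (by positivity) hB) _)).trans ?_
  rw [← ENNReal.ofReal_mul (by positivity), ← ENNReal.ofReal_add (by positivity) (by positivity),
    ← ENNReal.ofReal_add (by positivity) (by positivity)]
  refine ENNReal.ofReal_le_ofReal (le_of_eq ?_)
  ring

variable {N : ℕ}

/-- the typical size of the Cauchy sum -/
noncomputable def Th (μ : Fin N → Measure ℂ) (e : Fin N → ℤ) (J : Finset (Fin N)) (z : ℂ) : ℝ :=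
  ‖MGJ μ e J z‖ + nu N ^ 128

theorem Th_ge (μ : Fin N → Measure ℂ) (e : Fin N → ℤ) (J : Finset (Fin N)) (z : ℂ) :
    nu N ^ 128 ≤ Th μ e J z := le_add_of_nonneg_left (norm_nonneg _)

theorem MGJ_mod {D R : ℝ} {μ : Fin N → Measure ℂ} (hμ : ∀ i, Dens (μ i) D R) {e : Fin N → ℤ}
    (he : ∀ i, e i = 1 ∨ e i = -1) (hD : 0 ≤ D) (J : Finset (Fin N)) (z z' : ℂ) {δ B : ℝ}
    (hδ : 0 < δ)
    (hz : ‖z - z'‖ ≤ δ) (hB : 2 * δ ≤ B) (hzB : ‖z‖ + R ≤ B) :
    ‖MGJ μ e J z - MGJ μ e J z'‖ ≤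
      N * (10 * Real.pi * D * δ + 4 * Real.pi * D * δ * Real.log (B / (2 * δ))) := by
  have hpi := Real.pi_pos
  have hlog : 0 ≤ Real.log (B / (2 * δ)) :=
    Real.log_nonneg (by rw [le_div_iff₀ (by positivity)]; linarith)
  unfold MGJ
  rw [← Finset.sum_sub_distrib]
  refine (norm_sum_le _ _).trans ?_
  have h1 : ∀ j ∈ J, ‖(e j : ℂ) * GG (μ j) z - (e j : ℂ) * GG (μ j) z'‖ ≤
      10 * Real.pi * D * δ + 4 * Real.pi * D * δ * Real.log (B / (2 * δ)) := by
    intro j _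
    rw [← mul_sub, norm_mul, norm_e he, one_mul]
    exact gmod2 (hμ j) z z' hδ hz hB hzB
  refine (Finset.sum_le_sum h1).trans ?_
  rw [Finset.sum_const, nsmul_eq_mul]
  have := card_J_le J
  gcongr

theorem MGJ_le {D R : ℝ} {μ : Fin N → Measure ℂ} (hμ : ∀ i, Dens (μ i) D R) {e : Fin N → ℤ}
    (he : ∀ i, e i = 1 ∨ e i = -1) (hD : 0 ≤ D) (J : Finset (Fin N)) (z : ℂ) :
    ‖MGJ μ e J z‖ ≤ N * (2 * Real.pi * D + 1) := by
  have hpi := Real.pi_pos
  unfold MGJ
  refine (norm_sum_le _ _).trans ?_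
  have h1 : ∀ j ∈ J, ‖(e j : ℂ) * GG (μ j) z‖ ≤ 2 * Real.pi * D + 1 := by
    intro j _
    rw [norm_mul, norm_e he, one_mul]
    unfold GG
    refine (norm_integral_le_integral_norm _).trans ?_
    refine le_trans (le_of_eq ?_) ((hμ j).integral_inv z)
    refine integral_congr_ae (Eventually.of_forall fun w => ?_)
    simp only
    rw [norm_inv]
  refine (Finset.sum_le_sum h1).trans ?_
  rw [Finset.sum_const, nsmul_eq_mul]
  have := card_J_le J
  gcongr

theorem Th_slow {D R Rp : ℝ} (hD : 0 ≤ D) (hR : 0 ≤ R) (hRp : 0 ≤ Rp) :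
    ∀ᶠ N : ℕ in atTop, ∀ (μ : Fin N → Measure ℂ) (e : Fin N → ℤ) (J : Finset (Fin N)) (p w : ℂ),
      (∀ i, Dens (μ i) D R) → (∀ i, e i = 1 ∨ e i = -1) → ‖p‖ ≤ Rp →
      ‖p - w‖ ≤ 3 * (nu N ^ 168)⁻¹ → |Th μ e J p - Th μ e J w| ≤ nu N ^ 128 / 8 := by
  have hpi := Real.pi_pos
  set B : ℝ := Rp + R + 6 with hB
  have hB1 : 1 ≤ B := by linarith
  filter_upwards [log_B_div hB1 (k := 168) (by norm_num), ev_log_ge 1, eventually_ge_atTop 1,
    ev_nu (8 * (90 * Real.pi * D)) 1] with N h1 h2 hN v1 μ e J p w hμ he hp hpw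
  rw [pow_one] at v1
  have hν := nu_ge hN
  have hν0 : 0 < nu N := by linarith
  have hNν : (N : ℝ) = nu N ^ 256 := (nu_pow N).symm
  set ν := nu N with hνdef
  set ℓ := Real.log N with hℓ
  have hi1 : (ν ^ 168)⁻¹ ≤ 1 := inv_le_one_of_one_le₀ (one_le_pow₀ hν)
  have hi0 : 0 < (ν ^ 168)⁻¹ := by positivity
  have hmod := MGJ_mod hμ he hD J p w (δ := 3 * (ν ^ 168)⁻¹) (B := B) (by positivity) hpw
    (by linarith) (by linarith)
  obtain ⟨h3, h4⟩ := h1 (2 * (3 * (ν ^ 168)⁻¹)) (by linarith) (by linarith)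
  have h5 : |Th μ e J p - Th μ e J w| ≤ ‖MGJ μ e J p - MGJ μ e J w‖ := by
    unfold Th
    rw [add_sub_add_right_eq_sub]
    exact abs_norm_sub_norm_le _ _
  refine h5.trans (hmod.trans ?_)
  have e1 : (N : ℝ) * (10 * Real.pi * D * (3 * (ν ^ 168)⁻¹) + 4 * Real.pi * D *
      (3 * (ν ^ 168)⁻¹) * Real.log (B / (2 * (3 * (ν ^ 168)⁻¹)))) =
      (30 * Real.pi * D + 12 * Real.pi * D * Real.log (B / (2 * (3 * (ν ^ 168)⁻¹)))) *
        ν ^ 88 := by
    rw [hNν]
    field_simp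
    ring
  rw [e1]
  have e2 : 30 * Real.pi * D + 12 * Real.pi * D * Real.log (B / (2 * (3 * (ν ^ 168)⁻¹))) ≤
      90 * Real.pi * D * ℓ := by
    have e3 : 12 * Real.pi * D * Real.log (B / (2 * (3 * (ν ^ 168)⁻¹))) ≤
        12 * Real.pi * D * (5 * ℓ) := by gcongr
    have e4 : 30 * Real.pi * D * 1 ≤ 30 * Real.pi * D * ℓ := by gcongr
    linarith
  have e5 : 90 * Real.pi * D * ℓ ≤ ν / 8 := by linarith
  calc (30 * Real.pi * D + 12 * Real.pi * D * Real.log (B / (2 * (3 * (ν ^ 168)⁻¹)))) * ν ^ 88 ≤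
      ν / 8 * ν ^ 88 := by
        gcongr
        exact e2.trans e5
    _ = ν ^ 89 / 8 := by ring
    _ ≤ ν ^ 128 / 8 := by
        have := pow_le_pow_right₀ hν (show 89 ≤ 128 by norm_num)
        linarith

theorem measurable_Th {D R : ℝ} {μ : Fin N → Measure ℂ} (hμ : ∀ i, Dens (μ i) D R)
    (e : Fin N → ℤ) (J : Finset (Fin N)) : Measurable (Th μ e J) := by
  have h1 : Continuous (MGJ μ e J) := by
    unfold MGJ
    exact continuous_finset_sum _ fun j _ => continuous_const.mul (hμ j).continuous_GG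
  exact (h1.norm.add continuous_const).measurable

end Pool.Agent.N229.HF
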