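import Pool.Agent.N229.HF.Incr2
import Pool.Agent.N229.RL.Poly

/-!
# Two points: the change of variables
-/

set_option autoImplicit false

open Filter Topology MeasureTheory Set

namespace Pool.Agent.N229.HF

open Pool.Agent.N229.RL

variable {N : ℕ}

/-- all indices but `i` and `k` -/
def J2 (i k : Fin N) : Finset (Fin N) := (Finset.univ.erase i).erase k

theorem card_J2 (i k : Fin N) : (Finset.univ \ J2 i k).card ≤ 2 := by
  unfold J2
  have : Finset.univ \ (Finset.univ.erase i).erase k ⊆ {i, k} := by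
    intro j hj
    simp only [Finset.mem_sdiff, Finset.mem_univ, true_and, Finset.mem_erase, ne_eq,
      not_and, not_not] at hj
    simp only [Finset.mem_insert, Finset.mem_singleton]
    by_cases h : j = k
    · exact Or.inr h
    · left
      by_contra h2
      exact (hj h) h2 trivial
  exact (Finset.card_le_card this).trans Finset.card_le_two

theorem mem_J2 {i k j : Fin N} : j ∈ J2 i k ↔ j ≠ k ∧ j ≠ i := by
  unfold J2
  simp

theorem gg_two {a : ℂ} {e : Fin N → ℤ} (X : Fin N → ℂ) {i k : Fin N} (hik : i ≠ k)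
    (hi : e i = 1) (hk : e k = 1) (z : ℂ) :
    gg a e X Finset.univ z = gg a e X (J2 i k) z * ((z - X i) * (z - X k)) := by
  unfold gg J2
  have h1 : k ∈ Finset.univ.erase i := Finset.mem_erase.2 ⟨hik.symm, Finset.mem_univ k⟩
  rw [← Finset.mul_prod_erase _ _ (Finset.mem_univ i), ← Finset.mul_prod_erase _ _ h1, hi, hk,
    zpow_one, zpow_one]
  ring

theorem SS_two {e : Fin N → ℤ} (X : Fin N → ℂ) {i k : Fin N} (hik : i ≠ k)
    (hi : e i = 1) (hk : e k = 1) (z : ℂ) :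
    SS e X Finset.univ z = (z - X i)⁻¹ + ((z - X k)⁻¹ + SS e X (J2 i k) z) := by
  unfold SS J2
  have h1 : k ∈ Finset.univ.erase i := Finset.mem_erase.2 ⟨hik.symm, Finset.mem_univ k⟩
  rw [← Finset.add_sum_erase _ _ (Finset.mem_univ i), ← Finset.add_sum_erase _ _ h1, hi, hk]
  simp

theorem Bt_congr {Rp : ℝ} {a : ℂ} {e : Fin N → ℤ} {X Y : Fin N → ℂ} {J : Finset (Fin N)}
    (h : ∀ j ∈ J, X j = Y j) : Bt Rp a e X J = Bt Rp a e Y J := by
  unfold Bt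
  rw [gg_congr h]
  ext v
  simp only [mem_ofPred_eq]
  have h1 : (∃ j ∈ J, ‖v - X j‖ ≤ ((N : ℝ) ^ 4)⁻¹) ↔ ∃ j ∈ J, ‖v - Y j‖ ≤ ((N : ℝ) ^ 4)⁻¹ := by
    constructor <;> rintro ⟨j, hj, hh⟩ <;> refine ⟨j, hj, ?_⟩
    · rwa [h j hj] at hh
    · rwa [h j hj]
  have h2 : (∀ j ∈ J, ((N : ℝ) ^ 4)⁻¹ ≤ ‖v - X j‖) ↔
      ∀ j ∈ J, ((N : ℝ) ^ 4)⁻¹ ≤ ‖v - Y j‖ := by
    constructor <;> intro hh j hj
    · have := hh j hj
      rwa [h j hj] at this
    · rw [h j hj]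
      exact hh j hj
  rw [h1, h2]

theorem Bc_congr {Rp η : ℝ} {a : ℂ} {e : Fin N → ℤ} {X Y : Fin N → ℂ} {J : Finset (Fin N)}
    (h : ∀ j ∈ J, X j = Y j) (T₀ S₀ c : ℂ) :
    Bc Rp η a e X J T₀ S₀ c = Bc Rp η a e Y J T₀ S₀ c := by
  unfold Bc
  rw [gg_congr h, Bt_congr h]
  ext v
  simp only [mem_ofPred_eq]
  have h1 : (∃ j ∈ J, ‖v - X j‖ ≤ ((N : ℝ) ^ 4)⁻¹) ↔ ∃ j ∈ J, ‖v - Y j‖ ≤ ((N : ℝ) ^ 4)⁻¹ := by
    constructor <;> rintro ⟨j, hj, hh⟩ <;> refine ⟨j, hj, ?_⟩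
    · rwa [h j hj] at hh
    · rwa [h j hj]
  have h2 : (∀ j ∈ J, ((N : ℝ) ^ 4)⁻¹ ≤ ‖v - X j‖) ↔
      ∀ j ∈ J, ((N : ℝ) ^ 4)⁻¹ ≤ ‖v - Y j‖ := by
    constructor <;> intro hh j hj
    · have := hh j hj
      rwa [h j hj] at this
    · rw [h j hj]
      exact hh j hj
  rw [h1, h2]

theorem Wi_congr {A : ℝ} {a : ℂ} {e : Fin N → ℤ} {X Y : Fin N → ℂ} {J : Finset (Fin N)}
    (h : ∀ j ∈ J, X j = Y j) {z : ℂ} (hW : Wi A a e X J z) : Wi A a e Y J z := by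
  refine ⟨fun j hj => ?_, ?_⟩
  · rw [← h j hj]
    exact hW.1 j hj
  · rw [← gg_congr h]
    exact hW.2

/-- `S c + 1 / (c - x)` -/
noncomputable def Zz (S : ℂ → ℂ) (c x : ℂ) : ℂ := S c + (c - x)⁻¹

/-- the region of the pairs `(c, x)` -/
def As (Rp η : ℝ) (a : ℂ) (e : Fin N → ℤ) (X : Fin N → ℂ) (J : Finset (Fin N)) : Set (ℂ × ℂ) :=
  {q | (‖q.1‖ ≤ Rp ∧ Wi 6 a e X J q.1 ∧ ‖SS e X J q.1‖ ≤ 2 / η) ∧
    (η ≤ ‖q.1 - q.2‖ ∧ ‖q.1 - q.2‖ ≤ 2 * Rp ∧ Zz (SS e X J) q.1 q.2 ≠ 0 ∧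
      ‖(Zz (SS e X J) q.1 q.2)⁻¹‖ ≤ 2 * Rp ∧ η ≤ ‖q.1 - q.2 + (Zz (SS e X J) q.1 q.2)⁻¹‖) ∧
    -(gg a e X J q.1 * (q.1 - q.2) * (Zz (SS e X J) q.1 q.2)⁻¹) ∈
      Bc Rp η a e X J (gg a e X J q.1) (SS e X J q.1) q.1}

theorem As_congr {Rp η : ℝ} {a : ℂ} {e : Fin N → ℤ} {X Y : Fin N → ℂ} {J : Finset (Fin N)}
    (h : ∀ j ∈ J, X j = Y j) {q : ℂ × ℂ} (hq : q ∈ As Rp η a e X J) : q ∈ As Rp η a e Y J := by
  obtain ⟨⟨h1, h2, h3⟩, h4, h5⟩ := hq
  rw [SS_congr h] at h3 h4 h5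
  rw [gg_congr h, Bc_congr h] at h5
  exact ⟨⟨h1, Wi_congr h h2, h3⟩, h4, h5⟩

/-- the bad event for a pair -/
def Ev (R Rp η : ℝ) (e : Fin N → ℤ) (a : ℂ) (i k : Fin N) : Set (Fin N → ℂ) :=
  {X | (∀ j, ‖X j‖ ≤ R) ∧ ∃ c : ℂ, (‖c‖ ≤ Rp ∧ (∀ j ∈ J2 i k, ((N : ℝ) ^ 4)⁻¹ ≤ ‖c - X j‖) ∧
    η ≤ ‖c - X i‖ ∧ η ≤ ‖c - X k‖ ∧ η ≤ ‖X i - X k‖) ∧ SS e X Finset.univ c = 0 ∧
    (((N : ℝ) ^ 4)⁻¹ ≤ ‖gg a e X Finset.univ c‖ ∧ ‖gg a e X Finset.univ c‖ ≤ Rp ∧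
      η ≤ ‖gg a e X Finset.univ c - X i‖ ∧ η ≤ ‖gg a e X Finset.univ c - X k‖) ∧
    ((∃ j ∈ J2 i k, ‖gg a e X Finset.univ c - X j‖ ≤ ((N : ℝ) ^ 4)⁻¹) ∨
    ((∀ j ∈ J2 i k, ((N : ℝ) ^ 4)⁻¹ ≤ ‖gg a e X Finset.univ c - X j‖) ∧
      gg a e X Finset.univ (gg a e X Finset.univ c) ∈ Bt Rp a e X (J2 i k)))}

/-- the critical point equation, solved for one of the points -/
theorem ev_rel {R Rp η : ℝ} (hR : R ≤ Rp) (hRp : 1 ≤ Rp) (hη : 0 < η) :
    ∀ᶠ N : ℕ in atTop, ∀ (e : Fin N → ℤ) (a : ℂ) (X : Fin N → ℂ) (i k : Fin N),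
    a ≠ 0 → i ≠ k → e i = 1 → e k = 1 → X ∈ Ev R Rp η e a i k →
    ∃ c : ℂ, (c, X i) ∈ As Rp η a e X (J2 i k) ∧ c + (Zz (SS e X (J2 i k)) c (X i))⁻¹ = X k := by
  filter_upwards [ev_log (4 * Rp ^ 2) 0, ev_log (Rp / η ^ 2) 0, eventually_ge_atTop 2] with
    N v1 v2 hN e a X i k ha hik hi hk hX
  rw [pow_zero, mul_one] at v1 v2
  have hN1 : 1 ≤ N := by omega
  have hN0 : (0 : ℝ) < N := by exact_mod_cast hN1
  have hT := T1_pos hN1
  have hq : T1 N ≤ ((N : ℝ) ^ 4)⁻¹ := by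
    unfold T1
    refine inv_anti₀ (by positivity) ?_
    have : 0 ≤ (N : ℝ) ^ 4 := by positivity
    linarith
  obtain ⟨hXR, c, ⟨h1, h2, h3, h4, h5⟩, h6, ⟨h7, h8, h9, h10⟩, h11⟩ := hX
  set J := J2 i k with hJ
  set g := gg a e X J with hg
  set S := SS e X J with hS
  have hu : 0 < ‖c - X i‖ := hη.trans_le h3
  have hv : 0 < ‖c - X k‖ := hη.trans_le h4
  have hu0 : c - X i ≠ 0 := norm_pos_iff.1 hu
  have hv0 : c - X k ≠ 0 := norm_pos_iff.1 hv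
  rw [SS_two X hik hi hk] at h6
  have hZ : Zz S c (X i) = -(c - X k)⁻¹ := by
    unfold Zz
    linear_combination h6
  have hZ0 : Zz S c (X i) ≠ 0 := by
    rw [hZ]
    exact neg_ne_zero.2 (inv_ne_zero hv0)
  have hZi : (Zz S c (X i))⁻¹ = -(c - X k) := by
    rw [hZ, inv_neg, inv_inv]
  have hcne : ∀ j ∈ J, c ≠ X j := fun j hj =>
    sub_ne_zero.1 (norm_pos_iff.1 (lt_of_lt_of_le (by positivity) (h2 j hj)))
  have hg0 : g c ≠ 0 := gg_ne_zero ha hcne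
  have hF : gg a e X Finset.univ c = g c * ((c - X i) * (c - X k)) := gg_two X hik hi hk c
  have hV : -(g c * (c - X i) * (Zz S c (X i))⁻¹) = gg a e X Finset.univ c := by
    rw [hF, hZi]
    ring
  have hu2 : ‖c - X i‖ ≤ 2 * Rp := (norm_sub_le _ _).trans (by linarith [hXR i])
  have hv2 : ‖c - X k‖ ≤ 2 * Rp := (norm_sub_le _ _).trans (by linarith [hXR k])
  have hSe : S c = -(c - X i)⁻¹ - (c - X k)⁻¹ := by linear_combination h6
  have hQ : Qc (g c) (S c) c (gg a e X Finset.univ c) =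
      (gg a e X Finset.univ c - X i) * (gg a e X Finset.univ c - X k) := by
    unfold Qc
    rw [hSe, hF]
    field_simp
    ring
  refine ⟨c, ⟨⟨h1, ⟨fun j hj => hq.trans (h2 j hj), ?_⟩, ?_⟩, ⟨h3, hu2, hZ0, ?_, ?_⟩, ?_⟩, ?_⟩
  · -- the window
    have e1 : Real.log ‖g c‖ = Real.log ‖gg a e X Finset.univ c‖ -
        (Real.log ‖c - X i‖ + Real.log ‖c - X k‖) := by
      rw [hF, norm_mul, norm_mul, Real.log_mul (norm_ne_zero_iff.2 hg0)
        (mul_pos hu hv).ne', Real.log_mul hu.ne' hv.ne']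
      ring
    have hlN : 0 ≤ Real.log N := Real.log_nonneg (by exact_mod_cast hN1)
    have e2 := Real.log_le_log (by positivity) h7
    have e3 := Real.log_le_log (lt_of_lt_of_le (by positivity) h7) h8
    rw [Real.log_inv, Real.log_pow] at e2
    push_cast at e2
    have e4 : Real.log ‖c - X i‖ + Real.log ‖c - X k‖ ≤ Real.log N := by
      rw [← Real.log_mul hu.ne' hv.ne']
      refine Real.log_le_log (by positivity) ?_
      calc ‖c - X i‖ * ‖c - X k‖ ≤ (2 * Rp) * (2 * Rp) := by gcongr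
        _ = 4 * Rp ^ 2 := by ring
        _ ≤ N := v1
    have e5 : Real.log Rp - Real.log N ≤ Real.log ‖c - X i‖ + Real.log ‖c - X k‖ := by
      rw [← Real.log_mul hu.ne' hv.ne', ← Real.log_div (by linarith) hN0.ne']
      refine Real.log_le_log (by positivity) ?_
      rw [div_le_iff₀ hN0]
      rw [div_le_iff₀ (by positivity)] at v2
      calc Rp ≤ N * η ^ 2 := v2
        _ = η * η * N := by ring
        _ ≤ ‖c - X i‖ * ‖c - X k‖ * N := by gcongr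
    show |Real.log ‖g c‖| ≤ 6 * Real.log N
    rw [e1, abs_le]
    constructor <;> linarith
  · show ‖S c‖ ≤ 2 / η
    rw [hSe]
    refine (norm_sub_le _ _).trans ?_
    rw [norm_neg, norm_inv, norm_inv]
    have e1 : ‖c - X i‖⁻¹ ≤ η⁻¹ := inv_anti₀ hη h3
    have e2 : ‖c - X k‖⁻¹ ≤ η⁻¹ := inv_anti₀ hη h4
    calc ‖c - X i‖⁻¹ + ‖c - X k‖⁻¹ ≤ η⁻¹ + η⁻¹ := add_le_add e1 e2
      _ = 2 / η := by ring
  · show ‖(Zz S c (X i))⁻¹‖ ≤ 2 * Rp
    rw [hZi, norm_neg]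
    exact hv2
  · show η ≤ ‖c - X i + (Zz S c (X i))⁻¹‖
    rw [hZi]
    have : c - X i + -(c - X k) = -(X i - X k) := by ring
    rw [this, norm_neg]
    exact h5
  · show -(g c * (c - X i) * (Zz S c (X i))⁻¹) ∈ Bc Rp η a e X J (g c) (S c) c
    rw [hV]
    refine ⟨⟨h7, h8, ?_, ?_, ?_⟩, ?_⟩
    · rw [hF, mul_div_cancel_left₀ _ hg0, norm_mul]
      calc ‖c - X i‖ * ‖c - X k‖ ≤ (2 * Rp) * (2 * Rp) := by gcongr
        _ = 4 * Rp ^ 2 := by ring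
    · rw [hQ, norm_mul]
      calc η ^ 2 = η * η := by ring
        _ ≤ _ := by gcongr
    · rw [hQ, norm_mul]
      have e1 : ‖gg a e X Finset.univ c - X i‖ ≤ 2 * Rp :=
        (norm_sub_le _ _).trans (by linarith [hXR i])
      have e2 : ‖gg a e X Finset.univ c - X k‖ ≤ 2 * Rp :=
        (norm_sub_le _ _).trans (by linarith [hXR k])
      calc ‖gg a e X Finset.univ c - X i‖ * ‖gg a e X Finset.univ c - X k‖ ≤
          (2 * Rp) * (2 * Rp) := by gcongr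
        _ = 4 * Rp ^ 2 := by ring
    · rcases h11 with h11 | ⟨h11, h12⟩
      · exact Or.inl h11
      · right
        refine ⟨h11, ?_⟩
        rw [hQ, ← gg_two X hik hi hk]
        exact h12
  · show c + (Zz S c (X i))⁻¹ = X k
    rw [hZi]
    ring

/-- measurability of the region -/
theorem measurable_As {Rp η : ℝ} {a : ℂ} {e : Fin N → ℤ} {X : Fin N → ℂ} {J : Finset (Fin N)}
    (he : ∀ i, e i = 1 ∨ e i = -1) : MeasurableSet (As Rp η a e X J) := by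
  have hg : Measurable fun q : ℂ × ℂ => gg a e X J q.1 := (measurable_gg he).comp measurable_fst
  have hS : Measurable fun q : ℂ × ℂ => SS e X J q.1 := measurable_SS.comp measurable_fst
  have hZ : Measurable fun q : ℂ × ℂ => Zz (SS e X J) q.1 q.2 := by
    unfold Zz
    exact hS.add (measurable_fst.sub measurable_snd).inv
  have m1 : MeasurableSet {q : ℂ × ℂ | ‖q.1‖ ≤ Rp} :=
    measurableSet_le measurable_fst.norm measurable_const
  have m2 : MeasurableSet {q : ℂ × ℂ | Wi 6 a e X J q.1} := by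
    have h1 : MeasurableSet {p : ℂ | Wi 6 a e X J p} := (measurable_pairp X) (measurable_Wi2 he)
    exact measurable_fst h1
  have m3 : MeasurableSet {q : ℂ × ℂ | ‖SS e X J q.1‖ ≤ 2 / η} :=
    measurableSet_le hS.norm measurable_const
  have m4 : MeasurableSet {q : ℂ × ℂ | η ≤ ‖q.1 - q.2‖} :=
    measurableSet_le measurable_const (measurable_fst.sub measurable_snd).norm
  have m5 : MeasurableSet {q : ℂ × ℂ | ‖q.1 - q.2‖ ≤ 2 * Rp} :=
    measurableSet_le (measurable_fst.sub measurable_snd).norm measurable_const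
  have m6 : MeasurableSet {q : ℂ × ℂ | Zz (SS e X J) q.1 q.2 ≠ 0} :=
    hZ (measurableSet_singleton 0).compl
  have m7 : MeasurableSet {q : ℂ × ℂ | ‖(Zz (SS e X J) q.1 q.2)⁻¹‖ ≤ 2 * Rp} :=
    measurableSet_le hZ.inv.norm measurable_const
  have m8 : MeasurableSet {q : ℂ × ℂ | η ≤ ‖q.1 - q.2 + (Zz (SS e X J) q.1 q.2)⁻¹‖} :=
    measurableSet_le measurable_const ((measurable_fst.sub measurable_snd).add hZ.inv).norm
  -- the value
  have hV : Measurable fun q : ℂ × ℂ =>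
      -(gg a e X J q.1 * (q.1 - q.2) * (Zz (SS e X J) q.1 q.2)⁻¹) :=
    ((hg.mul (measurable_fst.sub measurable_snd)).mul hZ.inv).neg
  have m9 : MeasurableSet {q : ℂ × ℂ | q.2 ∈ Bc Rp η a e X J (gg a e X J q.1)
      (SS e X J q.1) q.1} := by
    have hQ : Measurable fun q : ℂ × ℂ => Qc (gg a e X J q.1) (SS e X J q.1) q.1 q.2 := by
      unfold Qc
      exact ((measurable_snd.sub measurable_fst).pow_const 2).add
        ((measurable_snd.div hg).mul (measurable_const.sub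
          (hS.mul (measurable_snd.sub measurable_fst))))
    have hg2 : Measurable fun q : ℂ × ℂ => gg a e X J q.2 := (measurable_gg he).comp measurable_snd
    have n1 : MeasurableSet {p : ℂ × ℂ | ((N : ℝ) ^ 4)⁻¹ ≤ ‖p.2‖} :=
      measurableSet_le measurable_const measurable_snd.norm
    have n2 : MeasurableSet {p : ℂ × ℂ | ‖p.2‖ ≤ Rp} :=
      measurableSet_le measurable_snd.norm measurable_const
    have n3 : MeasurableSet {p : ℂ × ℂ | ‖p.2 / gg a e X J p.1‖ ≤ 4 * Rp ^ 2} :=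
      measurableSet_le (measurable_snd.div hg).norm measurable_const
    have n4 : MeasurableSet {q : ℂ × ℂ | η ^ 2 ≤
        ‖Qc (gg a e X J q.1) (SS e X J q.1) q.1 q.2‖} :=
      measurableSet_le measurable_const hQ.norm
    have n5 : MeasurableSet {q : ℂ × ℂ |
        ‖Qc (gg a e X J q.1) (SS e X J q.1) q.1 q.2‖ ≤ 4 * Rp ^ 2} :=
      measurableSet_le hQ.norm measurable_const
    have n6 : MeasurableSet {p : ℂ × ℂ | ∃ j ∈ J, ‖p.2 - X j‖ ≤ ((N : ℝ) ^ 4)⁻¹} := by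
      have h1 : MeasurableSet {p : ℂ | ∃ j ∈ J, ‖p - X j‖ ≤ ((N : ℝ) ^ 4)⁻¹} :=
        (measurable_pairp X) (measurable_near2 J _)
      exact measurable_snd h1
    have n7 : MeasurableSet {p : ℂ × ℂ | ∀ j ∈ J, ((N : ℝ) ^ 4)⁻¹ ≤ ‖p.2 - X j‖} := by
      have h1 : MeasurableSet {p : ℂ | ∀ j ∈ J, ((N : ℝ) ^ 4)⁻¹ ≤ ‖p - X j‖} :=
        (measurable_pairp X) (measurable_dist2 J _)
      exact measurable_snd h1
    have n8 : MeasurableSet {q : ℂ × ℂ | gg a e X J q.2 *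
        Qc (gg a e X J q.1) (SS e X J q.1) q.1 q.2 ∈ Bt Rp a e X J} := by
      have h1 : MeasurableSet (Bt Rp a e X J) := (measurable_pairp X) (measurable_Bt (J := J) he)
      exact (hg2.mul hQ) h1
    exact (n1.inter (n2.inter (n3.inter (n4.inter n5)))).inter (n6.union (n7.inter n8))
  have m10 : MeasurableSet {q : ℂ × ℂ |
      -(gg a e X J q.1 * (q.1 - q.2) * (Zz (SS e X J) q.1 q.2)⁻¹) ∈
      Bc Rp η a e X J (gg a e X J q.1) (SS e X J q.1) q.1} :=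
    (measurable_fst.prodMk hV) m9
  exact (m1.inter (m2.inter m3)).inter ((m4.inter (m5.inter (m6.inter (m7.inter m8)))).inter m10)

end Pool.Agent.N229.HF
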