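import Pool.Agent.N229.HF.Pair

/-!
# Two points: the area of the sections
-/

set_option autoImplicit false

open Filter Topology MeasureTheory Set

namespace Pool.Agent.N229.HF

open Pool.Agent.N229.RL

variable {N : ℕ}

theorem hasDerivAt_Fx {S : ℂ → ℂ} {S1 c x : ℂ} (hS : HasDerivAt S S1 c) (hx : c - x ≠ 0)
    (hZ : Zz S c x ≠ 0) :
    HasDerivAt (fun c => c + (Zz S c x)⁻¹)
      (1 + -(S1 + -1 / (c - x) ^ 2) / (Zz S c x) ^ 2) c := by
  unfold Zz at *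
  have h1 : HasDerivAt (fun c : ℂ => c - x) 1 c := (hasDerivAt_id c).sub_const x
  have h2 : HasDerivAt (fun c : ℂ => (c - x)⁻¹) (-1 / (c - x) ^ 2) c := h1.fun_inv hx
  have h3 := (hS.fun_add h2).fun_inv hZ
  exact (hasDerivAt_id c).fun_add h3

theorem norm_SS'_le {e : Fin N → ℤ} (he : ∀ i, e i = 1 ∨ e i = -1) (X : Fin N → ℂ)
    (J : Finset (Fin N)) (c : ℂ) : ‖SS' e X J c‖ ≤ Sq X J c := by
  unfold SS' Sq
  refine (norm_sum_le _ _).trans (Finset.sum_le_sum fun j _ => ?_)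
  rw [norm_neg, norm_div, norm_e he, norm_pow, one_div]

/-- the constant -/
noncomputable def CF (Rp η : ℝ) : ℝ := 1 + 4 * Rp ^ 2 * (1 + (η ^ 2)⁻¹)

theorem F_bound {Rp η : ℝ} {a : ℂ} {e : Fin N → ℤ} {X : Fin N → ℂ} {J : Finset (Fin N)}
    (he : ∀ i, e i = 1 ∨ e i = -1) (hη : 0 < η) {c x : ℂ} (h : (c, x) ∈ As Rp η a e X J) :
    HasDerivAt (fun c => c + (Zz (SS e X J) c x)⁻¹)
      (1 + -(SS' e X J c + -1 / (c - x) ^ 2) / (Zz (SS e X J) c x) ^ 2) c ∧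
    ‖1 + -(SS' e X J c + -1 / (c - x) ^ 2) / (Zz (SS e X J) c x) ^ 2‖ ≤
      CF Rp η * (1 + Sq X J c) := by
  obtain ⟨⟨h1, h2, h3⟩, ⟨h4, h5, h6, h7, h8⟩, -⟩ := h
  simp only at h1 h2 h3 h4 h5 h6 h7 h8
  have hu : 0 < ‖c - x‖ := hη.trans_le h4
  have hu0 : c - x ≠ 0 := norm_pos_iff.1 hu
  have hq : 0 ≤ Sq X J c := Finset.sum_nonneg fun j _ => by positivity
  refine ⟨hasDerivAt_Fx (hasDerivAt_SS h2.ne) hu0 h6, ?_⟩
  set Z := Zz (SS e X J) c x with hZ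
  have e1 : -(SS' e X J c + -1 / (c - x) ^ 2) / Z ^ 2 =
      (-SS' e X J c + ((c - x) ^ 2)⁻¹) * (Z⁻¹) ^ 2 := by
    rw [div_eq_mul_inv, div_eq_mul_inv, inv_pow]
    ring
  rw [e1]
  refine (norm_add_le _ _).trans ?_
  rw [norm_one, norm_mul, norm_pow]
  have e2 : ‖-SS' e X J c + ((c - x) ^ 2)⁻¹‖ ≤ Sq X J c + (η ^ 2)⁻¹ := by
    refine (norm_add_le _ _).trans (add_le_add ?_ ?_)
    · rw [norm_neg]
      exact norm_SS'_le he X J c
    · rw [norm_inv, norm_pow]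
      exact inv_anti₀ (by positivity) (by gcongr)
  have e3 : ‖Z⁻¹‖ ^ 2 ≤ (2 * Rp) ^ 2 := by gcongr
  have e4 : ‖-SS' e X J c + ((c - x) ^ 2)⁻¹‖ * ‖Z⁻¹‖ ^ 2 ≤
      (Sq X J c + (η ^ 2)⁻¹) * (2 * Rp) ^ 2 := by gcongr
  unfold CF
  have e5 : 0 ≤ (η ^ 2)⁻¹ := by positivity
  have e6 : 0 ≤ Rp ^ 2 := by positivity
  have e7 : (1 + 4 * Rp ^ 2 * (1 + (η ^ 2)⁻¹)) * (1 + Sq X J c) =
      1 + (Sq X J c + (η ^ 2)⁻¹) * (2 * Rp) ^ 2 +
        (4 * Rp ^ 2 + Sq X J c + 4 * Rp ^ 2 * ((η ^ 2)⁻¹ * Sq X J c)) := by ring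
  rw [e7]
  have e8 : 0 ≤ 4 * Rp ^ 2 + Sq X J c + 4 * Rp ^ 2 * ((η ^ 2)⁻¹ * Sq X J c) := by positivity
  linarith

/-- the area of the image -/
theorem image_le {Rp η : ℝ} {a : ℂ} {e : Fin N → ℤ} {X : Fin N → ℂ} {J : Finset (Fin N)}
    (he : ∀ i, e i = 1 ∨ e i = -1) (hη : 0 < η) (x : ℂ) :
    volume ((fun c => c + (Zz (SS e X J) c x)⁻¹) '' {c | (c, x) ∈ As Rp η a e X J}) ≤
      ∫⁻ c in {c | (c, x) ∈ As Rp η a e X J},
        ENNReal.ofReal ((CF Rp η) ^ 2 * (1 + Sq X J c) ^ 2) := by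
  have hm : MeasurableSet {c | (c, x) ∈ As Rp η a e X J} :=
    (measurable_id.prodMk measurable_const : Measurable fun c : ℂ => (c, x)) (measurable_As he)
  refine (area_image hm fun c hc => (F_bound he hη hc).1).trans ?_
  refine setLIntegral_mono' hm fun c hc => ENNReal.ofReal_le_ofReal ?_
  rw [← mul_pow]
  exact pow_le_pow_left₀ (norm_nonneg _) (F_bound he hη hc).2 2

/-- the area of the slices -/
theorem slice_le {Rp η : ℝ} {a : ℂ} {e : Fin N → ℤ} {X : Fin N → ℂ} {J : Finset (Fin N)}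
    (he : ∀ i, e i = 1 ∨ e i = -1) (ha : a ≠ 0) (hη : 0 < η) (hRp : 0 < Rp) (c : ℂ)
    (hc : Wi 6 a e X J c) :
    volume {x | (c, x) ∈ As Rp η a e X J} ≤ ENNReal.ofReal (32 * Rp ^ 4 / η ^ 2) *
      al (Bc Rp η a e X J (gg a e X J c) (SS e X J c) c) := by
  set T := gg a e X J c with hT
  have hT0 : T ≠ 0 := gg_ne_zero ha hc.ne
  set S := SS e X J c with hS
  set A : Set ℂ := {x | (c, x) ∈ As Rp η a e X J} with hA
  set V : ℂ → ℂ := fun x => -(T * (c - x) * (Zz (SS e X J) c x)⁻¹) with hV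
  have hAm : MeasurableSet A :=
    (measurable_const.prodMk measurable_id : Measurable fun x : ℂ => (c, x)) (measurable_As he)
  set Ω : Set ℂ := {x | c - x ≠ 0} ∩ {x | S * (c - x) + 1 ≠ 0} with hΩ
  have hΩo : IsOpen Ω := by
    refine (isOpen_ne_fun (by fun_prop) continuous_const).inter
      (isOpen_ne_fun (by fun_prop) continuous_const)
  have hZe : ∀ x, c - x ≠ 0 → Zz (SS e X J) c x = (S * (c - x) + 1) / (c - x) := by
    intro x hx
    unfold Zz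
    rw [← hS]
    field_simp
  have hAΩ : A ⊆ Ω := by
    rintro x ⟨-, ⟨h4, -, h6, -, -⟩, -⟩
    simp only at h4 h6
    have hu0 : c - x ≠ 0 := norm_pos_iff.1 (hη.trans_le h4)
    refine ⟨hu0, ?_⟩
    intro h
    apply h6
    rw [hZe x hu0, h, zero_div]
  have hVe : ∀ x ∈ Ω, V x = -(T * (c - x) ^ 2 / (S * (c - x) + 1)) := by
    rintro x ⟨h1, h2⟩
    simp only [hV]
    rw [hZe x h1, inv_div]
    ring
  have hVd : ∀ x ∈ Ω, HasDerivAt V (-(V x) * (c - x + (Zz (SS e X J) c x)⁻¹) / (c - x) ^ 2) x := by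
    intro x hx
    have hx1 : c - x ≠ 0 := hx.1
    have hx2 : S * (c - x) + 1 ≠ 0 := hx.2
    have h1 : HasDerivAt (fun x : ℂ => c - x) (-1) x := (hasDerivAt_id x).const_sub c
    have h2 : HasDerivAt (fun x : ℂ => S * (c - x) + 1) (S * -1) x :=
      (h1.const_mul S).add_const 1
    have h3 := (((h1.fun_pow 2).const_mul T).fun_div h2 hx2).fun_neg
    have h4 : V =ᶠ[𝓝 x] fun x => -(T * (c - x) ^ 2 / (S * (c - x) + 1)) := by
      filter_upwards [hΩo.mem_nhds hx] with y hy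
      exact hVe y hy
    refine (h3.congr_of_eventuallyEq h4).congr_deriv ?_
    rw [hVe x hx, hZe x hx1, inv_div]
    obtain ⟨u, hu⟩ : ∃ u, u = c - x := ⟨_, rfl⟩
    obtain ⟨d, hd⟩ : ∃ d, d = S * u + 1 := ⟨_, rfl⟩
    rw [← hu] at hx1 hx2 ⊢
    rw [← hd] at hx2 ⊢
    push_cast
    field_simp
    rw [hd]
    ring
  have hmult : ∀ w, Set.encard {x : ℂ | x ∈ A ∧ V x = w} ≤ (2 : ℕ) := by
    intro w
    have hd := Polynomial.natDegree_quadratic (a := T) (b := -2 * T * c - w * S)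
      (c := T * c ^ 2 + w * S * c + w) hT0
    refine encard_roots (Q := Polynomial.C T * Polynomial.X ^ 2 +
      Polynomial.C (-2 * T * c - w * S) * Polynomial.X +
      Polynomial.C (T * c ^ 2 + w * S * c + w)) ?_ hd.le ?_
    · intro h
      rw [h, Polynomial.natDegree_zero] at hd
      norm_num at hd
    · rintro x ⟨hx, hxw⟩
      have hx' := hAΩ hx
      have hx2 : S * (c - x) + 1 ≠ 0 := hx'.2
      rw [hVe x hx', neg_eq_iff_eq_neg, div_eq_iff hx2] at hxw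
      simp only [Polynomial.eval_add, Polynomial.eval_mul, Polynomial.eval_C, Polynomial.eval_pow,
        Polynomial.eval_X]
      linear_combination hxw
  set B : Set ℂ := Bc Rp η a e X J T S c with hB
  have hBm : MeasurableSet B := measurable_Bc he
  have h2 := Pool.Agent.Y333.TY.MultX.area_mult V hΩo
    (fun x hx => (hVd x hx).differentiableAt.differentiableWithinAt) hAm hAΩ 2 hmult
    (B.indicator fun w => ENNReal.ofReal ((‖w‖ ^ 2)⁻¹))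
    ((by fun_prop : Measurable fun w : ℂ => ENNReal.ofReal ((‖w‖ ^ 2)⁻¹)).indicator hBm)
  rw [lintegral_indicator hBm] at h2
  have h3 : ∫⁻ _x in A, ENNReal.ofReal ((η / (4 * Rp ^ 2)) ^ 2) ≤ ∫⁻ x in A,
      ENNReal.ofReal (‖deriv V x‖ ^ 2) *
        B.indicator (fun w => ENNReal.ofReal ((‖w‖ ^ 2)⁻¹)) (V x) := by
    refine setLIntegral_mono' hAm fun x hx => ?_
    have hxΩ := hAΩ hx
    obtain ⟨-, ⟨h4, h5, h6, h7, h8⟩, h9⟩ := hx
    simp only at h4 h5 h6 h7 h8 h9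
    rw [(hVd x hxΩ).deriv, indicator_of_mem (show V x ∈ B from h9),
      ← ENNReal.ofReal_mul (by positivity)]
    refine ENNReal.ofReal_le_ofReal ?_
    have hu : 0 < ‖c - x‖ := hη.trans_le h4
    have hV0 : 0 < ‖V x‖ := by
      rw [norm_pos_iff]
      exact neg_ne_zero.2 (mul_ne_zero (mul_ne_zero hT0 hxΩ.1) (inv_ne_zero h6))
    rw [norm_div, norm_mul, norm_neg, norm_pow]
    have e1 : (‖V x‖ * ‖c - x + (Zz (SS e X J) c x)⁻¹‖ / ‖c - x‖ ^ 2) ^ 2 * (‖V x‖ ^ 2)⁻¹ =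
        (‖c - x + (Zz (SS e X J) c x)⁻¹‖ / ‖c - x‖ ^ 2) ^ 2 := by
      field_simp
    rw [e1]
    have e2 : η / (4 * Rp ^ 2) ≤ ‖c - x + (Zz (SS e X J) c x)⁻¹‖ / ‖c - x‖ ^ 2 := by
      refine div_le_div₀ (norm_nonneg _) h8 (by positivity) ?_
      calc ‖c - x‖ ^ 2 ≤ (2 * Rp) ^ 2 := by gcongr
        _ = 4 * Rp ^ 2 := by ring
    gcongr
  rw [setLIntegral_const] at h3
  have h4 := h3.trans h2
  have e1 : ENNReal.ofReal (32 * Rp ^ 4 / η ^ 2) =
      ENNReal.ofReal (16 * Rp ^ 4 / η ^ 2) * 2 := by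
    have : (2 : ENNReal) = ENNReal.ofReal 2 := by simp
    rw [this, ← ENNReal.ofReal_mul (by positivity)]
    congr 1
    ring
  have e2 : volume A = ENNReal.ofReal (16 * Rp ^ 4 / η ^ 2) *
      (ENNReal.ofReal ((η / (4 * Rp ^ 2)) ^ 2) * volume A) := by
    rw [← mul_assoc, ← ENNReal.ofReal_mul (by positivity)]
    have : 16 * Rp ^ 4 / η ^ 2 * (η / (4 * Rp ^ 2)) ^ 2 = 1 := by
      field_simp
      norm_num
    rw [this, ENNReal.ofReal_one, one_mul]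
  rw [e2, e1, mul_assoc]
  refine mul_le_mul_right ?_ _
  refine h4.trans (le_of_eq ?_)
  unfold al
  rw [mul_comm]
  norm_num

end Pool.Agent.N229.HF
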