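import Pool.Agent.N229.HF.Pair2

/-!
# Two points: integration over the sections
-/

set_option autoImplicit false

open Filter Topology MeasureTheory Set

namespace Pool.Agent.N229.HF

open Pool.Agent.N229.RL

variable {N : ℕ}

/-- the region of the critical points -/
def Wc (Rp η : ℝ) (a : ℂ) (e : Fin N → ℤ) (X : Fin N → ℂ) (J : Finset (Fin N)) : Set ℂ :=
  {c | ‖c‖ ≤ Rp ∧ (Wi 6 a e X J c ∧ ‖SS e X J c‖ ≤ 2 / η)}

theorem pair_X {D R Rp η : ℝ} (hD : 0 ≤ D) (hR : 0 ≤ R) (hRp : 1 ≤ Rp) (hη : 0 < η) :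
    ∃ C : ℝ, 0 < C ∧ ∀ᶠ N : ℕ in atTop, ∀ (μ : Fin N → Measure ℂ) (e : Fin N → ℤ) (a : ℂ)
      (X : Fin N → ℂ) (J : Finset (Fin N)) (i k : Fin N), (∀ i, Dens (μ i) D R) →
      (∀ i, e i = 1 ∨ e i = -1) → a ≠ 0 → Ty μ R 7 (Rp + 1) a e X J →
      ∫⁻ x, μ k ((fun c => c + (Zz (SS e X J) c x)⁻¹) '' {c | (c, x) ∈ As Rp η a e X J}) ∂μ i ≤
        ENNReal.ofReal (C * (nu N ^ 137)⁻¹) * ∫⁻ c, (Wc Rp η a e X J).indicator
          (fun c => ENNReal.ofReal ((1 + Sq X J c) ^ 2)) c := by
  have hCF : 0 < CF Rp η := by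
    unfold CF
    positivity
  set C₀ : ℝ := (CF Rp η) ^ 2 * (32 * Rp ^ 4 / η ^ 2) with hC₀
  have hC₀0 : 0 ≤ C₀ := by positivity
  refine ⟨D * D * C₀ + 1, by positivity, ?_⟩
  filter_upwards [incr hD hR hRp hη, eventually_ge_atTop 1] with N hinc hN μ e a X J i k hμ he ha hTy
  have hν := nu_ge hN
  have hν0 : 0 < nu N := by linarith
  have hAs : MeasurableSet (As Rp η a e X J) := measurable_As he
  have hSq : Measurable fun c : ℂ => Sq X J c := measurable_Sq2.comp (measurable_pairp X)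
  set g : ℂ → ENNReal := fun c => ENNReal.ofReal ((CF Rp η) ^ 2 * (1 + Sq X J c) ^ 2) with hg
  have hgm : Measurable g := (((hSq.const_add 1).pow_const 2).const_mul _).ennreal_ofReal
  set F : ℂ → ℂ → ENNReal := fun x c => (As Rp η a e X J).indicator (fun q => g q.1) (c, x) with hF
  have hFm : Measurable (Function.uncurry F) :=
    ((hgm.comp measurable_fst).indicator hAs).comp measurable_swap
  -- the images
  have h1 : ∀ x, μ k ((fun c => c + (Zz (SS e X J) c x)⁻¹) '' {c | (c, x) ∈ As Rp η a e X J}) ≤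
      ENNReal.ofReal D * ∫⁻ c, F x c := by
    intro x
    have hm : MeasurableSet {c | (c, x) ∈ As Rp η a e X J} :=
      (measurable_id.prodMk measurable_const : Measurable fun c : ℂ => (c, x)) hAs
    refine (Measure.le_iff'.1 (hμ k).le _).trans ?_
    rw [Measure.smul_apply, smul_eq_mul]
    refine mul_le_mul_right ?_ _
    refine (image_le he hη x).trans (le_of_eq ?_)
    rw [← lintegral_indicator hm]
    rfl
  refine (lintegral_mono h1).trans (((hμ i).lint _).trans ?_)
  rw [lintegral_const_mul' _ _ ENNReal.ofReal_ne_top, lintegral_lintegral_swap hFm.aemeasurable]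
  -- the slices
  have h2 : ∀ c, ∫⁻ x, F x c ≤ ENNReal.ofReal (C₀ * (nu N ^ 137)⁻¹) *
      (Wc Rp η a e X J).indicator (fun c => ENNReal.ofReal ((1 + Sq X J c) ^ 2)) c := by
    intro c
    by_cases hc : c ∈ Wc Rp η a e X J
    · have hm : MeasurableSet {x | (c, x) ∈ As Rp η a e X J} :=
        (measurable_const.prodMk measurable_id : Measurable fun x : ℂ => (c, x)) hAs
      have h3 : ∀ x, F x c = {x | (c, x) ∈ As Rp η a e X J}.indicator (fun _ => g c) x :=
        fun x => rfl
      simp_rw [h3]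
      rw [lintegral_indicator_const hm, indicator_of_mem hc]
      have hT0 : gg a e X J c ≠ 0 := gg_ne_zero ha hc.2.1.ne
      have h4 := (slice_le he ha hη (by linarith : 0 < Rp) c hc.2.1).trans
        (mul_le_mul_right (hinc μ e a X J (gg a e X J c) (SS e X J c) c hμ he ha hTy hc.1 hT0
          hc.2.2) _)
      refine (mul_le_mul_right h4 (g c)).trans (le_of_eq ?_)
      rw [hg]
      simp only
      rw [← ENNReal.ofReal_mul (by positivity), ← ENNReal.ofReal_mul (by positivity),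
        ← ENNReal.ofReal_mul (by positivity)]
      congr 1
      rw [hC₀]
      ring
    · have h3 : ∀ x, F x c = 0 := by
        intro x
        refine indicator_of_notMem ?_ _
        rintro ⟨⟨h5, h6, h7⟩, -, -⟩
        exact hc ⟨h5, h6, h7⟩
      simp_rw [h3]
      rw [lintegral_zero]
      exact zero_le
  refine (mul_le_mul_right (mul_le_mul_right (lintegral_mono h2) _) _).trans ?_
  rw [lintegral_const_mul' _ _ ENNReal.ofReal_ne_top, ← mul_assoc, ← mul_assoc,
    ← ENNReal.ofReal_mul hD, ← ENNReal.ofReal_mul (by positivity)]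
  refine mul_le_mul_left (ENNReal.ofReal_le_ofReal ?_) _
  have h6 : 0 < (nu N ^ 137)⁻¹ := by positivity
  calc D * D * (C₀ * (nu N ^ 137)⁻¹) = D * D * C₀ * (nu N ^ 137)⁻¹ := by ring
    _ ≤ (D * D * C₀ + 1) * (nu N ^ 137)⁻¹ := by
        refine mul_le_mul_of_nonneg_right ?_ h6.le
        linarith

end Pool.Agent.N229.HF
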