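import Pool.Agent.N229.HF.Pair3
import Pool.Agent.N229.HF.Clos2

/-!
# Two points: the probability of the bad event
-/

set_option autoImplicit false

open Filter Topology MeasureTheory Set

namespace Pool.Agent.N229.HF

open Pool.Agent.N229.RL

variable {N : ℕ}

theorem measurable_Wc2 {Rp η : ℝ} {a : ℂ} {e : Fin N → ℤ} {J : Finset (Fin N)}
    (he : ∀ i, e i = 1 ∨ e i = -1) :
    MeasurableSet {q : (Fin N → ℂ) × ℂ | q.2 ∈ Wc Rp η a e q.1 J} := by
  have m1 : MeasurableSet {q : (Fin N → ℂ) × ℂ | ‖q.2‖ ≤ Rp} :=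
    measurableSet_le measurable_snd.norm measurable_const
  have m2 : MeasurableSet {q : (Fin N → ℂ) × ℂ | Wi 6 a e q.1 J q.2} := measurable_Wi2 he
  have m3 : MeasurableSet {q : (Fin N → ℂ) × ℂ | ‖SS e q.1 J q.2‖ ≤ 2 / η} :=
    measurableSet_le measurable_SS2.norm measurable_const
  exact m1.inter (m2.inter m3)

/-- the mean of the area -/
theorem mean_Wc {D R Rp η : ℝ} (hD : 0 ≤ D) (hR : 0 ≤ R) (hRp : 0 ≤ Rp) (hη : 0 < η) :
    ∀ᶠ N : ℕ in atTop, ∀ (μ : Fin N → Measure ℂ) (e : Fin N → ℤ) (a : ℂ)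
      (J : Finset (Fin N)), (∀ i, Dens (μ i) D R) → (∀ i, e i = 1 ∨ e i = -1) →
      a ≠ 0 → (Finset.univ \ J).card ≤ 2 →
      ∫⁻ X, (∫⁻ c, (Wc Rp η a e X J).indicator
          (fun c => ENNReal.ofReal ((1 + Sq X J c) ^ 2)) c) ∂Measure.pi μ ≤
        ENNReal.ofReal (Real.pi * Rp ^ 2 * nu N ^ 134) := by
  have hpi := Real.pi_pos
  filter_upwards [level0 (2 / η) 6 (by norm_num) hD hR hRp (by positivity), eventually_ge_atTop 1]
    with N h1 hN μ e a J hμ he ha hJ
  have hν := nu_ge hN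
  have hν0 : 0 < nu N := by linarith
  have : ∀ i, IsProbabilityMeasure (μ i) := fun i => (hμ i).prob
  set F : (Fin N → ℂ) → ℂ → ENNReal := fun X c =>
    {q : (Fin N → ℂ) × ℂ | q.2 ∈ Wc Rp η a e q.1 J}.indicator
      (fun q => ENNReal.ofReal ((1 + Sq q.1 J q.2) ^ 2)) (X, c) with hF
  have hFm : Measurable (Function.uncurry F) :=
    (((measurable_Sq2.const_add 1).pow_const 2).ennreal_ofReal).indicator (measurable_Wc2 he)
  have h2 : ∀ X c, (Wc Rp η a e X J).indicator
      (fun c => ENNReal.ofReal ((1 + Sq X J c) ^ 2)) c = F X c := fun X c => rfl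
  simp_rw [h2]
  rw [lintegral_lintegral_swap hFm.aemeasurable]
  have h3 : ∀ c, ∫⁻ X, F X c ∂Measure.pi μ ≤
      (Metric.closedBall (0 : ℂ) Rp).indicator (fun _ => ENNReal.ofReal (nu N ^ 134)) c := by
    intro c
    by_cases hc : ‖c‖ ≤ Rp
    · rw [indicator_of_mem (mem_closedBall_zero_iff.2 hc)]
      refine le_trans (le_of_eq (lintegral_congr fun X => ?_)) (h1 μ e a J c hμ he ha hJ hc)
      by_cases hX : Wi 6 a e X J c ∧ ‖SS e X J c‖ ≤ 2 / η
      · rw [indicator_of_mem (show X ∈ {X | Wi 6 a e X J c ∧ ‖SS e X J c‖ ≤ 2 / η} from hX)]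
        exact indicator_of_mem (show (X, c) ∈ {q : (Fin N → ℂ) × ℂ | q.2 ∈ Wc Rp η a e q.1 J}
          from ⟨hc, hX⟩) _
      · rw [indicator_of_notMem (show X ∉ {X | Wi 6 a e X J c ∧ ‖SS e X J c‖ ≤ 2 / η} from hX)]
        exact indicator_of_notMem (show (X, c) ∉ {q : (Fin N → ℂ) × ℂ | q.2 ∈ Wc Rp η a e q.1 J}
          from fun h => hX h.2) _
    · have h4 : ∀ X, F X c = 0 := fun X => indicator_of_notMem
        (show (X, c) ∉ {q : (Fin N → ℂ) × ℂ | q.2 ∈ Wc Rp η a e q.1 J} from fun h => hc h.1) _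
      simp_rw [h4]
      rw [lintegral_zero]
      exact zero_le
  refine (lintegral_mono h3).trans ?_
  rw [lintegral_indicator_const Metric.isClosed_closedBall.measurableSet, mul_comm]
  refine (mul_le_mul_left (vol_ball_le _ hRp) _).trans ?_
  rw [← ENNReal.ofReal_mul (by positivity)]

theorem prob_Ev {D R Rp η : ℝ} (hD : 0 ≤ D) (hR : 0 ≤ R) (hRp : 1 ≤ Rp) (hRR : R ≤ Rp)
    (hη : 0 < η) :
    ∀ᶠ N : ℕ in atTop, ∀ (μ : Fin N → Measure ℂ) (e : Fin N → ℤ) (a : ℂ) (i k : Fin N),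
      (∀ i, Dens (μ i) D R) → (∀ i, e i = 1 ∨ e i = -1) → a ≠ 0 → i ≠ k → e i = 1 → e k = 1 →
      Measure.pi μ (Ev R Rp η e a i k) ≤ ENNReal.ofReal (2 * (nu N)⁻¹) := by
  classical
  have hpi := Real.pi_pos
  obtain ⟨C, hC, hX⟩ := pair_X hD hR hRp hη
  filter_upwards [hX, mean_Wc hD hR (by linarith : 0 ≤ Rp) hη, ev_rel hRR hRp hη,
    prob_Ty (A := 7) (Rq := Rp + 1) (by norm_num) hD hR (by linarith),
    eventually_ge_atTop 1, ev_nu (C * (Real.pi * Rp ^ 2)) 0] with
    N h1 h2 h3 h4 hN h5 μ e a i k hμ he ha hik hi hk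
  rw [pow_zero, mul_one] at h5
  have : ∀ i, IsProbabilityMeasure (μ i) := fun i => (hμ i).prob
  have hν := nu_ge hN
  have hν0 : 0 < nu N := by linarith
  have hJ := card_J2 i k
  set J := J2 i k with hJdef
  set E := Ev R Rp η e a i k with hE
  have hEm : MeasurableSet E := (closed_Ev hη e a i k).measurableSet
  set f : (Fin N → ℂ) → ENNReal := E.indicator 1 with hf
  have hfm : Measurable f := measurable_one.indicator hEm
  set g : (Fin N → ℂ) → ENNReal := fun X => ∫⁻ y, f (Function.update X k y) ∂μ k with hg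
  have hgm : Measurable g := by
    have h1 : Measurable fun q : (Fin N → ℂ) × ℂ => f (Function.update q.1 k q.2) := by
      refine hfm.comp ?_
      exact measurable_update'
    exact h1.lintegral_prod_right'
  have hstep : Measure.pi μ E = ∫⁻ X, ∫⁻ x, g (Function.update X i x) ∂μ i ∂Measure.pi μ := by
    rw [← lintegral_indicator_one hEm, resample_fun μ hfm k, resample_fun μ hgm i]
  rw [hstep]
  -- pointwise
  set T : Set (Fin N → ℂ) := {X | ¬ Ty μ R 7 (Rp + 1) a e X J} with hT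
  have hTm : MeasurableSet T := (measurable_Ty hμ he).compl
  have hpt : ∀ X, ∫⁻ x, g (Function.update X i x) ∂μ i ≤ T.indicator 1 X +
      ENNReal.ofReal (C * (nu N ^ 137)⁻¹) * ∫⁻ c, (Wc Rp η a e X J).indicator
          (fun c => ENNReal.ofReal ((1 + Sq X J c) ^ 2)) c := by
    intro X
    by_cases hXT : X ∈ T
    · rw [indicator_of_mem hXT, Pi.one_apply]
      refine le_trans ?_ le_self_add
      have h6 : ∀ Y, g Y ≤ 1 := by
        intro Y
        calc g Y ≤ ∫⁻ _y, 1 ∂μ k := lintegral_mono fun y => by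
              simp only [hf]
              exact indicator_le_self' (fun _ _ => zero_le) _
          _ = 1 := by simp
      calc ∫⁻ x, g (Function.update X i x) ∂μ i ≤ ∫⁻ _x, 1 ∂μ i := lintegral_mono fun x => h6 _
        _ = 1 := by simp
    · rw [indicator_of_notMem hXT, zero_add]
      have hTy : Ty μ R 7 (Rp + 1) a e X J := not_not.1 hXT
      refine le_trans (lintegral_mono fun x => ?_) (h1 μ e a X J i k hμ he ha hTy)
      -- the section
      set Y : ℂ → (Fin N → ℂ) := fun y => Function.update (Function.update X i x) k y with hY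
      have hYm : MeasurableSet {y | Y y ∈ E} := (measurable_update (Function.update X i x)) hEm
      have h6 : g (Function.update X i x) = μ k {y | Y y ∈ E} := by
        have : ∀ y, f (Y y) = {y | Y y ∈ E}.indicator 1 y := fun y => rfl
        show ∫⁻ y, f (Y y) ∂μ k = _
        simp_rw [this]
        rw [lintegral_indicator_one hYm]
      rw [h6]
      refine measure_mono ?_
      intro y hy
      obtain ⟨c, hc1, hc2⟩ := h3 e a (Y y) i k ha hik hi hk hy
      have hYJ : ∀ j ∈ J, Y y j = X j := by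
        intro j hj
        obtain ⟨hjk, hji⟩ := mem_J2.1 hj
        simp only [hY]
        rw [Function.update_of_ne hjk, Function.update_of_ne hji]
      have hYi : Y y i = x := by
        simp only [hY]
        rw [Function.update_of_ne hik, Function.update_self]
      have hYk : Y y k = y := by
        simp only [hY]
        rw [Function.update_self]
      rw [hYi] at hc1 hc2
      rw [hYk, SS_congr hYJ] at hc2
      exact ⟨c, As_congr hYJ hc1, hc2⟩
  refine (lintegral_mono hpt).trans ?_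
  rw [lintegral_add_left (measurable_one.indicator hTm), lintegral_indicator_one hTm,
    lintegral_const_mul' _ _ ENNReal.ofReal_ne_top]
  refine (add_le_add (h4 μ e a J hμ he ha hJ)
    (mul_le_mul_right (h2 μ e a J hμ he ha hJ) _)).trans ?_
  rw [← ENNReal.ofReal_mul (by positivity), ← ENNReal.ofReal_add (by positivity) (by positivity)]
  refine ENNReal.ofReal_le_ofReal ?_
  have h6 : C * (nu N ^ 137)⁻¹ * (Real.pi * Rp ^ 2 * nu N ^ 134) =
      C * (Real.pi * Rp ^ 2) * (nu N ^ 3)⁻¹ := by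
    field_simp
  have h7 : C * (Real.pi * Rp ^ 2) * (nu N ^ 3)⁻¹ ≤ (nu N)⁻¹ := by
    calc C * (Real.pi * Rp ^ 2) * (nu N ^ 3)⁻¹ ≤ nu N * (nu N ^ 3)⁻¹ := by gcongr
      _ = (nu N ^ 2)⁻¹ := by field_simp
      _ ≤ (nu N)⁻¹ := inv_anti₀ hν0 (le_self_pow₀ hν (by norm_num))
  rw [h6]
  linarith

end Pool.Agent.N229.HF
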