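import Pool.Agent.N229.HF.Hub
import Pool.Agent.N229.RL.Main

/-!
# Polynomials: three levels
-/

set_option autoImplicit false

open Filter Topology MeasureTheory Set

namespace Pool.Agent.N229.HF

open Pool.Agent.N229.RL
open Polynomial (C X derivative)
open Pool.Agent.W751.CD (P Hyp Esc Att esc_of_large att_of_inner)

/-- the orbit of `z` converges to the attracting fixed point `x` -/
def AttTo (T : Polynomial ℂ) (x z : ℂ) : Prop :=
  T.eval x = x ∧ ‖deriv (fun y : ℂ => T.eval y) x‖ < 1 ∧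
    Tendsto (fun k : ℕ => (fun y : ℂ => T.eval y)^[k] z) atTop (𝓝 x)

/-- every critical point escapes or is attracted by one and the same fixed point -/
def OneS (T : Polynomial ℂ) : Prop :=
  ∃ x : ℂ, ∀ c : ℂ, (derivative T).eval c = 0 → Esc T c ∨ AttTo T x c

theorem OneS.hyp {T : Polynomial ℂ} (h : OneS T) : Hyp T := by
  obtain ⟨x, hx⟩ := h
  intro c hc
  rcases hx c hc with h1 | ⟨h1, h2, h3⟩
  · exact Or.inl h1
  · exact Or.inr ⟨x, h1, h2, h3⟩

theorem AttTo.shift {T : Polynomial ℂ} {x z : ℂ} (h : AttTo T x (T.eval z)) : AttTo T x z := by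
  obtain ⟨h1, h2, h3⟩ := h
  refine ⟨h1, h2, ?_⟩
  rw [← tendsto_add_atTop_iff_nat 1]
  exact h3

theorem att_one {T : Polynomial ℂ} {s : ℝ} (hs : 0 < s)
    (h : ∀ w : ℂ, ‖w‖ ≤ s → ‖T.eval w‖ ≤ s / 4) : ∃ x : ℂ, ∀ w : ℂ, ‖w‖ ≤ s / 2 → AttTo T x w := by
  set f : ℂ → ℂ := fun y : ℂ => T.eval y with hf
  set S : Set ℂ := Metric.closedBall 0 (s / 2) with hS
  have hmaps : Set.MapsTo f S S := by
    intro y hy
    rw [hS, mem_closedBall_zero_iff] at hy ⊢
    have := h y (by linarith)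
    simp only [hf]
    linarith
  have hder : ∀ x ∈ S, ‖deriv f x‖ ≤ 1 / 2 := by
    intro x hx
    rw [hS, mem_closedBall_zero_iff] at hx
    have h1 : ∀ z ∈ Metric.sphere x (s / 2), ‖f z‖ ≤ s / 4 := by
      intro z hz
      apply h
      have h2 : ‖z - x‖ = s / 2 := by rw [← dist_eq_norm]; exact hz
      have h3 := norm_le_norm_add_norm_sub' z x
      linarith
    have h2 := Complex.norm_deriv_le_of_forall_mem_sphere_norm_le (by linarith : 0 < s / 2)
      (T.differentiable.diffContOnCl) h1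
    refine h2.trans ?_
    rw [div_div_eq_mul_div, div_le_iff₀ hs]
    linarith
  have hdiff : ∀ x ∈ S, DifferentiableAt ℂ f x := fun x _ => T.differentiableAt
  have hlip : LipschitzOnWith (1 / 2) f S := by
    refine Convex.lipschitzOnWith_of_nnnorm_deriv_le (𝕜 := ℂ) hdiff ?_ (convex_closedBall 0 _)
    intro x hx
    have := hder x hx
    rw [← NNReal.coe_le_coe]
    simpa using this
  have hcon : ContractingWith (1 / 2) (hmaps.restrict f S S) := by
    refine ⟨by rw [← NNReal.coe_lt_coe]; norm_num, ?_⟩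
    exact hlip.mapsToRestrict hmaps
  have hex : ∀ w ∈ S, ∃ y ∈ S, f y = y ∧ Tendsto (fun k : ℕ => f^[k] w) atTop (𝓝 y) := by
    intro w hw
    obtain ⟨y, hys, hy, hlim, -⟩ := hcon.exists_fixedPoint'
      Metric.isClosed_closedBall.isComplete hmaps hw (edist_ne_top _ _)
    exact ⟨y, hys, hy, hlim⟩
  have h0 : (0 : ℂ) ∈ S := by
    rw [hS, mem_closedBall_zero_iff, norm_zero]
    linarith
  obtain ⟨x, hxS, hx, -⟩ := hex 0 h0
  refine ⟨x, fun w hw => ?_⟩
  obtain ⟨y, hyS, hy, hlim⟩ := hex w (by rw [hS, mem_closedBall_zero_iff]; exact hw)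
  have hyx : y = x := by
    have h1 := hlip.dist_le_mul y hyS x hxS
    rw [hy, hx] at h1
    have h2 : dist y x ≤ 0 := by
      have h3 : ((1 / 2 : NNReal) : ℝ) = 1 / 2 := by norm_num
      rw [h3] at h1
      have : 0 ≤ dist y x := dist_nonneg
      linarith
    exact dist_le_zero.1 h2
  rw [hyx] at hlim
  exact ⟨hx, lt_of_le_of_lt (hder x hxS) (by norm_num), hlim⟩

theorem dyn3 (T : Polynomial ℂ) (a : ℂ) (R₀ R₁ s : ℝ) (ha : a ≠ 0) (hs : 0 < s) (hR₀ : 0 < R₀)
    (hR : R₀ ≤ R₁) (hsR : s / 4 ≤ R₁)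
    (hesc : ∀ w : ℂ, R₀ ≤ ‖w‖ → 2 * ‖w‖ ≤ ‖a * T.eval w‖)
    (hin : ∀ w : ℂ, ‖w‖ ≤ s → ‖a * T.eval w‖ < s / 4 ∨ R₁ < ‖a * T.eval w‖)
    (hcr : ∀ c : ℂ, (derivative T).eval c = 0 → s / 4 ≤ ‖a * T.eval c‖ → ‖a * T.eval c‖ ≤ R₁ →
      (‖a * T.eval (a * T.eval c)‖ < s / 4 ∨ R₁ < ‖a * T.eval (a * T.eval c)‖) ∨
      (‖a * T.eval (a * T.eval (a * T.eval c))‖ < s / 4 ∨
        R₁ < ‖a * T.eval (a * T.eval (a * T.eval c))‖)) :
    OneS (C a * T) := by
  have hev : ∀ w, (C a * T).eval w = a * T.eval w := fun w => by simp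
  set G : Polynomial ℂ := C a * T with hG
  have hfar : ∀ w, R₁ < ‖G.eval w‖ → Esc G w := by
    intro w hw
    apply Esc.shift
    apply esc_of_large hR₀ (fun y hy => by rw [hev]; exact hesc y hy)
    linarith
  -- the dichotomy for the disc
  have hball : (∀ w, ‖w‖ ≤ s → ‖G.eval w‖ < s / 4) ∨ (∀ w, ‖w‖ ≤ s → R₁ < ‖G.eval w‖) := by
    have hpre : IsPreconnected (Metric.closedBall (0 : ℂ) s) := (convex_closedBall 0 s).isPreconnected
    have ho1 : IsOpen {w : ℂ | ‖G.eval w‖ < s / 4} :=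
      isOpen_lt (G.continuous.norm) continuous_const
    have ho2 : IsOpen {w : ℂ | R₁ < ‖G.eval w‖} :=
      isOpen_lt continuous_const (G.continuous.norm)
    have hcov : Metric.closedBall (0 : ℂ) s ⊆
        {w : ℂ | ‖G.eval w‖ < s / 4} ∪ {w : ℂ | R₁ < ‖G.eval w‖} := by
      intro w hw
      rw [mem_closedBall_zero_iff] at hw
      rcases hin w hw with h | h
      · left; simpa [hev] using h
      · right; simpa [hev] using h
    by_contra hcon
    push Not at hcon
    obtain ⟨⟨w₁, hw₁, h1⟩, w₂, hw₂, h2⟩ := hcon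
    have hA : (Metric.closedBall (0 : ℂ) s ∩ {w : ℂ | ‖G.eval w‖ < s / 4}).Nonempty := by
      refine ⟨w₂, by simpa using hw₂, ?_⟩
      rcases hin w₂ hw₂ with h | h
      · simpa [hev] using h
      · rw [hev] at h2; exact absurd h (not_lt.2 h2)
    have hB : (Metric.closedBall (0 : ℂ) s ∩ {w : ℂ | R₁ < ‖G.eval w‖}).Nonempty := by
      refine ⟨w₁, by simpa using hw₁, ?_⟩
      rcases hin w₁ hw₁ with h | h
      · rw [hev] at h1; exact absurd h (not_lt.2 h1)
      · simpa [hev] using h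
    obtain ⟨w, -, hw1, hw2⟩ := hpre _ _ ho1 ho2 hcov hA hB
    simp only [Set.mem_ofPred_eq] at hw1 hw2
    linarith
  have hsmall : ∃ x : ℂ, ∀ w, ‖G.eval w‖ < s / 4 → Esc G w ∨ AttTo G x w := by
    rcases hball with h | h
    · obtain ⟨x, hx⟩ := att_one hs (fun y hy => (h y hy).le)
      refine ⟨x, fun w hw => Or.inr ?_⟩
      apply AttTo.shift
      apply hx
      linarith
    · refine ⟨0, fun w hw => Or.inl ?_⟩
      apply Esc.shift
      apply hfar
      apply h
      linarith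
  obtain ⟨x, hsmall⟩ := hsmall
  have hgood : ∀ w, (‖G.eval w‖ < s / 4 ∨ R₁ < ‖G.eval w‖) → Esc G w ∨ AttTo G x w := by
    rintro w (h | h)
    · exact hsmall w h
    · exact Or.inl (hfar w h)
  refine ⟨x, ?_⟩
  intro c hc
  have hc' : (derivative T).eval c = 0 := by
    rw [hG, Polynomial.derivative_C_mul, Polynomial.eval_mul, Polynomial.eval_C] at hc
    exact (mul_eq_zero.1 hc).resolve_left ha
  by_cases h1 : ‖G.eval c‖ < s / 4
  · exact hgood c (Or.inl h1)
  · by_cases h2 : R₁ < ‖G.eval c‖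
    · exact hgood c (Or.inr h2)
    · rw [not_lt] at h1 h2
      have h3 := hcr c hc' (by rw [← hev]; exact h1) (by rw [← hev]; exact h2)
      rw [← hev, ← hev, ← hev] at h3
      rcases h3 with h3 | h3
      · rcases hgood _ h3 with h | h
        · exact Or.inl h.shift
        · exact Or.inr h.shift
      · rcases hgood _ h3 with h | h
        · exact Or.inl h.shift.shift
        · exact Or.inr h.shift.shift

variable {N : ℕ}

/-- growth outside of a disc -/
theorem escape3 {R Λ : ℝ} (hR : 0 ≤ R) :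
    ∀ᶠ N : ℕ in atTop, ∀ (a : ℂ) (z : Fin N → ℂ), a ≠ 0 → -(Λ * N) ≤ Real.log ‖a‖ →
      (∀ j, ‖z j‖ ≤ R) → ∀ w : ℂ, R + 2 * Real.exp Λ + 1 ≤ ‖w‖ →
        2 * ‖w‖ ≤ ‖a * (P z).eval w‖ := by
  have hlim : Tendsto (fun N : ℕ => (2 : ℝ) ^ (N - 1)) atTop atTop :=
    (tendsto_pow_atTop_atTop_of_one_lt (by norm_num)).comp (tendsto_sub_atTop_nat 1)
  filter_upwards [hlim.eventually_ge_atTop (R + 2 * Real.exp Λ), eventually_ge_atTop 1] with
    N h1 hN a z ha hΛ hz w hw
  have hE : 0 < Real.exp Λ := Real.exp_pos _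
  set y : ℝ := (‖w‖ - R) * Real.exp (-Λ) with hy
  have hyw : ‖w‖ = R + y * Real.exp Λ := by
    rw [hy, mul_assoc, ← Real.exp_add, neg_add_cancel, Real.exp_zero]
    ring
  have hy2 : 2 ≤ y := by
    by_contra h
    rw [not_le] at h
    nlinarith
  have h2 : y ^ N ≤ ‖a * (P z).eval w‖ := by
    rw [norm_mul]
    have h3 : Real.exp (-(Λ * N)) ≤ ‖a‖ := by
      rw [← Real.exp_log (norm_pos_iff.2 ha)]
      exact Real.exp_le_exp.2 hΛ
    have h4 : (‖w‖ - R) ^ N ≤ ‖(P z).eval w‖ := by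
      unfold P
      rw [Polynomial.eval_prod, norm_prod]
      have h5 : ∏ _i : Fin N, (‖w‖ - R) ≤ ∏ i : Fin N, ‖Polynomial.eval w (X - C (z i))‖ := by
        refine Finset.prod_le_prod (fun i _ => by linarith) fun i _ => ?_
        rw [Polynomial.eval_sub, Polynomial.eval_X, Polynomial.eval_C]
        have := norm_sub_norm_le w (z i)
        linarith [hz i]
      simpa using h5
    have h6 : y ^ N = Real.exp (-(Λ * N)) * (‖w‖ - R) ^ N := by
      rw [hy, mul_pow, ← Real.exp_nat_mul, mul_comm]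
      congr 2
      ring
    rw [h6]
    have h7 : 0 ≤ (‖w‖ - R) ^ N := pow_nonneg (by linarith) _
    exact mul_le_mul h3 h4 h7 (norm_nonneg _)
  refine le_trans ?_ h2
  obtain ⟨k, rfl⟩ : ∃ k, N = k + 1 := ⟨N - 1, by omega⟩
  rw [Nat.add_sub_cancel] at h1
  have h8 : (2 : ℝ) ^ k ≤ y ^ k := by gcongr
  rw [pow_succ]
  calc 2 * ‖w‖ = 2 * (R + y * Real.exp Λ) := by rw [hyw]
    _ ≤ (R + 2 * Real.exp Λ) * y := by nlinarith
    _ ≤ 2 ^ k * y := by gcongr
    _ ≤ y ^ k * y := by gcongr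

/-- the critical points are in the disc -/
theorem crit_le {R : ℝ} (hN : 1 ≤ N) {z : Fin N → ℂ} (hR : 0 ≤ R) (hz : ∀ j, ‖z j‖ ≤ R) {c : ℂ}
    (hc : (derivative (P z)).eval c = 0) : ‖c‖ ≤ R := by
  by_contra hcon
  rw [not_le] at hcon
  have hN0 : (0 : ℝ) < N := by exact_mod_cast hN
  have hcz : ∀ j, c ≠ z j := by
    intro j h
    have := hz j
    rw [← h] at this
    linarith
  have h1 : PJ 1 z Finset.univ = P z := by
    unfold PJ P
    rw [Polynomial.C_1, one_mul]
  have h2 := deriv_PJ 1 z Finset.univ (w := c) fun j _ => hcz j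
  rw [h1, hc] at h2
  rcases mul_eq_zero.1 h2.symm with h3 | h3
  · exact gg_ne_zero one_ne_zero (fun j _ => hcz j) h3
  · have h4 : (N : ℝ) / 2 ≤ (c * SS one z Finset.univ c).re := by
      unfold SS
      rw [Finset.mul_sum, Complex.re_sum]
      have h5 : ∑ _i : Fin N, (1 / 2 : ℝ) ≤ ∑ i : Fin N,
          (c * (((one i : ℤ) : ℂ) / (c - z i))).re := by
        refine Finset.sum_le_sum fun i _ => ?_
        have := re_half (z := c) (w := z i) ((hz i).trans_lt hcon)
        simpa [one] using this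
      simp only [Finset.sum_const, Finset.card_univ, Fintype.card_fin, nsmul_eq_mul] at h5
      linarith
    rw [h3, mul_zero, Complex.zero_re] at h4
    linarith

/-- very small leading coefficients -/
theorem poly_small {R : ℝ} (hN : 1 ≤ N) {z : Fin N → ℂ} {a : ℂ} (ha : a ≠ 0) (hR : 0 ≤ R)
    (hz : ∀ j, ‖z j‖ ≤ R) (hl : Real.log ‖a‖ ≤ -(Real.log (2 * (3 * R + 2)) * N)) :
    OneS (C a * P z) := by
  have hs : (0 : ℝ) < 2 * (R + 1) := by linarith
  have hb : (0 : ℝ) < 2 * (3 * R + 2) := by linarith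
  have ha1 : ‖a‖ ≤ ((2 * (3 * R + 2)) ^ N)⁻¹ := by
    rw [← Real.exp_log (norm_pos_iff.2 ha)]
    refine (Real.exp_le_exp.2 hl).trans (le_of_eq ?_)
    rw [Real.exp_neg, mul_comm, ← Real.log_pow, Real.exp_log (by positivity)]
  have hin : ∀ w : ℂ, ‖w‖ ≤ 2 * (R + 1) → ‖(C a * P z).eval w‖ ≤ 2 * (R + 1) / 4 := by
    intro w hw
    rw [Polynomial.eval_mul, Polynomial.eval_C, norm_mul]
    have h1 : ‖(P z).eval w‖ ≤ (3 * R + 2) ^ N := by
      unfold P
      rw [Polynomial.eval_prod, norm_prod]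
      have h5 : ∏ i : Fin N, ‖Polynomial.eval w (X - C (z i))‖ ≤ ∏ _i : Fin N, (3 * R + 2) := by
        refine Finset.prod_le_prod (fun i _ => norm_nonneg _) fun i _ => ?_
        rw [Polynomial.eval_sub, Polynomial.eval_X, Polynomial.eval_C]
        refine (norm_sub_le _ _).trans ?_
        linarith [hz i]
      simpa using h5
    calc ‖a‖ * ‖(P z).eval w‖ ≤ ((2 * (3 * R + 2)) ^ N)⁻¹ * (3 * R + 2) ^ N := by gcongr
      _ = ((2 : ℝ) ^ N)⁻¹ := by
          rw [mul_pow]
          field_simp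
      _ ≤ (2 : ℝ)⁻¹ := inv_anti₀ (by norm_num) (le_self_pow₀ (by norm_num) (by omega))
      _ ≤ 2 * (R + 1) / 4 := by linarith
  obtain ⟨x, hx⟩ := att_one hs hin
  refine ⟨x, ?_⟩
  intro c hc
  have hc' : (derivative (P z)).eval c = 0 := by
    rw [Polynomial.derivative_C_mul, Polynomial.eval_mul, Polynomial.eval_C] at hc
    exact (mul_eq_zero.1 hc).resolve_left ha
  right
  refine hx c ?_
  have := crit_le hN hR hz hc'
  linarith

theorem poly_good3 {R Λ : ℝ} (hR : 0 ≤ R) :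
    ∀ᶠ N : ℕ in atTop, ∀ (a : ℂ) (z : Fin N → ℂ), a ≠ 0 → -(Λ * N) ≤ Real.log ‖a‖ →
      z ∉ BadT R (R + 2 * Real.exp Λ + 1) a one → OneS (C a * P z) := by
  have hE : 0 < Real.exp Λ := Real.exp_pos _
  filter_upwards [hub_det (R := R), escape3 (Λ := Λ) hR, eventually_ge_atTop 8, ev_log_ge 1,
    ev_log_ge (Real.log (R + 2 * Real.exp Λ + 1))] with N h1 h2 hN h3 h4 a z ha hΛ hbad
  have hN8 : (8 : ℝ) ≤ N := by exact_mod_cast hN
  have hN0 : (0 : ℝ) < N := by linarith
  rw [BadT, mem_union, mem_union, not_or, not_or] at hbad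
  obtain ⟨⟨hb1, hb2⟩, hb3⟩ := hbad
  have hbase : Base R z := not_not.1 hb1
  set Rp : ℝ := R + 2 * Real.exp Λ + 1 with hRpdef
  have hRp1 : 1 ≤ Rp := by linarith
  have hq0 : 0 < ((N : ℝ) ^ 4)⁻¹ := by positivity
  have hq1 : ((N : ℝ) ^ 4)⁻¹ ≤ 1 := inv_le_one_of_one_le₀ (one_le_pow₀ (by linarith))
  have heval : ∀ w, gg a one z Finset.univ w = a * (P z).eval w := by
    intro w
    rw [← eval_PJ]
    unfold PJ P
    rw [Polynomial.eval_mul, Polynomial.eval_C]
  have hq4 : 4 * ((N : ℝ) ^ 4)⁻¹ / 4 = ((N : ℝ) ^ 4)⁻¹ := by ring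
  refine dyn3 (P z) a Rp Rp (4 * ((N : ℝ) ^ 4)⁻¹) ha (by positivity)
    (by linarith) le_rfl (by linarith) (h2 a z ha hΛ hbase.le) ?_ ?_
  · intro w hw
    obtain ⟨-, h8⟩ := h1 one a z w one_sign ha hbase hb2 hw
    rw [heval] at h8
    have hne : a * (P z).eval w ≠ 0 := by
      intro h
      rw [h, norm_zero, Real.log_zero, abs_zero] at h8
      linarith
    have hpos : 0 < ‖a * (P z).eval w‖ := norm_pos_iff.2 hne
    rcases lt_abs.1 h8 with h10 | h10
    · right
      by_contra hcon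
      rw [not_lt] at hcon
      have := Real.log_le_log hpos hcon
      linarith
    · left
      have h11 : Real.log ‖a * (P z).eval w‖ < Real.log ((N : ℝ) ^ 4)⁻¹ := by
        rw [Real.log_inv, Real.log_pow]
        push_cast
        linarith
      have h12 := (Real.log_lt_log_iff hpos hq0).1 h11
      linarith
  · intro c hc hc1 hc2
    -- the roots are simple
    have hcz : ∀ j, c ≠ z j := by
      intro j hj
      have h8 : (derivative (P z)).eval c = ∏ k ∈ Finset.univ.erase j, (c - z k) := by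
        have hPj : P z = (X - C (z j)) * ∏ k ∈ Finset.univ.erase j, (X - C (z k)) := by
          unfold P
          exact (Finset.mul_prod_erase Finset.univ (fun k => X - C (z k))
            (Finset.mem_univ j)).symm
        rw [hPj, Polynomial.derivative_mul, Polynomial.derivative_sub, Polynomial.derivative_X,
          Polynomial.derivative_C, sub_zero, one_mul, Polynomial.eval_add, Polynomial.eval_mul,
          Polynomial.eval_sub, Polynomial.eval_X, Polynomial.eval_C, hj, sub_self, zero_mul,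
          add_zero, Polynomial.eval_prod]
        simp
      rw [hc] at h8
      obtain ⟨k, hk, hk'⟩ := Finset.prod_eq_zero_iff.1 h8.symm
      have h9 := hbase.sep j k (Finset.ne_of_mem_erase hk).symm
      rw [← hj, hk', norm_zero] at h9
      have : 0 < ((N : ℝ) ^ 2)⁻¹ := by positivity
      linarith
    have hcrit : SS one z Finset.univ c = 0 := by
      have h8 := deriv_PJ a z Finset.univ (w := c) fun j _ => hcz j
      have h9 : (derivative (PJ a z Finset.univ)).eval c = a * (derivative (P z)).eval c := by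
        unfold PJ P
        rw [Polynomial.derivative_C_mul, Polynomial.eval_mul, Polynomial.eval_C]
      rw [h9, hc, mul_zero] at h8
      rcases mul_eq_zero.1 h8.symm with h10 | h10
      · exact absurd h10 (gg_ne_zero ha fun j _ => hcz j)
      · exact h10
    have hcR : ‖c‖ ≤ Rp := (crit_le (by omega) hR hbase.le hc).trans (by linarith)
    rw [hq4] at hc1 ⊢
    by_contra hcon
    rw [not_or, not_or, not_or, not_lt, not_lt, not_lt, not_lt] at hcon
    obtain ⟨⟨k1, k2⟩, k3, k4⟩ := hcon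
    rw [← heval] at hc1 hc2
    rw [← heval, ← heval] at k1 k2
    rw [← heval, ← heval, ← heval] at k3 k4
    apply hb3
    refine ⟨hbase, c, hcR, hcz, hcrit, hc1, hc2, ?_⟩
    by_cases h5 : ∃ j, ‖gg a one z Finset.univ c - z j‖ ≤ ((N : ℝ) ^ 4)⁻¹
    · exact Or.inl h5
    · right
      push Not at h5
      refine ⟨fun j => (h5 j).le, k1, k2, ?_⟩
      by_cases h6 : ∃ j, ‖gg a one z Finset.univ (gg a one z Finset.univ c) - z j‖ ≤
          ((N : ℝ) ^ 4)⁻¹
      · exact Or.inl h6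
      · right
        push Not at h6
        exact ⟨fun j => (h6 j).le, k3, k4⟩

/-- all laws of bounded density -/
theorem poly_general (R D : ℝ) :
    ∃ K : ℝ, 0 < K ∧ ∀ N : ℕ, 2 ≤ N → ∀ (μ : Fin N → Measure ℂ) (a : ℂ),
      (∀ i, Dens (μ i) D R) → a ≠ 0 →
      Measure.pi μ {z | ¬ OneS (C a * P z)} ≤ ENNReal.ofReal (K * (nu N)⁻¹) := by
  by_cases hDR : 0 ≤ D ∧ 0 ≤ R
  swap
  · refine ⟨1, one_pos, fun N hN μ a hμ => ?_⟩
    exact absurd ⟨(hμ ⟨0, by omega⟩).D0, (hμ ⟨0, by omega⟩).R0⟩ hDR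
  obtain ⟨hD, hR⟩ := hDR
  set Λ : ℝ := Real.log (2 * (3 * R + 2)) with hΛdef
  have hE : 0 < Real.exp Λ := Real.exp_pos _
  set Rp : ℝ := R + 2 * Real.exp Λ + 1 with hRp
  have hRp1 : 1 ≤ Rp := by rw [hRp]; linarith
  have hRR : R ≤ Rp := by rw [hRp]; linarith
  obtain ⟨N₀, hN₀⟩ := eventually_atTop.1
    ((prob_BadT hD hR hRp1 hRR).and (poly_good3 (Λ := Λ) hR))
  refine ⟨19 + nu N₀, by have := nu_nonneg N₀; positivity, ?_⟩
  intro N hN μ a hμ ha
  have : ∀ i, IsProbabilityMeasure (μ i) := fun i => (hμ i).prob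
  have hν := nu_ge (by omega : 1 ≤ N)
  have hν0 : 0 < nu N := by linarith
  have hν₀ := nu_nonneg N₀
  by_cases hcase : N₀ ≤ N
  · obtain ⟨k1, k2⟩ := hN₀ N hcase
    have hE : N ≤ 2 * (Finset.univ.filter fun i : Fin N => (one i : ℤ) = 1).card := by
      have : (Finset.univ.filter fun i : Fin N => (one i : ℤ) = 1) = Finset.univ :=
        Finset.filter_true_of_mem fun i _ => rfl
      rw [this, Finset.card_univ, Fintype.card_fin]
      omega
    have h1 := k1 μ one a hμ one_sign ha hE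
    have hsub : {z : Fin N → ℂ | ¬ OneS (C a * P z)} ⊆ BadT R Rp a one := by
      intro z hz
      by_contra hcon
      by_cases hl : -(Λ * N) ≤ Real.log ‖a‖
      · exact hz (k2 a z ha hl hcon)
      · have hbase : Base R z := by
          by_contra h
          exact hcon (Or.inl (Or.inl h))
        exact hz (poly_small (by omega) ha hR hbase.le (not_le.1 hl).le)
    refine (measure_mono hsub).trans (h1.trans (ENNReal.ofReal_le_ofReal ?_))
    gcongr
    linarith
  · refine prob_le_one.trans ?_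
    rw [← ENNReal.ofReal_one]
    refine ENNReal.ofReal_le_ofReal ?_
    rw [← div_eq_mul_inv, le_div_iff₀ hν0, one_mul]
    have h1 : nu N ≤ nu N₀ := by
      unfold nu
      refine Real.rpow_le_rpow (Nat.cast_nonneg N) ?_ (by norm_num)
      exact_mod_cast (not_le.1 hcase).le
    linarith

end Pool.Agent.N229.HF
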