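import Pool.Agent.N229.HF.RatDyn

/-!
# Rational maps with independent zeros and poles: the general theorem
-/

set_option autoImplicit false

open Filter Topology MeasureTheory Set

namespace Pool.Agent.N229.HF

open Pool.Agent.N229.RL
open Polynomial (C X derivative)
open Pool.Agent.W751.CD (P)
open Pool.Agent.W751.RD (Pr Off)

variable {n : ℕ}

theorem off5 {N : ℕ} {Rp : ℝ} {v : ℂ} (hRp : 1 ≤ Rp) (hN : 4 ≤ N)
    (hR : Real.log Rp ≤ Real.log N) (hl1 : 1 ≤ Real.log N)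
    (h : 5 * Real.log N < |Real.log ‖v‖|) : Off (4 * ((N : ℝ) ^ 4)⁻¹) (4 / Rp) v := by
  have hN4 : (4 : ℝ) ≤ N := by exact_mod_cast hN
  have hN0 : (0 : ℝ) < N := by linarith
  have hv : v ≠ 0 := by
    intro hv
    rw [hv, norm_zero, Real.log_zero, abs_zero] at h
    linarith
  have hpos : 0 < ‖v‖ := norm_pos_iff.2 hv
  have hq0 : 0 < ((N : ℝ) ^ 4)⁻¹ := by positivity
  unfold Off
  have e1 : 4 * ((N : ℝ) ^ 4)⁻¹ / 4 = ((N : ℝ) ^ 4)⁻¹ := by ring
  have e2 : 4 / (4 / Rp) = Rp := by field_simp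
  rw [e1, e2]
  rcases lt_abs.1 h with h6 | h6
  · right
    refine (Real.log_lt_log_iff (by linarith) hpos).1 ?_
    linarith
  · left
    refine (Real.log_lt_log_iff hpos hq0).1 ?_
    rw [Real.log_inv, Real.log_pow]
    push_cast
    linarith

theorem rational_good3 {R κ Rp : ℝ} (hκ : 0 < κ) (hR : 0 ≤ R) (hRp : 8 ≤ Rp)
    (h8 : 8 * R ≤ Rp) (h16 : 16 * R ≤ κ * Rp) :
    ∀ᶠ n : ℕ in atTop, ∀ (a : ℂ) (z p : Fin n → ℂ), a ≠ 0 →
      κ * (n + n) ≤ |Real.log ‖a‖| → cat z p ∉ BadT R Rp a (sg n) →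
      Pool.Agent.H762R2.Rt.Hyp (C a * P z) (P p) := by
  filter_upwards [ev_double (hub_det (R := R)),
    ev_double (eventually_ge_atTop 8), ev_double (ev_log (16 / κ) 1),
    ev_double (ev_log_ge (Real.log Rp)), ev_double (ev_log_ge 1)] with
    n h2 hN h4 h5 h6 a z p ha hl hbad
  rw [pow_one] at h4
  rw [BadT, mem_union, mem_union, not_or, not_or] at hbad
  obtain ⟨⟨hb1, hb2⟩, hb3⟩ := hbad
  have hNc : ((n + n : ℕ) : ℝ) = n + n := by push_cast; ring
  have hN8 : (8 : ℝ) ≤ ((n + n : ℕ) : ℝ) := by exact_mod_cast hN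
  have hN0 : (0 : ℝ) < ((n + n : ℕ) : ℝ) := by linarith
  have hRp0 : 0 < Rp := by linarith
  have hbase : Base R (cat z p) := not_not.1 hb1
  have hq0 : 0 < (((n + n : ℕ) : ℝ) ^ 4)⁻¹ := by positivity
  have hq3 : 8 * (((n + n : ℕ) : ℝ) ^ 4)⁻¹ ≤ ((n + n : ℕ) : ℝ)⁻¹ := by
    rw [← div_eq_mul_inv, div_le_iff₀ (by positivity)]
    have e : ((n + n : ℕ) : ℝ)⁻¹ * ((n + n : ℕ) : ℝ) ^ 4 = ((n + n : ℕ) : ℝ) ^ 3 := by field_simp
    rw [e]
    calc (8 : ℝ) ≤ ((n + n : ℕ) : ℝ) := hN8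
      _ ≤ ((n + n : ℕ) : ℝ) ^ 3 := le_self_pow₀ (by linarith) (by norm_num)
  have hNinv : ((n + n : ℕ) : ℝ)⁻¹ ≤ 1 := inv_le_one_of_one_le₀ (by linarith)
  have hzR : ∀ j, ‖z j‖ ≤ R := fun j => by
    have := hbase.le (Fin.castAdd n j)
    rwa [cat_left] at this
  have hpR : ∀ j, ‖p j‖ ≤ R := fun j => by
    have := hbase.le (Fin.natAdd n j)
    rwa [cat_right] at this
  have hp0 : ∀ j, ((n + n : ℕ) : ℝ)⁻¹ ≤ ‖p j‖ := fun j => by
    have := hbase.ge (Fin.natAdd n j)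
    rwa [cat_right] at this
  have hzp : ∀ i j, z i ≠ p j := by
    intro i j h
    have h9 := hbase.sep (Fin.castAdd n i) (Fin.natAdd n j) (by
      intro h
      have := congrArg Fin.val h
      simp at this
      omega)
    rw [cat_left, cat_right, h, sub_self, norm_zero] at h9
    have : 0 < (((n + n : ℕ) : ℝ) ^ 2)⁻¹ := by positivity
    linarith
  have hoff : ∀ v : ℂ, v ≠ 0 → κ * ((n + n : ℕ) : ℝ) / 2 ≤ |Real.log ‖v‖| →
      Off (4 * (((n + n : ℕ) : ℝ) ^ 4)⁻¹) (4 / Rp) v := fun v hv h =>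
    off_of hv (by linarith) (by omega) h4 hκ h5 h6 h
  have hinf : ∀ x : ℂ, ‖x‖ ≤ 4 / Rp → Pr p x ≠ 0 ∧
      Off (4 * (((n + n : ℕ) : ℝ) ^ 4)⁻¹) (4 / Rp) (a * (Pr z x / Pr p x)) := by
    intro x hx
    obtain ⟨g1, g2, g3⟩ := near_infty hκ hR h8 h16 hRp0 ha hzR hpR hl hx
    refine ⟨g1, hoff _ (mul_ne_zero ha (div_ne_zero g2 g1)) ?_⟩
    rw [hNc]
    exact g3
  refine rdyn3 n (by omega) z p a (4 * (((n + n : ℕ) : ℝ) ^ 4)⁻¹) (4 / Rp) ha (by positivity)
    (by positivity) ?_ hzp ?_ hinf ?_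
  · rw [one_div_div]
    linarith
  · intro w hw
    have hne : ∀ j, w ≠ p j := by
      intro j h
      have := hp0 j
      rw [← h] at this
      linarith
    refine ⟨?_, ?_⟩
    · rw [W327.RD.P_eval]
      exact Finset.prod_ne_zero_iff.2 fun j _ => sub_ne_zero.2 (hne j)
    · obtain ⟨-, h9⟩ := h2 (sg n) a (cat z p) w sg_sign ha hbase hb2 hw
      rw [gg_cat] at h9
      exact off5 (by linarith) (by omega) h5 h6 h9
  · intro c hpc hzc hw hwin
    have hcz : ∀ j, c ≠ z j := by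
      intro j h
      rw [W327.RD.P_eval] at hzc
      exact hzc (Finset.prod_eq_zero (Finset.mem_univ j) (by rw [h, sub_self]))
    have hcp : ∀ j, c ≠ p j := by
      intro j h
      rw [W327.RD.P_eval] at hpc
      exact hpc (Finset.prod_eq_zero (Finset.mem_univ j) (by rw [h, sub_self]))
    have hcX : ∀ j, c ≠ cat z p j := by
      intro j
      induction j using Fin.addCases with
      | left j => rw [cat_left]; exact hcz j
      | right j => rw [cat_right]; exact hcp j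
    have hcrit : SS (sg n) (cat z p) Finset.univ c = 0 := by
      rw [wro_eval z p hcz hcp] at hw
      rcases mul_eq_zero.1 hw with h | h
      · exact absurd h (mul_ne_zero hzc hpc)
      · exact h
    unfold Off at hwin
    rw [not_or, not_lt, not_lt] at hwin
    have e1 : 4 * (((n + n : ℕ) : ℝ) ^ 4)⁻¹ / 4 = (((n + n : ℕ) : ℝ) ^ 4)⁻¹ := by ring
    have e2 : 4 / (4 / Rp) = Rp := by field_simp
    rw [e1, e2] at hwin
    have hcR : ‖c‖ ≤ Rp := by
      by_contra hcon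
      rw [not_le] at hcon
      have hc0 : c ≠ 0 := by
        intro h
        rw [h, norm_zero] at hcon
        linarith
      have h9 := (hinf c⁻¹ (by
        rw [norm_inv, inv_le_comm₀ (by linarith) (by positivity), inv_div]
        linarith)).2
      have h10 : a * (Pr z c⁻¹ / Pr p c⁻¹) = a * Pool.Agent.W751.RD.R z p c := by
        unfold Pr Pool.Agent.W751.RD.R
        rw [W327.RD.P_eval, W327.RD.P_eval, ← Finset.prod_div_distrib, ← Finset.prod_div_distrib]
        congr 1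
        refine Finset.prod_congr rfl fun j _ => ?_
        have h11 : c - z j = c * (1 - z j * c⁻¹) := by field_simp
        have h12 : c - p j = c * (1 - p j * c⁻¹) := by field_simp
        rw [h11, h12, mul_div_mul_left _ _ hc0]
      rw [h10] at h9
      unfold Off at h9
      rw [e1, e2] at h9
      rcases h9 with h9 | h9
      · linarith [hwin.1]
      · linarith [hwin.2]
    rw [← gg_cat] at hwin
    by_contra hcon
    rw [not_or, not_or, not_or] at hcon
    obtain ⟨k1, k2, k3, k4⟩ := hcon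
    unfold Off at k2 k4
    rw [not_or, not_lt, not_lt, e1, e2] at k2 k4
    rw [← gg_cat, ← gg_cat] at k2
    rw [← gg_cat, ← gg_cat, ← gg_cat] at k4
    apply hb3
    refine ⟨hbase, c, hcR, hcX, hcrit, hwin.1, hwin.2, ?_⟩
    by_cases h9 : ∃ j, ‖gg a (sg n) (cat z p) Finset.univ c - cat z p j‖ ≤
        (((n + n : ℕ) : ℝ) ^ 4)⁻¹
    · exact Or.inl h9
    · right
      push Not at h9
      refine ⟨fun j => (h9 j).le, k2.1, k2.2, ?_⟩
      by_cases h10 : ∃ j, ‖gg a (sg n) (cat z p) Finset.univ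
          (gg a (sg n) (cat z p) Finset.univ c) - cat z p j‖ ≤ (((n + n : ℕ) : ℝ) ^ 4)⁻¹
      · exact Or.inl h10
      · right
        push Not at h10
        exact ⟨fun j => (h10 j).le, k4.1, k4.2⟩

/-- all laws of bounded density -/
theorem rat_general3 (R D κ : ℝ) (hκ : 0 < κ) :
    ∃ K : ℝ, 0 < K ∧ ∀ n : ℕ, 2 ≤ n → ∀ (μ ν : Fin n → Measure ℂ) (a : ℂ),
      (∀ i, Dens (μ i) D R) → (∀ i, Dens (ν i) D R) → a ≠ 0 →
      κ * n ≤ |Real.log ‖a‖| →
      ((Measure.pi μ).prod (Measure.pi ν))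
        {q | ¬ Pool.Agent.H762R2.Rt.Hyp (C a * P q.1) (P q.2)} ≤
        ENNReal.ofReal (K * (nu n)⁻¹) := by
  by_cases hDR : 0 ≤ D ∧ 0 ≤ R
  swap
  · refine ⟨1, one_pos, fun n hn μ ν a hμ => ?_⟩
    exact absurd ⟨(hμ ⟨0, by omega⟩).D0, (hμ ⟨0, by omega⟩).R0⟩ hDR
  obtain ⟨hD, hR⟩ := hDR
  set κ' : ℝ := κ / 2 with hκ'
  have hκ'0 : 0 < κ' := by rw [hκ']; positivity
  set Rp : ℝ := 8 + 8 * R + 16 * R / κ' with hRp
  have hRp8 : 8 ≤ Rp := by
    have : 0 ≤ 8 * R + 16 * R / κ' := by positivity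
    linarith
  have hRpR : 8 * R ≤ Rp := by
    have : 0 ≤ 16 * R / κ' := by positivity
    linarith
  have hRp16 : 16 * R ≤ κ' * Rp := by
    have h1 : κ' * Rp = κ' * (8 + 8 * R) + 16 * R := by
      rw [hRp]
      field_simp
    have : 0 ≤ κ' * (8 + 8 * R) := by positivity
    linarith
  obtain ⟨n₀, hn₀⟩ := eventually_atTop.1
    ((ev_double (prob_BadT hD hR (by linarith : 1 ≤ Rp) (by linarith : R ≤ Rp))).and
      (rational_good3 hκ'0 hR hRp8 hRpR hRp16))
  refine ⟨19 + nu n₀, by have := nu_nonneg n₀; positivity, ?_⟩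
  intro n hn μ ν a hμ hν ha hl
  have : ∀ i, IsProbabilityMeasure (μ i) := fun i => (hμ i).prob
  have : ∀ i, IsProbabilityMeasure (ν i) := fun i => (hν i).prob
  have hνn := nu_ge (by omega : 1 ≤ n)
  have hνn0 : 0 < nu n := by linarith
  have hν₀ := nu_nonneg n₀
  by_cases hcase : n₀ ≤ n
  · obtain ⟨k1, k2⟩ := hn₀ n hcase
    have hcD : ∀ i, Dens (cat μ ν i) D R := by
      intro i
      induction i using Fin.addCases with
      | left i => rw [cat_left]; exact hμ i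
      | right i => rw [cat_right]; exact hν i
    have hl' : κ' * ((n : ℝ) + n) ≤ |Real.log ‖a‖| := by
      have : κ' * ((n : ℝ) + n) = κ * n := by rw [hκ']; ring
      rw [this]
      exact hl
    have hE : n + n ≤ 2 * (Finset.univ.filter fun i : Fin (n + n) => sg n i = 1).card := by
      rw [card_filter_sg.1]
      omega
    have h1 := k1 (cat μ ν) (sg n) a hcD sg_sign ha hE
    have hsub : {q : (Fin n → ℂ) × (Fin n → ℂ) |
        ¬ Pool.Agent.H762R2.Rt.Hyp (C a * P q.1) (P q.2)} ⊆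
        (fun q : (Fin n → ℂ) × (Fin n → ℂ) => cat q.1 q.2) ⁻¹' BadT R Rp a (sg n) := by
      intro q hq
      by_contra hcon
      exact hq (k2 a q.1 q.2 ha hl' hcon)
    refine (measure_mono hsub).trans ((Measure.le_map_apply measurable_cat.aemeasurable _).trans ?_)
    rw [map_cat μ ν (fun i => (hμ i).prob) (fun i => (hν i).prob)]
    refine h1.trans (ENNReal.ofReal_le_ofReal ?_)
    have h2 : (nu (n + n))⁻¹ ≤ (nu n)⁻¹ := by
      refine inv_anti₀ hνn0 ?_
      unfold nu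
      refine Real.rpow_le_rpow (Nat.cast_nonneg n) ?_ (by norm_num)
      push_cast
      have : (0 : ℝ) ≤ n := Nat.cast_nonneg n
      linarith
    have h3 : 0 < (nu n)⁻¹ := by positivity
    have h4 : 0 ≤ nu n₀ * (nu n)⁻¹ := by positivity
    calc 19 * (nu (n + n))⁻¹ ≤ 19 * (nu n)⁻¹ := by gcongr
      _ ≤ (19 + nu n₀) * (nu n)⁻¹ := by
          rw [add_mul]
          linarith
  · refine prob_le_one.trans ?_
    rw [← ENNReal.ofReal_one]
    refine ENNReal.ofReal_le_ofReal ?_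
    rw [← div_eq_mul_inv, le_div_iff₀ hνn0, one_mul]
    have h1 : nu n ≤ nu n₀ := by
      unfold nu
      refine Real.rpow_le_rpow (Nat.cast_nonneg n) ?_ (by norm_num)
      exact_mod_cast (not_le.1 hcase).le
    linarith

end Pool.Agent.N229.HF
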