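import Pool.Agent.N229.RL.Core

/-!
# Level sets of `Re (τ / v) + s log |v|`
-/

set_option autoImplicit false

open Filter Topology MeasureTheory Set

namespace Pool.Agent.N229.HF

open Pool.Agent.N229.RL

/-- `Re (τ / v) + s log |v|` -/
noncomputable def hh (τ : ℂ) (s : ℝ) (v : ℂ) : ℝ := (τ / v).re + s * Real.log ‖v‖

theorem measurable_hh (τ : ℂ) (s : ℝ) : Measurable (hh τ s) := by
  unfold hh
  have h1 : Measurable fun v : ℂ => τ / v := by fun_prop
  exact (Complex.measurable_re.comp h1).add ((Real.measurable_log.comp measurable_norm).const_mul s)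

theorem countable_cos (α b : ℝ) : {θ : ℝ | Real.cos (θ - α) = b}.Countable := by
  by_cases hb : ∃ β : ℝ, Real.cos β = b
  · obtain ⟨β, rfl⟩ := hb
    refine ((countable_range fun k : ℤ => 2 * k * Real.pi + β + α).union
      (countable_range fun k : ℤ => 2 * k * Real.pi - β + α)).mono ?_
    intro θ hθ
    simp only [mem_ofPred_eq] at hθ
    obtain ⟨k, hk⟩ := (Real.cos_eq_cos_iff).1 hθ.symm
    rcases hk with hk | hk
    · left
      exact ⟨k, by simp only; linarith⟩
    · right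
      exact ⟨k, by simp only; linarith⟩
  · have : {θ : ℝ | Real.cos (θ - α) = b} = ∅ := by
      ext θ
      simp only [mem_ofPred_eq, mem_empty_iff_false, iff_false]
      exact fun h => hb ⟨_, h⟩
    rw [this]
    exact countable_empty

theorem re_polar (τ : ℂ) {r θ : ℝ} (hr : 0 < r) :
    (τ / (r * (Real.cos θ + Real.sin θ * Complex.I))).re = ‖τ‖ * Real.cos (θ - τ.arg) / r := by
  have h1 : τ.re = ‖τ‖ * Real.cos τ.arg := by
    rcases eq_or_ne τ 0 with h | h
    · simp [h]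
    · rw [Complex.cos_arg h]
      have : ‖τ‖ ≠ 0 := norm_ne_zero_iff.2 h
      field_simp
  have h2 : τ.im = ‖τ‖ * Real.sin τ.arg := by
    rcases eq_or_ne τ 0 with h | h
    · simp [h]
    · rw [Complex.sin_arg]
      have : ‖τ‖ ≠ 0 := norm_ne_zero_iff.2 h
      field_simp
  have h3 : (τ / (r * (Real.cos θ + Real.sin θ * Complex.I))) =
      τ * (Real.cos θ - Real.sin θ * Complex.I) / r := by
    have h4 : ((Real.cos θ : ℂ) + Real.sin θ * Complex.I) *
        (Real.cos θ - Real.sin θ * Complex.I) = 1 := by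
      have : ((Real.cos θ : ℂ) + Real.sin θ * Complex.I) *
        (Real.cos θ - Real.sin θ * Complex.I) = Real.cos θ ^ 2 + Real.sin θ ^ 2 := by
        ring_nf
        rw [Complex.I_sq]
        ring
      rw [this]
      exact_mod_cast Real.cos_sq_add_sin_sq θ
    have h5 : ((Real.cos θ : ℂ) + Real.sin θ * Complex.I) ≠ 0 := by
      intro h
      rw [h, zero_mul] at h4
      exact zero_ne_one h4
    have hr' : (r : ℂ) ≠ 0 := by exact_mod_cast hr.ne'
    rw [div_eq_div_iff (mul_ne_zero hr' h5) hr']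
    linear_combination -(τ * r) * h4
  rw [h3, Real.cos_sub, Complex.div_ofReal_re]
  congr 1
  simp only [Complex.mul_re, Complex.sub_re, Complex.sub_im, Complex.ofReal_re, Complex.ofReal_im,
    Complex.mul_im, Complex.I_re, Complex.I_im]
  rw [h1, h2]
  simp only [mul_zero, zero_mul, sub_zero, add_zero, zero_add, mul_one, zero_sub, neg_zero]
  ring

theorem null_level {τ : ℂ} {s : ℝ} (m : ℝ) (h : τ ≠ 0 ∨ s ≠ 0) :
    volume {v : ℂ | v ≠ 0 ∧ hh τ s v = m} = 0 := by
  by_cases hτ : τ = 0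
  · have hs : s ≠ 0 := h.resolve_left (not_not.2 hτ)
    have hsub : {v : ℂ | v ≠ 0 ∧ hh τ s v = m} ⊆ Metric.sphere 0 (Real.exp (m / s)) := by
      rintro v ⟨hv, hv2⟩
      unfold hh at hv2
      rw [hτ, zero_div, Complex.zero_re, zero_add] at hv2
      rw [mem_sphere_zero_iff_norm, ← hv2, mul_div_cancel_left₀ _ hs,
        Real.exp_log (norm_pos_iff.2 hv)]
    exact measure_mono_null hsub (Measure.addHaar_sphere _ _ _)
  · have hmeas : MeasurableSet {v : ℂ | v ≠ 0 ∧ hh τ s v = m} :=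
      (measurableSet_singleton (0 : ℂ)).compl.inter
        ((measurable_hh τ s) (measurableSet_singleton m))
    rw [← lintegral_indicator_one hmeas, ← Complex.lintegral_comp_polarCoord_symm]
    have hle : ∀ q ∈ polarCoord.target, ENNReal.ofReal q.1 • ({v : ℂ | v ≠ 0 ∧ hh τ s v = m}.indicator
        1 (Complex.polarCoord.symm q) : ENNReal) =
        ({q : ℝ × ℝ | 0 < q.1 ∧ Real.cos (q.2 - τ.arg) =
          (m - s * Real.log q.1) * q.1 / ‖τ‖}.indicator (fun q => ENNReal.ofReal q.1) q) := by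
      intro q hq
      rw [polarCoord_target] at hq
      have hq1 : 0 < q.1 := hq.1
      have hτ0 : ‖τ‖ ≠ 0 := norm_ne_zero_iff.2 hτ
      have hnorm : ‖Complex.polarCoord.symm q‖ = q.1 := by
        rw [Complex.norm_polarCoord_symm, abs_of_pos hq1]
      have key : Complex.polarCoord.symm q ∈ {v : ℂ | v ≠ 0 ∧ hh τ s v = m} ↔
          q ∈ {q : ℝ × ℝ | 0 < q.1 ∧ Real.cos (q.2 - τ.arg) =
            (m - s * Real.log q.1) * q.1 / ‖τ‖} := by
        simp only [mem_ofPred_eq]
        have h1 : hh τ s (Complex.polarCoord.symm q) =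
            ‖τ‖ * Real.cos (q.2 - τ.arg) / q.1 + s * Real.log q.1 := by
          unfold hh
          rw [hnorm, Complex.polarCoord_symm_apply, re_polar τ hq1]
        rw [h1]
        constructor
        · rintro ⟨_, h2⟩
          refine ⟨hq1, ?_⟩
          rw [← h2]
          field_simp
          ring
        · rintro ⟨_, h2⟩
          refine ⟨?_, ?_⟩
          · rw [← norm_pos_iff, hnorm]
            exact hq1
          · rw [h2]
            field_simp
            ring
      by_cases hm : Complex.polarCoord.symm q ∈ {v : ℂ | v ≠ 0 ∧ hh τ s v = m}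
      · rw [indicator_of_mem hm, indicator_of_mem (key.1 hm)]
        simp
      · rw [indicator_of_notMem hm, indicator_of_notMem (fun h => hm (key.2 h))]
        simp
    have hTm : MeasurableSet polarCoord.target := by
      rw [polarCoord_target]
      exact measurableSet_Ioi.prod measurableSet_Ioo
    rw [setLIntegral_congr_fun hTm hle]
    set E : Set (ℝ × ℝ) := {q : ℝ × ℝ | 0 < q.1 ∧ Real.cos (q.2 - τ.arg) =
          (m - s * Real.log q.1) * q.1 / ‖τ‖} with hE
    have hEm : MeasurableSet E := by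
      refine (measurableSet_lt measurable_const measurable_fst).inter ?_
      exact measurableSet_eq_fun (by fun_prop) (by fun_prop)
    have hE0 : volume E = 0 := by
      rw [Measure.volume_eq_prod, Measure.measure_prod_null hEm]
      refine Eventually.of_forall fun r => ?_
      simp only [Pi.zero_apply]
      have : Prod.mk r ⁻¹' E ⊆ {θ : ℝ | Real.cos (θ - τ.arg) =
          (m - s * Real.log r) * r / ‖τ‖} := by
        rintro θ ⟨_, hθ⟩
        exact hθ
      exact measure_mono_null this ((countable_cos _ _).measure_zero volume)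
    refine le_antisymm ?_ zero_le
    refine (lintegral_mono' Measure.restrict_le_self le_rfl).trans ?_
    rw [lintegral_indicator hEm]
    rw [setLIntegral_measure_zero _ _ hE0]

theorem abs_hh_le {τ : ℂ} {s : ℝ} (h : ‖τ‖ ^ 2 + s ^ 2 = 1) {v : ℂ} (hv : v ≠ 0) :
    |hh τ s v| ≤ ‖v‖⁻¹ + |Real.log ‖v‖| := by
  have hv0 : 0 < ‖v‖ := norm_pos_iff.2 hv
  have h1 : ‖τ‖ ≤ 1 := by nlinarith [sq_nonneg s, norm_nonneg τ]
  have h2 : |s| ≤ 1 := by
    rw [← sq_le_one_iff_abs_le_one]
    nlinarith [sq_nonneg ‖τ‖]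
  unfold hh
  refine (abs_add_le _ _).trans (add_le_add ?_ ?_)
  · refine (Complex.abs_re_le_norm _).trans ?_
    rw [norm_div, div_eq_mul_inv]
    have : 0 < ‖v‖⁻¹ := inv_pos.2 hv0
    nlinarith
  · rw [abs_mul]
    have := abs_nonneg (Real.log ‖v‖)
    nlinarith

theorem sub_unif (B : ℝ) {ε : ℝ} (hε : 0 < ε) : ∃ η : ℝ, 0 < η ∧ ∀ (τ : ℂ) (s m : ℝ),
    ‖τ‖ ^ 2 + s ^ 2 = 1 → volume {v : ℂ | ‖v‖ ≤ B ∧ |hh τ s v - m| ≤ η} ≤ ENNReal.ofReal ε := by
  by_contra hcon
  push Not at hcon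
  have hpi := Real.pi_pos
  -- a small radius
  obtain ⟨r, hr, hrε⟩ : ∃ r : ℝ, 0 < r ∧ Real.pi * r ^ 2 ≤ ε := by
    refine ⟨Real.sqrt (ε / Real.pi), by positivity, ?_⟩
    rw [Real.sq_sqrt (by positivity)]
    field_simp
    exact le_rfl
  have hball : volume (Metric.closedBall (0 : ℂ) r) ≤ ENNReal.ofReal ε :=
    (vol_ball_le 0 hr.le).trans (ENNReal.ofReal_le_ofReal hrε)
  set M : ℝ := r⁻¹ + (r⁻¹ + |B|) + 2 with hM
  have hMb : ∀ v : ℂ, r ≤ ‖v‖ → ‖v‖ ≤ B → ∀ (τ : ℂ) (s : ℝ), ‖τ‖ ^ 2 + s ^ 2 = 1 →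
      |hh τ s v| ≤ M - 2 := by
    intro v hv1 hv2 τ s hts
    have hv0 : 0 < ‖v‖ := hr.trans_le hv1
    refine (abs_hh_le hts (norm_pos_iff.1 hv0)).trans ?_
    have h1 : ‖v‖⁻¹ ≤ r⁻¹ := inv_anti₀ hr hv1
    have h2 := abs_log_le hv0.le
    have h3 : ‖v‖ ≤ |B| := hv2.trans (le_abs_self B)
    rw [hM]
    linarith
  choose! T hT using fun n : ℕ => hcon ((n : ℝ) + 1)⁻¹ (by positivity)
  choose! S hS using hT
  choose! m hm using hS
  have hmM : ∀ n, |m n| ≤ M := by
    intro n
    by_contra h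
    rw [not_le] at h
    obtain ⟨h1, h2⟩ := hm n
    refine absurd ?_ (not_le.2 h2)
    refine (measure_mono ?_).trans hball
    rintro v ⟨hv1, hv2⟩
    rw [mem_closedBall_zero_iff]
    by_contra h3
    rw [not_le] at h3
    have h4 := hMb v h3.le hv1 _ _ h1
    have h5 : |m n| ≤ |hh (T n) (S n) v| + |hh (T n) (S n) v - m n| := by
      have : m n = hh (T n) (S n) v - (hh (T n) (S n) v - m n) := by ring
      nth_rewrite 1 [this]
      exact abs_sub _ _
    have h6 : ((n : ℝ) + 1)⁻¹ ≤ 1 := inv_le_one_of_one_le₀ (by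
      have : (0 : ℝ) ≤ n := Nat.cast_nonneg n
      linarith)
    linarith
  -- compactness
  set K : Set (ℂ × ℝ × ℝ) := Metric.closedBall 0 1 ×ˢ (Icc (-1) 1 ×ˢ Icc (-M) M) with hK
  have hKc : IsCompact K := (isCompact_closedBall _ _).prod (isCompact_Icc.prod isCompact_Icc)
  have hmem : ∀ n, (T n, S n, m n) ∈ K := by
    intro n
    obtain ⟨h1, _⟩ := hm n
    refine ⟨?_, ?_, ?_⟩
    · rw [mem_closedBall_zero_iff]
      nlinarith [sq_nonneg (S n), norm_nonneg (T n)]
    · have : |S n| ≤ 1 := by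
        rw [← sq_le_one_iff_abs_le_one]
        nlinarith [sq_nonneg ‖T n‖]
      exact abs_le.1 this
    · exact abs_le.1 (hmM n)
  obtain ⟨⟨τ, s, m₀⟩, -, φ, hφ, hlim⟩ := hKc.tendsto_subseq hmem
  have l1 : Tendsto (fun n => T (φ n)) atTop (𝓝 τ) := (continuous_fst.tendsto _).comp hlim
  have l23 : Tendsto (fun n => (S (φ n), m (φ n))) atTop (𝓝 (s, m₀)) :=
    (continuous_snd.tendsto _).comp hlim
  have l2 : Tendsto (fun n => S (φ n)) atTop (𝓝 s) := (continuous_fst.tendsto _).comp l23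
  have l3 : Tendsto (fun n => m (φ n)) atTop (𝓝 m₀) := (continuous_snd.tendsto _).comp l23
  have hts : ‖τ‖ ^ 2 + s ^ 2 = 1 := by
    have h1 : Tendsto (fun n => ‖T (φ n)‖ ^ 2 + S (φ n) ^ 2) atTop (𝓝 (‖τ‖ ^ 2 + s ^ 2)) :=
      (l1.norm.pow 2).add (l2.pow 2)
    have h2 : (fun n => ‖T (φ n)‖ ^ 2 + S (φ n) ^ 2) = fun _ => (1 : ℝ) :=
      funext fun n => (hm (φ n)).1
    rw [h2] at h1
    exact (tendsto_nhds_unique h1 tendsto_const_nhds)
  have hne : τ ≠ 0 ∨ s ≠ 0 := by
    by_contra h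
    rw [not_or, not_not, not_not] at h
    rw [h.1, h.2, norm_zero] at hts
    norm_num at hts
  set A : ℕ → Set ℂ := fun n => {v : ℂ | ‖v‖ ≤ B ∧
    |hh (T (φ n)) (S (φ n)) v - m (φ n)| ≤ (((φ n : ℕ) : ℝ) + 1)⁻¹} with hA
  have hAm : ∀ n, MeasurableSet (A n) := fun n =>
    (measurableSet_le measurable_norm measurable_const).inter
      (measurableSet_le ((measurable_hh _ _).sub_const _).abs measurable_const)
  have hAsub : ∀ n, A n ⊆ Metric.closedBall 0 B := fun n v hv => by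
    rw [mem_closedBall_zero_iff]
    exact hv.1
  have hfin : volume (Metric.closedBall (0 : ℂ) B) ≠ ⊤ := measure_closedBall_lt_top.ne
  haveI : IsFiniteMeasure (volume.restrict (Metric.closedBall (0 : ℂ) B)) :=
    ⟨by simpa using hfin.lt_top⟩
  have hae : ∀ᵐ v ∂(volume.restrict (Metric.closedBall (0 : ℂ) B)),
      ∀ᶠ n in atTop, v ∈ A n ↔ v ∈ (∅ : Set ℂ) := by
    refine ae_restrict_of_ae ?_
    have h0 : ∀ᵐ v : ℂ, v ∉ {v : ℂ | v ≠ 0 ∧ hh τ s v = m₀} :=
      measure_eq_zero_iff_ae_notMem.1 (null_level m₀ hne)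
    have h1 : ∀ᵐ v : ℂ, v ∉ ({0} : Set ℂ) := measure_eq_zero_iff_ae_notMem.1 (by simp)
    filter_upwards [h0, h1] with v hv hv0
    have hv0' : v ≠ 0 := hv0
    have hvm : hh τ s v ≠ m₀ := fun h => hv ⟨hv0', h⟩
    have hl : Tendsto (fun n => |hh (T (φ n)) (S (φ n)) v - m (φ n)|) atTop
        (𝓝 |hh τ s v - m₀|) := by
      refine Tendsto.abs (Tendsto.sub ?_ l3)
      unfold hh
      refine Tendsto.add ?_ (l2.mul_const _)
      exact (Complex.continuous_re.tendsto _).comp (l1.div_const v)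
    have hpos : 0 < |hh τ s v - m₀| := abs_pos.2 (sub_ne_zero.2 hvm)
    have hinv : Tendsto (fun n : ℕ => (((φ n : ℕ) : ℝ) + 1)⁻¹) atTop (𝓝 0) := by
      have h2 : Tendsto (fun n : ℕ => ((n : ℝ) + 1)⁻¹) atTop (𝓝 0) := by
        simpa using tendsto_one_div_add_atTop_nhds_zero_nat (𝕜 := ℝ)
      exact h2.comp hφ.tendsto_atTop
    filter_upwards [hl.eventually_const_lt (show |hh τ s v - m₀| / 2 < |hh τ s v - m₀| by linarith),
      hinv.eventually_lt_const (show 0 < |hh τ s v - m₀| / 2 by linarith)] with n h2 h3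
    simp only [hA, mem_ofPred_eq, mem_empty_iff_false, iff_false, not_and, not_le]
    intro _
    linarith
  have hlimA := tendsto_measure_of_ae_tendsto_indicator_of_isFiniteMeasure (L := atTop)
    (A := (∅ : Set ℂ)) (As := A) MeasurableSet.empty hAm hae
  rw [measure_empty] at hlimA
  have hev := (hlimA.eventually_lt_const (ENNReal.ofReal_pos.2 hε)).exists
  obtain ⟨n, hn⟩ := hev
  rw [Measure.restrict_apply (hAm n), inter_eq_left.2 (hAsub n)] at hn
  exact absurd hn (not_lt.2 (hm (φ n)).2.le)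

end Pool.Agent.N229.HF
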