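import Pool.Agent.N229.HF.Zero

/-!
# Typical configurations
-/

set_option autoImplicit false

open Filter Topology MeasureTheory Set

namespace Pool.Agent.N229.HF

open Pool.Agent.N229.RL
open Pool.Agent.Y333.TY.MultX

variable {N : ℕ}

/-- the area in the variable `log p` -/
noncomputable def al (s : Set ℂ) : ENNReal := ∫⁻ p in s, ENNReal.ofReal ((‖p‖ ^ 2)⁻¹)

theorem al_mono {s t : Set ℂ} (h : s ⊆ t) : al s ≤ al t := lintegral_mono_set h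

theorem al_union_le (s t : Set ℂ) : al (s ∪ t) ≤ al s + al t := lintegral_union_le _ _ _

/-- the window -/
def WS (A Rq : ℝ) (a : ℂ) (e : Fin N → ℤ) (X : Fin N → ℂ) (J : Finset (Fin N)) : Set ℂ :=
  {p | T1 N ≤ ‖p‖ ∧ ‖p‖ ≤ Rq ∧ Wi A a e X J p}

/-- the irregular part of the window -/
def BS (μ : Fin N → Measure ℂ) (A Rq : ℝ) (a : ℂ) (e : Fin N → ℤ) (X : Fin N → ℂ)
    (J : Finset (Fin N)) : Set ℂ :=
  {p | T1 N ≤ ‖p‖ ∧ ‖p‖ ≤ Rq ∧ (Wi A a e X J p ∧ ¬ Gd μ e X J p)}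

theorem measurable_sec {T : Set ((Fin N → ℂ) × ℂ)} (hT : MeasurableSet T) (r₁ r₂ : ℝ) :
    MeasurableSet {q : (Fin N → ℂ) × ℂ | r₁ ≤ ‖q.2‖ ∧ ‖q.2‖ ≤ r₂ ∧ q ∈ T} :=
  (measurableSet_le measurable_const measurable_snd.norm).inter
    ((measurableSet_le measurable_snd.norm measurable_const).inter hT)

theorem al_eq {T : Set ((Fin N → ℂ) × ℂ)} (hT : MeasurableSet T) (X : Fin N → ℂ) :
    al {p | (X, p) ∈ T} = ∫⁻ p, T.indicator (fun q => ENNReal.ofReal ((‖q.2‖ ^ 2)⁻¹)) (X, p) := by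
  unfold al
  have hm : MeasurableSet {p : ℂ | (X, p) ∈ T} :=
    (measurable_const.prodMk measurable_id : Measurable fun p : ℂ => (X, p)) hT
  rw [← lintegral_indicator hm]
  rfl

theorem measurable_w : Measurable fun q : (Fin N → ℂ) × ℂ => ENNReal.ofReal ((‖q.2‖ ^ 2)⁻¹) :=
  ((measurable_snd.norm.pow_const 2).inv).ennreal_ofReal

theorem measurable_al {T : Set ((Fin N → ℂ) × ℂ)} (hT : MeasurableSet T) :
    Measurable fun X : Fin N → ℂ => al {p | (X, p) ∈ T} := by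
  simp_rw [al_eq hT]
  exact (measurable_w.indicator hT).lintegral_prod_right'

theorem al_markov {μ : Fin N → Measure ℂ} [∀ i, IsProbabilityMeasure (μ i)]
    {T : Set ((Fin N → ℂ) × ℂ)} (hT : MeasurableSet T) {r₁ r₂ ε β : ℝ} (hr : 0 < r₁)
    (hr2 : r₁ ≤ r₂) (hε : 0 ≤ ε) (hβ : 0 < β)
    (h : ∀ p, r₁ ≤ ‖p‖ → ‖p‖ ≤ r₂ → Measure.pi μ {X | (X, p) ∈ T} ≤ ENNReal.ofReal ε) :
    Measure.pi μ {X | ENNReal.ofReal β ≤ al {p | r₁ ≤ ‖p‖ ∧ ‖p‖ ≤ r₂ ∧ (X, p) ∈ T}} ≤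
      ENNReal.ofReal (ε * (2 * Real.pi * Real.log (r₂ / r₁)) / β) := by
  have hpi := Real.pi_pos
  have hlog : 0 ≤ Real.log (r₂ / r₁) := Real.log_nonneg (by rw [le_div_iff₀ hr]; linarith)
  set T' : Set ((Fin N → ℂ) × ℂ) := {q | r₁ ≤ ‖q.2‖ ∧ ‖q.2‖ ≤ r₂ ∧ q ∈ T} with hT'
  have hT'm : MeasurableSet T' := measurable_sec hT r₁ r₂
  have hβ' : ENNReal.ofReal β ≠ 0 := (ENNReal.ofReal_pos.2 hβ).ne'
  have h1 := meas_ge_le_lintegral_div (μ := Measure.pi μ) (measurable_al hT'm).aemeasurable hβ'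
    ENNReal.ofReal_ne_top
  refine h1.trans ?_
  rw [ENNReal.ofReal_div_of_pos hβ]
  refine ENNReal.div_le_div_right ?_ _
  simp_rw [al_eq hT'm]
  have hsw := lintegral_lintegral_swap (μ := Measure.pi μ) (ν := (volume : Measure ℂ))
    (f := fun X p => T'.indicator (fun q => ENNReal.ofReal ((‖q.2‖ ^ 2)⁻¹)) (X, p))
    (by exact (measurable_w.indicator hT'm).aemeasurable)
  rw [hsw]
  have h2 : ∀ p : ℂ, ∫⁻ X, T'.indicator (fun q => ENNReal.ofReal ((‖q.2‖ ^ 2)⁻¹)) (X, p)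
      ∂Measure.pi μ ≤ ENNReal.ofReal ε * (Rg r₁ r₂).indicator
        (fun p => ENNReal.ofReal ((‖p‖ ^ 2)⁻¹)) p := by
    intro p
    by_cases hp : p ∈ Rg r₁ r₂
    · rw [indicator_of_mem hp]
      have hm : MeasurableSet {X : Fin N → ℂ | (X, p) ∈ T} := (measurable_pairX p) hT
      have h3 : ∀ X : Fin N → ℂ, T'.indicator (fun q => ENNReal.ofReal ((‖q.2‖ ^ 2)⁻¹)) (X, p) =
          {X : Fin N → ℂ | (X, p) ∈ T}.indicator (fun _ => ENNReal.ofReal ((‖p‖ ^ 2)⁻¹)) X := by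
        intro X
        by_cases hX : (X, p) ∈ T
        · rw [indicator_of_mem (show (X, p) ∈ T' from ⟨hp.1, hp.2, hX⟩),
            indicator_of_mem (show X ∈ {X : Fin N → ℂ | (X, p) ∈ T} from hX)]
        · rw [indicator_of_notMem (fun h4 : (X, p) ∈ T' => hX h4.2.2),
            indicator_of_notMem (show X ∉ {X : Fin N → ℂ | (X, p) ∈ T} from hX)]
      simp_rw [h3]
      rw [lintegral_indicator_const hm, mul_comm]
      exact mul_le_mul_left (h p hp.1 hp.2) _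
    · rw [indicator_of_notMem hp, mul_zero]
      refine le_of_eq ?_
      have h3 : ∀ X : Fin N → ℂ,
          T'.indicator (fun q => ENNReal.ofReal ((‖q.2‖ ^ 2)⁻¹)) (X, p) = 0 := fun X =>
        indicator_of_notMem (fun h4 : (X, p) ∈ T' => hp ⟨h4.1, h4.2.1⟩) _
      simp_rw [h3]
      rw [lintegral_zero]
  refine (lintegral_mono h2).trans ?_
  rw [lintegral_const_mul' _ _ ENNReal.ofReal_ne_top, ring_int hr hr2, ← ENNReal.ofReal_mul hε]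

theorem measurable_Gd2 {μ : Fin N → Measure ℂ} {D R : ℝ} (hμ : ∀ i, Dens (μ i) D R)
    (e : Fin N → ℤ) (J : Finset (Fin N)) :
    MeasurableSet {q : (Fin N → ℂ) × ℂ | Gd μ e q.1 J q.2} := by
  have hTh : Measurable fun q : (Fin N → ℂ) × ℂ => Th μ e J q.2 :=
    (measurable_Th hμ e J).comp measurable_snd
  have h1 : MeasurableSet {q : (Fin N → ℂ) × ℂ |
      ∀ j ∈ J, (nu N ^ 8 * Th μ e J q.2)⁻¹ ≤ ‖q.2 - q.1 j‖} := by
    have : {q : (Fin N → ℂ) × ℂ | ∀ j ∈ J, (nu N ^ 8 * Th μ e J q.2)⁻¹ ≤ ‖q.2 - q.1 j‖} =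
        ⋂ j ∈ J, {q : (Fin N → ℂ) × ℂ | (nu N ^ 8 * Th μ e J q.2)⁻¹ ≤ ‖q.2 - q.1 j‖} := by
      ext v
      simp
    rw [this]
    exact Finset.measurableSet_biInter _ fun j _ => measurableSet_le
      (hTh.const_mul _).inv (measurable_snd.sub ((measurable_pi_apply j).comp measurable_fst)).norm
  have h2 : MeasurableSet {q : (Fin N → ℂ) × ℂ |
      Sq q.1 J q.2 ≤ Th μ e J q.2 ^ 2 * nu N ^ 17} :=
    measurableSet_le measurable_Sq2 ((hTh.pow_const 2).mul_const _)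
  have h3 : MeasurableSet {q : (Fin N → ℂ) × ℂ |
      ‖SS e q.1 J q.2‖ ≤ Th μ e J q.2 * nu N ^ 9} :=
    measurableSet_le measurable_SS2.norm (hTh.mul_const _)
  have h4 : MeasurableSet {q : (Fin N → ℂ) × ℂ |
      Th μ e J q.2 / nu N ^ 16 ≤ ‖SS e q.1 J q.2‖} :=
    measurableSet_le (hTh.div_const _) measurable_SS2.norm
  have h5 : {q : (Fin N → ℂ) × ℂ | Gd μ e q.1 J q.2} =
      ({q : (Fin N → ℂ) × ℂ | ∀ j ∈ J, (nu N ^ 8 * Th μ e J q.2)⁻¹ ≤ ‖q.2 - q.1 j‖} ∩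
      {q : (Fin N → ℂ) × ℂ | Sq q.1 J q.2 ≤ Th μ e J q.2 ^ 2 * nu N ^ 17}) ∩
      ({q : (Fin N → ℂ) × ℂ | ‖SS e q.1 J q.2‖ ≤ Th μ e J q.2 * nu N ^ 9} ∩
      {q : (Fin N → ℂ) × ℂ | Th μ e J q.2 / nu N ^ 16 ≤ ‖SS e q.1 J q.2‖}) := by
    ext q
    constructor
    · rintro ⟨k1, k2, k3, k4⟩
      exact ⟨⟨k1, k2⟩, k3, k4⟩
    · rintro ⟨⟨k1, k2⟩, k3, k4⟩
      exact ⟨k1, k2, k3, k4⟩
  rw [h5]
  exact (h1.inter h2).inter (h3.inter h4)

/-- typical configurations -/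
structure Ty (μ : Fin N → Measure ℂ) (R A Rq : ℝ) (a : ℂ) (e : Fin N → ℤ) (X : Fin N → ℂ)
    (J : Finset (Fin N)) : Prop where
  le : ∀ j ∈ J, ‖X j‖ ≤ R
  ge : ∀ j ∈ J, (N : ℝ)⁻¹ ≤ ‖X j‖
  zr : Zr μ e a X J
  ws : al (WS A Rq a e X J) < ENNReal.ofReal (nu N ^ 125)⁻¹
  bs : al (BS μ A Rq a e X J) < ENNReal.ofReal (nu N ^ 140)⁻¹

theorem measurable_Zr {μ : Fin N → Measure ℂ} {a : ℂ} {e : Fin N → ℤ} {J : Finset (Fin N)} :
    MeasurableSet {X : Fin N → ℂ | Zr μ e a X J} := by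
  have m1 : MeasurableSet {X : Fin N → ℂ | nu N ^ 64 < |Po e X J 0 - -Real.log ‖a‖|} :=
    measurableSet_lt measurable_const (meas_P e J 0 _)
  have m2 : MeasurableSet {X : Fin N → ℂ | cnt X J (rz N) 0 < nu N ^ 48} := by
    refine measurableSet_lt (Finset.measurable_sum _ fun j _ => ?_) measurable_const
    exact Measurable.ite (measurableSet_lt (meas_d 0 j) measurable_const)
      measurable_const measurable_const
  have hj : ∀ j : Fin N, Measurable fun X : Fin N → ℂ => (0 : ℂ) - X j := fun j =>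
    measurable_const.sub (measurable_pi_apply j)
  have m3 : MeasurableSet {X : Fin N → ℂ | ∑ j ∈ J, ‖ht (rz N) (0 - X j)‖ ^ 2 < nu N ^ 258} := by
    refine measurableSet_lt (Finset.measurable_sum _ fun j _ => ?_) measurable_const
    exact ((measurable_ht _).comp (hj j)).norm.pow_const 2
  have m4 : MeasurableSet {X : Fin N → ℂ |
      ‖∑ j ∈ J, (e j : ℂ) * ht (rz N) (0 - X j) - MGJ μ e J 0‖ < nu N ^ 150} := by
    refine measurableSet_lt (Measurable.norm (Measurable.sub_const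
      (Finset.measurable_sum _ fun j _ => ?_) _)) measurable_const
    exact ((measurable_ht _).comp (hj j)).const_mul _
  have h5 : {X : Fin N → ℂ | Zr μ e a X J} =
      ({X : Fin N → ℂ | nu N ^ 64 < |Po e X J 0 - -Real.log ‖a‖|} ∩
      {X : Fin N → ℂ | cnt X J (rz N) 0 < nu N ^ 48}) ∩
      ({X : Fin N → ℂ | ∑ j ∈ J, ‖ht (rz N) (0 - X j)‖ ^ 2 < nu N ^ 258} ∩
      {X : Fin N → ℂ |
        ‖∑ j ∈ J, (e j : ℂ) * ht (rz N) (0 - X j) - MGJ μ e J 0‖ < nu N ^ 150}) := by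
    ext q
    constructor
    · rintro ⟨k1, k2, k3, k4⟩
      exact ⟨⟨k1, k2⟩, k3, k4⟩
    · rintro ⟨⟨k1, k2⟩, k3, k4⟩
      exact ⟨k1, k2, k3, k4⟩
  rw [h5]
  exact (m1.inter m2).inter (m3.inter m4)

theorem measurable_WSset {A Rq : ℝ} {a : ℂ} {e : Fin N → ℤ} {J : Finset (Fin N)}
    (he : ∀ i, e i = 1 ∨ e i = -1) :
    Measurable fun X : Fin N → ℂ => al (WS A Rq a e X J) :=
  measurable_al (measurable_sec (measurable_Wi2 he) (T1 N) Rq)

theorem measurable_BSset {μ : Fin N → Measure ℂ} {D R : ℝ} (hμ : ∀ i, Dens (μ i) D R)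
    {A Rq : ℝ} {a : ℂ} {e : Fin N → ℤ} {J : Finset (Fin N)}
    (he : ∀ i, e i = 1 ∨ e i = -1) :
    Measurable fun X : Fin N → ℂ => al (BS μ A Rq a e X J) :=
  measurable_al (measurable_sec ((measurable_Wi2 he).inter (measurable_Gd2 hμ e J).compl)
    (T1 N) Rq)

theorem measurable_Ty {μ : Fin N → Measure ℂ} {D R : ℝ} (hμ : ∀ i, Dens (μ i) D R)
    {A Rq : ℝ} {a : ℂ} {e : Fin N → ℤ} {J : Finset (Fin N)}
    (he : ∀ i, e i = 1 ∨ e i = -1) : MeasurableSet {X : Fin N → ℂ | Ty μ R A Rq a e X J} := by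
  have m1 : MeasurableSet {X : Fin N → ℂ | ∀ j ∈ J, ‖X j‖ ≤ R} := by
    have : {X : Fin N → ℂ | ∀ j ∈ J, ‖X j‖ ≤ R} = ⋂ j ∈ J, {X : Fin N → ℂ | ‖X j‖ ≤ R} := by
      ext v
      simp
    rw [this]
    exact Finset.measurableSet_biInter _ fun j _ =>
      measurableSet_le (measurable_pi_apply j).norm measurable_const
  have m2 : MeasurableSet {X : Fin N → ℂ | ∀ j ∈ J, (N : ℝ)⁻¹ ≤ ‖X j‖} := by
    have : {X : Fin N → ℂ | ∀ j ∈ J, (N : ℝ)⁻¹ ≤ ‖X j‖} =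
        ⋂ j ∈ J, {X : Fin N → ℂ | (N : ℝ)⁻¹ ≤ ‖X j‖} := by
      ext v
      simp
    rw [this]
    exact Finset.measurableSet_biInter _ fun j _ =>
      measurableSet_le measurable_const (measurable_pi_apply j).norm
  have m3 := measurable_Zr (μ := μ) (a := a) (e := e) (J := J)
  have m4 : MeasurableSet {X : Fin N → ℂ | al (WS A Rq a e X J) <
      ENNReal.ofReal (nu N ^ 125)⁻¹} := measurableSet_lt (measurable_WSset he) measurable_const
  have m5 : MeasurableSet {X : Fin N → ℂ | al (BS μ A Rq a e X J) <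
      ENNReal.ofReal (nu N ^ 140)⁻¹} := measurableSet_lt (measurable_BSset hμ he) measurable_const
  have h5 : {X : Fin N → ℂ | Ty μ R A Rq a e X J} =
      {X : Fin N → ℂ | ∀ j ∈ J, ‖X j‖ ≤ R} ∩ ({X : Fin N → ℂ | ∀ j ∈ J, (N : ℝ)⁻¹ ≤ ‖X j‖} ∩
      ({X : Fin N → ℂ | Zr μ e a X J} ∩ ({X : Fin N → ℂ | al (WS A Rq a e X J) <
      ENNReal.ofReal (nu N ^ 125)⁻¹} ∩ {X : Fin N → ℂ | al (BS μ A Rq a e X J) <
      ENNReal.ofReal (nu N ^ 140)⁻¹}))) := by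
    ext q
    constructor
    · rintro ⟨k1, k2, k3, k4, k5⟩
      exact ⟨k1, k2, k3, k4, k5⟩
    · rintro ⟨k1, k2, k3, k4, k5⟩
      exact ⟨k1, k2, k3, k4, k5⟩
  rw [h5]
  exact m1.inter (m2.inter (m3.inter (m4.inter m5)))

theorem log_ann (Rq : ℝ) : ∀ᶠ N : ℕ in atTop, T1 N ≤ 1 ∧
    Real.log (Rq / T1 N) ≤ 6 * Real.log N := by
  filter_upwards [ev_log (|Rq| + 1) 0, eventually_ge_atTop 2] with N h1 hN
  rw [pow_zero, mul_one] at h1
  have hN2 : (2 : ℝ) ≤ N := by exact_mod_cast hN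
  have hN0 : (0 : ℝ) < N := by linarith
  have hT := T1_pos (by omega : 1 ≤ N)
  constructor
  · unfold T1
    refine inv_le_one_of_one_le₀ ?_
    have : (1 : ℝ) ≤ (N : ℝ) ^ 4 := one_le_pow₀ (by linarith)
    linarith
  · have h2 : Rq / T1 N ≤ (N : ℝ) ^ 6 := by
      unfold T1
      rw [div_inv_eq_mul]
      have h3 : Rq ≤ N := (le_abs_self Rq).trans (by linarith)
      calc Rq * (2 * (N : ℝ) ^ 4) ≤ N * (N * (N : ℝ) ^ 4) := by gcongr
        _ = (N : ℝ) ^ 6 := by ring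
    rcases le_or_gt (Rq / T1 N) 0 with h4 | h4
    · by_cases h5 : Rq / T1 N = 0
      · rw [h5, Real.log_zero]
        have : 0 ≤ Real.log N := Real.log_nonneg (by linarith)
        linarith
      · rw [← Real.log_abs]
        have h6 : |Rq / T1 N| ≤ (N : ℝ) ^ 6 := by
          rw [abs_div, abs_of_pos hT]
          unfold T1
          rw [div_inv_eq_mul]
          have h3 : |Rq| ≤ N := by linarith
          calc |Rq| * (2 * (N : ℝ) ^ 4) ≤ N * (N * (N : ℝ) ^ 4) := by gcongr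
            _ = (N : ℝ) ^ 6 := by ring
        have h7 := Real.log_le_log (abs_pos.2 h5) h6
        rw [Real.log_pow] at h7
        exact_mod_cast h7
    · have h7 := Real.log_le_log h4 h2
      rw [Real.log_pow] at h7
      exact_mod_cast h7

theorem prob_Ty {D R Rq A : ℝ} (hA : 1 ≤ A) (hD : 0 ≤ D) (hR : 0 ≤ R) (hRq : 1 ≤ Rq) :
    ∀ᶠ N : ℕ in atTop, ∀ (μ : Fin N → Measure ℂ) (e : Fin N → ℤ) (a : ℂ)
      (J : Finset (Fin N)), (∀ i, Dens (μ i) D R) →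
      (∀ i, e i = 1 ∨ e i = -1) → a ≠ 0 → (Finset.univ \ J).card ≤ 2 →
      Measure.pi μ {X | ¬ Ty μ R A Rq a e X J} ≤ ENNReal.ofReal ((nu N)⁻¹) := by
  have hpi := Real.pi_pos
  obtain ⟨C, hC, hz⟩ := prob_Zr hD hR
  filter_upwards [hz, prob_Wi hA hD hR (by linarith : 0 ≤ Rq),
    prob_bad hA hD hR (by linarith : 0 ≤ Rq), prob_base hD (R := R), log_ann Rq,
    eventually_ge_atTop 8, ev_nu (48 * Real.pi) 1, ev_nu 4 0, ev_nu C 0,
    ev_nu (2 * Real.pi * D) 0] with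
    N hz hW hB hbase hl hN v1 v2 v3 v4 μ e a J hμ he ha hJ
  rw [pow_one] at v1
  rw [pow_zero, mul_one] at v2 v3 v4
  have : ∀ i, IsProbabilityMeasure (μ i) := fun i => (hμ i).prob
  have hN1 : 1 ≤ N := by omega
  have hN0 : (0 : ℝ) < N := by exact_mod_cast hN1
  have hν := nu_ge hN1
  have hν0 : 0 < nu N := by linarith
  have hNν : (N : ℝ) = nu N ^ 256 := (nu_pow N).symm
  have hT := T1_pos hN1
  set ν := nu N with hνdef
  set ℓ := Real.log N with hℓ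
  have hℓ0 : 0 ≤ ℓ := Real.log_nonneg (by exact_mod_cast hN1)
  have hpow : ∀ {m n : ℕ}, m ≤ n → ν ^ m ≤ ν ^ n := fun h => pow_le_pow_right₀ hν h
  have hlog0 : 0 ≤ Real.log (Rq / T1 N) :=
    Real.log_nonneg (by rw [le_div_iff₀ hT]; linarith [hl.1])
  have p1 := hz μ e a J hμ he hJ
  have p2 := hbase μ hμ
  have p3 := al_markov (μ := μ) (measurable_Wi2 (A := A) (a := a) (J := J) he) (r₁ := T1 N)
    (r₂ := Rq) (ε := (ν ^ 127)⁻¹) (β := (ν ^ 125)⁻¹) hT (by linarith [hl.1]) (by positivity)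
    (by positivity) (fun p _ hp => hW μ e a J p hμ he ha hJ hp)
  have p4 := al_markov (μ := μ) ((measurable_Wi2 (A := A) (a := a) (J := J) he).inter
    (measurable_Gd2 hμ e J).compl) (r₁ := T1 N)
    (r₂ := Rq) (ε := (ν ^ 142)⁻¹) (β := (ν ^ 140)⁻¹) hT (by linarith [hl.1]) (by positivity)
    (by positivity) (fun p _ hp => hB μ e a J p hμ he ha hJ hp)
  have hsub : {X | ¬ Ty μ R A Rq a e X J} ⊆ {X | ¬ Zr μ e a X J} ∪ ({X | ¬ Base R X} ∪
      ({X | ENNReal.ofReal (ν ^ 125)⁻¹ ≤ al (WS A Rq a e X J)} ∪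
      {X | ENNReal.ofReal (ν ^ 140)⁻¹ ≤ al (BS μ A Rq a e X J)})) := by
    intro X hX
    by_contra hcon
    rw [mem_union, mem_union, mem_union, not_or, not_or, not_or] at hcon
    obtain ⟨k1, k2, k3, k4⟩ := hcon
    simp only [mem_ofPred_eq, not_le, not_not] at k1 k2 k3 k4
    exact hX ⟨fun j _ => k2.le j, fun j _ => k2.ge j, k1, k3, k4⟩
  refine (measure_mono hsub).trans ((measure_union_le _ _).trans ((add_le_add p1
    ((measure_union_le _ _).trans (add_le_add p2 ((measure_union_le _ _).trans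
    (add_le_add p3 p4))))).trans ?_))
  rw [← ENNReal.ofReal_add (by positivity) (by positivity),
    ← ENNReal.ofReal_add (by positivity) (by positivity),
    ← ENNReal.ofReal_add (by positivity) (by positivity)]
  refine ENNReal.ofReal_le_ofReal ?_
  have h2 : (ν ^ 2)⁻¹ ≤ ν⁻¹ / 4 := by
    rw [le_div_iff₀ (by norm_num)]
    calc (ν ^ 2)⁻¹ * 4 ≤ (ν ^ 2)⁻¹ * ν := by gcongr
      _ = ν⁻¹ := by field_simp
  have e0 : 2 * Real.pi * Real.log (Rq / T1 N) ≤ ν / 4 := by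
    have : 2 * Real.pi * Real.log (Rq / T1 N) ≤ 2 * Real.pi * (6 * ℓ) := by
      have := hl.2
      gcongr
    linarith
  have e1 : (ν ^ 127)⁻¹ * (2 * Real.pi * Real.log (Rq / T1 N)) / (ν ^ 125)⁻¹ ≤ ν⁻¹ / 4 := by
    calc (ν ^ 127)⁻¹ * (2 * Real.pi * Real.log (Rq / T1 N)) / (ν ^ 125)⁻¹ ≤
        (ν ^ 127)⁻¹ * (ν / 4) / (ν ^ 125)⁻¹ := by gcongr
      _ = ν⁻¹ / 4 := by field_simp
  have e2 : (ν ^ 142)⁻¹ * (2 * Real.pi * Real.log (Rq / T1 N)) / (ν ^ 140)⁻¹ ≤ ν⁻¹ / 4 := by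
    calc (ν ^ 142)⁻¹ * (2 * Real.pi * Real.log (Rq / T1 N)) / (ν ^ 140)⁻¹ ≤
        (ν ^ 142)⁻¹ * (ν / 4) / (ν ^ 140)⁻¹ := by gcongr
      _ = ν⁻¹ / 4 := by field_simp
  have e3 : C * (ν ^ 64)⁻¹ ≤ ν⁻¹ / 4 := by
    calc C * (ν ^ 64)⁻¹ ≤ ν * (ν ^ 64)⁻¹ := by gcongr
      _ = (ν ^ 63)⁻¹ := by field_simp
      _ ≤ (ν ^ 2)⁻¹ := inv_anti₀ (by positivity) (hpow (by norm_num))
      _ ≤ ν⁻¹ / 4 := h2
  have e4 : 2 * Real.pi * D / N ≤ ν⁻¹ / 4 := by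
    rw [hNν]
    calc 2 * Real.pi * D / ν ^ 256 ≤ ν / ν ^ 256 := by gcongr
      _ = (ν ^ 255)⁻¹ := by field_simp
      _ ≤ (ν ^ 2)⁻¹ := inv_anti₀ (by positivity) (hpow (by norm_num))
      _ ≤ ν⁻¹ / 4 := h2
  linarith

end Pool.Agent.N229.HF
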