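import Pool.Agent.N229.RL.Main

/-!
# Uniform laws on discs
-/

set_option autoImplicit false

open Filter Topology MeasureTheory Set

namespace Pool.Agent.N229.HF

open Pool.Agent.N229.RL

variable {N : ℕ}

/-- the uniform law on a disc -/
noncomputable def uni (ε : ℝ) (c : ℂ) : Measure ℂ :=
  (volume (Metric.closedBall c ε))⁻¹ • (volume : Measure ℂ).restrict (Metric.closedBall c ε)

theorem vol_cb (c : ℂ) {ε : ℝ} (hε : 0 ≤ ε) :
    volume (Metric.closedBall c ε) = ENNReal.ofReal (Real.pi * ε ^ 2) := by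
  rw [Complex.volume_closedBall, mul_comm Real.pi, ENNReal.ofReal_mul (by positivity),
    ENNReal.ofReal_pow hε]
  congr 1
  exact (ENNReal.ofReal_coe_nnreal (p := NNReal.pi)).symm

theorem dens_uni {R ε : ℝ} (hε : 0 < ε) {c : ℂ} (hc : ‖c‖ ≤ R) :
    Dens (uni ε c) ((Real.pi * ε ^ 2)⁻¹) (R + ε) := by
  have hpi := Real.pi_pos
  have hv := vol_cb c hε.le
  have hv0 : 0 < Real.pi * ε ^ 2 := by positivity
  have hball : MeasurableSet (Metric.closedBall c ε) := Metric.isClosed_closedBall.measurableSet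
  have hR : 0 ≤ R := (norm_nonneg c).trans hc
  have hvi : (volume (Metric.closedBall c ε))⁻¹ = ENNReal.ofReal ((Real.pi * ε ^ 2)⁻¹) := by
    rw [hv, ENNReal.ofReal_inv_of_pos hv0]
  refine ⟨⟨?_⟩, by positivity, by positivity, fun B hB => ?_, ?_⟩
  · unfold uni
    rw [Measure.smul_apply, Measure.restrict_apply MeasurableSet.univ, univ_inter, smul_eq_mul,
      ENNReal.inv_mul_cancel]
    · rw [hv]
      exact (ENNReal.ofReal_pos.2 hv0).ne'
    · rw [hv]
      exact ENNReal.ofReal_ne_top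
  · unfold uni
    rw [Measure.smul_apply, smul_eq_mul, hvi]
    exact mul_le_mul_right (Measure.restrict_le_self B) _
  · unfold uni
    rw [Measure.smul_apply, smul_eq_mul, Measure.restrict_apply' hball]
    have : (Metric.closedBall (0 : ℂ) (R + ε))ᶜ ∩ Metric.closedBall c ε = ∅ := by
      ext w
      simp only [mem_inter_iff, mem_compl_iff, mem_closedBall_iff_norm,
        mem_empty_iff_false, iff_false, not_and, not_le, sub_zero]
      intro h
      by_contra h2
      rw [not_lt] at h2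
      have h3 : ‖w‖ ≤ ‖c‖ + ‖w - c‖ := by
        have : w = c + (w - c) := by ring
        nth_rewrite 1 [this]
        exact norm_add_le _ _
      linarith
    rw [this, measure_empty, mul_zero]

/-- the polydisc -/
def pdisc (ε : ℝ) (z : Fin N → ℂ) : Set (Fin N → ℂ) :=
  Set.univ.pi fun i => Metric.closedBall (z i) ε

theorem pdisc_meas (ε : ℝ) (z : Fin N → ℂ) : MeasurableSet (pdisc ε z) :=
  MeasurableSet.univ_pi fun _ => Metric.isClosed_closedBall.measurableSet

theorem pi_uni (z : Fin N → ℂ) {ε : ℝ} (hε : 0 < ε) :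
    volume (pdisc ε z) ≠ 0 ∧ volume (pdisc ε z) ≠ ⊤ ∧
    Measure.pi (fun i => uni ε (z i)) =
      (volume (pdisc ε z))⁻¹ • (volume : Measure (Fin N → ℂ)).restrict (pdisc ε z) := by
  have hpi := Real.pi_pos
  set B : Fin N → Set ℂ := fun i => Metric.closedBall (z i) ε with hB
  have hBm : ∀ i, MeasurableSet (B i) := fun i => Metric.isClosed_closedBall.measurableSet
  have hv0 : 0 < Real.pi * ε ^ 2 := by positivity
  have hvB : ∀ i, volume (B i) = ENNReal.ofReal (Real.pi * ε ^ 2) := fun i => vol_cb (z i) hε.le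
  have hfin : ∀ i, IsFiniteMeasure (uni ε (z i)) := fun i =>
    haveI := (dens_uni (R := ‖z i‖) hε (le_refl ‖z i‖)).prob
    inferInstance
  set v : ENNReal := volume (pdisc ε z) with hv
  have hvp : v = ∏ i, volume (B i) := by
    rw [hv, pdisc, volume_pi_pi]
  have hv1 : v ≠ 0 := by
    rw [hvp, Finset.prod_ne_zero_iff]
    intro i _
    rw [hvB]
    exact (ENNReal.ofReal_pos.2 hv0).ne'
  have hv2 : v ≠ ⊤ := by
    rw [hvp]
    refine ENNReal.prod_ne_top fun i _ => ?_
    rw [hvB]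
    exact ENNReal.ofReal_ne_top
  refine ⟨hv1, hv2, ?_⟩
  refine Measure.pi_eq fun s hs => ?_
  rw [Measure.smul_apply, smul_eq_mul,
    Measure.restrict_apply (MeasurableSet.univ_pi hs), pdisc, ← Set.pi_inter_distrib, volume_pi_pi]
  have h1 : ∀ i, uni ε (z i) (s i) = (volume (B i))⁻¹ * volume (s i ∩ B i) := by
    intro i
    unfold uni
    rw [Measure.smul_apply, smul_eq_mul, Measure.restrict_apply (hs i)]
  simp_rw [h1]
  rw [Finset.prod_mul_distrib]
  congr 1
  rw [hvp, ENNReal.prod_inv_distrib]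
  intro i _ j _ _
  left
  rw [hvB]
  exact (ENNReal.ofReal_pos.2 hv0).ne'

theorem unif_pi (z : Fin N → ℂ) {ε : ℝ} (hε : 0 < ε) (E : Set (Fin N → ℂ)) :
    volume (E ∩ pdisc ε z) = Measure.pi (fun i => uni ε (z i)) E * volume (pdisc ε z) := by
  obtain ⟨hv1, hv2, key⟩ := pi_uni z hε
  rw [key, Measure.smul_apply, smul_eq_mul,
    Measure.restrict_apply' (pdisc_meas ε z), mul_comm, ← mul_assoc,
    ENNReal.mul_inv_cancel hv1 hv2, one_mul]

theorem unif_prod (z p : Fin N → ℂ) {ε : ℝ} (hε : 0 < ε) (E : Set ((Fin N → ℂ) × (Fin N → ℂ))) :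
    volume (E ∩ pdisc ε z ×ˢ pdisc ε p) =
      ((Measure.pi fun i => uni ε (z i)).prod (Measure.pi fun i => uni ε (p i))) E *
        volume (pdisc ε z ×ˢ pdisc ε p) := by
  obtain ⟨hv1, hv2, key1⟩ := pi_uni z hε
  obtain ⟨hw1, hw2, key2⟩ := pi_uni p hε
  have h3 : volume (pdisc ε z ×ˢ pdisc ε p) = volume (pdisc ε z) * volume (pdisc ε p) := by
    rw [Measure.volume_eq_prod, Measure.prod_prod]
  have key : (Measure.pi fun i => uni ε (z i)).prod (Measure.pi fun i => uni ε (p i)) =
      ((volume (pdisc ε z))⁻¹ * (volume (pdisc ε p))⁻¹) •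
        (volume : Measure ((Fin N → ℂ) × (Fin N → ℂ))).restrict (pdisc ε z ×ˢ pdisc ε p) := by
    rw [key1, key2, Measure.volume_eq_prod, ← Measure.prod_restrict]
    rw [Measure.prod_smul_left, Measure.prod_smul_right, smul_smul]
  rw [key, Measure.smul_apply, smul_eq_mul,
    Measure.restrict_apply' ((pdisc_meas ε z).prod (pdisc_meas ε p)), h3]
  have h4 : (volume (pdisc ε z))⁻¹ * (volume (pdisc ε p))⁻¹ *
      (volume (pdisc ε z) * volume (pdisc ε p)) = 1 := by
    rw [mul_mul_mul_comm, ENNReal.inv_mul_cancel hv1 hv2, ENNReal.inv_mul_cancel hw1 hw2, one_mul]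
  rw [mul_right_comm, h4, one_mul]

end Pool.Agent.N229.HF
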