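import Pool.Agent.N229.HF.Conc

/-!
# The window at one point
-/

set_option autoImplicit false

open Filter Topology MeasureTheory Set

namespace Pool.Agent.N229.HF

open Pool.Agent.N229.RL

variable {N : ℕ}

/-- `∑ ‖z - X j‖ ^ (-2)` -/
noncomputable def Sq (X : Fin N → ℂ) (J : Finset (Fin N)) (z : ℂ) : ℝ :=
  ∑ j ∈ J, (‖z - X j‖ ^ 2)⁻¹

/-- the potential -/
noncomputable def Po (e : Fin N → ℤ) (X : Fin N → ℂ) (J : Finset (Fin N)) (z : ℂ) : ℝ :=
  ∑ j ∈ J, (e j : ℝ) * Real.log ‖z - X j‖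

/-- the window -/
def Wi (A : ℝ) (a : ℂ) (e : Fin N → ℤ) (X : Fin N → ℂ) (J : Finset (Fin N)) (z : ℂ) : Prop :=
  (∀ j ∈ J, T1 N ≤ ‖z - X j‖) ∧ |Real.log ‖gg a e X J z‖| ≤ A * Real.log N

theorem T1_pos (hN : 1 ≤ N) : 0 < T1 N := by
  have : (0 : ℝ) < N := by exact_mod_cast hN
  unfold T1
  positivity

theorem Wi.ne {A : ℝ} {a : ℂ} {e : Fin N → ℤ} {X : Fin N → ℂ} {J : Finset (Fin N)} {z : ℂ}
    (h : Wi A a e X J z) : ∀ j ∈ J, z ≠ X j := fun j hj => by
  have hN : 1 ≤ N := j.pos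
  exact sub_ne_zero.1 (norm_pos_iff.1 ((T1_pos hN).trans_le (h.1 j hj)))

theorem Wi.po {A : ℝ} {a : ℂ} {e : Fin N → ℤ} {X : Fin N → ℂ} {J : Finset (Fin N)} {z : ℂ}
    (h : Wi A a e X J z) (ha : a ≠ 0) : |Po e X J z - -Real.log ‖a‖| ≤ A * Real.log N := by
  have h1 := h.2
  rw [log_norm_gg ha h.ne] at h1
  unfold Po
  rw [sub_neg_eq_add, add_comm]
  exact h1

theorem log_dist (R Rp : ℝ) : ∀ᶠ N : ℕ in atTop, ∀ z w : ℂ, ‖z‖ ≤ Rp → ‖w‖ ≤ R →
    T1 N ≤ ‖z - w‖ → |Real.log ‖z - w‖| ≤ 5 * Real.log N := by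
  filter_upwards [ev_log (Rp + R) 0, eventually_ge_atTop 2] with N h1 hN z w hz hw h
  rw [pow_zero, mul_one] at h1
  have hN2 : (2 : ℝ) ≤ N := by exact_mod_cast hN
  have hN0 : (0 : ℝ) < N := by linarith
  have hT := T1_pos (by omega : 1 ≤ N)
  have hpos : 0 < ‖z - w‖ := hT.trans_le h
  rw [abs_le]
  constructor
  · have h2 := Real.log_le_log hT h
    have h3 : -(5 * Real.log N) ≤ Real.log (T1 N) := by
      unfold T1
      rw [Real.log_inv, neg_le_neg_iff, Real.log_mul (by norm_num) (by positivity), Real.log_pow]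
      have : Real.log 2 ≤ Real.log N := Real.log_le_log (by norm_num) hN2
      push_cast
      linarith
    linarith
  · have h2 : ‖z - w‖ ≤ N := (norm_sub_le _ _).trans (by linarith)
    have h3 := Real.log_le_log hpos h2
    have h4 : 0 ≤ Real.log N := Real.log_nonneg (by linarith)
    linarith

theorem Po_erase {e : Fin N → ℤ} (X : Fin N → ℂ) {J : Finset (Fin N)} (z : ℂ) {j : Fin N}
    (hj : j ∈ J) : Po e X J z = e j * Real.log ‖z - X j‖ + Po e X (J.erase j) z := by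
  unfold Po
  rw [← Finset.add_sum_erase J _ hj]

theorem wi_erase {R Rp : ℝ} {A : ℝ} : ∀ᶠ N : ℕ in atTop, ∀ (e : Fin N → ℤ) (a : ℂ)
    (X : Fin N → ℂ) (J : Finset (Fin N)) (z : ℂ) (j : Fin N), (∀ i, e i = 1 ∨ e i = -1) →
    a ≠ 0 → ‖z‖ ≤ Rp → j ∈ J → ‖X j‖ ≤ R → Wi A a e X J z →
    |Po e X (J.erase j) z - -Real.log ‖a‖| ≤ (A + 5) * Real.log N := by
  filter_upwards [log_dist R Rp] with N h1 e a X J z j he ha hz hj hX h
  have h2 := h.po ha
  have h3 := h1 z (X j) hz hX (h.1 j hj)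
  rw [Po_erase X z hj] at h2
  have h4 : |(e j : ℝ) * Real.log ‖z - X j‖| ≤ 5 * Real.log N := by
    rw [abs_mul, sign_abs (he j), one_mul]
    exact h3
  rw [abs_le] at h2 h4 ⊢
  constructor <;> linarith [h2.1, h2.2, h4.1, h4.2]

theorem measurable_gg2 {a : ℂ} {e : Fin N → ℤ} {J : Finset (Fin N)}
    (he : ∀ i, e i = 1 ∨ e i = -1) :
    Measurable fun q : (Fin N → ℂ) × ℂ => gg a e q.1 J q.2 := by
  unfold gg
  refine (Finset.measurable_prod _ fun j _ => ?_).const_mul a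
  have h1 : Measurable fun q : (Fin N → ℂ) × ℂ => q.2 - q.1 j :=
    measurable_snd.sub ((measurable_pi_apply j).comp measurable_fst)
  rcases he j with h | h
  · simp only [h, zpow_one]
    exact h1
  · simp only [h, zpow_neg, zpow_one]
    exact h1.inv

theorem measurable_SS2 {e : Fin N → ℤ} {J : Finset (Fin N)} :
    Measurable fun q : (Fin N → ℂ) × ℂ => SS e q.1 J q.2 := by
  unfold SS
  refine Finset.measurable_sum _ fun j _ => ?_
  exact measurable_const.div (measurable_snd.sub ((measurable_pi_apply j).comp measurable_fst))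

theorem measurable_Sq2 {J : Finset (Fin N)} :
    Measurable fun q : (Fin N → ℂ) × ℂ => Sq q.1 J q.2 := by
  unfold Sq
  refine Finset.measurable_sum _ fun j _ => ?_
  exact ((measurable_snd.sub ((measurable_pi_apply j).comp measurable_fst)).norm.pow_const 2).inv

theorem measurable_Po2 {e : Fin N → ℤ} {J : Finset (Fin N)} :
    Measurable fun q : (Fin N → ℂ) × ℂ => Po e q.1 J q.2 := by
  unfold Po
  refine Finset.measurable_sum _ fun j _ => ?_
  exact (Real.measurable_log.comp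
    (measurable_snd.sub ((measurable_pi_apply j).comp measurable_fst)).norm).const_mul _

theorem measurable_dist2 (J : Finset (Fin N)) (t : ℝ) :
    MeasurableSet {q : (Fin N → ℂ) × ℂ | ∀ j ∈ J, t ≤ ‖q.2 - q.1 j‖} := by
  have : {q : (Fin N → ℂ) × ℂ | ∀ j ∈ J, t ≤ ‖q.2 - q.1 j‖} =
      ⋂ j ∈ J, {q : (Fin N → ℂ) × ℂ | t ≤ ‖q.2 - q.1 j‖} := by
    ext v
    simp
  rw [this]
  exact Finset.measurableSet_biInter _ fun j _ => measurableSet_le measurable_const
    (measurable_snd.sub ((measurable_pi_apply j).comp measurable_fst)).norm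

theorem measurable_Wi2 {A : ℝ} {a : ℂ} {e : Fin N → ℤ} {J : Finset (Fin N)}
    (he : ∀ i, e i = 1 ∨ e i = -1) :
    MeasurableSet {q : (Fin N → ℂ) × ℂ | Wi A a e q.1 J q.2} := by
  refine (measurable_dist2 J _).inter ?_
  exact measurableSet_le (Real.measurable_log.comp (measurable_gg2 he).norm).abs measurable_const

theorem measurable_pairX (z : ℂ) : Measurable fun X : Fin N → ℂ => (X, z) :=
  measurable_id.prodMk measurable_const

theorem meas_d (z : ℂ) (j : Fin N) : Measurable fun X : Fin N → ℂ => ‖z - X j‖ := by fun_prop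

theorem meas_S (e : Fin N → ℤ) (J : Finset (Fin N)) (z w : ℂ) :
    Measurable fun X : Fin N → ℂ => ‖SS e X J z - w‖ :=
  ((measurable_SS2.comp (measurable_pairX z)).sub_const w).norm

theorem meas_S0 (e : Fin N → ℤ) (J : Finset (Fin N)) (z : ℂ) :
    Measurable fun X : Fin N → ℂ => ‖SS e X J z‖ :=
  (measurable_SS2.comp (measurable_pairX z)).norm

theorem meas_P (e : Fin N → ℤ) (J : Finset (Fin N)) (z : ℂ) (m : ℝ) :
    Measurable fun X : Fin N → ℂ => |Po e X J z - m| :=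
  ((measurable_Po2.comp (measurable_pairX z)).sub_const m).abs

theorem ae_R {μ : Fin N → Measure ℂ} {D R : ℝ} (hμ : ∀ i, Dens (μ i) D R) :
    ∀ᵐ X ∂Measure.pi μ, ∀ j, ‖X j‖ ≤ R := by
  have : ∀ i, IsProbabilityMeasure (μ i) := fun i => (hμ i).prob
  rw [ae_all_iff]
  intro j
  have h1 : Measure.pi μ {X | X j ∈ (Metric.closedBall (0 : ℂ) R)ᶜ} = 0 := by
    rw [eval_measure μ j Metric.isClosed_closedBall.measurableSet.compl]
    exact (hμ j).supp
  rw [ae_iff]
  refine measure_mono_null ?_ h1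
  intro X hX
  simp only [mem_ofPred_eq] at hX ⊢
  rw [mem_compl_iff, mem_closedBall_zero_iff]
  exact hX

/-- the area in the variable `σ / v` -/
theorem inv_int {σ : ℤ} (hσ : σ = 1 ∨ σ = -1) (w₀ : ℂ) {C : ℝ} (hC : 0 ≤ C) :
    ∫⁻ v : ℂ, {v : ℂ | v ≠ 0 ∧ ‖(σ : ℂ) / v + w₀‖ ≤ C}.indicator
      (fun v => ENNReal.ofReal ((‖v‖ ^ 4)⁻¹)) v ≤ ENNReal.ofReal (Real.pi * C ^ 2) := by
  set V : Set ℂ := {v : ℂ | v ≠ 0 ∧ ‖(σ : ℂ) / v + w₀‖ ≤ C} with hV
  have hVm : MeasurableSet V :=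
    (measurableSet_singleton (0 : ℂ)).compl.inter (measurableSet_le
      ((by fun_prop : Measurable fun v : ℂ => (σ : ℂ) / v + w₀).norm) measurable_const)
  have hσn : ‖(σ : ℂ)‖ = 1 := norm_sign hσ
  have hσ0 : (σ : ℂ) ≠ 0 := norm_pos_iff.1 (by rw [hσn]; exact one_pos)
  have hder : ∀ v : ℂ, v ≠ 0 → HasDerivAt (fun v : ℂ => (σ : ℂ) / v) ((σ : ℂ) * -(v ^ 2)⁻¹) v := by
    intro v hv
    have := (hasDerivAt_inv hv).const_mul (σ : ℂ)
    simpa [div_eq_mul_inv] using this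
  have hball : MeasurableSet (Metric.closedBall (-w₀) C) := Metric.isClosed_closedBall.measurableSet
  have h := Pool.Agent.Y333.TY.MultX.area_mult (fun v : ℂ => (σ : ℂ) / v) (U := {0}ᶜ) (V := V)
    isOpen_compl_singleton (fun v hv => (hder v hv).differentiableAt.differentiableWithinAt)
    hVm (fun v hv => hv.1) 1 (fun w => by
      rw [Nat.cast_one, Set.encard_le_one_iff]
      rintro x y ⟨hx, hx2⟩ ⟨hy, hy2⟩
      have hx0 : x ≠ 0 := hx.1
      have hy0 : y ≠ 0 := hy.1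
      rw [← hy2, div_eq_div_iff hx0 hy0] at hx2
      exact (mul_left_cancel₀ hσ0 hx2).symm)
    ((Metric.closedBall (-w₀) C).indicator 1) (measurable_one.indicator hball)
  rw [lintegral_indicator_one hball, Nat.cast_one, mul_one] at h
  rw [lintegral_indicator hVm]
  refine le_trans ?_ (h.trans (vol_ball_le _ hC))
  refine setLIntegral_mono' hVm fun v hv => ?_
  have hb : (σ : ℂ) / v ∈ Metric.closedBall (-w₀) C := by
    rw [mem_closedBall_iff_norm, sub_neg_eq_add]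
    exact hv.2
  rw [(hder v hv.1).deriv, indicator_of_mem hb, Pi.one_apply, mul_one, norm_mul, hσn, norm_neg,
    norm_inv, norm_pow, one_mul]
  refine ENNReal.ofReal_le_ofReal (le_of_eq ?_)
  rw [inv_pow, ← pow_mul]

end Pool.Agent.N229.HF
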