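import Pool.Agent.N229.HF.Good
import Pool.Agent.N229.HF.Conc2

/-!
# The window stays away from the origin
-/

set_option autoImplicit false

open Filter Topology MeasureTheory Set

namespace Pool.Agent.N229.HF

open Pool.Agent.N229.RL

variable {N : ℕ}

/-- the radius around the origin -/
noncomputable def rz (N : ℕ) : ℝ := 2 * (nu N ^ 108)⁻¹

/-- the typical behaviour at the origin -/
structure Zr (μ : Fin N → Measure ℂ) (e : Fin N → ℤ) (a : ℂ) (X : Fin N → ℂ)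
    (J : Finset (Fin N)) : Prop where
  z1 : nu N ^ 64 < |Po e X J 0 - -Real.log ‖a‖|
  z2 : cnt X J (rz N) 0 < nu N ^ 48
  z3 : ∑ j ∈ J, ‖ht (rz N) (0 - X j)‖ ^ 2 < nu N ^ 258
  z4 : ‖∑ j ∈ J, (e j : ℂ) * ht (rz N) (0 - X j) - MGJ μ e J 0‖ < nu N ^ 150

theorem log_one_sub {u : ℂ} (hu : ‖u‖ ≤ 1 / 2) : |Real.log ‖1 - u‖ + u.re| ≤ ‖u‖ ^ 2 := by
  have h1 : ‖-u‖ < 1 := by rw [norm_neg]; linarith
  have h2 := Complex.norm_log_one_add_sub_self_le h1
  have h3 : Real.log ‖1 - u‖ + u.re = (Complex.log (1 + -u) - -u).re := by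
    rw [Complex.sub_re, Complex.log_re, Complex.neg_re, ← sub_eq_add_neg, sub_neg_eq_add]
  rw [h3]
  refine (Complex.abs_re_le_norm _).trans (h2.trans ?_)
  rw [norm_neg]
  have h4 : (1 - ‖u‖)⁻¹ ≤ 2 := by
    rw [inv_le_comm₀ (by linarith) (by norm_num)]
    linarith
  have h5 : 0 ≤ ‖u‖ ^ 2 := by positivity
  nlinarith

theorem zero_det {D R Rp : ℝ} {A : ℝ} (hA : 1 ≤ A) (hD : 0 ≤ D) (hR : 0 ≤ R) (hRp : 1 ≤ Rp) :
    ∀ᶠ N : ℕ in atTop, ∀ (μ : Fin N → Measure ℂ) (e : Fin N → ℤ) (a : ℂ)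
      (X : Fin N → ℂ) (J : Finset (Fin N)) (p : ℂ), (∀ i, Dens (μ i) D R) →
      (∀ i, e i = 1 ∨ e i = -1) → a ≠ 0 → (∀ j ∈ J, ‖X j‖ ≤ R) → (∀ j ∈ J, (N : ℝ)⁻¹ ≤ ‖X j‖) →
      Zr μ e a X J → Wi A a e X J p → nu N ^ 20 < ‖p‖ * Th μ e J p := by
  have hpi := Real.pi_pos
  set B : ℝ := Rp + R + 3 with hB
  have hB1 : 1 ≤ B := by linarith
  filter_upwards [log_dist R Rp, log_B_div hB1 (k := 108) (by norm_num), ev_log_ge 1,
    eventually_ge_atTop 8, ev_nu (30 * Real.pi * D + 20) 1, ev_nu 12 0, ev_nu (A + 11) 1] with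
    N h1 hlB hl1 hN v1 v2 v3 μ e a X J p hμ he ha hXR hX0 hZ hW
  rw [pow_one] at v1 v3
  rw [pow_zero, mul_one] at v2
  by_contra hcon
  rw [not_lt] at hcon
  have hN1 : 1 ≤ N := by omega
  have hN0 : (0 : ℝ) < N := by exact_mod_cast hN1
  have hN1' : (1 : ℝ) ≤ N := by exact_mod_cast hN1
  have hν := nu_ge hN1
  have hν0 : 0 < nu N := by linarith
  have hNν : (N : ℝ) = nu N ^ 256 := (nu_pow N).symm
  obtain ⟨z1, z2, z3, z4⟩ := hZ
  set ν := nu N with hνdef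
  set ℓ := Real.log N with hℓ
  have hℓ0 : 0 < ℓ := by linarith
  have hpow : ∀ {m n : ℕ}, m ≤ n → ν ^ m ≤ ν ^ n := fun h => pow_le_pow_right₀ hν h
  set Θ := Th μ e J p with hΘ
  have hΘ1 : ν ^ 128 ≤ Θ := Th_ge μ e J p
  have hΘ0 : 0 < Θ := lt_of_lt_of_le (by positivity) hΘ1
  -- the size of `p`
  have hp : ‖p‖ ≤ (ν ^ 108)⁻¹ := by
    have e1 : ‖p‖ * ν ^ 128 ≤ ν ^ 20 := by
      refine le_trans ?_ hcon
      gcongr
    rw [← one_div, le_div_iff₀ (by positivity)]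
    have e2 : ‖p‖ * ν ^ 108 * ν ^ 20 ≤ 1 * ν ^ 20 := by
      calc ‖p‖ * ν ^ 108 * ν ^ 20 = ‖p‖ * ν ^ 128 := by ring
        _ ≤ 1 * ν ^ 20 := by rw [one_mul]; exact e1
    exact le_of_mul_le_mul_right e2 (by positivity)
  have hi1 : (ν ^ 108)⁻¹ ≤ 1 := inv_le_one_of_one_le₀ (one_le_pow₀ hν)
  have hi0 : 0 < (ν ^ 108)⁻¹ := by positivity
  have hpR : ‖p‖ ≤ Rp := by linarith
  set τ := rz N with hτ
  have hτe : τ = 2 * (ν ^ 108)⁻¹ := rfl
  have hτ0 : 0 < τ := by rw [hτe]; positivity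
  have hT1N : T1 N ≤ (N : ℝ)⁻¹ := by
    unfold T1
    refine inv_anti₀ hN0 ?_
    have : (N : ℝ) ≤ (N : ℝ) ^ 4 := le_self_pow₀ hN1' (by norm_num)
    linarith [show (0 : ℝ) ≤ (N : ℝ) ^ 4 by positivity]
  -- the mean near the origin
  have hM0 : ‖p‖ * ‖MGJ μ e J 0‖ ≤ ν ^ 49 := by
    have e1 := MGJ_mod hμ he hD J p 0 (δ := (ν ^ 108)⁻¹) (B := B) hi0 (by simpa using hp)
      (by linarith) (by linarith)
    obtain ⟨e2, e3⟩ := hlB (2 * (ν ^ 108)⁻¹) (by linarith) (by linarith)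
    have e4 : (N : ℝ) * (10 * Real.pi * D * (ν ^ 108)⁻¹ + 4 * Real.pi * D * (ν ^ 108)⁻¹ *
        Real.log (B / (2 * (ν ^ 108)⁻¹))) ≤ (30 * Real.pi * D + 20) * ℓ * ν ^ 148 := by
      have e5 : (N : ℝ) * (10 * Real.pi * D * (ν ^ 108)⁻¹ + 4 * Real.pi * D * (ν ^ 108)⁻¹ *
        Real.log (B / (2 * (ν ^ 108)⁻¹))) = (10 * Real.pi * D + 4 * Real.pi * D *
        Real.log (B / (2 * (ν ^ 108)⁻¹))) * ν ^ 148 := by
        rw [hNν]
        field_simp
      rw [e5]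
      have e6 : 4 * Real.pi * D * Real.log (B / (2 * (ν ^ 108)⁻¹)) ≤
          4 * Real.pi * D * (5 * ℓ) := by gcongr
      have e7 : 10 * Real.pi * D * 1 ≤ 10 * Real.pi * D * ℓ := by gcongr
      have e8 : 10 * Real.pi * D + 4 * Real.pi * D * Real.log (B / (2 * (ν ^ 108)⁻¹)) ≤
          (30 * Real.pi * D + 20) * ℓ := by nlinarith
      gcongr
    have e9 : ‖MGJ μ e J p - MGJ μ e J 0‖ ≤ ν ^ 149 := by
      refine e1.trans (e4.trans ?_)
      calc (30 * Real.pi * D + 20) * ℓ * ν ^ 148 ≤ ν * ν ^ 148 := by gcongr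
        _ = ν ^ 149 := by ring
    have e10 : ‖MGJ μ e J 0‖ ≤ ‖MGJ μ e J p‖ + ‖MGJ μ e J p - MGJ μ e J 0‖ := by
      have : MGJ μ e J 0 = MGJ μ e J p - (MGJ μ e J p - MGJ μ e J 0) := by ring
      nth_rewrite 1 [this]
      exact norm_sub_le _ _
    have e11 : ‖MGJ μ e J p‖ ≤ Θ := by
      have e2 : Θ = ‖MGJ μ e J p‖ + ν ^ 128 := rfl
      have : 0 ≤ ν ^ 128 := by positivity
      linarith
    calc ‖p‖ * ‖MGJ μ e J 0‖ ≤ ‖p‖ * (Θ + ν ^ 149) := by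
          gcongr
          linarith
      _ = ‖p‖ * Θ + ‖p‖ * ν ^ 149 := by ring
      _ ≤ ν ^ 20 + (ν ^ 108)⁻¹ * ν ^ 149 := by gcongr
      _ = ν ^ 20 + ν ^ 41 := by field_simp
      _ ≤ ν ^ 48 + ν ^ 48 := add_le_add (hpow (by norm_num)) (hpow (by norm_num))
      _ = 2 * ν ^ 48 := by ring
      _ ≤ ν * ν ^ 48 := by
          gcongr
          linarith
      _ = ν ^ 49 := by ring
  have hSt : ‖∑ j ∈ J, (e j : ℂ) * ht τ (0 - X j)‖ * ‖p‖ ≤ 2 * ν ^ 49 := by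
    have e1 : ‖∑ j ∈ J, (e j : ℂ) * ht τ (0 - X j)‖ ≤ ‖MGJ μ e J 0‖ + ν ^ 150 := by
      have : ∑ j ∈ J, (e j : ℂ) * ht τ (0 - X j) = MGJ μ e J 0 +
        (∑ j ∈ J, (e j : ℂ) * ht τ (0 - X j) - MGJ μ e J 0) := by ring
      rw [this]
      exact (norm_add_le _ _).trans (by linarith)
    calc ‖∑ j ∈ J, (e j : ℂ) * ht τ (0 - X j)‖ * ‖p‖ ≤ (‖MGJ μ e J 0‖ + ν ^ 150) * ‖p‖ := by
          gcongr
      _ = ‖p‖ * ‖MGJ μ e J 0‖ + ‖p‖ * ν ^ 150 := by ring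
      _ ≤ ν ^ 49 + (ν ^ 108)⁻¹ * ν ^ 150 := by gcongr
      _ = ν ^ 49 + ν ^ 42 := by field_simp
      _ ≤ ν ^ 49 + ν ^ 49 := by
          have := hpow (show 42 ≤ 49 by norm_num)
          linarith
      _ = 2 * ν ^ 49 := by ring
  -- the difference of the potentials
  set Jn' := J.filter fun j => ‖(0 : ℂ) - X j‖ < τ with hJn
  set Jf := J.filter fun j => ¬ ‖(0 : ℂ) - X j‖ < τ with hJf
  have hdiff : Po e X J p - Po e X J 0 =
      ∑ j ∈ Jn', (e j : ℝ) * (Real.log ‖p - X j‖ - Real.log ‖0 - X j‖) +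
      ∑ j ∈ Jf, (e j : ℝ) * (Real.log ‖p - X j‖ - Real.log ‖0 - X j‖) := by
    unfold Po
    rw [← Finset.sum_sub_distrib, hJn, hJf, Finset.sum_filter_add_sum_filter_not]
    exact Finset.sum_congr rfl fun j _ => by ring
  have hnear : |∑ j ∈ Jn', (e j : ℝ) * (Real.log ‖p - X j‖ - Real.log ‖0 - X j‖)| ≤
      10 * ℓ * ν ^ 48 := by
    refine (Finset.abs_sum_le_sum_abs _ _).trans ?_
    have e1 : ∀ j ∈ Jn', |(e j : ℝ) * (Real.log ‖p - X j‖ - Real.log ‖0 - X j‖)| ≤ 10 * ℓ := by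
      intro j hj
      have hjJ := (Finset.mem_filter.1 hj).1
      rw [abs_mul, sign_abs (he j), one_mul]
      have k1 := h1 p (X j) hpR (hXR j hjJ) (hW.1 j hjJ)
      have k2 := h1 0 (X j) (by rw [norm_zero]; linarith) (hXR j hjJ) (by
        rw [zero_sub, norm_neg]
        exact hT1N.trans (hX0 j hjJ))
      refine (abs_sub _ _).trans ?_
      linarith
    refine (Finset.sum_le_sum e1).trans ?_
    rw [Finset.sum_const, nsmul_eq_mul]
    have e2 : (Jn'.card : ℝ) = cnt X J τ 0 := by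
      unfold cnt
      rw [← Finset.sum_filter, Finset.sum_const, nsmul_eq_mul, mul_one]
    rw [e2, mul_comm]
    gcongr
  have hfar : |∑ j ∈ Jf, (e j : ℝ) * (Real.log ‖p - X j‖ - Real.log ‖0 - X j‖)| ≤
      2 * ν ^ 49 + ν ^ 49 := by
    have e0 : ∀ j ∈ Jf, 0 < ‖X j‖ ∧ ‖p / X j‖ ≤ 1 / 2 ∧ τ ≤ ‖(0 : ℂ) - X j‖ := by
      intro j hj
      have hjJ := (Finset.mem_filter.1 hj).1
      have hjτ := not_lt.1 (Finset.mem_filter.1 hj).2
      have k1 : τ ≤ ‖X j‖ := by rwa [zero_sub, norm_neg] at hjτ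
      have k2 : 0 < ‖X j‖ := hτ0.trans_le k1
      refine ⟨k2, ?_, hjτ⟩
      rw [norm_div, div_le_div_iff₀ k2 (by norm_num)]
      linarith
    have e1 : ∑ j ∈ Jf, (e j : ℝ) * (Real.log ‖p - X j‖ - Real.log ‖0 - X j‖) =
        ∑ j ∈ Jf, (e j : ℝ) * (Real.log ‖1 - p / X j‖ + (p / X j).re) -
        ∑ j ∈ Jf, (e j : ℝ) * (p / X j).re := by
      rw [← Finset.sum_sub_distrib]
      refine Finset.sum_congr rfl fun j hj => ?_
      obtain ⟨k1, k2, -⟩ := e0 j hj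
      have k3 : X j ≠ 0 := norm_pos_iff.1 k1
      have k4 : ‖p - X j‖ = ‖0 - X j‖ * ‖1 - p / X j‖ := by
        rw [← norm_mul]
        congr 1
        field_simp
        ring
      have k5 : 0 < ‖1 - p / X j‖ := by
        have := norm_sub_norm_le (1 : ℂ) (p / X j)
        rw [norm_one] at this
        linarith
      rw [k4, Real.log_mul (by rw [zero_sub, norm_neg]; exact k1.ne') k5.ne']
      ring
    have e2 : ∑ j ∈ Jf, (e j : ℝ) * (p / X j).re =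
        -(p * ∑ j ∈ J, (e j : ℂ) * ht τ (0 - X j)).re := by
      have k1 : ∑ j ∈ J, (e j : ℂ) * ht τ (0 - X j) = ∑ j ∈ Jf, -((e j : ℂ) / X j) := by
        rw [hJf, Finset.sum_filter]
        refine Finset.sum_congr rfl fun j _ => ?_
        unfold ht
        by_cases hj : ‖(0 : ℂ) - X j‖ < τ
        · rw [if_neg (not_le.2 hj), if_neg (not_not.2 hj), mul_zero]
        · rw [if_pos (not_lt.1 hj), if_pos hj, zero_sub, inv_neg, mul_neg, div_eq_mul_inv]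
      rw [k1, Finset.mul_sum, Complex.re_sum, ← Finset.sum_neg_distrib]
      refine Finset.sum_congr rfl fun j _ => ?_
      have k2 : p * -((e j : ℂ) / X j) = -(((e j : ℝ) : ℂ) * (p / X j)) := by
        push_cast
        ring
      rw [k2, Complex.neg_re, Complex.re_ofReal_mul, neg_neg]
    rw [e1, e2]
    have e3 : |∑ j ∈ Jf, (e j : ℝ) * (Real.log ‖1 - p / X j‖ + (p / X j).re)| ≤ ν ^ 49 := by
      refine (Finset.abs_sum_le_sum_abs _ _).trans ?_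
      have k1 : ∀ j ∈ Jf, |(e j : ℝ) * (Real.log ‖1 - p / X j‖ + (p / X j).re)| ≤
          ‖p‖ ^ 2 * ‖ht τ (0 - X j)‖ ^ 2 := by
        intro j hj
        obtain ⟨k1, k2, k3⟩ := e0 j hj
        rw [abs_mul, sign_abs (he j), one_mul]
        refine (log_one_sub k2).trans (le_of_eq ?_)
        rw [ht_eq k3, norm_inv, zero_sub, norm_neg, norm_div, div_pow, div_eq_mul_inv, inv_pow]
      refine (Finset.sum_le_sum k1).trans ?_
      rw [← Finset.mul_sum]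
      have k2 : ∑ j ∈ Jf, ‖ht τ (0 - X j)‖ ^ 2 ≤ ∑ j ∈ J, ‖ht τ (0 - X j)‖ ^ 2 :=
        Finset.sum_le_sum_of_subset_of_nonneg (Finset.filter_subset _ _) fun j _ _ => by positivity
      calc ‖p‖ ^ 2 * ∑ j ∈ Jf, ‖ht τ (0 - X j)‖ ^ 2 ≤ ((ν ^ 108)⁻¹) ^ 2 * ν ^ 258 := by
            gcongr
            exact k2.trans z3.le
        _ = ν ^ 42 := by field_simp
        _ ≤ ν ^ 49 := hpow (by norm_num)
    have e4 : |(p * ∑ j ∈ J, (e j : ℂ) * ht τ (0 - X j)).re| ≤ 2 * ν ^ 49 := by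
      refine (Complex.abs_re_le_norm _).trans ?_
      rw [norm_mul, mul_comm]
      exact hSt
    rw [sub_neg_eq_add]
    refine (abs_add_le _ _).trans ?_
    linarith
  have hPo := hW.po ha
  have hfin : |Po e X J 0 - -Real.log ‖a‖| ≤ ν ^ 64 := by
    have e1 : Po e X J 0 - -Real.log ‖a‖ = (Po e X J p - -Real.log ‖a‖) -
      (Po e X J p - Po e X J 0) := by ring
    rw [e1]
    refine (abs_sub _ _).trans ?_
    rw [hdiff]
    have e2 := abs_add_le (∑ j ∈ Jn', (e j : ℝ) * (Real.log ‖p - X j‖ - Real.log ‖0 - X j‖))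
      (∑ j ∈ Jf, (e j : ℝ) * (Real.log ‖p - X j‖ - Real.log ‖0 - X j‖))
    have e3 : 10 * ℓ * ν ^ 48 ≤ ν ^ 49 := by
      have : 10 * ℓ ≤ ν := by nlinarith
      calc 10 * ℓ * ν ^ 48 ≤ ν * ν ^ 48 := by gcongr
        _ = ν ^ 49 := by ring
    have e4 : A * ℓ ≤ ν ^ 49 := by
      have : A * ℓ ≤ ν := by nlinarith
      exact this.trans (le_self_pow₀ hν (by norm_num))
    calc |Po e X J p - -Real.log ‖a‖| + |∑ j ∈ Jn', (e j : ℝ) *
          (Real.log ‖p - X j‖ - Real.log ‖0 - X j‖) + ∑ j ∈ Jf, (e j : ℝ) *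
          (Real.log ‖p - X j‖ - Real.log ‖0 - X j‖)| ≤ 5 * ν ^ 49 := by linarith
      _ ≤ ν * ν ^ 49 := by
          gcongr
          linarith
      _ = ν ^ 50 := by ring
      _ ≤ ν ^ 64 := hpow (by norm_num)
  linarith

theorem prob_Zr {D R : ℝ} (hD : 0 ≤ D) (hR : 0 ≤ R) :
    ∃ C : ℝ, 0 < C ∧ ∀ᶠ N : ℕ in atTop, ∀ (μ : Fin N → Measure ℂ) (e : Fin N → ℤ) (a : ℂ)
      (J : Finset (Fin N)), (∀ i, Dens (μ i) D R) →
      (∀ i, e i = 1 ∨ e i = -1) → (Finset.univ \ J).card ≤ 2 →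
      Measure.pi μ {X | ¬ Zr μ e a X J} ≤ ENNReal.ofReal (C * (nu N ^ 64)⁻¹) := by
  have hpi := Real.pi_pos
  set B : ℝ := R + 3 with hB
  have hB1 : 1 ≤ B := by linarith
  obtain ⟨C, hC, hC'⟩ := ac1 (Rp := 0) hD hR le_rfl
  refine ⟨C + 6, by positivity, ?_⟩
  filter_upwards [hC', log_B_div hB1 (k := 108) (by norm_num), ev_log_ge 1,
    eventually_ge_atTop 8, ev_nu (10 * Real.pi * D + 26) 1, ev_nu (8 * Real.pi * D + 25 + 104) 1] with
    N h1 hlB hl1 hN v1 v2 μ e a J hμ he hJ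
  rw [pow_one] at v1 v2
  have : ∀ i, IsProbabilityMeasure (μ i) := fun i => (hμ i).prob
  have hN1 : 1 ≤ N := by omega
  have hN0 : (0 : ℝ) < N := by exact_mod_cast hN1
  have hν := nu_ge hN1
  have hν0 : 0 < nu N := by linarith
  have hNν : (N : ℝ) = nu N ^ 256 := (nu_pow N).symm
  have hcardJ : N ≤ J.card + 2 := by
    have := Finset.card_sdiff_add_card_eq_card (Finset.subset_univ J)
    rw [Finset.card_univ, Fintype.card_fin] at this
    omega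
  set τ := rz N with hτ
  set ν := nu N with hνdef
  set ℓ := Real.log N with hℓ
  have hℓ0 : 0 < ℓ := by linarith
  have hpow : ∀ {m n : ℕ}, m ≤ n → ν ^ m ≤ ν ^ n := fun h => pow_le_pow_right₀ hν h
  have hi1 : (ν ^ 108)⁻¹ ≤ 1 := inv_le_one_of_one_le₀ (one_le_pow₀ hν)
  have hi0 : 0 < (ν ^ 108)⁻¹ := by positivity
  have hτe : τ = 2 * (ν ^ 108)⁻¹ := rfl
  have hτ0 : 0 < τ := by rw [hτe]; positivity
  have hτB : τ ≤ B := by rw [hτe]; linarith
  have hτi : τ⁻¹ = ν ^ 108 / 2 := by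
    rw [hτe]
    field_simp
  obtain ⟨hl0, hl⟩ := hlB τ (by rw [hτe]; linarith) hτB
  have hℓν : ℓ ≤ ν := by
    have : 0 ≤ Real.pi * D := by positivity
    nlinarith
  have hzB : ‖(0 : ℂ)‖ + R ≤ B := by rw [norm_zero]; linarith
  set s₀ : ℝ := 2 * Real.pi * D * Real.log (B / τ) with hs₀
  have hs₀0 : 0 ≤ s₀ := by positivity
  have hs₀ν : s₀ ≤ ν := by
    have : s₀ ≤ 2 * Real.pi * D * (5 * ℓ) := by
      rw [hs₀]
      gcongr
    nlinarith
  have p1 : Measure.pi μ {X | |∑ j ∈ J, (e j : ℝ) * Real.log ‖0 - X j‖ - -Real.log ‖a‖| ≤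
      ν ^ 64} ≤ ENNReal.ofReal (C * (ν ^ 64)⁻¹) := by
    refine (h1 μ e J 0 (-Real.log ‖a‖) (ν ^ 64) hμ he (by omega) (by simp)
      (hℓν.trans (le_self_pow₀ hν (by norm_num)))).trans (ENNReal.ofReal_le_ofReal (le_of_eq ?_))
    field_simp
  have p2 := c3 hD hN1 μ J 0 hμ hτ0.le
  have p3 := c2g hD hN1 μ J 0 (τ := τ) (M' := ν ^ 240) hμ hzB hτ0 hτB (by
      rw [← inv_pow, hτi]
      have e1 : (ν ^ 108 / 2) ^ 2 ≤ ν ^ 216 := by
        have : (ν ^ 108 / 2) ^ 2 = ν ^ 216 / 4 := by ring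
        rw [this]
        have : 0 ≤ ν ^ 216 := by positivity
        linarith
      exact e1.trans (hpow (by norm_num))) (by
      rw [← inv_pow, hτi, div_le_iff₀ (by positivity)]
      calc (N : ℝ) * ((ν ^ 108 / 2) ^ 2 * s₀) ≤ ν ^ 256 * ((ν ^ 108 / 2) ^ 2 * ν) := by
            rw [← hNν]
            gcongr
        _ = ν ^ 473 / 4 := by ring
        _ ≤ ν ^ 480 := by
            have := hpow (show 473 ≤ 480 by norm_num)
            have : 0 ≤ ν ^ 473 := by positivity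
            linarith
        _ = 1 * (ν ^ 240) ^ 2 := by ring
        _ ≤ ℓ * (ν ^ 240) ^ 2 := by gcongr)
  have p4 := c1g hD hN1 μ e J 0 (τ := τ) (M' := ν ^ 130) hμ he hzB hτ0 hτB (by
      rw [hτi]
      have := hpow (show 108 ≤ 130 by norm_num)
      have : 0 ≤ ν ^ 108 := by positivity
      linarith) (by
      rw [div_le_iff₀ (by positivity)]
      calc (N : ℝ) * s₀ ≤ ν ^ 256 * ν := by
            rw [← hNν]
            gcongr
        _ = ν ^ 257 := by ring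
        _ ≤ ν ^ 260 := hpow (by norm_num)
        _ = 1 * (ν ^ 130) ^ 2 := by ring
        _ ≤ ℓ * (ν ^ 130) ^ 2 := by gcongr)
  have hsub : {X | ¬ Zr μ e a X J} ⊆
      {X | |∑ j ∈ J, (e j : ℝ) * Real.log ‖0 - X j‖ - -Real.log ‖a‖| ≤ ν ^ 64} ∪
      ({X | 2 * (N * (Real.pi * D * τ ^ 2)) + 25 * Real.log N ≤ cnt X J τ 0} ∪
      ({X | N * (2 * Real.pi * D * Real.log (B / τ)) + 26 * Real.log N * ν ^ 240 ≤
        ∑ j ∈ J, ‖ht τ (0 - X j)‖ ^ 2} ∪
      {X | 2 * (2 * Real.pi * D * N * τ + 26 * Real.log N * ν ^ 130) ≤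
        ‖∑ j ∈ J, (e j : ℂ) * ht τ (0 - X j) - MGJ μ e J 0‖})) := by
    intro X hX
    by_contra hcon
    rw [mem_union, mem_union, mem_union, not_or, not_or, not_or] at hcon
    obtain ⟨k1, k2, k3, k4⟩ := hcon
    simp only [mem_ofPred_eq, not_le] at k1 k2 k3 k4
    refine hX ⟨k1, k2.trans_le ?_, k3.trans_le ?_, k4.trans_le ?_⟩
    · rw [hτe]
      have e1 : 2 * ((N : ℝ) * (Real.pi * D * (2 * (ν ^ 108)⁻¹) ^ 2)) =
          8 * Real.pi * D * ν ^ 40 := by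
        rw [hNν]
        field_simp
        ring
      have e2 : (1 : ℝ) ≤ ν ^ 40 := one_le_pow₀ hν
      calc 2 * ((N : ℝ) * (Real.pi * D * (2 * (ν ^ 108)⁻¹) ^ 2)) + 25 * Real.log N =
          8 * Real.pi * D * ν ^ 40 + 25 * ℓ := by rw [e1]
        _ ≤ 8 * Real.pi * D * (ℓ * ν ^ 40) + 25 * (ℓ * ν ^ 40) := by
            have e3 : ν ^ 40 ≤ ℓ * ν ^ 40 := by nlinarith
            have e4 : ℓ ≤ ℓ * ν ^ 40 := by nlinarith
            gcongr
        _ ≤ ((8 * Real.pi * D + 25 + 104) * ℓ) * ν ^ 40 := by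
            have : 0 ≤ ℓ * ν ^ 40 := by positivity
            linarith
        _ ≤ ν * ν ^ 40 := by gcongr
        _ = ν ^ 41 := by ring
        _ ≤ ν ^ 48 := hpow (by norm_num)
    · rw [← hs₀, ← hℓ]
      have e1 : (N : ℝ) * s₀ ≤ ν ^ 257 := by
        rw [hNν]
        calc ν ^ 256 * s₀ ≤ ν ^ 256 * ν := by gcongr
          _ = ν ^ 257 := by ring
      have e2 : 26 * ℓ * ν ^ 240 ≤ ν ^ 257 := by
        calc 26 * ℓ * ν ^ 240 ≤ ν * ν ^ 240 := by
              gcongr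
              have : 0 ≤ Real.pi * D * ℓ := by positivity
              linarith
          _ = ν ^ 241 := by ring
          _ ≤ ν ^ 257 := hpow (by norm_num)
      have e3 : (2 : ℝ) ≤ ν := by
        have : 0 ≤ Real.pi * D := by positivity
        nlinarith
      calc N * s₀ + 26 * ℓ * ν ^ 240 ≤ 2 * ν ^ 257 := by linarith
        _ ≤ ν * ν ^ 257 := by gcongr
        _ = ν ^ 258 := by ring
    · rw [← hℓ, hτe]
      have e1 : 2 * Real.pi * D * N * (2 * (ν ^ 108)⁻¹) = 4 * Real.pi * D * ν ^ 148 := by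
        rw [hNν]
        field_simp
        ring
      rw [e1]
      have e2 : 26 * ℓ * ν ^ 130 ≤ 26 * ℓ * ν ^ 148 := by
        have := hpow (show 130 ≤ 148 by norm_num)
        gcongr
      have e3 : 4 * Real.pi * D * ν ^ 148 ≤ 4 * Real.pi * D * (ℓ * ν ^ 148) := by
        have : ν ^ 148 ≤ ℓ * ν ^ 148 := by
          have : 0 < ν ^ 148 := by positivity
          nlinarith
        gcongr
      calc 2 * (4 * Real.pi * D * ν ^ 148 + 26 * ℓ * ν ^ 130) ≤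
          ((8 * Real.pi * D + 25 + 104) * ℓ) * ν ^ 148 := by
            have : 0 ≤ ℓ * ν ^ 148 := by positivity
            linarith
        _ ≤ ν * ν ^ 148 := by gcongr
        _ = ν ^ 149 := by ring
        _ ≤ ν ^ 150 := hpow (by norm_num)
  refine (measure_mono hsub).trans ((measure_union_le _ _).trans ((add_le_add p1
    ((measure_union_le _ _).trans (add_le_add p2 ((measure_union_le _ _).trans
    (add_le_add p3 p4))))).trans ?_))
  rw [← ENNReal.ofReal_add (by positivity) (by positivity),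
    ← ENNReal.ofReal_add (by positivity) (by positivity),
    ← ENNReal.ofReal_add (by positivity) (by positivity)]
  refine ENNReal.ofReal_le_ofReal ?_
  have hN25 : ((N : ℝ) ^ 25)⁻¹ ≤ (ν ^ 64)⁻¹ := by
    refine inv_anti₀ (by positivity) ?_
    rw [hNν, ← pow_mul]
    exact hpow (by norm_num)
  linarith

end Pool.Agent.N229.HF
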